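import Mathlib

/-!
# Universal partial cycles with `k` diamonds per window of length `4 k` over four letters

Let `g` be a sequence of bits indexed by the integers, with `g j = 0` if `4 ∣ j`, and put
`u j = ⋄` if `4 ∣ j` and `u j = (g j, g (j - 4 (k - 1)) + c j)` otherwise, where `c` has period `8` and
values `0, 0, 1, ⋄, 1, 1, 0, ⋄` (up to a shift).  A window of length `4 k` of `u` corresponds to a
window of length `8 k - 4` of `g` and the residue of its position modulo `8`.  Every word of length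
`4 k` over the four letters is covered by exactly one possible window, so it suffices to find a cyclic
sequence `g` containing all these windows exactly once.  It is found by joining cycles.
-/

set_option autoImplicit false

namespace Pool.Agent.V11278.Upcycle

/-! ### Joining cycles -/

section joining

variable {E : Type} [Fintype E] [DecidableEq E]

/-- One joining step. -/
theorem join_step (σ : Equiv.Perm E) (x y : E) (hxy : ¬ σ.SameCycle x y) (w : E)
    (hw : σ.SameCycle x w) : (σ * Equiv.swap x y).SameCycle (σ x) w := by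
  set σ' := σ * Equiv.swap x y with hσ'
  have hne : ∀ n : ℕ, (σ ^ n) x ≠ y := fun n h => hxy ⟨n, by simpa using h⟩
  have key : ∀ n : ℕ, σ'.SameCycle (σ x) ((σ ^ (n + 1)) x) := by
    intro n
    induction n with
    | zero => simp only [zero_add, pow_one]; exact Equiv.Perm.SameCycle.refl _ _
    | succ n ih =>
      set v := (σ ^ (n + 1)) x with hv
      have h1 : (σ ^ (n + 1 + 1)) x = σ v := by
        rw [hv, pow_succ' σ (n + 1), Equiv.Perm.mul_apply]
      rw [h1]
      by_cases hvx : v = x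
      · rw [hvx]
      · have h2 : σ' v = σ v := by
          rw [hσ', Equiv.Perm.mul_apply, Equiv.swap_apply_of_ne_of_ne hvx (hne _)]
        rw [← h2]
        exact Equiv.Perm.sameCycle_apply_right.2 ih
  obtain ⟨n, hn⟩ : ∃ n : ℕ, (σ ^ (n + 1)) x = w := by
    obtain ⟨i, hi⟩ := hw
    have hN : 0 < orderOf σ := orderOf_pos σ
    refine ⟨((i - 1) % (orderOf σ : ℤ)).toNat, ?_⟩
    have h1 : ((((i - 1) % (orderOf σ : ℤ)).toNat : ℕ) : ℤ) = (i - 1) % (orderOf σ : ℤ) :=
      Int.toNat_of_nonneg (Int.emod_nonneg _ (by exact_mod_cast hN.ne'))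
    rw [← hi, ← zpow_natCast]
    congr 1
    push_cast
    rw [h1, zpow_add, zpow_mod_orderOf, ← zpow_add]
    congr 1
    ring
  rw [← hn]
  exact key n

/-- A digraph in which two vertices with a common successor have the same successors, in which some
permutation moves every vertex to a successor, and in which every nonempty set closed under successors
is everything, has a Hamiltonian cycle. -/
theorem exists_hamiltonian (S : E → E → Prop) (e₀ : E)
    (H : ∀ x y z z', S x z → S y z → S x z' → S y z') (σ₀ : Equiv.Perm E) (hσ₀ : ∀ e, S e (σ₀ e))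
    (hconn : ∀ O : Set E, O.Nonempty → (∀ x ∈ O, ∀ y, S x y → y ∈ O) → O = Set.univ) :
    ∃ σ : Equiv.Perm E, (∀ e, S e (σ e)) ∧ ∀ e, σ.SameCycle e₀ e := by
  classical
  let P : Finset (Equiv.Perm E) := Finset.univ.filter fun σ => ∀ e, S e (σ e)
  obtain ⟨σ, hσ, hmax⟩ := Finset.exists_max_image P
    (fun σ => (Finset.univ.filter fun e => σ.SameCycle e₀ e).card) ⟨σ₀, by simpa [P] using hσ₀⟩
  have hσS : ∀ e, S e (σ e) := by simpa [P] using hσ
  refine ⟨σ, hσS, ?_⟩
  have hO : {e | σ.SameCycle e₀ e} = Set.univ := by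
    apply hconn
    · exact ⟨e₀, Equiv.Perm.SameCycle.refl _ _⟩
    · intro x hx z hxz
      by_contra hz
      let y := σ⁻¹ z
      have hyz : σ y = z := by simp [y]
      have hy : ¬ σ.SameCycle e₀ y := fun h => hz (by
        change σ.SameCycle e₀ z
        rw [← hyz]
        exact Equiv.Perm.sameCycle_apply_right.2 h)
      have hx' : σ.SameCycle e₀ x := hx
      have hxy : ¬ σ.SameCycle x y := fun h => hy (hx'.trans h)
      let σ' := σ * Equiv.swap x y
      have hσ' : ∀ e, S e (σ' e) := by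
        intro e
        by_cases he : e = x
        · subst he
          simp only [σ', Equiv.Perm.mul_apply, Equiv.swap_apply_left, hyz]
          exact hxz
        · by_cases he' : e = y
          · subst he'
            simp only [σ', Equiv.Perm.mul_apply, Equiv.swap_apply_right]
            exact H x _ z _ hxz (by rw [← hyz]; exact hσS _) (hσS x)
          · simp only [σ', Equiv.Perm.mul_apply, Equiv.swap_apply_of_ne_of_ne he he']
            exact hσS e
      have h1 : ∀ w, σ.SameCycle e₀ w → σ'.SameCycle e₀ w := by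
        intro w hw
        have h2 := join_step σ x y hxy w (hx'.symm.trans hw)
        have h3 := join_step σ x y hxy e₀ hx'.symm
        exact h3.symm.trans h2
      have h4 : σ'.SameCycle e₀ y := by
        have h3 := join_step σ x y hxy e₀ hx'.symm
        have h5 : σ' y = σ x := by simp [σ', Equiv.Perm.mul_apply]
        refine h3.symm.trans ?_
        rw [← h5]
        exact Equiv.Perm.sameCycle_apply_left.2 (Equiv.Perm.SameCycle.refl _ _)
      have h6 := hmax σ' (by simpa [P] using hσ')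
      have h7 : (Finset.univ.filter fun e => σ.SameCycle e₀ e) ⊂
          (Finset.univ.filter fun e => σ'.SameCycle e₀ e) := by
        rw [Finset.ssubset_iff_of_subset]
        · exact ⟨y, by simpa using h4, by simpa using hy⟩
        · intro w hw
          rw [Finset.mem_filter] at hw ⊢
          exact ⟨hw.1, h1 w hw.2⟩
      exact absurd (Finset.card_lt_card h7) (not_lt.2 h6)
  intro e
  have : e ∈ {e | σ.SameCycle e₀ e} := by rw [hO]; trivial
  exact this

end joining

/-! ### The state graph -/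

/-- The states: a residue modulo `8` and `L` bits which vanish at the positions divisible by `4`. -/
abbrev State (L : ℕ) : Type :=
  {x : ZMod 8 × (Fin L → Bool) // ∀ t : Fin L, (x.1 + (t.val : ZMod 8)).val % 4 = 0 → x.2 t = false}

/-- `y` is a successor of `x`. -/
def Succ {L : ℕ} (x y : State L) : Prop :=
  y.1.1 = x.1.1 + 1 ∧ ∀ (t : ℕ) (h : t + 1 < L), y.1.2 ⟨t, by omega⟩ = x.1.2 ⟨t + 1, h⟩

lemma fin_add_one_val {L : ℕ} [NeZero L] (t : Fin L) : (t + 1 : Fin L).val = (t.val + 1) % L := by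
  rw [Fin.val_add, Fin.val_one' L, Nat.add_mod_mod]

/-- The rotation. -/
def rot {L : ℕ} [NeZero L] (hL : 4 ∣ L) (x : State L) : State L :=
  ⟨(x.1.1 + 1, fun t => x.1.2 (t + 1)), by
    intro t ht
    apply x.2
    have ht' : (x.1.1 + 1 + (t.val : ZMod 8)).val % 4 = 0 := ht
    have h1 : ((t + 1 : Fin L).val : ZMod 8) = (t.val : ZMod 8) + 1 ∨
        (((t + 1 : Fin L).val : ZMod 8) = 0 ∧ t.val + 1 = L) := by
      by_cases h : t.val + 1 < L
      · left
        have : (t + 1 : Fin L).val = t.val + 1 := by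
          rw [fin_add_one_val, Nat.mod_eq_of_lt h]
        rw [this]
        push_cast
        rfl
      · right
        have h2 : t.val + 1 = L := by have := t.2; omega
        refine ⟨?_, h2⟩
        have : (t + 1 : Fin L).val = 0 := by
          rw [fin_add_one_val, h2, Nat.mod_self]
        rw [this]
        rfl
    rcases h1 with h1 | ⟨h1, h2⟩
    · have h5 : x.1.1 + ((t + 1 : Fin L).val : ZMod 8) = x.1.1 + 1 + (t.val : ZMod 8) := by
        rw [h1]; ring
      rw [h5]
      exact ht'
    · rw [h1, add_zero]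
      obtain ⟨q, hq⟩ := hL
      have h3 : x.1.1 + 1 + (t.val : ZMod 8) = x.1.1 + (4 : ZMod 8) * (q : ZMod 8) := by
        have : ((t.val + 1 : ℕ) : ZMod 8) = ((4 * q : ℕ) : ZMod 8) := by rw [h2, hq]
        push_cast at this
        rw [add_assoc, add_comm (1 : ZMod 8), this]
      rw [h3] at ht'
      have h4 : ∀ a b : ZMod 8, a.val % 4 = (a + 4 * b).val % 4 := by decide
      rw [h4 x.1.1 (q : ZMod 8)]
      exact ht'⟩

lemma rot_injective {L : ℕ} [NeZero L] (hL : 4 ∣ L) : Function.Injective (rot (L := L) hL) := by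
  intro x y h
  have h1 := congrArg (fun z : State L => z.1.1) h
  have h2 := congrArg (fun z : State L => z.1.2) h
  simp only [rot] at h1 h2
  apply Subtype.ext
  apply Prod.ext
  · exact add_right_cancel h1
  · ext t
    have h3 := congrFun h2 (t - 1)
    simpa using h3

lemma succ_rot {L : ℕ} [NeZero L] (hL : 4 ∣ L) (x : State L) : Succ x (rot hL x) := by
  refine ⟨rfl, fun t h => ?_⟩
  change x.1.2 (⟨t, _⟩ + 1) = _
  refine congrArg x.1.2 (Fin.ext ?_)
  rw [fin_add_one_val]
  exact Nat.mod_eq_of_lt h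

lemma succ_H {L : ℕ} (x y z z' : State L) (h1 : Succ x z) (h2 : Succ y z) (h3 : Succ x z') :
    Succ y z' := by
  refine ⟨?_, fun t h => ?_⟩
  · rw [h3.1, ← h1.1, h2.1]
  · rw [h3.2 t h, ← h1.2 t h, h2.2 t h]

lemma succ_conn {L : ℕ} (O : Set (State L)) (hO : O.Nonempty)
    (hcl : ∀ x ∈ O, ∀ y, Succ x y → y ∈ O) : O = Set.univ := by
  obtain ⟨x, hx⟩ := hO
  rw [Set.eq_univ_iff_forall]
  intro y
  -- the number of steps
  let ℓ : ℕ := 8 * L + (y.1.1 - x.1.1).val
  have hℓ : (ℓ : ZMod 8) = y.1.1 - x.1.1 := by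
    have h8 : ((8 : ℕ) : ZMod 8) = 0 := ZMod.natCast_self 8
    simp only [ℓ]
    rw [Nat.cast_add, Nat.cast_mul, h8, zero_mul, zero_add, ZMod.natCast_val, ZMod.cast_id', id]
  have hLℓ : L ≤ ℓ := by simp only [ℓ]; omega
  -- the bits
  let h : ℕ → Bool := fun t => if ht : t < L then x.1.2 ⟨t, ht⟩ else
    if ht' : t < ℓ then false else if ht'' : t - ℓ < L then y.1.2 ⟨t - ℓ, ht''⟩ else false
  have hh : ∀ t : ℕ, (x.1.1 + (t : ZMod 8)).val % 4 = 0 → h t = false := by
    intro t ht
    simp only [h]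
    split_ifs with h1 h2 h3
    · exact x.2 ⟨t, h1⟩ ht
    · rfl
    · apply y.2
      have h4 : ((t - ℓ : ℕ) : ZMod 8) = (t : ZMod 8) - (ℓ : ZMod 8) := by
        rw [Nat.cast_sub (by omega)]
      have h5 : y.1.1 + ((t - ℓ : ℕ) : ZMod 8) = x.1.1 + (t : ZMod 8) := by
        rw [h4, hℓ]
        ring
      change (y.1.1 + ((t - ℓ : ℕ) : ZMod 8)).val % 4 = 0
      rw [h5]
      exact ht
    · rfl
  let e : ℕ → State L := fun i => ⟨(x.1.1 + (i : ZMod 8), fun t => h (i + t.val)), by
    intro t ht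
    apply hh
    have h5 : x.1.1 + ((i + t.val : ℕ) : ZMod 8) = x.1.1 + (i : ZMod 8) + (t.val : ZMod 8) := by
      push_cast
      ring
    rw [h5]
    exact ht⟩
  have he0 : e 0 = x := by
    apply Subtype.ext
    apply Prod.ext
    · change x.1.1 + ((0 : ℕ) : ZMod 8) = _
      simp
    · funext t
      change h (0 + t.val) = _
      simp [h]
  have heℓ : e ℓ = y := by
    apply Subtype.ext
    apply Prod.ext
    · change x.1.1 + (ℓ : ZMod 8) = _
      rw [hℓ]
      ring
    · funext t
      change h (ℓ + t.val) = _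
      have h1 : ¬ (ℓ + t.val < L) := by omega
      have h2 : ¬ (ℓ + t.val < ℓ) := by omega
      have h3 : ℓ + t.val - ℓ < L := by have := t.2; omega
      simp only [h, dif_neg h1, dif_neg h2, dif_pos h3]
      exact congrArg y.1.2 (Fin.ext (by simp))
  have hstep : ∀ i, e i ∈ O := by
    intro i
    induction i with
    | zero => rw [he0]; exact hx
    | succ i ih =>
      refine hcl _ ih _ ⟨?_, fun t ht => ?_⟩
      · change x.1.1 + ((i + 1 : ℕ) : ZMod 8) = x.1.1 + (i : ZMod 8) + 1
        push_cast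
        ring
      · change h (i + 1 + t) = h (i + (t + 1))
        congr 1
        ring
  rw [← heℓ]
  exact hstep ℓ

/-! ### The symbols -/

/-- The word `0, 0, 1, ⋄, 1, 1, 0, ⋄`. -/
def c (x : ZMod 8) : Bool := decide (x = 3 ∨ x = 5 ∨ x = 6)

/-- The window symbols of a state. -/
def sym {m : ℕ} (x : State (8 * m + 4)) (t : Fin (4 * m + 4)) : Option (Bool × Bool) :=
  if (x.1.1 + (t.val : ZMod 8)).val % 4 = 0 then none
  else some (x.1.2 ⟨4 * m + t.val, by omega⟩,
    xor (x.1.2 ⟨t.val, by omega⟩) (c (x.1.1 + ((t.val + 4 * m : ℕ) : ZMod 8))))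

lemma sym_succ {m : ℕ} (x y : State (8 * m + 4)) (h : Succ x y) (t : ℕ) (ht : t + 1 < 4 * m + 4) :
    sym y ⟨t, by omega⟩ = sym x ⟨t + 1, ht⟩ := by
  have h1 : y.1.1 + (t : ZMod 8) = x.1.1 + ((t + 1 : ℕ) : ZMod 8) := by
    rw [h.1]; push_cast; ring
  have h2 : y.1.1 + ((t + 4 * m : ℕ) : ZMod 8) = x.1.1 + ((t + 1 + 4 * m : ℕ) : ZMod 8) := by
    rw [h.1]; push_cast; ring
  have h3 : y.1.2 ⟨4 * m + t, by omega⟩ = x.1.2 ⟨4 * m + (t + 1), by omega⟩ := h.2 _ (by omega)
  have h4 : y.1.2 ⟨t, by omega⟩ = x.1.2 ⟨t + 1, by omega⟩ := h.2 _ (by omega)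
  unfold sym
  simp only [h1, h2, h3, h4]

lemma sym_iter {m : ℕ} (σ : Equiv.Perm (State (8 * m + 4))) (hσ : ∀ e, Succ e (σ e)) :
    ∀ (j i : ℕ) (h : i + j < 4 * m + 4) (e : State (8 * m + 4)),
      sym ((⇑σ)^[j] e) ⟨i, by omega⟩ = sym e ⟨i + j, h⟩ := by
  intro j
  induction j with
  | zero => intro i h e; rfl
  | succ j ih =>
    intro i h e
    rw [Function.iterate_succ_apply']
    rw [sym_succ _ _ (hσ _) i (by omega)]
    rw [ih (i + 1) (by omega) e]
    congr 1
    apply Fin.ext
    change i + 1 + j = i + (j + 1)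
    ring

/-- The key finite check. -/
lemma key_unique : ∀ b : Fin 4 → Bool, ∃ p : ZMod 8,
    (∀ r : Fin 4, (p + (r.val : ZMod 8)).val % 4 ≠ 0 → b r = c (p + (r.val : ZMod 8))) ∧
    ∀ q : ZMod 8, (∀ r : Fin 4, (q + (r.val : ZMod 8)).val % 4 ≠ 0 →
      b r = c (q + (r.val : ZMod 8))) → q = p := by
  decide +kernel

lemma eight_mul (m : ℕ) : ((8 * m : ℕ) : ZMod 8) = 0 := by
  rw [Nat.cast_mul]
  have : ((8 : ℕ) : ZMod 8) = 0 := ZMod.natCast_self 8
  rw [this, zero_mul]

lemma four_shift (m : ℕ) (p : ZMod 8) (t : ℕ) :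
    (p + ((4 * m + t : ℕ) : ZMod 8)).val % 4 = (p + (t : ZMod 8)).val % 4 := by
  have h4 : ∀ a b : ZMod 8, (4 * b + a).val % 4 = a.val % 4 := by decide
  have : p + ((4 * m + t : ℕ) : ZMod 8) = 4 * (m : ZMod 8) + (p + (t : ZMod 8)) := by
    push_cast; ring
  rw [this, h4]

/-- Every word is covered by exactly one state. -/
theorem cover (m : ℕ) (w : Fin (4 * m + 4) → Bool × Bool) :
    ∃! x : State (8 * m + 4), ∀ t, sym x t = none ∨ sym x t = some (w t) := by
  let b : Fin 4 → Bool := fun r => xor (w ⟨r.val, by omega⟩).1 (w ⟨4 * m + r.val, by omega⟩).2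
  obtain ⟨p, hp, hpu⟩ := key_unique b
  let g : Fin (8 * m + 4) → Bool := fun t =>
    if (p + (t.val : ZMod 8)).val % 4 = 0 then false
    else if h : t.val < 4 * m + 4 then xor (w ⟨t.val, h⟩).2 (c (p + ((t.val + 4 * m : ℕ) : ZMod 8)))
    else (w ⟨t.val - 4 * m, by omega⟩).1
  have hmod : ∀ r : ℕ, p + ((4 * m + r + 4 * m : ℕ) : ZMod 8) = p + (r : ZMod 8) := by
    intro r
    have : ((4 * m + r + 4 * m : ℕ) : ZMod 8) = ((8 * m : ℕ) : ZMod 8) + (r : ZMod 8) := by
      push_cast; ring
    rw [this, eight_mul, zero_add]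
  refine ⟨⟨(p, g), fun t ht => if_pos ht⟩, ?_, ?_⟩
  · intro t
    unfold sym
    by_cases ht : (p + (t.val : ZMod 8)).val % 4 = 0
    · left
      exact if_pos ht
    · right
      refine (if_neg ht).trans ?_
      congr 1
      apply Prod.ext
      · change g ⟨4 * m + t.val, _⟩ = (w t).1
        have ht' : ¬ (p + ((4 * m + t.val : ℕ) : ZMod 8)).val % 4 = 0 := by
          rw [four_shift]; exact ht
        simp only [g]
        rw [if_neg ht']
        by_cases h : t.val < 4
        · have h' : 4 * m + t.val < 4 * m + 4 := by omega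
          rw [dif_pos h']
          have h5 := hp ⟨t.val, h⟩ ht
          have h6 : xor (w t).1 (w ⟨4 * m + t.val, h'⟩).2 = c (p + (t.val : ZMod 8)) := h5
          rw [hmod, ← h6]
          cases (w t).1 <;> cases (w ⟨4 * m + t.val, h'⟩).2 <;> rfl
        · have h' : ¬ 4 * m + t.val < 4 * m + 4 := by omega
          rw [dif_neg h']
          congr 2
          apply Fin.ext
          simp
      · change xor (g ⟨t.val, _⟩) (c (p + ((t.val + 4 * m : ℕ) : ZMod 8))) = (w t).2
        simp only [g]
        rw [if_neg ht, dif_pos t.2]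
        cases (w t).2 <;> cases (c (p + ((t.val + 4 * m : ℕ) : ZMod 8))) <;> rfl
  · intro y hy
    have hy' : ∀ t : Fin (4 * m + 4), (y.1.1 + (t.val : ZMod 8)).val % 4 ≠ 0 →
        y.1.2 ⟨4 * m + t.val, by omega⟩ = (w t).1 ∧
        xor (y.1.2 ⟨t.val, by omega⟩) (c (y.1.1 + ((t.val + 4 * m : ℕ) : ZMod 8))) = (w t).2 := by
      intro t ht
      have h1 := hy t
      unfold sym at h1
      rw [if_neg ht] at h1
      rcases h1 with h1 | h1
      · exact absurd h1 (by simp)
      · have h2 := Option.some.inj h1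
        exact ⟨congrArg Prod.fst h2, congrArg Prod.snd h2⟩
    have hyp : y.1.1 = p := by
      apply hpu
      intro r hr
      have h1 := (hy' ⟨r.val, by omega⟩ hr).1
      have hr' : (y.1.1 + ((4 * m + r.val : ℕ) : ZMod 8)).val % 4 ≠ 0 := by
        rw [four_shift]; exact hr
      have h2 := (hy' ⟨4 * m + r.val, by omega⟩ hr').2
      simp only at h1 h2
      have h3 : ((4 * m + r.val + 4 * m : ℕ) : ZMod 8) = (r.val : ZMod 8) := by
        have : ((4 * m + r.val + 4 * m : ℕ) : ZMod 8) = ((8 * m : ℕ) : ZMod 8) + (r.val : ZMod 8) := by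
          push_cast; ring
        rw [this, eight_mul, zero_add]
      rw [h3] at h2
      change xor (w ⟨r.val, _⟩).1 (w ⟨4 * m + r.val, _⟩).2 = _
      rw [← h1, ← h2]
      cases (y.1.2 ⟨4 * m + r.val, by omega⟩) <;> cases (c (y.1.1 + (r.val : ZMod 8))) <;> rfl
    apply Subtype.ext
    apply Prod.ext
    · exact hyp
    · funext t
      change y.1.2 t = g t
      by_cases ht : (p + (t.val : ZMod 8)).val % 4 = 0
      · have h1 : g t = false := if_pos ht
        rw [h1]
        exact y.2 t (by rw [hyp]; exact ht)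
      · simp only [g]
        rw [if_neg ht]
        by_cases h : t.val < 4 * m + 4
        · rw [dif_pos h]
          have h2 := (hy' ⟨t.val, h⟩ (by rw [hyp]; exact ht)).2
          rw [← h2, ← hyp]
          cases (y.1.2 t) <;> cases (c (y.1.1 + ((t.val + 4 * m : ℕ) : ZMod 8))) <;> rfl
        · rw [dif_neg h]
          have ht' : (y.1.1 + ((t.val - 4 * m : ℕ) : ZMod 8)).val % 4 ≠ 0 := by
            rw [hyp]
            have h7 := four_shift m p (t.val - 4 * m)
            have h8 : 4 * m + (t.val - 4 * m) = t.val := by omega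
            rw [h8] at h7
            rw [← h7]
            exact ht
          have h2 := (hy' ⟨t.val - 4 * m, by omega⟩ ht').1
          rw [← h2]
          exact congrArg y.1.2 (Fin.ext (by simp; omega))

/-! ### Indexing a cycle -/

theorem cycle_index {E : Type} [Fintype E] (σ : Equiv.Perm E) (e₀ : E)
    (h : ∀ e, σ.SameCycle e₀ e) :
    ∃ (N : ℕ) (φ : ZMod N → E), 0 < N ∧ Function.Bijective φ ∧ ∀ i, φ (i + 1) = σ (φ i) := by
  classical
  set N := Function.minimalPeriod (⇑σ) e₀ with hN
  have hord : 0 < orderOf σ := orderOf_pos σ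
  have hper : Function.IsPeriodicPt (⇑σ) (orderOf σ) e₀ := by
    change (⇑σ)^[orderOf σ] e₀ = e₀
    rw [Equiv.Perm.iterate_eq_pow, pow_orderOf_eq_one]
    rfl
  have hpos : 0 < N := hper.minimalPeriod_pos hord
  have : NeZero N := ⟨hpos.ne'⟩
  have hmodN : ∀ n : ℕ, (⇑σ)^[n % N] e₀ = (⇑σ)^[n] e₀ := fun n =>
    Function.iterate_mod_minimalPeriod_eq
  refine ⟨N, fun i => (⇑σ)^[i.val] e₀, hpos, ⟨?_, ?_⟩, ?_⟩
  · intro i j hij
    have h1 := Function.iterate_injOn_Iio_minimalPeriod (f := (⇑σ)) (x := e₀)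
      (show i.val ∈ Set.Iio N from ZMod.val_lt i) (show j.val ∈ Set.Iio N from ZMod.val_lt j) hij
    exact ZMod.val_injective N h1
  · intro e
    obtain ⟨z, hz⟩ := h e
    have hz' : (⇑σ)^[(z % (orderOf σ : ℤ)).toNat] e₀ = e := by
      rw [Equiv.Perm.iterate_eq_pow, ← zpow_natCast,
        Int.toNat_of_nonneg (Int.emod_nonneg _ (by exact_mod_cast hord.ne')), zpow_mod_orderOf]
      exact hz
    refine ⟨(((z % (orderOf σ : ℤ)).toNat : ℕ) : ZMod N), ?_⟩
    change (⇑σ)^[((((z % (orderOf σ : ℤ)).toNat : ℕ) : ZMod N)).val] e₀ = e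
    rw [ZMod.val_natCast, hmodN]
    exact hz'
  · intro i
    change (⇑σ)^[(i + 1).val] e₀ = σ ((⇑σ)^[i.val] e₀)
    have h1 : i + 1 = ((i.val + 1 : ℕ) : ZMod N) := by
      push_cast
      rw [ZMod.natCast_zmod_val]
    rw [h1, ZMod.val_natCast, hmodN, Function.iterate_succ_apply']

lemma count_aux (q : ℕ) (m : ℕ) :
    (∑ j ∈ Finset.range (4 * m), if (q + j) % 4 = 0 then 1 else 0) = m := by
  induction m with
  | zero => simp
  | succ m ih =>
    have : 4 * (m + 1) = 4 * m + 1 + 1 + 1 + 1 := by ring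
    rw [this, Finset.sum_range_succ, Finset.sum_range_succ, Finset.sum_range_succ,
      Finset.sum_range_succ, ih]
    split_ifs <;> omega

lemma count_diamonds (p : ZMod 8) (m : ℕ) :
    (Finset.univ.filter fun j : Fin (4 * m) => (p + (j.val : ZMod 8)).val % 4 = 0).card = m := by
  rw [Finset.card_filter]
  have h1 : ∀ j : ℕ, (p + (j : ZMod 8)).val % 4 = (p.val + j) % 4 := by
    intro j
    rw [ZMod.val_add, ZMod.val_natCast, Nat.mod_mod_of_dvd _ (by norm_num : (4 : ℕ) ∣ 8),
      Nat.add_mod, Nat.mod_mod_of_dvd _ (by norm_num : (4 : ℕ) ∣ 8), ← Nat.add_mod]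
  simp only [h1]
  rw [Fin.sum_univ_eq_sum_range (fun j => if (p.val + j) % 4 = 0 then 1 else 0)]
  exact count_aux _ _

/-- The main construction, over the alphabet `Bool × Bool`. -/
theorem main_bool (m : ℕ) : ∃ (N : ℕ) (u : ZMod N → Option (Bool × Bool)), 0 < N ∧
    (∀ w : Fin (4 * m + 4) → Bool × Bool, ∃! i : ZMod N, ∀ j : Fin (4 * m + 4),
      u (i + (j.val : ZMod N)) = none ∨ u (i + (j.val : ZMod N)) = some (w j)) ∧
    (∀ i : ZMod N, (Finset.univ.filter fun j : Fin (4 * m + 4) =>
      u (i + (j.val : ZMod N)) = none).card = m + 1) := by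
  classical
  have : NeZero (8 * m + 4) := ⟨by omega⟩
  have hL : 4 ∣ 8 * m + 4 := ⟨2 * m + 1, by ring⟩
  let e₀ : State (8 * m + 4) := ⟨(0, fun _ => false), fun _ _ => rfl⟩
  let σ₀ : Equiv.Perm (State (8 * m + 4)) :=
    Equiv.ofBijective (rot hL) (Finite.injective_iff_bijective.1 (rot_injective hL))
  obtain ⟨σ, hσ, hcyc⟩ := exists_hamiltonian (E := State (8 * m + 4)) Succ e₀ succ_H σ₀
    (fun e => succ_rot hL e) succ_conn
  obtain ⟨N, φ, hN, hφ, hφs⟩ := cycle_index σ e₀ hcyc
  have hiter : ∀ (j : ℕ) (i : ZMod N), φ (i + (j : ZMod N)) = (⇑σ)^[j] (φ i) := by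
    intro j
    induction j with
    | zero => intro i; simp
    | succ j ih =>
      intro i
      rw [Function.iterate_succ_apply', ← ih, ← hφs]
      congr 1
      push_cast
      ring
  have hsym : ∀ (i : ZMod N) (j : Fin (4 * m + 4)),
      sym (φ (i + (j.val : ZMod N))) ⟨0, by omega⟩ = sym (φ i) j := by
    intro i j
    rw [hiter, sym_iter σ hσ j.val 0 (by omega)]
    congr 1
    apply Fin.ext
    change 0 + j.val = j.val
    omega
  refine ⟨N, fun i => sym (φ i) ⟨0, by omega⟩, hN, ?_, ?_⟩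
  · intro w
    obtain ⟨x, hx, hxu⟩ := cover m w
    obtain ⟨i, hi⟩ := hφ.2 x
    refine ⟨i, ?_, ?_⟩
    · intro j
      simp only [hsym]
      rw [hi]
      exact hx j
    · intro i' hi'
      apply hφ.1
      rw [hi]
      apply hxu
      intro j
      have := hi' j
      simp only [hsym] at this
      exact this
  · intro i
    simp only [hsym]
    have h1 : ∀ j : Fin (4 * m + 4), sym (φ i) j = none ↔
        ((φ i).1.1 + (j.val : ZMod 8)).val % 4 = 0 := by
      intro j
      unfold sym
      constructor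
      · intro h
        by_contra h'
        rw [if_neg h'] at h
        exact absurd h (by simp)
      · intro h
        exact if_pos h
    simp only [h1]
    exact count_diamonds (φ i).1.1 (m + 1)

/-- The main construction, over the alphabet `Fin 4`. -/
theorem main_fin (k : ℕ) (hk : 1 ≤ k) : ∃ (N : ℕ) (u : ZMod N → Option (Fin 4)), 0 < N ∧
    (∀ w : Fin (4 * k) → Fin 4, ∃! i : ZMod N, ∀ j : Fin (4 * k),
      u (i + (j.val : ZMod N)) = none ∨ u (i + (j.val : ZMod N)) = some (w j)) ∧
    (∀ i : ZMod N, (Finset.univ.filter fun j : Fin (4 * k) =>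
      u (i + (j.val : ZMod N)) = none).card = k) := by
  obtain ⟨m, rfl⟩ : ∃ m, k = m + 1 := ⟨k - 1, by omega⟩
  have h4 : 4 * (m + 1) = 4 * m + 4 := by ring
  rw [h4]
  obtain ⟨N, u, hN, hu, hd⟩ := main_bool m
  let φ : Bool × Bool ≃ Fin 4 := Fintype.equivFinOfCardEq (by decide)
  refine ⟨N, fun i => (u i).map φ, hN, ?_, ?_⟩
  · intro w
    obtain ⟨i, hi, hiu⟩ := hu (fun j => φ.symm (w j))
    refine ⟨i, ?_, ?_⟩
    · intro j
      rcases hi j with h | h
      · left
        simp only [h, Option.map_none]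
      · right
        simp only [h, Option.map_some, Equiv.apply_symm_apply]
    · intro i' hi'
      apply hiu
      intro j
      rcases hi' j with h | h
      · left
        exact Option.map_eq_none_iff.1 h
      · right
        obtain ⟨x, hx, hx'⟩ := Option.map_eq_some_iff.1 h
        rw [hx, ← hx', Equiv.symm_apply_apply]
  · intro i
    simp only [Option.map_eq_none_iff]
    exact hd i

end Pool.Agent.V11278.Upcycle
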