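import Mathlib

/-!
# Degree monotone paths: basic definitions and the union argument (helper278)
-/

namespace Pool.Agent.V11278.DegMono

open SimpleGraph

/-- The degree of `v`. -/
noncomputable def dg {V : Type*} (G : SimpleGraph V) (v : V) : ℕ := (G.neighborSet v).ncard

/-- A degree monotone path, written as the list of its (distinct) vertices. -/
def IsDMP {V : Type*} (G : SimpleGraph V) (l : List V) : Prop :=
  l.Nodup ∧ l.IsChain G.Adj ∧
    (l.IsChain (fun a b => dg G a ≤ dg G b) ∨ l.IsChain (fun a b => dg G b ≤ dg G a))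

/-- `mp G`: the largest number of vertices of a degree monotone path. -/
noncomputable def mp {V : Type*} (G : SimpleGraph V) : ℕ :=
  sSup {m | ∃ l : List V, IsDMP G l ∧ l.length = m}

/-- `k`-saturated graphs. -/
def KSat {V : Type*} (k : ℕ) (G : SimpleGraph V) : Prop :=
  mp G < k ∧ ∀ u v : V, u ≠ v → ¬ G.Adj u v → k ≤ mp (G ⊔ edge u v)

section basics

variable {V : Type*}

lemma nodup_len [Finite V] (l : List V) (h : l.Nodup) : l.length ≤ Nat.card V := by
  classical
  have := Fintype.ofFinite V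
  rw [Nat.card_eq_fintype_card]
  exact h.length_le_card

lemma mp_bdd [Finite V] (G : SimpleGraph V) :
    BddAbove {m | ∃ l : List V, IsDMP G l ∧ l.length = m} := by
  refine ⟨Nat.card V, ?_⟩
  rintro m ⟨l, hl, rfl⟩
  exact nodup_len l hl.1

lemma le_mp [Finite V] (G : SimpleGraph V) {l : List V} (h : IsDMP G l) : l.length ≤ mp G :=
  le_csSup (mp_bdd G) ⟨l, h, rfl⟩

lemma mp_lt [Finite V] (G : SimpleGraph V) {k : ℕ}
    (h : ∀ l : List V, IsDMP G l → l.length < k) : mp G < k := by
  have hne : {m | ∃ l : List V, IsDMP G l ∧ l.length = m}.Nonempty :=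
    ⟨0, [], ⟨List.nodup_nil, List.isChain_nil, Or.inl List.isChain_nil⟩, rfl⟩
  obtain ⟨l, hl, hlen⟩ := Nat.sSup_mem hne (mp_bdd G)
  have := h l hl
  unfold mp
  omega

/-- the nondecreasing step relation for a degree function `d` -/
def St (A : V → V → Prop) (d : V → ℕ) (a b : V) : Prop := A a b ∧ d a ≤ d b

lemma isDMP_of_St (G : SimpleGraph V) {l : List V} (h1 : l.Nodup)
    (h2 : l.IsChain (St G.Adj (dg G))) : IsDMP G l :=
  ⟨h1, h2.imp (fun _ _ h => h.1), Or.inl (h2.imp (fun _ _ h => h.2))⟩

lemma St_of_isDMP (G : SimpleGraph V) {l : List V} (h : IsDMP G l) :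
    ∃ l' : List V, l'.length = l.length ∧ l'.Nodup ∧ l'.IsChain (St G.Adj (dg G)) := by
  obtain ⟨h1, h2, h3⟩ := h
  rcases h3 with h3 | h3
  · refine ⟨l, rfl, h1, ?_⟩
    rw [List.isChain_iff_getElem] at h2 h3 ⊢
    intro i hi
    exact ⟨h2 i hi, h3 i hi⟩
  · refine ⟨l.reverse, by simp, by simpa using h1, ?_⟩
    rw [List.isChain_reverse]
    rw [List.isChain_iff_getElem] at h2 h3 ⊢
    intro i hi
    exact ⟨(h2 i hi).symm, h3 i hi⟩

open Classical in
/-- degrees, with the degree of `p` raised by one -/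
noncomputable def bump (G : SimpleGraph V) (p v : V) : ℕ := dg G v + if v = p then 1 else 0

/-- the property of components from which `k`-saturated graphs are assembled -/
structure Good (k : ℕ) (G : SimpleGraph V) : Prop where
  bound : ∀ l : List V, l.Nodup → l.IsChain (St G.Adj (dg G)) → l.length < k
  inner : ∀ u v, u ≠ v → ¬ G.Adj u v → ∃ l : List V, l.Nodup ∧
    l.IsChain (St (G ⊔ edge u v).Adj (dg (G ⊔ edge u v))) ∧ k ≤ l.length
  crit : ∀ p, (∃ l : List V, l.Nodup ∧ l.IsChain (St G.Adj (bump G p)) ∧ k ≤ l.length) ∨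
    (∃ l : List V, (l ++ [p]).Nodup ∧ (l ++ [p]).IsChain (St G.Adj (bump G p)) ∧
      k ≤ l.length + 2)

lemma Good.kSat [Finite V] {k : ℕ} {G : SimpleGraph V} (h : Good k G) : KSat k G := by
  refine ⟨mp_lt G ?_, ?_⟩
  · intro l hl
    obtain ⟨l', h1, h2, h3⟩ := St_of_isDMP G hl
    rw [← h1]
    exact h.bound l' h2 h3
  · intro u v huv hadj
    obtain ⟨l, h1, h2, h3⟩ := h.inner u v huv hadj
    exact h3.trans (le_mp _ (isDMP_of_St _ h1 h2))

end basics

section sum

variable {V W : Type} (G : SimpleGraph V) (H : SimpleGraph W)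

lemma chain_sum {l : List (V ⊕ W)} (h : l.IsChain (G ⊕g H).Adj) :
    (∃ l' : List V, l = l'.map Sum.inl) ∨ (∃ l' : List W, l = l'.map Sum.inr) := by
  induction l with
  | nil => left; exact ⟨[], rfl⟩
  | cons a t ih =>
    cases t with
    | nil =>
      rcases a with a | a
      · left; exact ⟨[a], rfl⟩
      · right; exact ⟨[a], rfl⟩
    | cons b t =>
      rw [List.isChain_cons_cons] at h
      rcases ih h.2 with ⟨l', hl'⟩ | ⟨l', hl'⟩
      · left
        rcases l' with _ | ⟨b', l'⟩
        · simp at hl'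
        · simp only [List.map_cons, List.cons.injEq] at hl'
          rcases a with a | a
          · exact ⟨a :: b' :: l', by simp [hl'.1, hl'.2]⟩
          · exfalso
            have := h.1
            rw [hl'.1] at this
            simp at this
      · right
        rcases l' with _ | ⟨b', l'⟩
        · simp at hl'
        · simp only [List.map_cons, List.cons.injEq] at hl'
          rcases a with a | a
          · exfalso
            have := h.1
            rw [hl'.1] at this
            simp at this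
          · exact ⟨a :: b' :: l', by simp [hl'.1, hl'.2]⟩

lemma dg_inl (v : V) : dg (G ⊕g H) (Sum.inl v) = dg G v := by
  unfold dg
  have : (G ⊕g H).neighborSet (Sum.inl v) = Sum.inl '' (G.neighborSet v) := by
    ext x
    rcases x with x | x <;> simp
  rw [this, Set.ncard_image_of_injective _ Sum.inl_injective]

lemma dg_inr (w : W) : dg (G ⊕g H) (Sum.inr w) = dg H w := by
  unfold dg
  have : (G ⊕g H).neighborSet (Sum.inr w) = Sum.inr '' (H.neighborSet w) := by
    ext x
    rcases x with x | x <;> simp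
  rw [this, Set.ncard_image_of_injective _ Sum.inr_injective]

lemma dg_edge_inl (a b v : V) :
    dg ((G ⊕g H) ⊔ edge (Sum.inl a) (Sum.inl b)) (Sum.inl v) = dg (G ⊔ edge a b) v := by
  unfold dg
  have : ((G ⊕g H) ⊔ edge (Sum.inl a) (Sum.inl b)).neighborSet (Sum.inl v) =
      Sum.inl '' ((G ⊔ edge a b).neighborSet v) := by
    ext x
    rcases x with x | x <;> simp [edge_adj]
  rw [this, Set.ncard_image_of_injective _ Sum.inl_injective]

lemma dg_edge_inr (a b v : W) :
    dg ((G ⊕g H) ⊔ edge (Sum.inr a) (Sum.inr b)) (Sum.inr v) = dg (H ⊔ edge a b) v := by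
  unfold dg
  have : ((G ⊕g H) ⊔ edge (Sum.inr a) (Sum.inr b)).neighborSet (Sum.inr v) =
      Sum.inr '' ((H ⊔ edge a b).neighborSet v) := by
    ext x
    rcases x with x | x <;> simp [edge_adj]
  rw [this, Set.ncard_image_of_injective _ Sum.inr_injective]

lemma dg_cross_inl [Finite V] (a v : V) (b : W) :
    dg ((G ⊕g H) ⊔ edge (Sum.inl a) (Sum.inr b)) (Sum.inl v) = bump G a v := by
  classical
  unfold bump
  unfold dg
  by_cases hv : v = a
  · subst hv
    have : ((G ⊕g H) ⊔ edge (Sum.inl v) (Sum.inr b)).neighborSet (Sum.inl v) =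
        insert (Sum.inr b) (Sum.inl '' (G.neighborSet v)) := by
      ext x
      rcases x with x | x <;> simp [edge_adj]
    rw [this, Set.ncard_insert_of_notMem (by simp) (Set.toFinite _),
      Set.ncard_image_of_injective _ Sum.inl_injective]
    simp
  · have : ((G ⊕g H) ⊔ edge (Sum.inl a) (Sum.inr b)).neighborSet (Sum.inl v) =
        (Sum.inl '' (G.neighborSet v)) := by
      ext x
      rcases x with x | x <;> simp [edge_adj, hv]
    rw [this, Set.ncard_image_of_injective _ Sum.inl_injective]
    simp [hv]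

lemma dg_cross_inr [Finite W] (a : V) (b w : W) :
    dg ((G ⊕g H) ⊔ edge (Sum.inl a) (Sum.inr b)) (Sum.inr w) = bump H b w := by
  classical
  unfold bump
  unfold dg
  by_cases hv : w = b
  · subst hv
    have : ((G ⊕g H) ⊔ edge (Sum.inl a) (Sum.inr w)).neighborSet (Sum.inr w) =
        insert (Sum.inl a) (Sum.inr '' (H.neighborSet w)) := by
      ext x
      rcases x with x | x <;> simp [edge_adj]
    rw [this, Set.ncard_insert_of_notMem (by simp) (Set.toFinite _),
      Set.ncard_image_of_injective _ Sum.inr_injective]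
    simp
  · have : ((G ⊕g H) ⊔ edge (Sum.inl a) (Sum.inr b)).neighborSet (Sum.inr w) =
        (Sum.inr '' (H.neighborSet w)) := by
      ext x
      rcases x with x | x <;> simp [edge_adj, hv]
    rw [this, Set.ncard_image_of_injective _ Sum.inr_injective]
    simp [hv]

lemma bump_inl (p v : V) : bump (G ⊕g H) (Sum.inl p) (Sum.inl v) = bump G p v := by
  classical
  unfold bump
  rw [dg_inl]
  simp

lemma bump_inr (p v : W) : bump (G ⊕g H) (Sum.inr p) (Sum.inr v) = bump H p v := by
  classical
  unfold bump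
  rw [dg_inr]
  simp

/-- the cross edge case -/
lemma cross [Finite V] [Finite W] {k : ℕ} (hG : Good k G) (hH : Good k H) (a : V) (b : W) :
    ∃ l : List (V ⊕ W), l.Nodup ∧
      l.IsChain (St ((G ⊕g H) ⊔ edge (Sum.inl a) (Sum.inr b)).Adj
        (dg ((G ⊕g H) ⊔ edge (Sum.inl a) (Sum.inr b)))) ∧ k ≤ l.length := by
  have hA : ∀ l : List V, l.IsChain (St G.Adj (bump G a)) →
      (l.map (Sum.inl : V → V ⊕ W)).IsChain (St ((G ⊕g H) ⊔ edge (Sum.inl a) (Sum.inr b)).Adj
        (dg ((G ⊕g H) ⊔ edge (Sum.inl a) (Sum.inr b)))) := by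
    intro l hl
    rw [List.isChain_map]
    refine hl.imp ?_
    rintro x y ⟨h1, h2⟩
    refine ⟨by simp [h1], ?_⟩
    rw [dg_cross_inl, dg_cross_inl]
    exact h2
  have hB : ∀ l : List W, l.IsChain (St H.Adj (bump H b)) →
      (l.map (Sum.inr : W → V ⊕ W)).IsChain (St ((G ⊕g H) ⊔ edge (Sum.inl a) (Sum.inr b)).Adj
        (dg ((G ⊕g H) ⊔ edge (Sum.inl a) (Sum.inr b)))) := by
    intro l hl
    rw [List.isChain_map]
    refine hl.imp ?_
    rintro x y ⟨h1, h2⟩
    refine ⟨by simp [h1], ?_⟩
    rw [dg_cross_inr, dg_cross_inr]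
    exact h2
  rcases hG.crit a with ⟨l, h1, h2, h3⟩ | ⟨l, h1, h2, h3⟩
  · exact ⟨l.map Sum.inl, h1.map Sum.inl_injective, hA l h2, by simpa using h3⟩
  rcases hH.crit b with ⟨m, g1, g2, g3⟩ | ⟨m, g1, g2, g3⟩
  · exact ⟨m.map Sum.inr, g1.map Sum.inr_injective, hB m g2, by simpa using g3⟩
  rcases le_total (bump G a a) (bump H b b) with hab | hab
  · refine ⟨(l ++ [a]).map Sum.inl ++ [Sum.inr b], ?_, ?_, ?_⟩
    · rw [List.nodup_append]
      refine ⟨h1.map Sum.inl_injective, by simp, ?_⟩
      intro x hx y hy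
      simp only [List.mem_map] at hx
      obtain ⟨x', _, rfl⟩ := hx
      simp only [List.mem_singleton] at hy
      subst hy
      simp
    · refine List.IsChain.append (hA _ h2) (by simp) ?_
      intro x hx y hy
      simp only [List.map_append, List.map_cons, List.map_nil, List.getLast?_append,
        List.getLast?_singleton, Option.some_or, Option.mem_def, Option.some.injEq] at hx
      simp only [List.head?_cons, Option.mem_def, Option.some.injEq] at hy
      subst hx hy
      refine ⟨by simp [edge_adj], ?_⟩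
      rw [dg_cross_inl, dg_cross_inr]
      exact hab
    · simp; omega
  · refine ⟨(m ++ [b]).map Sum.inr ++ [Sum.inl a], ?_, ?_, ?_⟩
    · rw [List.nodup_append]
      refine ⟨g1.map Sum.inr_injective, by simp, ?_⟩
      intro x hx y hy
      simp only [List.mem_map] at hx
      obtain ⟨x', _, rfl⟩ := hx
      simp only [List.mem_singleton] at hy
      subst hy
      simp
    · refine List.IsChain.append (hB _ g2) (by simp) ?_
      intro x hx y hy
      simp only [List.map_append, List.map_cons, List.map_nil, List.getLast?_append,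
        List.getLast?_singleton, Option.some_or, Option.mem_def, Option.some.injEq] at hx
      simp only [List.head?_cons, Option.mem_def, Option.some.injEq] at hy
      subst hx hy
      refine ⟨by simp [edge_adj], ?_⟩
      rw [dg_cross_inl, dg_cross_inr]
      exact hab
    · simp; omega

theorem Good.sum [Finite V] [Finite W] {k : ℕ} {G : SimpleGraph V} {H : SimpleGraph W}
    (hG : Good k G) (hH : Good k H) : Good k (G ⊕g H) := by
  refine ⟨?_, ?_, ?_⟩
  · intro l h1 h2
    have h2' : l.IsChain (G ⊕g H).Adj := h2.imp (fun _ _ h => h.1)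
    rcases chain_sum G H h2' with ⟨l', rfl⟩ | ⟨l', rfl⟩
    · rw [List.length_map]
      refine hG.bound l' (List.Nodup.of_map _ h1) ?_
      rw [List.isChain_map] at h2
      refine h2.imp ?_
      rintro x y ⟨h3, h4⟩
      rw [dg_inl, dg_inl] at h4
      exact ⟨by simpa using h3, h4⟩
    · rw [List.length_map]
      refine hH.bound l' (List.Nodup.of_map _ h1) ?_
      rw [List.isChain_map] at h2
      refine h2.imp ?_
      rintro x y ⟨h3, h4⟩
      rw [dg_inr, dg_inr] at h4
      exact ⟨by simpa using h3, h4⟩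
  · rintro (u | u) (v | v) huv hadj
    · obtain ⟨l, h1, h2, h3⟩ := hG.inner u v (by simpa using huv) (by simpa using hadj)
      refine ⟨l.map Sum.inl, h1.map Sum.inl_injective, ?_, by simpa using h3⟩
      rw [List.isChain_map]
      refine h2.imp ?_
      rintro x y ⟨h4, h5⟩
      refine ⟨?_, ?_⟩
      · simpa [edge_adj] using h4
      · rw [dg_edge_inl, dg_edge_inl]; exact h5
    · exact cross G H hG hH u v
    · rw [edge_comm]
      exact cross G H hG hH v u
    · obtain ⟨l, h1, h2, h3⟩ := hH.inner u v (by simpa using huv) (by simpa using hadj)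
      refine ⟨l.map Sum.inr, h1.map Sum.inr_injective, ?_, by simpa using h3⟩
      rw [List.isChain_map]
      refine h2.imp ?_
      rintro x y ⟨h4, h5⟩
      refine ⟨?_, ?_⟩
      · simpa [edge_adj] using h4
      · rw [dg_edge_inr, dg_edge_inr]; exact h5
  · rintro (p | p)
    · rcases hG.crit p with ⟨l, h1, h2, h3⟩ | ⟨l, h1, h2, h3⟩
      · left
        refine ⟨l.map Sum.inl, h1.map Sum.inl_injective, ?_, by simpa using h3⟩
        rw [List.isChain_map]
        refine h2.imp ?_
        rintro x y ⟨h4, h5⟩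
        exact ⟨by simpa using h4, by rw [bump_inl, bump_inl]; exact h5⟩
      · right
        refine ⟨l.map Sum.inl, ?_, ?_, by simpa using h3⟩
        · have := h1.map (Sum.inl_injective (β := W))
          simpa using this
        · have : (l.map Sum.inl ++ [Sum.inl p] : List (V ⊕ W)) = (l ++ [p]).map Sum.inl := by simp
          rw [this, List.isChain_map]
          refine h2.imp ?_
          rintro x y ⟨h4, h5⟩
          exact ⟨by simpa using h4, by rw [bump_inl, bump_inl]; exact h5⟩
    · rcases hH.crit p with ⟨l, h1, h2, h3⟩ | ⟨l, h1, h2, h3⟩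
      · left
        refine ⟨l.map Sum.inr, h1.map Sum.inr_injective, ?_, by simpa using h3⟩
        rw [List.isChain_map]
        refine h2.imp ?_
        rintro x y ⟨h4, h5⟩
        exact ⟨by simpa using h4, by rw [bump_inr, bump_inr]; exact h5⟩
      · right
        refine ⟨l.map Sum.inr, ?_, ?_, by simpa using h3⟩
        · have := h1.map (Sum.inr_injective (α := V))
          simpa using this
        · have : (l.map Sum.inr ++ [Sum.inr p] : List (V ⊕ W)) = (l ++ [p]).map Sum.inr := by simp
          rw [this, List.isChain_map]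
          refine h2.imp ?_
          rintro x y ⟨h4, h5⟩
          exact ⟨by simpa using h4, by rw [bump_inr, bump_inr]; exact h5⟩

end sum

/-- there is a good graph with `n` vertices and degree sum at most `m` -/
def GoodSize (k n m : ℕ) : Prop :=
  ∃ (V : Type) (_ : Fintype V) (G : SimpleGraph V), Good k G ∧ Fintype.card V = n ∧
    ∑ v, dg G v ≤ m

lemma GoodSize.add {k n₁ n₂ m₁ m₂ : ℕ} (h₁ : GoodSize k n₁ m₁) (h₂ : GoodSize k n₂ m₂) :
    GoodSize k (n₁ + n₂) (m₁ + m₂) := by
  obtain ⟨V, iV, G, hG, hc, hd⟩ := h₁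
  obtain ⟨W, iW, H, hH, hc', hd'⟩ := h₂
  refine ⟨V ⊕ W, inferInstance, G ⊕g H, hG.sum hH, by simp [hc, hc'], ?_⟩
  rw [Fintype.sum_sum_type]
  simp only [dg_inl, dg_inr]
  omega

lemma GoodSize.zero {k : ℕ} (hk : 0 < k) : GoodSize k 0 0 := by
  refine ⟨Empty, inferInstance, ⊥, ⟨?_, fun u => u.elim, fun u => u.elim⟩, by simp, by simp⟩
  intro l _ _
  cases l with
  | nil => simpa using hk
  | cons a t => exact a.elim

lemma GoodSize.mul {k n m : ℕ} (hk : 0 < k) (h : GoodSize k n m) (q : ℕ) :
    GoodSize k (q * n) (q * m) := by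
  induction q with
  | zero => simpa using GoodSize.zero hk
  | succ q ih =>
    have := ih.add h
    rwa [← Nat.succ_mul, ← Nat.succ_mul] at this

lemma GoodSize.mono {k n m m' : ℕ} (h : GoodSize k n m) (hm : m ≤ m') : GoodSize k n m' := by
  obtain ⟨V, iV, G, hG, hc, hd⟩ := h
  exact ⟨V, iV, G, hG, hc, hd.trans hm⟩

/-- the arithmetic of component sizes -/
lemma goodSize_large {k s A B m : ℕ} (hk : 3 ≤ k) (hs : 0 < s)
    (h1 : GoodSize k (k - 1) A) (h2 : GoodSize k k B) (h3 : GoodSize k s m)
    (hm : m + 1 ≤ 4 * s) : ∃ n₀, ∀ n, n₀ ≤ n → GoodSize k n (4 * n) := by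
  obtain ⟨j, rfl⟩ : ∃ j, k = j + 1 := ⟨k - 1, by omega⟩
  simp only [Nat.add_sub_cancel] at h1
  set R := j * j with hR
  refine ⟨R + s * ((R + s) * (A + B) + 1), ?_⟩
  intro n hn
  obtain ⟨q, hq⟩ : ∃ q, q = (n - R) / s := ⟨_, rfl⟩
  have hRn : R ≤ n := le_trans (Nat.le_add_right _ _) hn
  obtain ⟨r, hr⟩ : ∃ r, r = R + (n - R) % s := ⟨_, rfl⟩
  have hdm := Nat.div_add_mod (n - R) s
  rw [← hq] at hdm
  have hnr : n = q * s + r := by
    rw [hr, mul_comm q s]; omega
  have hrlt : r < R + s := by
    have := Nat.mod_lt (n - R) hs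
    omega
  have hqbig : (R + s) * (A + B) ≤ q := by
    rw [hq]
    rw [Nat.le_div_iff_mul_le hs]
    have : (R + s) * (A + B) * s ≤ s * ((R + s) * (A + B) + 1) := by
      calc (R + s) * (A + B) * s = s * ((R + s) * (A + B)) := by ring
        _ ≤ _ := Nat.mul_le_mul_left _ (Nat.le_succ _)
    omega
  have hj : 0 < j := by omega
  obtain ⟨b, hb⟩ : ∃ b, b = r % j := ⟨_, rfl⟩
  obtain ⟨a, ha⟩ : ∃ a, a = r / j - b := ⟨_, rfl⟩
  have hbj : b < j := by rw [hb]; exact Nat.mod_lt _ hj
  have hrj : j ≤ r / j := by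
    rw [Nat.le_div_iff_mul_le hj]
    omega
  have hrab : r = a * j + b * (j + 1) := by
    have h := Nat.div_add_mod r j
    rw [← hb] at h
    have : r / j = a + b := by omega
    rw [this] at h
    rw [← h]; ring
  have key := ((h3.mul (by omega) q).add ((h1.mul (by omega) a).add (h2.mul (by omega) b)))
  rw [← hrab, ← hnr] at key
  refine key.mono ?_
  have ha' : a ≤ r := by
    rw [hrab]
    nlinarith
  have hb' : b ≤ r := by
    rw [hrab]
    nlinarith
  have e1 : a * A ≤ (R + s) * A := Nat.mul_le_mul_right _ (by omega)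
  have e2 : b * B ≤ (R + s) * B := Nat.mul_le_mul_right _ (by omega)
  have e3 : q * m + q ≤ q * (4 * s) := by
    calc q * m + q = q * (m + 1) := by ring
      _ ≤ _ := Nat.mul_le_mul_left _ hm
  have e4 : (R + s) * (A + B) = (R + s) * A + (R + s) * B := by ring
  rw [hnr]
  have e5 : q * (4 * s) = 4 * (q * s) := by ring
  omega

end Pool.Agent.V11278.DegMono
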