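import Mathlib
import Pool.Agent.V11278.DegMono

/-!
# Two small components: `K_{k-1}` and `K_k` minus an edge (helper278)
-/

namespace Pool.Agent.V11278.DegMono

open SimpleGraph

lemma dg_top {V : Type} [Fintype V] (v : V) : dg (⊤ : SimpleGraph V) v = Fintype.card V - 1 := by
  classical
  unfold dg
  have : (⊤ : SimpleGraph V).neighborSet v = ({v} : Set V)ᶜ := by
    ext x
    simp [eq_comm]
  rw [this, Set.ncard_compl, Set.ncard_singleton, Nat.card_eq_fintype_card]

/-- a list without repetitions that is pairwise related is a chain -/
lemma chain_of_pairwise {V : Type} {R : V → V → Prop} {l : List V}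
    (h : l.Pairwise R) : l.IsChain R := h.isChain

theorem good_top {V : Type} [Fintype V] {k : ℕ} (hk : 2 ≤ k) (hV : Fintype.card V = k - 1) :
    Good k (⊤ : SimpleGraph V) := by
  classical
  refine ⟨?_, ?_, ?_⟩
  · intro l h1 _
    have := h1.length_le_card
    omega
  · intro u v huv hadj
    exact absurd huv (by simpa using hadj)
  · intro p
    right
    refine ⟨(Finset.univ.erase p).toList, ?_, ?_, ?_⟩
    · rw [List.nodup_append]
      refine ⟨Finset.nodup_toList _, by simp, ?_⟩
      intro a ha b hb
      simp only [Finset.mem_toList, Finset.mem_erase] at ha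
      simp only [List.mem_singleton] at hb
      subst hb
      exact ha.1
    · apply chain_of_pairwise
      rw [List.pairwise_append]
      refine ⟨?_, by simp, ?_⟩
      · have h := Finset.nodup_toList (Finset.univ.erase p)
        rw [List.Nodup] at h
        refine h.imp_of_mem ?_
        intro a b ha hb hab
        simp only [Finset.mem_toList, Finset.mem_erase] at ha hb
        refine ⟨by simpa using hab, ?_⟩
        unfold bump
        rw [dg_top, dg_top]
        simp [ha.1]
      · intro a ha b hb
        simp only [Finset.mem_toList, Finset.mem_erase] at ha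
        simp only [List.mem_singleton] at hb
        subst hb
        refine ⟨by simpa using ha.1, ?_⟩
        unfold bump
        rw [dg_top, dg_top]
        simp [ha.1]
    · rw [Finset.length_toList, Finset.card_erase_of_mem (Finset.mem_univ _), Finset.card_univ, hV]
      omega

/-- the complete graph on `Fin k` without the edge `{0, 1}` -/
def D (k : ℕ) : SimpleGraph (Fin k) where
  Adj a b := a ≠ b ∧ ¬ (a.val < 2 ∧ b.val < 2)
  symm := ⟨fun a b h => ⟨h.1.symm, fun h' => h.2 ⟨h'.2, h'.1⟩⟩⟩
  loopless := ⟨fun a h => h.1 rfl⟩

lemma dg_D_lo {k : ℕ} (hk : 3 ≤ k) (v : Fin k) (hv : v.val < 2) : dg (D k) v = k - 2 := by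
  classical
  unfold dg
  have : (D k).neighborSet v = (({⟨0, by omega⟩, ⟨1, by omega⟩} : Set (Fin k)))ᶜ := by
    ext x
    simp only [mem_neighborSet, D, Set.mem_compl_iff, Set.mem_insert_iff, Set.mem_singleton_iff,
      Fin.ext_iff, ne_eq]
    omega
  rw [this, Set.ncard_compl, Set.ncard_pair (by simp [Fin.ext_iff])]
  simp

lemma dg_D_hi {k : ℕ} (hk : 3 ≤ k) (v : Fin k) (hv : 2 ≤ v.val) : dg (D k) v = k - 1 := by
  classical
  unfold dg
  have : (D k).neighborSet v = (({v} : Set (Fin k)))ᶜ := by
    ext x
    simp only [mem_neighborSet, D, Set.mem_compl_iff, Set.mem_singleton_iff,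
      Fin.ext_iff, ne_eq]
    omega
  rw [this, Set.ncard_compl, Set.ncard_singleton]
  simp

/-- the vertices `≥ 2` other than `p` -/
noncomputable def hi (k : ℕ) (p : Fin k) : List (Fin k) :=
  (Finset.univ.filter (fun v : Fin k => 2 ≤ v.val ∧ v ≠ p)).toList

lemma mem_hi {k : ℕ} {p v : Fin k} : v ∈ hi k p ↔ 2 ≤ v.val ∧ v ≠ p := by
  simp [hi]

lemma hi_nodup {k : ℕ} (p : Fin k) : (hi k p).Nodup := Finset.nodup_toList _

lemma hi_pairwise {k : ℕ} (hk : 3 ≤ k) (p : Fin k) :
    (hi k p).Pairwise (St (D k).Adj (bump (D k) p)) := by
  have h := hi_nodup (k := k) p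
  rw [List.Nodup] at h
  refine h.imp_of_mem ?_
  intro a b ha hb hab
  rw [mem_hi] at ha hb
  refine ⟨⟨hab, fun h' => ?_⟩, ?_⟩
  · omega
  · unfold bump
    rw [dg_D_hi hk a ha.1, dg_D_hi hk b hb.1]
    simp [ha.2]

lemma hi_length_lo {k : ℕ} (hk : 3 ≤ k) (p : Fin k) (hp : p.val < 2) :
    (hi k p).length = k - 2 := by
  classical
  unfold hi
  rw [Finset.length_toList]
  have : (Finset.univ.filter (fun v : Fin k => 2 ≤ v.val ∧ v ≠ p)) =
      ({⟨0, by omega⟩, ⟨1, by omega⟩} : Finset (Fin k))ᶜ := by
    ext x
    simp only [Finset.mem_filter, Finset.mem_univ, true_and, Finset.mem_compl, Finset.mem_insert,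
      Finset.mem_singleton, Fin.ext_iff, ne_eq]
    omega
  rw [this, Finset.card_compl, Finset.card_pair (by simp [Fin.ext_iff])]
  simp

lemma hi_length_hi {k : ℕ} (hk : 3 ≤ k) (p : Fin k) (hp : 2 ≤ p.val) :
    (hi k p).length = k - 3 := by
  classical
  unfold hi
  rw [Finset.length_toList]
  have : (Finset.univ.filter (fun v : Fin k => 2 ≤ v.val ∧ v ≠ p)) =
      ({⟨0, by omega⟩, ⟨1, by omega⟩, p} : Finset (Fin k))ᶜ := by
    ext x
    simp only [Finset.mem_filter, Finset.mem_univ, true_and, Finset.mem_compl, Finset.mem_insert,
      Finset.mem_singleton, Fin.ext_iff, ne_eq]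
    omega
  rw [this, Finset.card_compl]
  have : ({⟨0, by omega⟩, ⟨1, by omega⟩, p} : Finset (Fin k)).card = 3 := by
    rw [Finset.card_eq_three]
    exact ⟨_, _, _, by simp [Fin.ext_iff], by simp only [ne_eq, Fin.ext_iff]; omega,
      by simp only [ne_eq, Fin.ext_iff]; omega, rfl⟩
  rw [this]
  simp

theorem good_D {k : ℕ} (hk : 3 ≤ k) : Good k (D k) := by
  classical
  refine ⟨?_, ?_, ?_⟩
  · intro l h1 h2
    rcases l with _ | ⟨a, t⟩
    · simp; omega
    · -- every element of the tail is `≥ 2`
      have htail : ∀ (t : List (Fin k)) (a : Fin k), (a :: t).IsChain (St (D k).Adj (dg (D k))) →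
          ∀ x ∈ t, 2 ≤ x.val := by
        intro t
        induction t with
        | nil => simp
        | cons b t ih =>
          intro a h x hx
          rw [List.isChain_cons_cons] at h
          rcases List.mem_cons.1 hx with rfl | hx
          · by_contra hb
            push Not at hb
            obtain ⟨⟨h3, h4⟩, h5⟩ := h
            obtain ⟨h3, h3'⟩ := h3
            rw [dg_D_lo hk x hb] at h4
            by_cases ha : a.val < 2
            · exact h3' ⟨ha, hb⟩
            · rw [dg_D_hi hk a (by omega)] at h4
              omega
          · exact ih b h.2 x hx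
      have ht := htail t a h2
      have hsub : t.toFinset ⊆ Finset.univ.filter (fun v : Fin k => 2 ≤ v.val) := by
        intro x hx
        simp only [List.mem_toFinset] at hx
        simpa using ht x hx
      have hcard := Finset.card_le_card hsub
      rw [List.toFinset_card_of_nodup (List.nodup_cons.1 h1).2] at hcard
      have : (Finset.univ.filter (fun v : Fin k => 2 ≤ v.val)) =
          ({⟨0, by omega⟩, ⟨1, by omega⟩} : Finset (Fin k))ᶜ := by
        ext x
        simp only [Finset.mem_filter, Finset.mem_univ, true_and, Finset.mem_compl,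
          Finset.mem_insert, Finset.mem_singleton, Fin.ext_iff]
        omega
      rw [this, Finset.card_compl, Finset.card_pair (by simp [Fin.ext_iff]), Fintype.card_fin]
        at hcard
      simp only [List.length_cons]
      omega
  · intro u v huv hadj
    have hlt : u.val < 2 ∧ v.val < 2 := by
      by_contra h
      exact hadj ⟨huv, h⟩
    have htop : D k ⊔ edge u v = ⊤ := by
      ext a b
      simp only [sup_adj, D, edge_adj, top_adj, ne_eq]
      constructor
      · rintro (h | h)
        · exact h.1
        · exact h.2
      · intro hab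
        by_cases h2 : a.val < 2 ∧ b.val < 2
        · right
          refine ⟨?_, hab⟩
          simp only [Fin.ext_iff] at *
          omega
        · left; exact ⟨hab, h2⟩
    rw [htop]
    refine ⟨List.finRange k, List.nodup_finRange k, ?_, by simp⟩
    apply chain_of_pairwise
    have h := List.nodup_finRange k
    rw [List.Nodup] at h
    refine h.imp ?_
    intro a b hab
    exact ⟨by simpa using hab, by rw [dg_top, dg_top]⟩
  · intro p
    by_cases hp : p.val < 2
    · left
      obtain ⟨q, hq1, hq2⟩ : ∃ q : Fin k, q.val < 2 ∧ q ≠ p := by
        by_cases h0 : p.val = 0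
        · exact ⟨⟨1, by omega⟩, by simp, by simp only [ne_eq, Fin.ext_iff]; omega⟩
        · exact ⟨⟨0, by omega⟩, by simp, by simp only [ne_eq, Fin.ext_iff]; omega⟩
      refine ⟨q :: (hi k p ++ [p]), ?_, ?_, ?_⟩
      · rw [List.nodup_cons, List.nodup_append]
        refine ⟨?_, hi_nodup p, by simp, ?_⟩
        · simp only [List.mem_append, mem_hi, List.mem_singleton, not_or]
          exact ⟨by omega, hq2⟩
        · intro a ha b hb
          rw [mem_hi] at ha
          simp only [List.mem_singleton] at hb
          subst hb
          exact ha.2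
      · rw [List.isChain_cons]
        constructor
        · intro y hy
          have hne : hi k p ≠ [] := by
            intro h
            have := hi_length_lo hk p hp
            rw [h] at this
            simp at this
            omega
          have hy' : y ∈ hi k p := by
            rcases hh : hi k p with _ | ⟨z, t⟩
            · exact absurd hh hne
            · rw [hh] at hy
              simp only [List.cons_append, List.head?_cons, Option.mem_def,
                Option.some.injEq] at hy
              subst hy
              simp
          rw [mem_hi] at hy'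
          refine ⟨⟨?_, ?_⟩, ?_⟩
          · intro h; subst h; omega
          · omega
          · unfold bump
            rw [dg_D_lo hk q hq1, dg_D_hi hk y hy'.1]
            simp [hq2, hy'.2]
            omega
        · apply chain_of_pairwise
          rw [List.pairwise_append]
          refine ⟨hi_pairwise hk p, by simp, ?_⟩
          intro a ha b hb
          rw [mem_hi] at ha
          simp only [List.mem_singleton] at hb
          subst hb
          refine ⟨⟨ha.2, by omega⟩, ?_⟩
          unfold bump
          rw [dg_D_hi hk a ha.1, dg_D_lo hk b hp]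
          simp [ha.2]
          omega
      · simp only [List.length_cons, List.length_append, hi_length_lo hk p hp, List.length_nil]
        omega
    · right
      push Not at hp
      refine ⟨⟨0, by omega⟩ :: hi k p, ?_, ?_, ?_⟩
      · rw [List.cons_append, List.nodup_cons, List.nodup_append]
        refine ⟨?_, hi_nodup p, by simp, ?_⟩
        · simp only [List.mem_append, mem_hi, List.mem_singleton, not_or]
          refine ⟨by simp, ?_⟩
          simp only [Fin.ext_iff]; omega
        · intro a ha b hb
          rw [mem_hi] at ha
          simp only [List.mem_singleton] at hb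
          subst hb
          exact ha.2
      · apply chain_of_pairwise
        rw [List.cons_append, List.pairwise_cons, List.pairwise_append]
        have h0p : (⟨0, by omega⟩ : Fin k) ≠ p := by
          simp only [ne_eq, Fin.ext_iff]; omega
        refine ⟨?_, hi_pairwise hk p, by simp, ?_⟩
        · intro b hb
          simp only [List.mem_append, mem_hi, List.mem_singleton] at hb
          have hb2 : 2 ≤ b.val := by
            rcases hb with hb | rfl
            · exact hb.1
            · exact hp
          refine ⟨⟨by simp only [ne_eq, Fin.ext_iff]; omega, by omega⟩, ?_⟩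
          unfold bump
          rw [dg_D_lo hk ⟨0, by omega⟩ (by simp), dg_D_hi hk b hb2]
          simp only [h0p, if_false]
          omega
        · intro a ha b hb
          rw [mem_hi] at ha
          simp only [List.mem_singleton] at hb
          subst hb
          refine ⟨⟨ha.2, by omega⟩, ?_⟩
          unfold bump
          rw [dg_D_hi hk a ha.1, dg_D_hi hk b hp]
          simp [ha.2]
      · simp only [List.length_cons, hi_length_hi hk p hp]
        omega

lemma dg_le {V : Type} [Fintype V] (G : SimpleGraph V) (v : V) : dg G v ≤ Fintype.card V := by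
  unfold dg
  rw [← Nat.card_eq_fintype_card, ← Set.ncard_univ]
  exact Set.ncard_le_ncard (Set.subset_univ _) (Set.toFinite _)

lemma sum_dg_le {V : Type} [Fintype V] (G : SimpleGraph V) :
    ∑ v, dg G v ≤ Fintype.card V * Fintype.card V := by
  calc ∑ v, dg G v ≤ ∑ _v : V, Fintype.card V := Finset.sum_le_sum fun v _ => dg_le G v
    _ = _ := by simp

lemma goodSize_top {k : ℕ} (hk : 2 ≤ k) : GoodSize k (k - 1) ((k - 1) * (k - 1)) :=
  ⟨Fin (k - 1), inferInstance, ⊤, good_top hk (by simp), by simp, by
    have := sum_dg_le (⊤ : SimpleGraph (Fin (k - 1)))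
    simpa using this⟩

lemma goodSize_D {k : ℕ} (hk : 3 ≤ k) : GoodSize k k (k * k) :=
  ⟨Fin k, inferInstance, D k, good_D hk, by simp, by
    have := sum_dg_le (D k)
    simpa using this⟩

end Pool.Agent.V11278.DegMono
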