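import Mathlib
import Pool.Agent.V11278.DegMono2

/-!
# Layered components (helper278)
-/

namespace Pool.Agent.V11278.DegMono

open SimpleGraph

/-- the abstract layered structure: levels `0..I`, a vertex of level `i` has degree `i + 2`,
two neighbours one level up (or, on the top level, two neighbours forming a triangle with it). -/
structure Layered {V : Type} (G : SimpleGraph V) (lev : V → ℕ) (I : ℕ) : Prop where
  hle : ∀ v, lev v ≤ I
  hsame : ∀ a b, G.Adj a b → lev a = lev b → lev a = I
  hup : ∀ v, lev v < I → ∃ x y, x ≠ y ∧ G.Adj v x ∧ G.Adj v y ∧ lev x = lev v + 1 ∧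
    lev y = lev v + 1 ∧ ¬ G.Adj x y
  hlow1 : ∀ v, 0 < lev v → ∃ w, G.Adj v w ∧ lev w + 1 = lev v
  hlow2 : ∀ v, 1 < lev v → ∀ p, ∃ w, w ≠ p ∧ G.Adj v w ∧ lev w + 1 = lev v
  htop : ∀ v, lev v = I → ∃ b c, b ≠ c ∧ G.Adj v b ∧ G.Adj v c ∧ G.Adj b c ∧ lev b = I ∧
    lev c = I ∧ ∀ w, G.Adj v w → lev w = I → w = b ∨ w = c
  hdeg : ∀ v, dg G v = lev v + 2

variable {V : Type} {G : SimpleGraph V} {lev : V → ℕ} {I : ℕ}

/-- chains of top vertices stay in the triangle of their first vertex -/
lemma Layered.top_len (L : Layered G lev I) (a : V) (ha : lev a = I) (l : List V)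
    (h1 : (a :: l).Nodup) (h2 : (a :: l).IsChain (St G.Adj (dg G))) : (a :: l).length ≤ 3 := by
  classical
  obtain ⟨b, c, hbc, hab, hac, hadj, hb, hc, hall⟩ := L.htop a ha
  have hclosed : ∀ x ∈ ({a, b, c} : Finset V), ∀ w, G.Adj x w → lev w = I →
      w ∈ ({a, b, c} : Finset V) := by
    intro x hx w hxw hw
    simp only [Finset.mem_insert, Finset.mem_singleton] at hx ⊢
    rcases hx with rfl | rfl | rfl
    · rcases hall w hxw hw with h | h <;> simp [h]
    · obtain ⟨b', c', _, _, _, _, _, _, hall'⟩ := L.htop x hb
      have e1 := hall' a hab.symm ha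
      have e2 := hall' c hadj hc
      have e3 := hall' w hxw hw
      have hac' := hac.ne
      rcases e1 with e1 | e1 <;> rcases e2 with e2 | e2 <;> rcases e3 with e3 | e3 <;>
        simp_all
    · obtain ⟨b', c', _, _, _, _, _, _, hall'⟩ := L.htop x hc
      have e1 := hall' a hac.symm ha
      have e2 := hall' b hadj.symm hb
      have e3 := hall' w hxw hw
      have hab' := hab.ne
      rcases e1 with e1 | e1 <;> rcases e2 with e2 | e2 <;> rcases e3 with e3 | e3 <;>
        simp_all
  have hmem : ∀ (t : List V) (x : V), x ∈ ({a, b, c} : Finset V) → lev x = I →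
      (x :: t).IsChain (St G.Adj (dg G)) → ∀ y ∈ (x :: t), y ∈ ({a, b, c} : Finset V) := by
    intro t
    induction t with
    | nil =>
      intro x hx _ _ y hy
      simp only [List.mem_singleton] at hy
      subst hy; exact hx
    | cons z t ih =>
      intro x hx hxI h y hy
      rcases List.mem_cons.1 hy with rfl | hy
      · exact hx
      · rw [List.isChain_cons_cons] at h
        have hz : lev z = I := by
          have h3 := h.1.2
          rw [L.hdeg, L.hdeg] at h3
          have := L.hle z
          omega
        exact ih z (hclosed x hx z h.1.1 hz) hz h.2 y hy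
  have hsub : (a :: l).toFinset ⊆ ({a, b, c} : Finset V) := by
    intro y hy
    rw [List.mem_toFinset] at hy
    exact hmem l a (by simp) ha h2 y hy
  have hcard := Finset.card_le_card hsub
  rw [List.toFinset_card_of_nodup h1] at hcard
  have h3 : ({a, b, c} : Finset V).card ≤ 3 := Finset.card_le_three
  omega

lemma Layered.len (L : Layered G lev I) (l : List V) : ∀ a, (a :: l).Nodup →
    (a :: l).IsChain (St G.Adj (dg G)) → (a :: l).length + lev a ≤ I + 3 := by
  induction l with
  | nil =>
    intro a _ _
    have := L.hle a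
    simp only [List.length_cons, List.length_nil]
    omega
  | cons b l ih =>
    intro a h1 h2
    by_cases ha : lev a = I
    · have := L.top_len a ha (b :: l) h1 h2
      omega
    · rw [List.isChain_cons_cons] at h2
      have h3 := h2.1.2
      rw [L.hdeg, L.hdeg] at h3
      have h4 : lev a ≠ lev b := fun h => ha (L.hsame a b h2.1.1 h)
      have h5 := ih b (List.nodup_cons.1 h1).2 h2.2
      simp only [List.length_cons] at h5 ⊢
      omega

/-- Prepending a descending chain below `w`. -/
lemma Layered.prep (L : Layered G lev I) {R : V → V → Prop}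
    (hR : ∀ a b, G.Adj a b → lev b = lev a + 1 → R a b) :
    ∀ (n : ℕ) (w : V) (Q : List V), lev w = n → (w :: Q).Nodup → (w :: Q).IsChain R →
      (∀ a ∈ Q, lev w ≤ lev a) →
      ∃ pre : List V, (pre ++ w :: Q).Nodup ∧ (pre ++ w :: Q).IsChain R ∧ pre.length = n ∧
        ∀ a ∈ pre, lev a < lev w := by
  intro n
  induction n with
  | zero =>
    intro w Q _ h1 h2 _
    exact ⟨[], by simpa using h1, by simpa using h2, rfl, by simp⟩
  | succ n ih =>
    intro w Q hw h1 h2 h3
    obtain ⟨w', hadj, hw'⟩ := L.hlow1 w (by omega)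
    have hnot : w' ∉ w :: Q := by
      intro h
      rcases List.mem_cons.1 h with rfl | h
      · omega
      · have := h3 _ h
        omega
    obtain ⟨pre, p1, p2, p3, p4⟩ := ih w' (w :: Q) (by omega) (List.nodup_cons.2 ⟨hnot, h1⟩)
      (by
        rw [List.isChain_cons_cons]
        exact ⟨hR _ _ hadj.symm (by omega), h2⟩)
      (by
        intro a ha
        rcases List.mem_cons.1 ha with rfl | ha
        · omega
        · have := h3 _ ha
          omega)
    refine ⟨pre ++ [w'], ?_, ?_, ?_, ?_⟩
    · simpa using p1
    · simpa using p2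
    · simp [p3]
    · intro a ha
      rcases List.mem_append.1 ha with ha | ha
      · have := p4 a ha
        omega
      · simp only [List.mem_singleton] at ha
        subst ha
        omega

open Classical in
/-- modified degree: levels with the levels of `p` and `v` raised by one -/
noncomputable def lv (lev : V → ℕ) (p v w : V) : ℕ := lev w + if w = p ∨ w = v then 1 else 0

lemma lv_le (p v w : V) : lv lev p v w ≤ lev w + 1 := by
  unfold lv; split_ifs <;> omega

lemma le_lv (p v w : V) : lev w ≤ lv lev p v w := by
  unfold lv; omega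

lemma lv_eq {p v w : V} (h1 : w ≠ p) (h2 : w ≠ v) : lv lev p v w = lev w := by
  unfold lv; simp [h1, h2]

lemma lv_p (p v : V) : lv lev p v p = lev p + 1 := by
  unfold lv; simp

lemma lv_v (p v : V) : lv lev p v v = lev v + 1 := by
  unfold lv; simp

/-- The part of the path from an upper neighbour `y` of `p` upwards. -/
lemma Layered.tail (L : Layered G lev I) (p v : V) (hpI : lev p < I) :
    ∀ (n : ℕ) (y : V), lev y + n = I → lev p < lev y → (lev y = I → y ≠ v) →
      ∃ T : List V, (y :: T).Nodup ∧ (y :: T).IsChain (St G.Adj (lv lev p v)) ∧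
        (∀ a ∈ T, lev y < lev a ∨ (lev y = I ∧ lev a = I ∧ G.Adj y a)) ∧
        T.length = n + 2 := by
  intro n
  induction n with
  | zero =>
    intro y hy hpy hyv
    have hyI : lev y = I := by omega
    have hyv' := hyv hyI
    have hyp : y ≠ p := by rintro rfl; omega
    obtain ⟨b, c, hbc, hyb, hyc, hadj, hb, hc, -⟩ := L.htop y hyI
    have hbp : b ≠ p := by rintro rfl; omega
    have hcp : c ≠ p := by rintro rfl; omega
    -- put `v` last
    wlog hbv : b ≠ v generalizing b c with H
    · push Not at hbv
      exact H c b hbc.symm hyc hyb hadj.symm hc hb hcp hbp (by rw [← hbv]; exact hbc.symm)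
    refine ⟨[b, c], ?_, ?_, ?_, rfl⟩
    · simp only [List.nodup_cons, List.mem_cons, List.not_mem_nil, or_false, not_or,
        not_false_eq_true, List.nodup_nil, and_true]
      exact ⟨⟨hyb.ne, hyc.ne⟩, hbc⟩
    · simp only [List.isChain_cons_cons, List.isChain_singleton, and_true]
      refine ⟨⟨hyb, ?_⟩, ⟨hadj, ?_⟩⟩
      · rw [lv_eq hyp hyv', lv_eq hbp hbv]; omega
      · rw [lv_eq hbp hbv]
        exact le_trans (by omega) (le_lv p v c)
    · intro a ha
      simp only [List.mem_cons, List.not_mem_nil, or_false] at ha
      right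
      rcases ha with rfl | rfl
      · exact ⟨hyI, hb, hyb⟩
      · exact ⟨hyI, hc, hyc⟩
  | succ n ih =>
    intro y hy hpy hyv
    obtain ⟨x₁, x₂, hx, h1, h2, h3, h4, -⟩ := L.hup y (by omega)
    obtain ⟨z, hz1, hz2, hz3⟩ : ∃ z, G.Adj y z ∧ lev z = lev y + 1 ∧ z ≠ v := by
      by_cases h : x₁ = v
      · exact ⟨x₂, h2, h4, by rw [← h]; exact hx.symm⟩
      · exact ⟨x₁, h1, h3, h⟩
    obtain ⟨T, t1, t2, t3, t4⟩ := ih z (by omega) (by omega) (fun _ => hz3)
    refine ⟨z :: T, ?_, ?_, ?_, by simp [t4]⟩
    · rw [List.nodup_cons]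
      refine ⟨?_, t1⟩
      intro hmem
      rcases List.mem_cons.1 hmem with rfl | hmem
      · omega
      · rcases t3 _ hmem with h | h
        · omega
        · omega
    · rw [List.isChain_cons_cons]
      refine ⟨⟨hz1, ?_⟩, t2⟩
      exact (lv_le p v y).trans ((by omega : lev y + 1 ≤ lev z).trans (le_lv p v z))
    · intro a ha
      left
      rcases List.mem_cons.1 ha with rfl | ha
      · omega
      · rcases t3 _ ha with h | h
        · omega
        · omega

/-- A vertex below the top level is critical. -/
lemma Layered.nontop (L : Layered G lev I) (p v : V) (hpI : lev p < I)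
    (hpv : v = p ∨ (¬ G.Adj p v ∧ lev p ≤ lev v)) :
    ∃ l : List V, l.Nodup ∧ l.IsChain (St G.Adj (lv lev p v)) ∧ I + 4 ≤ l.length := by
  obtain ⟨x, y, hxy, hpx, hpy, hx, hy, hnadj⟩ := L.hup p hpI
  have hyv : y ≠ v := by
    rintro rfl
    rcases hpv with h | h
    · exact hpy.ne h.symm
    · exact h.1 hpy
  have hxv : x ≠ v := by
    rintro rfl
    rcases hpv with h | h
    · exact hpx.ne h.symm
    · exact h.1 hpx
  obtain ⟨T, t1, t2, t3, t4⟩ := L.tail p v hpI (I - lev y) y (by have := L.hle y; omega)
    (by omega) (fun _ => hyv)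
  have hle := L.hle y
  have hR : ∀ a b, G.Adj a b → lev b = lev a + 1 → St G.Adj (lv lev p v) a b := by
    intro a b h1 h2
    exact ⟨h1, (lv_le p v a).trans ((by omega : lev a + 1 ≤ lev b).trans (le_lv p v b))⟩
  have hQn : (x :: p :: y :: T).Nodup := by
    rw [List.nodup_cons, List.nodup_cons]
    refine ⟨?_, ?_, t1⟩
    · intro h
      rcases List.mem_cons.1 h with h | h
      · exact hpx.ne h.symm
      rcases List.mem_cons.1 h with h | h
      · exact hxy h
      rcases t3 _ h with h | h
      · omega
      · exact hnadj h.2.2.symm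
    · intro h
      rcases List.mem_cons.1 h with h | h
      · exact hpy.ne h
      rcases t3 _ h with h | h
      · omega
      · omega
  have hQc : (x :: p :: y :: T).IsChain (St G.Adj (lv lev p v)) := by
    rw [List.isChain_cons_cons, List.isChain_cons_cons]
    refine ⟨⟨hpx.symm, ?_⟩, ⟨hpy, ?_⟩, t2⟩
    · rw [lv_eq hpx.ne.symm hxv, lv_p]; omega
    · rw [lv_p]
      exact (by omega : lev p + 1 ≤ lev y).trans (le_lv p v y)
  have hlev : ∀ a ∈ (x :: p :: y :: T), lev p ≤ lev a := by
    intro a ha
    rcases List.mem_cons.1 ha with rfl | ha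
    · omega
    rcases List.mem_cons.1 ha with rfl | ha
    · exact le_rfl
    rcases List.mem_cons.1 ha with rfl | ha
    · omega
    rcases t3 _ ha with h | h
    · omega
    · omega
  by_cases hp0 : lev p = 0
  · refine ⟨_, hQn, hQc, ?_⟩
    simp only [List.length_cons]
    omega
  · obtain ⟨w, hwp, hxw, hw⟩ := L.hlow2 x (by omega) p
    have hwQ : w ∉ (x :: p :: y :: T) := by
      intro h
      rcases List.mem_cons.1 h with h | h
      · exact hxw.ne h.symm
      rcases List.mem_cons.1 h with h | h
      · exact hwp h
      rcases List.mem_cons.1 h with h | h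
      · rw [h] at hw; omega
      rcases t3 _ h with h | h
      · omega
      · omega
    obtain ⟨pre, p1, p2, p3, -⟩ := L.prep hR (lev w) w _ rfl (List.nodup_cons.2 ⟨hwQ, hQn⟩)
      (by
        rw [List.isChain_cons_cons]
        exact ⟨hR _ _ hxw.symm (by omega), hQc⟩)
      (fun a ha => le_trans (by omega) (hlev a ha))
    refine ⟨_, p1, p2, ?_⟩
    simp only [List.length_append, List.length_cons, p3]
    omega

/-- A long path ending at a top vertex `p`, followed by any list `q` of top vertices. -/
lemma Layered.topend (L : Layered G lev I) (p v : V) (hpI : lev p = I)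
    (hpv : v = p ∨ (¬ G.Adj p v ∧ lev v = I)) :
    ∃ l : List V, (l ++ [p]).Nodup ∧ (l ++ [p]).IsChain (St G.Adj (lv lev p v)) ∧
      l.length = I + 2 ∧ (v ≠ p → v ∉ l) := by
  obtain ⟨b, c, hbc, hpb, hpc, hadj, hb, hc, -⟩ := L.htop p hpI
  have hbv : b ≠ v := by
    rintro rfl
    rcases hpv with h | h
    · exact hpb.ne h.symm
    · exact h.1 hpb
  have hcv : c ≠ v := by
    rintro rfl
    rcases hpv with h | h
    · exact hpc.ne h.symm
    · exact h.1 hpc
  have hR : ∀ a b, G.Adj a b → lev b = lev a + 1 → St G.Adj (lv lev p v) a b := by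
    intro a b h1 h2
    exact ⟨h1, (lv_le p v a).trans ((by omega : lev a + 1 ≤ lev b).trans (le_lv p v b))⟩
  have hQn : [b, c, p].Nodup := by
    simp only [List.nodup_cons, List.mem_cons, List.not_mem_nil, or_false, not_or,
        not_false_eq_true, List.nodup_nil, and_true]
    exact ⟨⟨hbc, hpb.ne.symm⟩, hpc.ne.symm⟩
  have hQc : [b, c, p].IsChain (St G.Adj (lv lev p v)) := by
    simp only [List.isChain_cons_cons, List.isChain_singleton, and_true]
    refine ⟨⟨hadj, ?_⟩, ⟨hpc.symm, ?_⟩⟩
    · rw [lv_eq hpb.ne.symm hbv, lv_eq hpc.ne.symm hcv]; omega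
    · rw [lv_eq hpc.ne.symm hcv, lv_p]; omega
  have hlev : ∀ a ∈ [b, c, p], lev a = I := by
    intro a ha
    simp only [List.mem_cons, List.not_mem_nil, or_false] at ha
    rcases ha with rfl | rfl | rfl <;> assumption
  by_cases hI : I = 0
  · refine ⟨[b, c], by simpa using hQn, by simpa using hQc, by simp [hI], ?_⟩
    intro _ h
    simp only [List.mem_cons, List.not_mem_nil, or_false] at h
    rcases h with h | h
    · exact hbv h.symm
    · exact hcv h.symm
  · obtain ⟨w, hbw, hw⟩ := L.hlow1 b (by omega)
    have hwQ : w ∉ [b, c, p] := by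
      intro h
      have := hlev w h
      omega
    obtain ⟨pre, p1, p2, p3, p4⟩ := L.prep hR (lev w) w [b, c, p] rfl
      (List.nodup_cons.2 ⟨hwQ, hQn⟩)
      (by
        rw [List.isChain_cons_cons]
        exact ⟨hR _ _ hbw.symm (by omega), hQc⟩)
      (fun a ha => by have := hlev a ha; omega)
    refine ⟨pre ++ [w, b, c], by simpa using p1, by simpa using p2, ?_, ?_⟩
    · simp only [List.length_append, List.length_cons, p3, List.length_nil]
      omega
    · intro hvp hmem
      -- the elements of `pre ++ [w]` have level below `I`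
      have hvI : lev v = I := by
        rcases hpv with h | h
        · exact absurd h hvp
        · exact h.2
      rcases List.mem_append.1 hmem with h | h
      · have := p4 v h
        omega
      · simp only [List.mem_cons, List.not_mem_nil, or_false] at h
        rcases h with rfl | h | h
        · omega
        · exact hbv h.symm
        · exact hcv h.symm

lemma lv_comm (p v w : V) : lv lev p v w = lv lev v p w := by
  classical
  unfold lv
  by_cases h1 : w = p <;> by_cases h2 : w = v <;> simp [h1, h2]

lemma Layered.dg_edge (L : Layered G lev I) {p v : V} (hpv : p ≠ v) (hadj : ¬ G.Adj p v)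
    (w : V) : dg (G ⊔ edge p v) w = lv lev p v w + 2 := by
  classical
  have hfin : ∀ w, (G.neighborSet w).Finite := by
    intro w
    apply Set.finite_of_ncard_ne_zero
    have := L.hdeg w
    unfold dg at this
    omega
  have hd := L.hdeg w
  unfold dg at hd ⊢
  unfold lv
  by_cases h1 : w = p
  · subst h1
    have : (G ⊔ edge w v).neighborSet w = insert v (G.neighborSet w) := by
      ext x
      simp only [mem_neighborSet, sup_adj, edge_adj, Set.mem_insert_iff]
      constructor
      · rintro (h | ⟨h, h'⟩)
        · exact Or.inr h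
        · rcases h with h | h
          · exact Or.inl h.2
          · exact absurd h.1.symm hpv.symm
      · rintro (h | h)
        · subst h
          exact Or.inr ⟨Or.inl (by simp), hpv⟩
        · exact Or.inl h
    rw [this, Set.ncard_insert_of_notMem (by simpa using hadj) (hfin w), hd]
    simp
  · by_cases h2 : w = v
    · subst h2
      have : (G ⊔ edge p w).neighborSet w = insert p (G.neighborSet w) := by
        ext x
        simp only [mem_neighborSet, sup_adj, edge_adj, Set.mem_insert_iff]
        constructor
        · rintro (h | ⟨h, h'⟩)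
          · exact Or.inr h
          · rcases h with h | h
            · exact absurd h.1.symm hpv
            · exact Or.inl h.2
        · rintro (h | h)
          · subst h
            exact Or.inr ⟨Or.inr (by simp), fun h => h1 h⟩
          · exact Or.inl h
      rw [this, Set.ncard_insert_of_notMem (by simpa [G.adj_comm] using hadj) (hfin w), hd]
      simp
    · have : (G ⊔ edge p v).neighborSet w = G.neighborSet w := by
        ext x
        simp only [mem_neighborSet, sup_adj, edge_adj]
        constructor
        · rintro (h | ⟨h, h'⟩)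
          · exact h
          · rcases h with h | h
            · exact absurd h.1 h1
            · exact absurd h.1 h2
        · intro h
          exact Or.inl h
      rw [this, hd]
      simp [h1, h2]

lemma Layered.bump_eq (L : Layered G lev I) (p w : V) :
    bump G p w = lv lev p p w + 2 := by
  classical
  unfold bump lv
  rw [L.hdeg]
  simp only [or_self]
  omega

lemma Layered.inner_aux (L : Layered G lev I) (p v : V) (hpv : p ≠ v) (hadj : ¬ G.Adj p v)
    (hle : lev p ≤ lev v) : ∃ l : List V, l.Nodup ∧
    l.IsChain (St (G ⊔ edge p v).Adj (dg (G ⊔ edge p v))) ∧ I + 4 ≤ l.length := by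
  by_cases hpI : lev p < I
  · obtain ⟨l, h1, h2, h3⟩ := L.nontop p v hpI (Or.inr ⟨hadj, hle⟩)
    refine ⟨l, h1, h2.imp ?_, h3⟩
    rintro a b ⟨h4, h5⟩
    refine ⟨Or.inl h4, ?_⟩
    rw [L.dg_edge hpv hadj, L.dg_edge hpv hadj]
    omega
  · have hp := L.hle p
    have hv := L.hle v
    have hpI' : lev p = I := by omega
    have hvI' : lev v = I := by omega
    obtain ⟨l, h1, h2, h3, h4⟩ := L.topend p v hpI' (Or.inr ⟨hadj, hvI'⟩)
    refine ⟨(l ++ [p]) ++ [v], ?_, ?_, ?_⟩
    · rw [List.nodup_append]
      refine ⟨h1, by simp, ?_⟩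
      intro a ha b hb
      simp only [List.mem_singleton] at hb
      subst hb
      rintro rfl
      rcases List.mem_append.1 ha with ha | ha
      · exact h4 hpv.symm ha
      · simp only [List.mem_singleton] at ha
        exact hpv ha.symm
    · refine List.IsChain.append (h2.imp ?_) (by simp) ?_
      · rintro a b ⟨h4, h5⟩
        refine ⟨Or.inl h4, ?_⟩
        rw [L.dg_edge hpv hadj, L.dg_edge hpv hadj]
        omega
      · intro x hx y hy
        simp only [List.getLast?_append,
          List.getLast?_singleton, Option.some_or, Option.mem_def, Option.some.injEq] at hx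
        simp only [List.head?_cons, Option.mem_def, Option.some.injEq] at hy
        subst hx hy
        refine ⟨Or.inr ?_, ?_⟩
        · rw [edge_adj]
          exact ⟨Or.inl ⟨rfl, rfl⟩, hpv⟩
        · rw [L.dg_edge hpv hadj, L.dg_edge hpv hadj, lv_p, lv_v]
          omega
    · simp only [List.length_append, h3, List.length_cons, List.length_nil]
      omega

theorem Layered.good (L : Layered G lev I) : Good (I + 4) G := by
  refine ⟨?_, ?_, ?_⟩
  · intro l h1 h2
    rcases l with _ | ⟨a, t⟩
    · simp
    · have := L.len t a h1 h2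
      omega
  · intro u v huv hadj
    rcases le_total (lev u) (lev v) with h | h
    · exact L.inner_aux u v huv hadj h
    · rw [edge_comm]
      exact L.inner_aux v u huv.symm (fun h => hadj h.symm) h
  · intro p
    by_cases hpI : lev p < I
    · left
      obtain ⟨l, h1, h2, h3⟩ := L.nontop p p hpI (Or.inl rfl)
      refine ⟨l, h1, h2.imp ?_, h3⟩
      rintro a b ⟨h4, h5⟩
      refine ⟨h4, ?_⟩
      rw [L.bump_eq, L.bump_eq]
      omega
    · right
      have hp := L.hle p
      obtain ⟨l, h1, h2, h3, -⟩ := L.topend p p (by omega) (Or.inl rfl)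
      refine ⟨l, h1, h2.imp ?_, by omega⟩
      rintro a b ⟨h4, h5⟩
      refine ⟨h4, ?_⟩
      rw [L.bump_eq, L.bump_eq]
      omega

end Pool.Agent.V11278.DegMono
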