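import Mathlib
import Pool.Agent.V11278.DegMono3

/-!
# The explicit layered graph `C_I` (helper278)
-/

namespace Pool.Agent.V11278.DegMono

open SimpleGraph

/-- vertices of the layered graph `C_I`: a colour `a`, a level `i ≤ I`, and a word `g` whose
letter `j` is `< 2` for `j < i` and `≤ j` for `j ≥ i`. -/
@[ext]
structure Cv (I : ℕ) where
  a : Fin 3
  i : Fin (I + 1)
  g : Fin I → Fin (I + 2)
  ok : ∀ j : Fin I, (g j).val < if j.val < i.val then 2 else j.val + 1

noncomputable instance (I : ℕ) : Fintype (Cv I) :=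
  Fintype.ofInjective (fun v : Cv I => (v.a, v.i, v.g)) (by
    intro v w h
    simp only [Prod.mk.injEq] at h
    exact Cv.ext h.1 h.2.1 h.2.2)

variable {I : ℕ}

/-- lower neighbours -/
def low (v : Cv I) (t : Fin v.i.val) : Cv I where
  a := v.a
  i := ⟨v.i.val - 1, by omega⟩
  g := fun j => if j.val + 1 = v.i.val then ⟨t.val, by omega⟩ else v.g j
  ok := by
    intro j
    have h := v.ok j
    by_cases hj : j.val + 1 = v.i.val
    · simp only [hj, if_true]
      rw [if_neg (by omega)]
      exact t.2
    · simp only [hj, if_false]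
      split_ifs at h ⊢ <;> omega

/-- upper neighbours -/
def up (v : Cv I) (h : v.i.val < I) (t : Fin 2) : Cv I where
  a := v.a
  i := ⟨v.i.val + 1, by omega⟩
  g := fun j => if j.val = v.i.val then ⟨t.val, by omega⟩ else v.g j
  ok := by
    intro j
    have h := v.ok j
    by_cases hj : j.val = v.i.val
    · simp only [hj, if_true]
      rw [if_pos (by omega)]
      exact t.2
    · simp only [hj, if_false]
      split_ifs at h ⊢ <;> omega

/-- change of colour -/
def recol (v : Cv I) (a : Fin 3) : Cv I := ⟨a, v.i, v.g, v.ok⟩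

/-- the layered graph -/
def C (I : ℕ) : SimpleGraph (Cv I) where
  Adj x y := (x.a = y.a ∧ x.i.val + 1 = y.i.val ∧ ∀ j : Fin I, j.val ≠ x.i.val → x.g j = y.g j) ∨
    (x.a = y.a ∧ y.i.val + 1 = x.i.val ∧ ∀ j : Fin I, j.val ≠ y.i.val → x.g j = y.g j) ∨
    (x.i.val = I ∧ y.i.val = I ∧ x.g = y.g ∧ x.a ≠ y.a)
  symm := ⟨by
    intro x y h
    rcases h with h | h | h
    · exact Or.inr (Or.inl ⟨h.1.symm, h.2.1, fun j hj => (h.2.2 j hj).symm⟩)
    · exact Or.inl ⟨h.1.symm, h.2.1, fun j hj => (h.2.2 j hj).symm⟩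
    · exact Or.inr (Or.inr ⟨h.2.1, h.1, h.2.2.1.symm, h.2.2.2.symm⟩)⟩
  loopless := ⟨by
    intro x h
    rcases h with h | h | h
    · omega
    · omega
    · exact h.2.2.2 rfl⟩

/-- level -/
def lev (v : Cv I) : ℕ := v.i.val

lemma C_adj {x y : Cv I} : (C I).Adj x y ↔
    (x.a = y.a ∧ x.i.val + 1 = y.i.val ∧ ∀ j : Fin I, j.val ≠ x.i.val → x.g j = y.g j) ∨
    (x.a = y.a ∧ y.i.val + 1 = x.i.val ∧ ∀ j : Fin I, j.val ≠ y.i.val → x.g j = y.g j) ∨
    (x.i.val = I ∧ y.i.val = I ∧ x.g = y.g ∧ x.a ≠ y.a) := Iff.rfl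

lemma low_inj (v : Cv I) : Function.Injective (low v) := by
  intro s t h
  have h1 := congrArg Cv.g h
  have hs := s.2
  have hi := v.i.2
  have h2 := congrFun h1 ⟨v.i.val - 1, by omega⟩
  simp only [low] at h2
  rw [if_pos (by omega), if_pos (by omega)] at h2
  simp only [Fin.mk.injEq] at h2
  exact Fin.ext h2

lemma up_inj (v : Cv I) (hv : v.i.val < I) : Function.Injective (up v hv) := by
  intro s t h
  have h1 := congrArg Cv.g h
  have h2 := congrFun h1 ⟨v.i.val, by omega⟩
  simp only [up] at h2
  simp only [if_true, Fin.mk.injEq] at h2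
  exact Fin.ext h2

lemma mem_low (v w : Cv I) : ((C I).Adj v w ∧ lev w + 1 = lev v) ↔ w ∈ Set.range (low v) := by
  unfold lev
  constructor
  · rintro ⟨h, h1⟩
    rcases h with h | h | h
    · omega
    · have hi := v.i.2
      have hw := w.ok ⟨w.i.val, by omega⟩
      simp only [lt_irrefl, if_false] at hw
      refine ⟨⟨(w.g ⟨w.i.val, by omega⟩).val, by omega⟩, ?_⟩
      apply Cv.ext
      · exact h.1
      · apply Fin.ext
        simp only [low]
        omega
      · funext j
        simp only [low]
        by_cases hj : j.val + 1 = v.i.val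
        · rw [if_pos hj]
          have : j = ⟨w.i.val, by omega⟩ := Fin.ext (by simp; omega)
          rw [this]
        · rw [if_neg hj]
          exact h.2.2 j (by omega)
    · omega
  · rintro ⟨t, rfl⟩
    have ht := t.2
    refine ⟨Or.inr (Or.inl ⟨rfl, ?_, ?_⟩), ?_⟩
    · simp only [low]; omega
    · intro j hj
      simp only [low] at hj ⊢
      rw [if_neg (by omega)]
    · simp only [low]; omega

lemma mem_up (v w : Cv I) (hv : v.i.val < I) :
    ((C I).Adj v w ∧ lev w = lev v + 1) ↔ w ∈ Set.range (up v hv) := by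
  unfold lev
  constructor
  · rintro ⟨h, h1⟩
    rcases h with h | h | h
    · have hw := w.ok ⟨v.i.val, hv⟩
      rw [if_pos (by simp only; omega)] at hw
      refine ⟨⟨(w.g ⟨v.i.val, hv⟩).val, by omega⟩, ?_⟩
      apply Cv.ext
      · exact h.1
      · apply Fin.ext
        simp only [up]
        omega
      · funext j
        simp only [up]
        by_cases hj : j.val = v.i.val
        · rw [if_pos hj]
          have : j = ⟨v.i.val, hv⟩ := Fin.ext (by simp; omega)
          rw [this]
        · rw [if_neg hj]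
          exact h.2.2 j (by omega)
    · omega
    · omega
  · rintro ⟨t, rfl⟩
    refine ⟨Or.inl ⟨rfl, ?_, ?_⟩, ?_⟩
    · simp only [up]
    · intro j hj
      simp only [up] at hj ⊢
      rw [if_neg (by omega)]
    · simp only [up]

lemma ncard_range_fin {V : Type} {n : ℕ} {f : Fin n → V} (hf : Function.Injective f) :
    (Set.range f).ncard = n := by
  rw [← Set.image_univ, Set.ncard_image_of_injective _ hf, Set.ncard_univ]
  simp

/-- the two other colours -/
lemma other_colours (a : Fin 3) : ∃ b c : Fin 3, b ≠ a ∧ c ≠ a ∧ b ≠ c ∧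
    ∀ d : Fin 3, d ≠ a → d = b ∨ d = c := by
  fin_cases a
  · exact ⟨1, 2, by decide, by decide, by decide, by decide⟩
  · exact ⟨0, 2, by decide, by decide, by decide, by decide⟩
  · exact ⟨0, 1, by decide, by decide, by decide, by decide⟩

lemma recol_adj (v : Cv I) (hv : lev v = I) {a b : Fin 3} (h : a ≠ b) :
    (C I).Adj (recol v a) (recol v b) := by
  right; right
  exact ⟨hv, hv, rfl, h⟩

lemma top_nb (v : Cv I) (hv : lev v = I) : ∃ b c, b ≠ c ∧ (C I).Adj v b ∧ (C I).Adj v c ∧
    (C I).Adj b c ∧ lev b = I ∧ lev c = I ∧ ∀ w, (C I).Adj v w → lev w = I → w = b ∨ w = c := by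
  obtain ⟨b, c, h1, h2, h3, h4⟩ := other_colours v.a
  have hv' : recol v v.a = v := rfl
  refine ⟨recol v b, recol v c, ?_, ?_, ?_, ?_, hv, hv, ?_⟩
  · intro h
    exact h3 (congrArg Cv.a h)
  · have := recol_adj v hv h1.symm
    rwa [hv'] at this
  · have := recol_adj v hv h2.symm
    rwa [hv'] at this
  · exact recol_adj v hv h3
  · intro w hw hwI
    unfold lev at hv hwI
    rcases hw with h | h | h
    · omega
    · omega
    · rcases h4 w.a h.2.2.2.symm with h5 | h5
      · left
        exact Cv.ext h5 (Fin.ext (by simp only [recol]; omega)) h.2.2.1.symm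
      · right
        exact Cv.ext h5 (Fin.ext (by simp only [recol]; omega)) h.2.2.1.symm

lemma low_ncard (v : Cv I) : {w | (C I).Adj v w ∧ lev w + 1 = lev v}.ncard = lev v := by
  have : {w | (C I).Adj v w ∧ lev w + 1 = lev v} = Set.range (low v) := by
    ext w
    exact mem_low v w
  rw [this, ncard_range_fin (low_inj v)]
  rfl

lemma up_ncard (v : Cv I) (hv : lev v < I) :
    {w | (C I).Adj v w ∧ lev w = lev v + 1}.ncard = 2 := by
  have : {w | (C I).Adj v w ∧ lev w = lev v + 1} = Set.range (up v hv) := by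
    ext w
    exact mem_up v w hv
  rw [this, ncard_range_fin (up_inj v hv)]

lemma C_same (x y : Cv I) (h : (C I).Adj x y) (he : lev x = lev y) : lev x = I := by
  unfold lev at *
  rcases h with h | h | h
  · omega
  · omega
  · exact h.1

lemma C_near (x y : Cv I) (h : (C I).Adj x y) :
    lev x + 1 = lev y ∨ lev y + 1 = lev x ∨ (lev x = I ∧ lev y = I) := by
  unfold lev at *
  rcases h with h | h | h
  · omega
  · omega
  · exact Or.inr (Or.inr ⟨h.1, h.2.1⟩)

lemma C_deg (v : Cv I) : dg (C I) v = lev v + 2 := by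
  classical
  unfold dg
  have hle : lev v ≤ I := by unfold lev; omega
  by_cases hv : lev v < I
  · have : (C I).neighborSet v = {w | (C I).Adj v w ∧ lev w + 1 = lev v} ∪
        {w | (C I).Adj v w ∧ lev w = lev v + 1} := by
      ext w
      simp only [mem_neighborSet, Set.mem_union, Set.mem_setOf_eq]
      constructor
      · intro h
        rcases C_near v w h with h1 | h1 | h1
        · exact Or.inr ⟨h, h1.symm⟩
        · exact Or.inl ⟨h, h1⟩
        · omega
      · rintro (h | h)
        · exact h.1
        · exact h.1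
    rw [this, Set.ncard_union_eq _ (Set.toFinite _) (Set.toFinite _), low_ncard, up_ncard v hv]
    rw [Set.disjoint_left]
    intro w hw hw'
    simp only [Set.mem_setOf_eq] at hw hw'
    omega
  · have hvI : lev v = I := by omega
    obtain ⟨b, c, hbc, h1, h2, -, hb, hc, hall⟩ := top_nb v hvI
    have : (C I).neighborSet v = {w | (C I).Adj v w ∧ lev w + 1 = lev v} ∪ {b, c} := by
      ext w
      simp only [mem_neighborSet, Set.mem_union, Set.mem_setOf_eq, Set.mem_insert_iff,
        Set.mem_singleton_iff]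
      constructor
      · intro h
        rcases C_near v w h with h3 | h3 | h3
        · have : lev w ≤ I := by unfold lev; omega
          omega
        · exact Or.inl ⟨h, h3⟩
        · exact Or.inr (hall w h h3.2)
      · rintro (h | h | h)
        · exact h.1
        · rw [h]; exact h1
        · rw [h]; exact h2
    rw [this, Set.ncard_union_eq _ (Set.toFinite _) (Set.toFinite _), low_ncard,
      Set.ncard_pair hbc]
    rw [Set.disjoint_left]
    intro w hw hw'
    simp only [Set.mem_setOf_eq, Set.mem_insert_iff, Set.mem_singleton_iff] at hw hw'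
    rcases hw' with h | h
    · subst h; omega
    · subst h; omega

theorem C_layered (I : ℕ) : Layered (C I) (lev (I := I)) I := by
  refine ⟨?_, ?_, ?_, ?_, ?_, top_nb, C_deg⟩
  · intro v; unfold lev; omega
  · exact C_same
  · intro v hv
    have hA := (mem_up v (up v hv 0) hv).2 ⟨0, rfl⟩
    have hB := (mem_up v (up v hv 1) hv).2 ⟨1, rfl⟩
    refine ⟨up v hv 0, up v hv 1, ?_, hA.1, hB.1, hA.2, hB.2, ?_⟩
    · intro h
      have := up_inj v hv h
      simp at this
    · intro h
      rcases h with h | h | h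
      · have := hA.2; have := hB.2
        unfold lev at *
        omega
      · have := hA.2; have := hB.2
        unfold lev at *
        omega
      · exact h.2.2.2 rfl
  · intro v hv
    have hA := (mem_low v (low v ⟨0, hv⟩)).2 ⟨⟨0, hv⟩, rfl⟩
    exact ⟨_, hA.1, hA.2⟩
  · intro v hv p
    have hA := (mem_low v (low v ⟨0, by unfold lev at hv; omega⟩)).2 ⟨⟨0, _⟩, rfl⟩
    have hB := (mem_low v (low v ⟨1, hv⟩)).2 ⟨⟨1, hv⟩, rfl⟩
    by_cases h : low v ⟨0, by unfold lev at hv; omega⟩ = p
    · refine ⟨_, ?_, hB.1, hB.2⟩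
      intro h'
      have := low_inj v (h.trans h'.symm)
      simp at this
    · exact ⟨_, h, hA.1, hA.2⟩

/-- a vertex on the top level -/
def topV (I : ℕ) : Cv I := ⟨0, ⟨I, by omega⟩, fun _ => ⟨0, by omega⟩, by
  intro j
  split_ifs <;> simp⟩

lemma sum_lev (I : ℕ) : ∑ v : Cv I, lev v + 2 ≤ 2 * Fintype.card (Cv I) := by
  classical
  have h1 : ∀ v : Cv I, lev v =
      (Finset.univ.filter (fun w : Cv I => (C I).Adj v w ∧ lev w + 1 = lev v)).card := by
    intro v
    conv_lhs => rw [← low_ncard v]
    rw [Set.ncard_eq_toFinset_card']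
    congr 1
    ext w
    simp
  have h2 : ∀ w : Cv I, (Finset.univ.filter (fun v : Cv I =>
      (C I).Adj v w ∧ lev w + 1 = lev v)).card ≤ if w = topV I then 0 else 2 := by
    intro w
    by_cases hw : lev w < I
    · have hne : w ≠ topV I := by
        rintro rfl
        simp [lev, topV] at hw
      rw [if_neg hne, ← up_ncard w hw, Set.ncard_eq_toFinset_card']
      apply Finset.card_le_card
      intro v hv
      simp only [Finset.mem_filter, Finset.mem_univ, true_and] at hv
      simp only [Set.mem_toFinset, Set.mem_setOf_eq]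
      exact ⟨hv.1.symm, hv.2.symm⟩
    · have : (Finset.univ.filter (fun v : Cv I =>
          (C I).Adj v w ∧ lev w + 1 = lev v)) = ∅ := by
        ext v
        simp only [Finset.mem_filter, Finset.mem_univ, true_and, Finset.notMem_empty, iff_false]
        rintro ⟨_, h⟩
        have : lev v ≤ I := by unfold lev; omega
        omega
      rw [this]
      simp
  have h3 : ∑ v : Cv I, lev v = ∑ w : Cv I, (Finset.univ.filter (fun v : Cv I =>
      (C I).Adj v w ∧ lev w + 1 = lev v)).card := by
    calc ∑ v : Cv I, lev v = ∑ v : Cv I, (Finset.univ.filter (fun w : Cv I =>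
          (C I).Adj v w ∧ lev w + 1 = lev v)).card := Finset.sum_congr rfl fun v _ => h1 v
      _ = _ := Finset.sum_card_bipartiteAbove_eq_sum_card_bipartiteBelow
          (fun v w : Cv I => (C I).Adj v w ∧ lev w + 1 = lev v)
  rw [h3]
  calc ∑ w : Cv I, (Finset.univ.filter (fun v : Cv I =>
      (C I).Adj v w ∧ lev w + 1 = lev v)).card + 2
      ≤ ∑ w : Cv I, (if w = topV I then 0 else 2) + ∑ w : Cv I, (if w = topV I then 2 else 0) := by
        gcongr with w _
        · exact h2 w
        · rw [Finset.sum_ite_eq']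
          simp
    _ = ∑ w : Cv I, 2 := by
        rw [← Finset.sum_add_distrib]
        apply Finset.sum_congr rfl
        intro w _
        split_ifs <;> rfl
    _ = 2 * Fintype.card (Cv I) := by simp [mul_comm]

theorem goodSize_C (I : ℕ) : ∃ s m, 0 < s ∧ m + 1 ≤ 4 * s ∧ GoodSize (I + 4) s m := by
  classical
  refine ⟨Fintype.card (Cv I), ∑ v : Cv I, dg (C I) v, Fintype.card_pos_iff.2 ⟨topV I⟩, ?_,
    Cv I, inferInstance, C I, (C_layered I).good, rfl, le_rfl⟩
  have h := sum_lev I
  have h2 : ∑ v : Cv I, dg (C I) v = ∑ v : Cv I, lev v + 2 * Fintype.card (Cv I) := by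
    simp only [C_deg, Finset.sum_add_distrib]
    simp [mul_comm]
  omega

end Pool.Agent.V11278.DegMono
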