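import Mathlib
import Pool.Agent.V11278.DegMono4

/-!
# Transport to `Fin n` and edge counts (helper278)
-/

namespace Pool.Agent.V11278.DegMono

open SimpleGraph

section iso

variable {V W : Type*} {G : SimpleGraph V} {H : SimpleGraph W}

lemma dg_iso (φ : G ≃g H) (v : V) : dg H (φ v) = dg G v := by
  unfold dg
  have : H.neighborSet (φ v) = φ '' (G.neighborSet v) := by
    ext x
    simp only [mem_neighborSet, Set.mem_image]
    constructor
    · intro h
      refine ⟨φ.symm x, ?_, by simp⟩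
      rw [← φ.map_adj_iff]
      simpa using h
    · rintro ⟨y, hy, rfl⟩
      exact φ.map_adj_iff.2 hy
  rw [this, Set.ncard_image_of_injective _ φ.injective]

lemma isDMP_iso (φ : G ≃g H) {l : List V} (h : IsDMP G l) : IsDMP H (l.map φ) := by
  obtain ⟨h1, h2, h3⟩ := h
  refine ⟨h1.map φ.injective, ?_, ?_⟩
  · rw [List.isChain_map]
    exact h2.imp (fun a b hab => φ.map_adj_iff.2 hab)
  · rw [List.isChain_map, List.isChain_map]
    rcases h3 with h3 | h3
    · left
      exact h3.imp (fun a b hab => by rw [dg_iso, dg_iso]; exact hab)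
    · right
      exact h3.imp (fun a b hab => by rw [dg_iso, dg_iso]; exact hab)

lemma mp_le_of_iso [Finite V] [Finite W] (φ : G ≃g H) : mp G ≤ mp H := by
  have hne : {m | ∃ l : List V, IsDMP G l ∧ l.length = m}.Nonempty :=
    ⟨0, [], ⟨List.nodup_nil, List.isChain_nil, Or.inl List.isChain_nil⟩, rfl⟩
  obtain ⟨l, hl, hlen⟩ := Nat.sSup_mem hne (mp_bdd G)
  have := le_mp H (isDMP_iso φ hl)
  rw [List.length_map, hlen] at this
  exact this

lemma mp_eq_of_iso [Finite V] [Finite W] (φ : G ≃g H) : mp G = mp H :=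
  le_antisymm (mp_le_of_iso φ) (mp_le_of_iso φ.symm)

lemma KSat.iso [Finite V] [Finite W] {k : ℕ} (φ : G ≃g H) (h : KSat k G) : KSat k H := by
  refine ⟨by rw [← mp_eq_of_iso φ]; exact h.1, ?_⟩
  intro u v huv hadj
  obtain ⟨a, rfl⟩ := φ.surjective u
  obtain ⟨b, rfl⟩ := φ.surjective v
  have hab : a ≠ b := fun h => huv (by rw [h])
  have hadj' : ¬ G.Adj a b := fun h => hadj (φ.map_adj_iff.2 h)
  have hk := h.2 a b hab hadj'
  have ψ : (G ⊔ edge a b) ≃g (H ⊔ edge (φ a) (φ b)) :=
    ⟨φ.toEquiv, by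
      intro x y
      have h1 : ∀ z w : V, φ.toEquiv z = φ w ↔ z = w := fun z w => φ.injective.eq_iff
      have h2 : H.Adj (φ.toEquiv x) (φ.toEquiv y) ↔ G.Adj x y := φ.map_adj_iff
      have h3 : (φ.toEquiv x ≠ φ.toEquiv y) ↔ x ≠ y := by simp
      simp only [sup_adj, edge_adj, h1, h2, h3]⟩
  rw [← mp_eq_of_iso ψ]
  exact hk

end iso

lemma sum_dg_eq {n : ℕ} (G : SimpleGraph (Fin n)) : ∑ v, dg G v = 2 * G.edgeSet.ncard := by
  classical
  have h1 : ∀ v, dg G v = G.degree v := by
    intro v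
    unfold dg
    rw [Set.ncard_eq_toFinset_card']
    rfl
  have h2 : G.edgeSet.ncard = G.edgeFinset.card := by
    rw [Set.ncard_eq_toFinset_card']
    rfl
  rw [h2, ← G.sum_degrees_eq_twice_card_edges]
  exact Finset.sum_congr rfl fun v _ => h1 v

/-- the transported statement -/
theorem exists_fin {k n m : ℕ} (h : GoodSize k n m) :
    ∃ G : SimpleGraph (Fin n), KSat k G ∧ 2 * G.edgeSet.ncard ≤ m := by
  obtain ⟨V, iV, G, hG, hc, hd⟩ := h
  let e : Fin n ≃ V := (Fintype.equivFinOfCardEq hc).symm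
  let φ : G.comap e ≃g G := SimpleGraph.Iso.comap e G
  refine ⟨G.comap e, hG.kSat.iso φ.symm, ?_⟩
  rw [← sum_dg_eq]
  have : ∑ v, dg (G.comap e) v = ∑ v, dg G v := by
    rw [← Equiv.sum_comp e]
    exact Finset.sum_congr rfl fun v _ => (dg_iso φ v).symm
  rw [this]
  exact hd

/-- for every `k ≥ 2` and all large `n` there is a `k`-saturated graph on `n` vertices with at
most `2 n` edges -/
theorem exists_sat (k : ℕ) (hk : 2 ≤ k) : ∃ n₀, ∀ n, n₀ ≤ n →
    ∃ G : SimpleGraph (Fin n), KSat k G ∧ G.edgeSet.ncard ≤ 2 * n := by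
  have key : ∃ n₀, ∀ n, n₀ ≤ n → GoodSize k n (4 * n) := by
    rcases Nat.lt_or_ge k 3 with h3 | h3
    · obtain rfl : k = 2 := by omega
      refine ⟨0, fun n _ => ?_⟩
      have := (goodSize_top (k := 2) le_rfl).mul (by norm_num) n
      norm_num at this
      exact this.mono (by omega)
    · rcases Nat.lt_or_ge k 4 with h4 | h4
      · obtain rfl : k = 3 := by omega
        exact goodSize_large le_rfl (by norm_num : 0 < 3 - 1) (goodSize_top (by norm_num))
          (goodSize_D le_rfl) (goodSize_top (by norm_num)) (by norm_num)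
      · obtain ⟨I, rfl⟩ : ∃ I, k = I + 4 := ⟨k - 4, by omega⟩
        obtain ⟨s, m, hs, hm, hg⟩ := goodSize_C I
        exact goodSize_large (by omega) hs (goodSize_top (by omega)) (goodSize_D (by omega)) hg hm
  obtain ⟨n₀, h⟩ := key
  refine ⟨n₀, fun n hn => ?_⟩
  obtain ⟨G, h1, h2⟩ := exists_fin (h n hn)
  exact ⟨G, h1, by omega⟩

end Pool.Agent.V11278.DegMono
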