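import Mathlib

/-!
# Posets agreeing with a polytopal lattice outside one rank: the combinatorial part (helper278)
-/

namespace Pool.Agent.V11278.FaceRank

/-- the properties of face lattices of polytopes that are used -/
structure PL (L : Type) [SemilatticeInf L] (ρ : L → ℕ) : Prop where
  mono : ∀ a b : L, a < b → ρ a < ρ b
  up : ∀ a b : L, a < b → ∃ c, a < c ∧ c ≤ b ∧ ρ c = ρ a + 1
  dn : ∀ a b : L, a < b → ∃ c, a ≤ c ∧ c < b ∧ ρ b = ρ c + 1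
  dia : ∀ a b : L, a < b → ρ b = ρ a + 2 → ∀ c, a < c → c < b →
    ∃ c', (a < c' ∧ c' < b) ∧ c' ≠ c ∧ ∀ d, a < d → d < b → d = c ∨ d = c'
  con : ∀ (a b : L) (U : Set L), (∃ c ∈ U, a < c ∧ c ≤ b ∧ ρ c = ρ a + 1) →
    (∀ c ∈ U, a < c → ρ c = ρ a + 1 → ∀ e, e ≤ b → c < e → ρ e = ρ a + 2 →
      ∀ c', a < c' → c' < e → c' ∈ U) →
    ∀ c, a < c → c ≤ b → ρ c = ρ a + 1 → c ∈ U

/-- the properties of Eulerian posets that are used -/
structure QL (Q : Type) [PartialOrder Q] (σ : Q → ℕ) : Prop where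
  mono : ∀ a b : Q, a < b → σ a < σ b
  up : ∀ a b : Q, a < b → ∃ c, a < c ∧ c ≤ b ∧ σ c = σ a + 1
  dn : ∀ a b : Q, a < b → ∃ c, a ≤ c ∧ c < b ∧ σ b = σ c + 1
  two : ∀ a b : Q, a < b → σ b = σ a + 2 → ({c | a < c ∧ c < b} : Set Q).ncard = 2
  four : ∀ a b : Q, a < b → σ b = σ a + 4 →
    ({c | (a < c ∧ c < b) ∧ σ c = σ a + 1} : Set Q).ncard +
      ({c | (a < c ∧ c < b) ∧ σ c = σ a + 3} : Set Q).ncard =
    ({c | (a < c ∧ c < b) ∧ σ c = σ a + 2} : Set Q).ncard + 2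

section L

variable {L : Type} [SemilatticeInf L] {ρ : L → ℕ}

lemma PL.eq_of_le (h : PL L ρ) {a b : L} (hab : a ≤ b) (hr : ρ b ≤ ρ a) : a = b := by
  rcases hab.eq_or_lt with h' | h'
  · exact h'
  · have := h.mono _ _ h'; omega

lemma PL.rank_le (h : PL L ρ) {a b : L} (hab : a ≤ b) : ρ a ≤ ρ b := by
  rcases hab.eq_or_lt with h' | h'
  · rw [h']
  · exact (h.mono _ _ h').le

lemma PL.two (h : PL L ρ) {a b : L} (hab : a < b) (hr : ρ b = ρ a + 2) :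
    ∃ c c', c ≠ c' ∧ (a < c ∧ c < b) ∧ (a < c' ∧ c' < b) ∧ ∀ d, a < d → d < b → d = c ∨ d = c' := by
  obtain ⟨c, h1, h2, h3⟩ := h.up a b hab
  have hcb : c < b := lt_of_le_of_ne h2 (by rintro rfl; omega)
  obtain ⟨c', h4, h5, h6⟩ := h.dia a b hab hr c h1 hcb
  exact ⟨c, c', h5.symm, ⟨h1, hcb⟩, h4, h6⟩

/-- the rank of a meet of two elements of the same rank -/
lemma PL.inf_rank (h : PL L ρ) {y₁ y₂ x₁ x₂ : L} {k : ℕ} (hy : y₁ ≠ y₂) (h1 : ρ y₁ = k + 2)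
    (h2 : ρ y₂ = k + 2) (hx : x₁ ≠ x₂) (h3 : ρ x₁ = k) (h4 : ρ x₂ = k) (h11 : x₁ ≤ y₁)
    (h12 : x₁ ≤ y₂) (h21 : x₂ ≤ y₁) (h22 : x₂ ≤ y₂) : ρ (y₁ ⊓ y₂) = k + 1 := by
  have e1 : ρ (y₁ ⊓ y₂) < k + 2 := by
    by_contra hc
    push Not at hc
    have e := h.eq_of_le (a := y₁ ⊓ y₂) inf_le_left (by omega)
    have e' := h.eq_of_le (a := y₁ ⊓ y₂) inf_le_right (by omega)
    exact hy (e.symm.trans e')
  have e2 : k < ρ (y₁ ⊓ y₂) := by
    by_contra hc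
    push Not at hc
    have e := h.eq_of_le (a := x₁) (b := y₁ ⊓ y₂) (le_inf h11 h12) (by omega)
    have e' := h.eq_of_le (a := x₂) (b := y₁ ⊓ y₂) (le_inf h21 h22) (by omega)
    exact hx (e.trans e'.symm)
  omega

/-- two elements of rank `k` below an element of rank `k + 1` and another element -/
lemma PL.lt_of_two (h : PL L ρ) {F y x₁ x₂ : L} {k : ℕ} (hF : ρ F = k + 1)
    (hx : x₁ ≠ x₂) (h3 : ρ x₁ = k) (h4 : ρ x₂ = k) (h11 : x₁ ≤ F)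
    (h12 : x₁ ≤ y) (h21 : x₂ ≤ F) (h22 : x₂ ≤ y) : F ≤ y := by
  have e2 : k < ρ (F ⊓ y) := by
    by_contra hc
    push Not at hc
    have e := h.eq_of_le (a := x₁) (b := F ⊓ y) (le_inf h11 h12) (by omega)
    have e' := h.eq_of_le (a := x₂) (b := F ⊓ y) (le_inf h21 h22) (by omega)
    exact hx (e.trans e'.symm)
  have e := h.eq_of_le (a := F ⊓ y) (b := F) inf_le_left (by omega)
  rw [← e]
  exact inf_le_right

/-- connectivity of the coatoms of an interval -/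
lemma PL.con' (h : PL L ρ) : ∀ (n : ℕ) (a b : L) (U : Set L), ρ b = ρ a + n →
    (∃ c ∈ U, a ≤ c ∧ c < b ∧ ρ b = ρ c + 1) →
    (∀ c ∈ U, c < b → ρ b = ρ c + 1 → ∀ w, a ≤ w → w < c → ρ c = ρ w + 1 →
      ∀ c', w < c' → c' < b → c' ∈ U) →
    ∀ c, a ≤ c → c < b → ρ b = ρ c + 1 → c ∈ U := by
  intro n
  induction n with
  | zero =>
    intro a b U hn _ _ c h1 h2 _
    have := h.rank_le h1
    have := h.mono _ _ h2
    omega
  | succ n ih =>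
    intro a b U hn hne hcl c h1 h2 h3
    obtain ⟨c0, hc0, g1, g2, g3⟩ := hne
    by_cases hn0 : n = 0
    · have e := h.eq_of_le h1 (by omega)
      have e' := h.eq_of_le g1 (by omega)
      rwa [← e, e']
    have key : ∀ t, a < t → ρ t = ρ a + 1 → (∃ c ∈ U, t ≤ c ∧ c < b ∧ ρ b = ρ c + 1) →
        ∀ c, t ≤ c → c < b → ρ b = ρ c + 1 → c ∈ U := by
      intro t ht htr hc
      exact ih t b U (by omega) hc (fun c hcU k1 k2 w k3 k4 k5 c' k6 k7 =>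
        hcl c hcU k1 k2 w (ht.le.trans k3) k4 k5 c' k6 k7)
    have hmain := h.con a b {t | ∃ c ∈ U, t ≤ c ∧ c < b ∧ ρ b = ρ c + 1} ?_ ?_
    · have hac : a < c := lt_of_le_of_ne h1 (by rintro rfl; omega)
      obtain ⟨t, k1, k2, k3⟩ := h.up a c hac
      exact key t k1 k3 (hmain t k1 (k2.trans h2.le) k3) c k2 h2 h3
    · have hac : a < c0 := lt_of_le_of_ne g1 (by rintro rfl; omega)
      obtain ⟨t, k1, k2, k3⟩ := h.up a c0 hac
      exact ⟨t, ⟨c0, hc0, k2, g2, g3⟩, k1, k2.trans g2.le, k3⟩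
    · intro t htU ht htr e heb hte her t' ht' hte'
      rcases heb.eq_or_lt with rfl | heb'
      · obtain ⟨c1, k1, k2, k3, k4⟩ := htU
        have e1 := h.eq_of_le k2 (by omega)
        subst e1
        have r' := h.mono _ _ ht'
        have r'' := h.mono _ _ hte'
        exact ⟨t', hcl t k1 k3 k4 a le_rfl ht htr t' ht' hte', le_rfl, hte', by omega⟩
      · obtain ⟨c1, k1, k2, k3⟩ := h.dn e b heb'
        exact ⟨c1, key t ht htr htU c1 (hte.le.trans k1) k2 k3, hte'.le.trans k1, k2, k3⟩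

end L

section Q

variable {Q : Type} [PartialOrder Q] {σ : Q → ℕ}

lemma QL.two' (h : QL Q σ) {a b : Q} (hab : a < b) (hr : σ b = σ a + 2) :
    ∃ c c', c ≠ c' ∧ (a < c ∧ c < b) ∧ (a < c' ∧ c' < b) ∧ ∀ d, a < d → d < b → d = c ∨ d = c' := by
  obtain ⟨c, c', h1, h2⟩ := Set.ncard_eq_two.1 (h.two a b hab hr)
  have e1 : c ∈ ({c | a < c ∧ c < b} : Set Q) := by rw [h2]; simp
  have e2 : c' ∈ ({c | a < c ∧ c < b} : Set Q) := by rw [h2]; simp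
  refine ⟨c, c', h1, e1, e2, fun d k1 k2 => ?_⟩
  have e3 : d ∈ ({c | a < c ∧ c < b} : Set Q) := ⟨k1, k2⟩
  rw [h2] at e3
  simpa using e3

end Q

/-- the data of the comparison -/
structure Cmp (L Q : Type) [SemilatticeInf L] [PartialOrder Q] (ρ : L → ℕ) (σ : Q → ℕ)
    (R : ℕ) (j : L → Q) (bot top : L) : Prop where
  hL : PL L ρ
  hQ : QL Q σ
  j1 : ∀ x, ρ x ≠ R → σ (j x) = ρ x
  j2 : ∀ x y, ρ x ≠ R → ρ y ≠ R → (j x ≤ j y ↔ x ≤ y)
  j3 : ∀ q, σ q ≠ R → ∃ x, ρ x ≠ R ∧ j x = q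
  hbot : ∀ x, bot ≤ x
  htop : ∀ x, x ≤ top
  hR2 : ρ bot + 2 ≤ R
  hRt : R + 2 ≤ ρ top
  qb : ∀ e, σ e = R → j bot < e
  qt : ∀ e, σ e = R → e < j top

section main

variable {L Q : Type} [SemilatticeInf L] [PartialOrder Q] {ρ : L → ℕ} {σ : Q → ℕ}
  {R : ℕ} {j : L → Q} {bot top : L}

lemma Cmp.lt (h : Cmp L Q ρ σ R j bot top) {x y : L} (hx : ρ x ≠ R) (hy : ρ y ≠ R) :
    j x < j y ↔ x < y := by
  rw [lt_iff_le_not_ge, lt_iff_le_not_ge, h.j2 x y hx hy, h.j2 y x hy hx]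

lemma Cmp.inj (h : Cmp L Q ρ σ R j bot top) {x y : L} (hx : ρ x ≠ R) (hy : ρ y ≠ R)
    (he : j x = j y) : x = y :=
  le_antisymm ((h.j2 x y hx hy).1 he.le) ((h.j2 y x hy hx).1 he.ge)

/-- an element of `Q` outside the rank `R` -/
lemma Cmp.lift (h : Cmp L Q ρ σ R j bot top) {q : Q} (hq : σ q ≠ R) :
    ∃ x, ρ x = σ q ∧ j x = q := by
  obtain ⟨x, h1, h2⟩ := h.j3 q hq
  exact ⟨x, by rw [← h.j1 x h1, h2], h2⟩


/-- the local data of an element of rank `R` -/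
lemma Cmp.data (h : Cmp L Q ρ σ R j bot top) {e : Q} (he : σ e = R) :
    ∃ F Y1 X1 X2, ρ F = R ∧ ρ Y1 = R + 1 ∧ ρ X1 + 1 = R ∧ ρ X2 + 1 = R ∧ X1 ≠ X2 ∧ e < j Y1 ∧
      j X1 < e ∧ j X2 < e ∧ X1 < F ∧ X2 < F ∧ F < Y1 ∧ (∀ X, ρ X + 1 = R → j X < e → X < F) := by
  have hL := h.hL
  have hQ := h.hQ
  have hR2 := h.hR2
  have hRt := h.hRt
  have jb : σ (j bot) = ρ bot := h.j1 bot (by omega)
  have jt : σ (j top) = ρ top := h.j1 top (by omega)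
  -- two elements above
  obtain ⟨y0, a1, a2, a3⟩ := hQ.up e (j top) (h.qt e he)
  have a4 : y0 < j top := lt_of_le_of_ne a2 (by rintro rfl; omega)
  obtain ⟨z, a5, a6, a7⟩ := hQ.up y0 (j top) a4
  obtain ⟨y1, y2, hy12, ⟨b1, b2⟩, ⟨b3, b4⟩, -⟩ := hQ.two' (a1.trans a5) (by omega)
  have sy1 : σ y1 = R + 1 := by
    have := hQ.mono _ _ b1
    have := hQ.mono _ _ b2
    omega
  have sy2 : σ y2 = R + 1 := by
    have := hQ.mono _ _ b3
    have := hQ.mono _ _ b4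
    omega
  obtain ⟨Y1, rY1, rfl⟩ := h.lift (q := y1) (by omega)
  obtain ⟨Y2, rY2, rfl⟩ := h.lift (q := y2) (by omega)
  -- two elements below
  obtain ⟨x0, c1, c2, c3⟩ := hQ.dn (j bot) e (h.qb e he)
  have c4 : j bot < x0 := lt_of_le_of_ne c1 (by rintro rfl; omega)
  obtain ⟨w, c5, c6, c7⟩ := hQ.dn (j bot) x0 c4
  obtain ⟨x1, x2, hx12, ⟨d1, d2⟩, ⟨d3, d4⟩, -⟩ := hQ.two' (c6.trans c2) (by omega)
  have sx1 : σ x1 + 1 = R := by
    have := hQ.mono _ _ d1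
    have := hQ.mono _ _ d2
    omega
  have sx2 : σ x2 + 1 = R := by
    have := hQ.mono _ _ d3
    have := hQ.mono _ _ d4
    omega
  clear a1 a2 a3 a4 a5 a6 a7 c1 c2 c3 c4 c5 c6 c7 d1 d3 b2 b4 jb jt
  obtain ⟨X1, rX1, rfl⟩ := h.lift (q := x1) (by omega)
  obtain ⟨X2, rX2, rfl⟩ := h.lift (q := x2) (by omega)
  have hY : Y1 ≠ Y2 := fun hh => hy12 (by rw [hh])
  have hX : X1 ≠ X2 := fun hh => hx12 (by rw [hh])
  have nY1 : ρ Y1 ≠ R := by omega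
  have nY2 : ρ Y2 ≠ R := by omega
  have nX1 : ρ X1 ≠ R := by omega
  have nX2 : ρ X2 ≠ R := by omega
  have l11 : X1 < Y1 := (h.lt nX1 nY1).1 (d2.trans b1)
  have l12 : X1 < Y2 := (h.lt nX1 nY2).1 (d2.trans b3)
  have l21 : X2 < Y1 := (h.lt nX2 nY1).1 (d4.trans b1)
  have l22 : X2 < Y2 := (h.lt nX2 nY2).1 (d4.trans b3)
  obtain ⟨k, hk⟩ : ∃ k, R = k + 1 := ⟨R - 1, by omega⟩
  have rF : ρ (Y1 ⊓ Y2) = k + 1 := hL.inf_rank hY (by omega) (by omega) hX (by omega)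
    (by omega) l11.le l12.le l21.le l22.le
  have X1F : X1 ≤ Y1 ⊓ Y2 := le_inf l11.le l12.le
  have X2F : X2 ≤ Y1 ⊓ Y2 := le_inf l21.le l22.le
  refine ⟨Y1 ⊓ Y2, Y1, X1, X2, by omega, by omega, by omega, by omega, hX, b1, d2, d4,
    lt_of_le_of_ne X1F ?_, lt_of_le_of_ne X2F ?_, lt_of_le_of_ne inf_le_left ?_, ?_⟩
  · intro hh; rw [← hh] at rF; omega
  · intro hh; rw [← hh] at rF; omega
  · intro hh; rw [hh] at rF; omega
  · intro X rX hX'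
    have nX : ρ X ≠ R := by omega
    have e1 : X < Y1 := (h.lt nX nY1).1 (hX'.trans b1)
    have e2 : X < Y2 := (h.lt nX nY2).1 (hX'.trans b3)
    exact lt_of_le_of_ne (le_inf e1.le e2.le) (by intro hh; rw [← hh] at rF; omega)

lemma Cmp.closeDown (h : Cmp L Q ρ σ R j bot top) {e : Q} (he : σ e = R) {F : L} (rF : ρ F = R)
    (s2 : ∀ X, ρ X + 1 = R → j X < e → X < F) {X1 : L} (rX1 : ρ X1 + 1 = R) (hX1 : j X1 < e)
    (X1F : X1 < F) : ∀ X, ρ X + 1 = R → X < F → j X < e := by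
  have hL := h.hL
  have hQ := h.hQ
  intro X rX hXF
  have rb := hL.rank_le (h.hbot F)
  refine hL.con' (ρ F - ρ bot) bot F {X | j X < e} (by omega) ⟨X1, hX1, h.hbot _, X1F, by omega⟩
    ?_ X (h.hbot _) hXF (by omega)
  intro c hc c1 c2 w c3 c4 c5 c' c6 c7
  have nw : ρ w ≠ R := by omega
  have nc : ρ c ≠ R := by omega
  have e1 : j w < j c := (h.lt nw nc).2 c4
  have sw : σ (j w) = ρ w := h.j1 _ nw
  obtain ⟨p1, p2, hp, ⟨q1, q2⟩, ⟨q3, q4⟩, -⟩ := hQ.two' (e1.trans hc) (by omega)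
  have sp1 : σ p1 + 1 = R := by
    have := hQ.mono _ _ q1
    have := hQ.mono _ _ q2
    omega
  have sp2 : σ p2 + 1 = R := by
    have := hQ.mono _ _ q3
    have := hQ.mono _ _ q4
    omega
  obtain ⟨P1, rP1, rfl⟩ := h.lift (q := p1) (by omega)
  obtain ⟨P2, rP2, rfl⟩ := h.lift (q := p2) (by omega)
  have f1 : w < P1 := (h.lt nw (by omega)).1 q1
  have f2 : w < P2 := (h.lt nw (by omega)).1 q3
  have f3 : P1 < F := s2 P1 (by omega) q2
  have f4 : P2 < F := s2 P2 (by omega) q4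
  obtain ⟨P', -, hP', hall⟩ := hL.dia w F (f1.trans f3) (by omega) P1 f1 f3
  have e2 : P2 = P' := by
    rcases hall P2 f2 f4 with h' | h'
    · exact absurd (by rw [h']) hp
    · exact h'
  rcases hall c' c6 c7 with h' | h'
  · rw [h']; exact q2
  · rw [h', ← e2]; exact q4

lemma Cmp.closeUp (h : Cmp L Q ρ σ R j bot top) {e : Q} (he : σ e = R) {F : L} (rF : ρ F = R)
    (s2' : ∀ Y, ρ Y = R + 1 → e < j Y → F < Y) {Y1 : L} (rY1 : ρ Y1 = R + 1) (hY1 : e < j Y1)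
    (FY1 : F < Y1) : ∀ Y, ρ Y = R + 1 → F < Y → e < j Y := by
  have hL := h.hL
  have hQ := h.hQ
  intro Y rY hFY
  refine hL.con F top {Y | e < j Y} ⟨Y1, hY1, FY1, h.htop _, by omega⟩ ?_ Y hFY (h.htop _)
    (by omega)
  intro c hc c1 c2 e' c3 c4 c5 c' c6 c7
  have ne : ρ e' ≠ R := by omega
  have nc : ρ c ≠ R := by omega
  have e1 : j c < j e' := (h.lt nc ne).2 c4
  have sw : σ (j e') = ρ e' := h.j1 _ ne
  obtain ⟨p1, p2, hp, ⟨q1, q2⟩, ⟨q3, q4⟩, -⟩ := hQ.two' (lt_trans hc e1) (by omega)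
  have sp1 : σ p1 = R + 1 := by
    have := hQ.mono _ _ q1
    have := hQ.mono _ _ q2
    omega
  have sp2 : σ p2 = R + 1 := by
    have := hQ.mono _ _ q3
    have := hQ.mono _ _ q4
    omega
  obtain ⟨P1, rP1, rfl⟩ := h.lift (q := p1) (by omega)
  obtain ⟨P2, rP2, rfl⟩ := h.lift (q := p2) (by omega)
  have f1 : P1 < e' := (h.lt (by omega) ne).1 q2
  have f2 : P2 < e' := (h.lt (by omega) ne).1 q4
  have f3 : F < P1 := s2' P1 (by omega) q1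
  have f4 : F < P2 := s2' P2 (by omega) q3
  obtain ⟨P', -, hP', hall⟩ := hL.dia F e' (f3.trans f1) (by omega) P1 f3 f1
  have e2 : P2 = P' := by
    rcases hall P2 f4 f2 with h' | h'
    · exact absurd (by rw [h']) hp
    · exact h'
  rcases hall c' c6 c7 with h' | h'
  · rw [h']; exact q1
  · rw [h', ← e2]; exact q3

/-- the face that belongs to an element of rank `R` -/
theorem Cmp.face (h : Cmp L Q ρ σ R j bot top) {e : Q} (he : σ e = R) :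
    ∃ F, ρ F = R ∧ (∀ x, ρ x ≠ R → (j x < e ↔ x < F)) ∧ (∀ y, ρ y ≠ R → (e < j y ↔ F < y)) := by
  obtain ⟨F, Y1, X1, X2, rF, rY1, rX1, rX2, hX, g1, g2, g3, g4, g5, g6, s2⟩ := h.data he
  have hL := h.hL
  have hQ := h.hQ
  have s2' : ∀ Y, ρ Y = R + 1 → e < j Y → F < Y := by
    intro Y rY hY'
    have nX1 : ρ X1 ≠ R := by omega
    have nX2 : ρ X2 ≠ R := by omega
    have nY : ρ Y ≠ R := by omega
    have e1 : X1 < Y := (h.lt nX1 nY).1 (g2.trans hY')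
    have e2 : X2 < Y := (h.lt nX2 nY).1 (g3.trans hY')
    obtain ⟨k, hk⟩ : ∃ k, R = k + 1 := ⟨R - 1, by omega⟩
    exact lt_of_le_of_ne (hL.lt_of_two (k := k) (by omega) hX (by omega) (by omega) g4.le e1.le
      g5.le e2.le) (by intro hh; rw [hh] at rF; omega)
  have s3 := h.closeDown he rF s2 rX1 g2 g4
  have s4 := h.closeUp he rF s2' rY1 g1 g6
  clear g1 g2 g3 g4 g5 g6
  refine ⟨F, rF, fun x hx => ⟨fun hh => ?_, fun hh => ?_⟩, fun y hy => ⟨fun hh => ?_,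
    fun hh => ?_⟩⟩
  · obtain ⟨c, g1, g2, g3⟩ := hQ.dn _ _ hh
    obtain ⟨C, rC, rfl⟩ := h.lift (q := c) (by omega)
    exact lt_of_le_of_lt ((h.j2 _ _ hx (by omega)).1 g1) (s2 C (by omega) g2)
  · obtain ⟨c, g1, g2, g3⟩ := hL.dn _ _ hh
    exact lt_of_le_of_lt ((h.j2 _ _ hx (by omega)).2 g1) (s3 c (by omega) g2)
  · obtain ⟨c, g1, g2, g3⟩ := hQ.up _ _ hh
    obtain ⟨C, rC, rfl⟩ := h.lift (q := c) (by omega)
    exact lt_of_lt_of_le (s2' C (by omega) g1) ((h.j2 _ _ (by omega) hy).1 g2)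
  · obtain ⟨c, g1, g2, g3⟩ := hL.up _ _ hh
    exact lt_of_lt_of_le (s4 c (by omega) g1) ((h.j2 _ _ (by omega) hy).2 g2)

end main

end Pool.Agent.V11278.FaceRank
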