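import Mathlib
import Pool.Agent.V11278.FaceRank

/-!
# Posets agreeing with a polytopal lattice outside one rank: multiplicities (helper278)
-/

namespace Pool.Agent.V11278.FaceRank

section main

variable {L Q : Type} [SemilatticeInf L] [PartialOrder Q] {ρ : L → ℕ} {σ : Q → ℕ}
  {R : ℕ} {j : L → Q} {bot top : L}

/-- the number of elements of `Q` that belong to a face -/
noncomputable def mu (σ : Q → ℕ) (R : ℕ) (f : Q → L) (F : L) : ℕ :=
  ({e | σ e = R ∧ f e = F} : Set Q).ncard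

/-- the assignment of faces -/
def IsF (ρ : L → ℕ) (σ : Q → ℕ) (R : ℕ) (j : L → Q) (f : Q → L) : Prop :=
  ∀ e, σ e = R → ρ (f e) = R ∧ (∀ x, ρ x ≠ R → (j x < e ↔ x < f e)) ∧
    (∀ y, ρ y ≠ R → (e < j y ↔ f e < y))

lemma PL.pair (hL : PL L ρ) {x y F1 F2 : L} (hr : ρ y = ρ x + 2) (h1 : x < F1) (h1' : F1 < y)
    (h2 : x < F2) (h2' : F2 < y) (hne : F1 ≠ F2) {d : L} (h3 : x < d) (h3' : d < y) :
    d = F1 ∨ d = F2 := by
  obtain ⟨c', -, -, hall⟩ := hL.dia x y (h1.trans h1') hr F1 h1 h1'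
  rcases hall F2 h2 h2' with h | h
  · exact absurd h.symm hne
  · rw [h]; exact hall d h3 h3'

lemma Cmp.sum_two [Finite Q] (h : Cmp L Q ρ σ R j bot top) {f : Q → L} (hf : IsF ρ σ R j f)
    {x y F1 F2 : L} (rx : ρ x + 1 = R) (ry : ρ y = R + 1) (h1 : x < F1) (h1' : F1 < y)
    (h2 : x < F2) (h2' : F2 < y) (hne : F1 ≠ F2) : mu σ R f F1 + mu σ R f F2 = 2 := by
  have hxy : j x < j y := (h.lt (by omega) (by omega)).2 (h1.trans h1')
  have sx : σ (j x) = ρ x := h.j1 _ (by omega)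
  have sy : σ (j y) = ρ y := h.j1 _ (by omega)
  have := h.hQ.two (j x) (j y) hxy (by omega)
  rw [← this]
  unfold mu
  rw [← Set.ncard_union_eq]
  · congr 1
    ext e
    simp only [Set.mem_union, Set.mem_setOf_eq]
    constructor
    · rintro (⟨he, rfl⟩ | ⟨he, rfl⟩)
      · exact ⟨((hf e he).2.1 x (by omega)).2 h1, ((hf e he).2.2 y (by omega)).2 h1'⟩
      · exact ⟨((hf e he).2.1 x (by omega)).2 h2, ((hf e he).2.2 y (by omega)).2 h2'⟩
    · rintro ⟨k1, k2⟩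
      have he : σ e = R := by
        have := h.hQ.mono _ _ k1
        have := h.hQ.mono _ _ k2
        omega
      have g1 := ((hf e he).2.1 x (by omega)).1 k1
      have g2 := ((hf e he).2.2 y (by omega)).1 k2
      rcases h.hL.pair (by omega) h1 h1' h2 h2' hne g1 g2 with g | g
      · exact Or.inl ⟨he, g⟩
      · exact Or.inr ⟨he, g⟩
  · rw [Set.disjoint_left]
    rintro e ⟨-, he⟩ ⟨-, he'⟩
    exact hne (he.symm.trans he')

/-- the partner of a face in a corner -/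
lemma PL.partner (hL : PL L ρ) {x y F : L} (hr : ρ y = ρ x + 2) (h1 : x < F) (h1' : F < y) :
    ∃ G, x < G ∧ G < y ∧ F ≠ G := by
  obtain ⟨c', h2, h3, -⟩ := hL.dia x y (h1.trans h1') hr F h1 h1'
  exact ⟨c', h2.1, h2.2, h3.symm⟩

/-- in a section around a face of multiplicity different from one all multiplicities are
different from one -/
lemma Cmp.spread [Finite Q] (h : Cmp L Q ρ σ R j bot top) {f : Q → L} (hf : IsF ρ σ R j f)
    {a z x0 F0 : L} (ra : ρ a + 2 = R) (rz : ρ z = R + 2) (hax : a < x0) (rx0 : ρ x0 + 1 = R)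
    (hxF : x0 < F0) (hFz : F0 < z) (rF0 : ρ F0 = R) (hm : mu σ R f F0 ≠ 1) :
    ∀ F, a < F → F < z → ρ F = R → mu σ R f F ≠ 1 := by
  have hL := h.hL
  have key : ∀ v F, a < v → ρ v + 1 = R → v < F → F < z → ρ F = R → mu σ R f F ≠ 1 →
      ∀ F', v < F' → F' < z → ρ F' = R → mu σ R f F' ≠ 1 := by
    intro v F hav rv hvF hFz rF hmF F' hvF' hF'z rF'
    refine hL.con v z {F | mu σ R f F ≠ 1} ⟨F, hmF, hvF, hFz.le, by omega⟩ ?_ F' hvF' hF'z.le
      (by omega)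
    intro c hc c1 c2 e c3 c4 c5 c' c6 c7
    by_cases hcc : c = c'
    · rw [← hcc]; exact hc
    · have := h.sum_two hf rv (by omega) c1 c4 c6 c7 hcc
      have hc' : mu σ R f c ≠ 1 := hc
      show mu σ R f c' ≠ 1
      omega
  have key2 : ∀ v, a < v → v ≤ z → ρ v = ρ a + 1 →
      v ∈ {v | ∀ F, v < F → F < z → ρ F = R → mu σ R f F ≠ 1} := by
    refine hL.con a z _ ⟨x0, key x0 F0 hax rx0 hxF hFz rF0 hm, hax, (hxF.trans hFz).le, by omega⟩ ?_
    intro v hv v1 v2 e e1 e2 e3 v' v3 v4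
    have hez : e < z := lt_of_le_of_ne e1 (by rintro rfl; omega)
    have hme : mu σ R f e ≠ 1 := hv e e2 hez (by omega)
    have rv' := hL.mono _ _ v3
    have rv'' := hL.mono _ _ v4
    exact key v' e v3 (by omega) v4 hez (by omega) hme
  intro F haF hFz rF
  obtain ⟨v, v1, v2, v3⟩ := hL.up a F haF
  have hvF : v < F := lt_of_le_of_ne v2 (by rintro rfl; omega)
  exact key2 v v1 (v2.trans hFz.le) v3 F hvF hFz rF

/-- two faces of multiplicity two above a vertex of the section -/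
lemma Cmp.two_up [Finite Q] (h : Cmp L Q ρ σ R j bot top) {f : Q → L} (hf : IsF ρ σ R j f)
    {a z v : L} (rz : ρ z = R + 2) (hav : a < v) (hvz : v < z) (rv : ρ v + 1 = R)
    (hall : ∀ F, a < F → F < z → ρ F = R → mu σ R f F ≠ 1) :
    ∃ F1 F2, F1 ≠ F2 ∧ (v < F1 ∧ F1 < z ∧ mu σ R f F1 = 2) ∧ (v < F2 ∧ F2 < z ∧ mu σ R f F2 = 2) := by
  have hL := h.hL
  have step : ∀ F y, v < F → F < y → y < z → ρ y = R + 1 →
      ∃ G, v < G ∧ G < y ∧ F ≠ G ∧ mu σ R f F + mu σ R f G = 2 ∧ mu σ R f F ≠ 1 := by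
    intro F y h1 h2 h3 ry
    obtain ⟨G, g1, g2, g3⟩ := hL.partner (x := v) (y := y) (by omega) h1 h2
    have rF := hL.mono _ _ h1
    have rF' := hL.mono _ _ h2
    exact ⟨G, g1, g2, g3, h.sum_two hf rv ry h1 h2 g1 g2 g3,
      hall F (hav.trans h1) (h2.trans h3) (by omega)⟩
  -- a first face of multiplicity two
  obtain ⟨F1, hF1, hF1z, hm1⟩ : ∃ F1, v < F1 ∧ F1 < z ∧ mu σ R f F1 = 2 := by
    obtain ⟨F, k1, k2, k3⟩ := hL.up v z hvz
    have hFz : F < z := lt_of_le_of_ne k2 (by rintro rfl; omega)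
    obtain ⟨y, k4, k5, k6⟩ := hL.up F z hFz
    have hyz : y < z := lt_of_le_of_ne k5 (by rintro rfl; omega)
    obtain ⟨G, g1, g2, g3, g4, g5⟩ := step F y k1 k4 hyz (by omega)
    by_cases h0 : mu σ R f F = 2
    · exact ⟨F, k1, hFz, h0⟩
    · obtain ⟨G', -, -, -, g9, g10⟩ := step G y g1 g2 hyz (by omega)
      exact ⟨G, g1, g2.trans hyz, by omega⟩
  have rF1 : ρ F1 = R := by
    by_contra hne
    have : ({e | σ e = R ∧ f e = F1} : Set Q) = ∅ := by
      ext e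
      simp only [Set.mem_setOf_eq, Set.mem_empty_iff_false, iff_false, not_and]
      rintro he rfl
      exact hne (hf e he).1
    unfold mu at hm1
    rw [this] at hm1
    simp at hm1
  obtain ⟨y1, y2, hy, ⟨p1, p2⟩, ⟨p3, p4⟩, pall⟩ := hL.two hF1z (by omega)
  have ry1 := hL.mono _ _ p1
  have ry1' := hL.mono _ _ p2
  have ry2 := hL.mono _ _ p3
  have ry2' := hL.mono _ _ p4
  obtain ⟨G, g1, g2, g3, g4, g5⟩ := step F1 y1 hF1 p1 p2 (by omega)
  have rG1 := hL.mono _ _ g1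
  have rG2 := hL.mono _ _ g2
  obtain ⟨y3, q1, q2, q3⟩ := hL.partner (x := G) (y := z) (by omega) g2 p2
  have hy32 : y2 ≠ y3 := by
    rintro rfl
    have e1 : ρ (y1 ⊓ y2) ≤ R := by
      by_contra hc
      push Not at hc
      have e := hL.eq_of_le (a := y1 ⊓ y2) inf_le_left (by omega)
      have e' := hL.eq_of_le (a := y1 ⊓ y2) inf_le_right (by omega)
      exact hy (e.symm.trans e')
    have e2 := hL.eq_of_le (a := F1) (b := y1 ⊓ y2) (le_inf p1.le p3.le) (by omega)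
    have e3 := hL.eq_of_le (a := G) (b := y1 ⊓ y2) (le_inf g2.le q1.le) (by omega)
    exact g3 (e2.trans e3.symm)
  have ry3 := hL.mono _ _ q1
  have ry3' := hL.mono _ _ q2
  obtain ⟨F2, r1, r2, r3, r4, r5⟩ := step G y3 g1 q1 q2 (by omega)
  refine ⟨F1, F2, ?_, ⟨hF1, hF1z, hm1⟩, ⟨r1, r2.trans q2, by omega⟩⟩
  rintro rfl
  rcases pall y3 r2 q2 with hh | hh
  · exact q3 hh.symm
  · exact hy32 hh.symm

/-- two faces of multiplicity two below a facet of the section -/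
lemma Cmp.two_dn [Finite Q] (h : Cmp L Q ρ σ R j bot top) {f : Q → L} (hf : IsF ρ σ R j f)
    {a z y : L} (ra : ρ a + 2 = R) (hay : a < y) (hyz : y < z) (ry : ρ y = R + 1)
    (hall : ∀ F, a < F → F < z → ρ F = R → mu σ R f F ≠ 1) :
    ∃ F1 F2, F1 ≠ F2 ∧ (a < F1 ∧ F1 < y ∧ mu σ R f F1 = 2) ∧ (a < F2 ∧ F2 < y ∧ mu σ R f F2 = 2) := by
  have hL := h.hL
  have step : ∀ F v, a < v → v < F → F < y → ρ v + 1 = R →
      ∃ G, v < G ∧ G < y ∧ F ≠ G ∧ mu σ R f F + mu σ R f G = 2 ∧ mu σ R f F ≠ 1 := by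
    intro F v h0 h1 h2 rv
    obtain ⟨G, g1, g2, g3⟩ := hL.partner (x := v) (y := y) (by omega) h1 h2
    have rF := hL.mono _ _ h1
    have rF' := hL.mono _ _ h2
    exact ⟨G, g1, g2, g3, h.sum_two hf rv ry h1 h2 g1 g2 g3,
      hall F (h0.trans h1) (h2.trans hyz) (by omega)⟩
  obtain ⟨F1, hF1, hF1y, hm1⟩ : ∃ F1, a < F1 ∧ F1 < y ∧ mu σ R f F1 = 2 := by
    obtain ⟨v, k1, k2, k3⟩ := hL.up a y hay
    have hvy : v < y := lt_of_le_of_ne k2 (by rintro rfl; omega)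
    obtain ⟨F, k4, k5, k6⟩ := hL.up v y hvy
    have hFy : F < y := lt_of_le_of_ne k5 (by rintro rfl; omega)
    obtain ⟨G, g1, g2, g3, g4, g5⟩ := step F v k1 k4 hFy (by omega)
    by_cases h0 : mu σ R f F = 2
    · exact ⟨F, k1.trans k4, hFy, h0⟩
    · obtain ⟨G', -, -, -, g9, g10⟩ := step G v k1 g1 g2 (by omega)
      exact ⟨G, k1.trans g1, g2, by omega⟩
  have rF1 : ρ F1 = R := by
    by_contra hne
    have : ({e | σ e = R ∧ f e = F1} : Set Q) = ∅ := by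
      ext e
      simp only [Set.mem_setOf_eq, Set.mem_empty_iff_false, iff_false, not_and]
      rintro he rfl
      exact hne (hf e he).1
    unfold mu at hm1
    rw [this] at hm1
    simp at hm1
  obtain ⟨v1, v2, hv, ⟨p1, p2⟩, ⟨p3, p4⟩, pall⟩ := hL.two hF1 (by omega)
  have rv1 := hL.mono _ _ p1
  have rv1' := hL.mono _ _ p2
  have rv2 := hL.mono _ _ p3
  have rv2' := hL.mono _ _ p4
  obtain ⟨G, g1, g2, g3, g4, g5⟩ := step F1 v1 p1 p2 hF1y (by omega)
  have rG1 := hL.mono _ _ g1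
  have rG2 := hL.mono _ _ g2
  obtain ⟨v3, q1, q2, q3⟩ := hL.partner (x := a) (y := G) (by omega) p1 g1
  have rv3 := hL.mono _ _ q1
  have rv3' := hL.mono _ _ q2
  have hv32 : v2 ≠ v3 := by
    rintro rfl
    have e1 : F1 ≤ G := hL.lt_of_two (k := ρ v1) (by omega) hv rfl (by omega) p2.le g1.le p4.le
      q2.le
    exact g3 (hL.eq_of_le e1 (by omega))
  obtain ⟨F2, r1, r2, r3, r4, r5⟩ := step G v3 q1 q2 g2 (by omega)
  refine ⟨F1, F2, ?_, ⟨hF1, hF1y, hm1⟩, ⟨q1.trans r1, r2, by omega⟩⟩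
  rintro rfl
  rcases pall v3 q1 r1 with hh | hh
  · exact q3 hh.symm
  · exact hv32 hh.symm

end main

end Pool.Agent.V11278.FaceRank
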