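import Mathlib
import Pool.Agent.V11278.FaceRankB

/-!
# Posets agreeing with a polytopal lattice outside one rank: the isomorphism (helper278)
-/

namespace Pool.Agent.V11278.FaceRank

section main

variable {L Q : Type} [SemilatticeInf L] [PartialOrder Q] {ρ : L → ℕ} {σ : Q → ℕ}
  {R : ℕ} {j : L → Q} {bot top : L}

open Classical in
lemma Cmp.count [Finite L] [Finite Q] (h : Cmp L Q ρ σ R j bot top) {f : Q → L}
    (hf : IsF ρ σ R j f) {a z : L} (haz : a < z) (ra : ρ a + 2 = R) (rz : ρ z = R + 2)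
    (hall : ∀ F, a < F → F < z → ρ F = R → mu σ R f F ≠ 1) : False := by
  have := Fintype.ofFinite L
  have := Fintype.ofFinite Q
  have hL := h.hL
  set Vs : Finset L := Finset.univ.filter fun v => a < v ∧ v < z ∧ ρ v + 1 = R with hVs
  set Ys : Finset L := Finset.univ.filter fun y => a < y ∧ y < z ∧ ρ y = R + 1 with hYs
  set E2 : Finset L := Finset.univ.filter fun F => a < F ∧ F < z ∧ ρ F = R ∧ mu σ R f F = 2
    with hE2
  have rank_of : ∀ F, mu σ R f F = 2 → ρ F = R := by
    intro F hm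
    by_contra hne
    have : ({e | σ e = R ∧ f e = F} : Set Q) = ∅ := by
      ext e
      simp only [Set.mem_ofPred_eq, Set.mem_empty_iff_false, iff_false, not_and]
      rintro he rfl
      exact hne (hf e he).1
    unfold mu at hm
    rw [this] at hm
    simp at hm
  -- vertices
  have cV : Vs.card ≤ E2.card := by
    have e1 := Finset.sum_card_bipartiteAbove_eq_sum_card_bipartiteBelow (s := Vs) (t := E2)
      (fun v F => v < F)
    have e2 : Vs.card * 2 ≤ ∑ v ∈ Vs, (E2.bipartiteAbove (fun v F => v < F) v).card := by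
      rw [← smul_eq_mul]
      refine Finset.card_nsmul_le_sum _ _ _ fun v hv => ?_
      obtain ⟨v1, v2, v3⟩ := (Finset.mem_filter.1 hv).2
      obtain ⟨F1, F2, hne, ⟨p1, p2, p3⟩, ⟨q1, q2, q3⟩⟩ := h.two_up hf rz v1 v2 v3 hall
      refine Finset.one_lt_card.2 ⟨F1, ?_, F2, ?_, hne⟩
      · simp only [Finset.bipartiteAbove, Finset.mem_filter, hE2, Finset.mem_univ, true_and]
        exact ⟨⟨v1.trans p1, p2, rank_of _ p3, p3⟩, p1⟩
      · simp only [Finset.bipartiteAbove, Finset.mem_filter, hE2, Finset.mem_univ, true_and]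
        exact ⟨⟨v1.trans q1, q2, rank_of _ q3, q3⟩, q1⟩
    have e3 : ∑ F ∈ E2, (Vs.bipartiteBelow (fun v F => v < F) F).card ≤ E2.card * 2 := by
      rw [← smul_eq_mul]
      refine Finset.sum_le_card_nsmul _ _ _ fun F hF => ?_
      obtain ⟨v1, v2, v3, v4⟩ := (Finset.mem_filter.1 hF).2
      obtain ⟨c, c', -, -, -, hc⟩ := hL.two v1 (by omega)
      refine (Finset.card_le_card (t := {c, c'}) ?_).trans Finset.card_le_two
      intro v hv
      simp only [Finset.bipartiteBelow, Finset.mem_filter, hVs, Finset.mem_univ, true_and] at hv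
      rw [Finset.mem_insert, Finset.mem_singleton]
      exact hc v hv.1.1 hv.2
    omega
  have cY : Ys.card ≤ E2.card := by
    have e1 := Finset.sum_card_bipartiteAbove_eq_sum_card_bipartiteBelow (s := Ys) (t := E2)
      (fun y F => F < y)
    have e2 : Ys.card * 2 ≤ ∑ y ∈ Ys, (E2.bipartiteAbove (fun y F => F < y) y).card := by
      rw [← smul_eq_mul]
      refine Finset.card_nsmul_le_sum _ _ _ fun y hy => ?_
      obtain ⟨v1, v2, v3⟩ := (Finset.mem_filter.1 hy).2
      obtain ⟨F1, F2, hne, ⟨p1, p2, p3⟩, ⟨q1, q2, q3⟩⟩ := h.two_dn hf ra v1 v2 v3 hall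
      refine Finset.one_lt_card.2 ⟨F1, ?_, F2, ?_, hne⟩
      · simp only [Finset.bipartiteAbove, Finset.mem_filter, hE2, Finset.mem_univ, true_and]
        exact ⟨⟨p1, p2.trans v2, rank_of _ p3, p3⟩, p2⟩
      · simp only [Finset.bipartiteAbove, Finset.mem_filter, hE2, Finset.mem_univ, true_and]
        exact ⟨⟨q1, q2.trans v2, rank_of _ q3, q3⟩, q2⟩
    have e3 : ∑ F ∈ E2, (Ys.bipartiteBelow (fun y F => F < y) F).card ≤ E2.card * 2 := by
      rw [← smul_eq_mul]
      refine Finset.sum_le_card_nsmul _ _ _ fun F hF => ?_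
      obtain ⟨v1, v2, v3, v4⟩ := (Finset.mem_filter.1 hF).2
      obtain ⟨c, c', -, -, -, hc⟩ := hL.two v2 (by omega)
      refine (Finset.card_le_card (t := {c, c'}) ?_).trans Finset.card_le_two
      intro y hy
      simp only [Finset.bipartiteBelow, Finset.mem_filter, hYs, Finset.mem_univ, true_and] at hy
      rw [Finset.mem_insert, Finset.mem_singleton]
      exact hc y hy.2 hy.1.2.1
    omega
  -- the interval of `Q`
  have na : ρ a ≠ R := by omega
  have nz : ρ z ≠ R := by omega
  have sa : σ (j a) = ρ a := h.j1 _ na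
  have sz : σ (j z) = ρ z := h.j1 _ nz
  have jaz : j a < j z := (h.lt na nz).2 haz
  have four := h.hQ.four (j a) (j z) jaz (by omega)
  have q1 : ({c | (j a < c ∧ c < j z) ∧ σ c = σ (j a) + 1} : Set Q).ncard ≤ Vs.card := by
    have hsub : ({c | (j a < c ∧ c < j z) ∧ σ c = σ (j a) + 1} : Set Q) ⊆ j '' (Vs : Set L) := by
      rintro c ⟨⟨c1, c2⟩, c3⟩
      obtain ⟨x, rx, rfl⟩ := h.lift (q := c) (by omega)
      refine ⟨x, ?_, rfl⟩
      simp only [hVs, Finset.coe_filter, Finset.mem_univ, true_and, Set.mem_ofPred_eq]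
      exact ⟨(h.lt na (by omega)).1 c1, (h.lt (by omega) nz).1 c2, by omega⟩
    calc _ ≤ (j '' (Vs : Set L)).ncard := Set.ncard_le_ncard hsub (Set.toFinite _)
      _ ≤ (Vs : Set L).ncard := Set.ncard_image_le (Set.toFinite _)
      _ = Vs.card := Set.ncard_coe_finset Vs
  have q3 : ({c | (j a < c ∧ c < j z) ∧ σ c = σ (j a) + 3} : Set Q).ncard ≤ Ys.card := by
    have hsub : ({c | (j a < c ∧ c < j z) ∧ σ c = σ (j a) + 3} : Set Q) ⊆ j '' (Ys : Set L) := by
      rintro c ⟨⟨c1, c2⟩, c3⟩
      obtain ⟨x, rx, rfl⟩ := h.lift (q := c) (by omega)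
      refine ⟨x, ?_, rfl⟩
      simp only [hYs, Finset.coe_filter, Finset.mem_univ, true_and, Set.mem_ofPred_eq]
      exact ⟨(h.lt na (by omega)).1 c1, (h.lt (by omega) nz).1 c2, by omega⟩
    calc _ ≤ (j '' (Ys : Set L)).ncard := Set.ncard_le_ncard hsub (Set.toFinite _)
      _ ≤ (Ys : Set L).ncard := Set.ncard_image_le (Set.toFinite _)
      _ = Ys.card := Set.ncard_coe_finset Ys
  have q2 : E2.card * 2 ≤ ({c | (j a < c ∧ c < j z) ∧ σ c = σ (j a) + 2} : Set Q).ncard := by
    set T : Finset Q := Finset.univ.filter fun c => σ c = R ∧ f c ∈ E2 with hT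
    have hTc : T.card = ∑ F ∈ E2, (T.filter fun c => f c = F).card :=
      Finset.card_eq_sum_card_fiberwise fun c hc => by
        have : c ∈ T := hc
        exact (Finset.mem_filter.1 this).2.2
    have hfib : ∀ F ∈ E2, (T.filter fun c => f c = F).card = 2 := by
      intro F hF
      have hm := (Finset.mem_filter.1 hF).2.2.2.2
      rw [← hm]
      unfold mu
      rw [← Set.ncard_coe_finset]
      congr 1
      ext c
      simp only [hT, Finset.coe_filter, Finset.mem_filter, Finset.mem_univ, true_and,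
        Set.mem_ofPred_eq]
      constructor
      · rintro ⟨⟨k1, -⟩, k2⟩
        exact ⟨k1, k2⟩
      · rintro ⟨k1, rfl⟩
        exact ⟨⟨k1, hF⟩, rfl⟩
    rw [Finset.sum_congr rfl hfib, Finset.sum_const, smul_eq_mul] at hTc
    rw [← hTc, ← Set.ncard_coe_finset]
    refine Set.ncard_le_ncard ?_ (Set.toFinite _)
    intro c hc
    have hc' : c ∈ T := hc
    obtain ⟨k1, k2⟩ := (Finset.mem_filter.1 hc').2
    obtain ⟨v1, v2, v3, v4⟩ := (Finset.mem_filter.1 k2).2
    exact ⟨⟨((hf c k1).2.1 a na).2 v1, ((hf c k1).2.2 z nz).2 v2⟩, by omega⟩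
  omega

/-- all multiplicities are one -/
theorem Cmp.mu_one [Finite L] [Finite Q] (h : Cmp L Q ρ σ R j bot top) {f : Q → L}
    (hf : IsF ρ σ R j f) {F0 : L} (rF0 : ρ F0 = R) : mu σ R f F0 = 1 := by
  by_contra hm
  have hL := h.hL
  have hR2 := h.hR2
  have hRt := h.hRt
  have l1 : bot < F0 := lt_of_le_of_ne (h.hbot _) (by rintro rfl; omega)
  obtain ⟨x0, a1, a2, a3⟩ := hL.dn bot F0 l1
  have l2 : bot < x0 := lt_of_le_of_ne a1 (by rintro rfl; omega)
  obtain ⟨a, a4, a5, a6⟩ := hL.dn bot x0 l2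
  have l3 : F0 < top := lt_of_le_of_ne (h.htop _) (by rintro rfl; omega)
  obtain ⟨y0, b1, b2, b3⟩ := hL.up F0 top l3
  have l4 : y0 < top := lt_of_le_of_ne b2 (by rintro rfl; omega)
  obtain ⟨z, b4, b5, b6⟩ := hL.up y0 top l4
  have hFz : F0 < z := b1.trans b4
  exact h.count hf (a5.trans (a2.trans hFz)) (by omega) (by omega)
    (h.spread hf (by omega) (by omega) a5 (by omega) a2 hFz rF0 hm)

/-- the comparison theorem -/
theorem Cmp.iso [Finite L] [Finite Q] (h : Cmp L Q ρ σ R j bot top) :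
    ∃ g : Q ≃o L, ∀ x, ρ x ≠ R → g (j x) = x := by
  classical
  have hex : ∀ e : Q, ∃ F : L, σ e = R → (ρ F = R ∧ (∀ x, ρ x ≠ R → (j x < e ↔ x < F)) ∧
      (∀ y, ρ y ≠ R → (e < j y ↔ F < y))) := by
    intro e
    by_cases he : σ e = R
    · obtain ⟨F, hF⟩ := h.face he
      exact ⟨F, fun _ => hF⟩
    · exact ⟨bot, fun h' => absurd h' he⟩
  choose f hf using hex
  have hf' : IsF ρ σ R j f := hf
  have hex2 : ∀ q : Q, ∃ x : L, ρ x = σ q ∧ (σ q ≠ R → j x = q) ∧ (σ q = R → x = f q) := by
    intro q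
    by_cases hq : σ q = R
    · exact ⟨f q, by rw [(hf' q hq).1, hq], fun h' => absurd hq h', fun _ => rfl⟩
    · obtain ⟨x, h1, h2⟩ := h.lift hq
      exact ⟨x, h1, fun _ => h2, fun h' => absurd h' hq⟩
  choose g hg1 hg2 hg3 using hex2
  have hfib : ∀ F, ρ F = R → ∃ e, ∀ e', (σ e' = R ∧ f e' = F) ↔ e' = e := by
    intro F hF
    have := h.mu_one hf' hF
    unfold mu at this
    obtain ⟨e, he⟩ := Set.ncard_eq_one.1 this
    refine ⟨e, fun e' => ?_⟩
    have h1 : e' ∈ ({e | σ e = R ∧ f e = F} : Set Q) ↔ e' ∈ ({e} : Set Q) := by rw [he]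
    simpa using h1
  have hle : ∀ p q, g p ≤ g q ↔ p ≤ q := by
    intro p q
    by_cases hp : σ p = R
    · by_cases hq : σ q = R
      · constructor
        · intro hh
          have e1 := h.hL.eq_of_le hh (by rw [hg1, hg1]; omega)
          rw [hg3 p hp, hg3 q hq] at e1
          obtain ⟨e, he⟩ := hfib (f p) (hf' p hp).1
          have k1 := (he p).1 ⟨hp, rfl⟩
          have k2 := (he q).1 ⟨hq, e1.symm⟩
          rw [k1, k2]
        · intro hh
          rcases hh.eq_or_lt with rfl | hlt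
          · exact le_rfl
          · have := h.hQ.mono _ _ hlt
            omega
      · have hne : p ≠ q := by rintro rfl; exact hq hp
        have hne' : g p ≠ g q := by
          intro hh
          have := hg1 p
          rw [hh, hg1 q] at this
          omega
        have k := (hf' p hp).2.2 (g q) (by rw [hg1]; exact hq)
        rw [hg2 q hq, ← hg3 p hp] at k
        constructor
        · intro hh
          exact (k.2 (lt_of_le_of_ne hh hne')).le
        · intro hh
          exact (k.1 (lt_of_le_of_ne hh hne)).le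
    · by_cases hq : σ q = R
      · have hne : p ≠ q := by rintro rfl; exact hp hq
        have hne' : g p ≠ g q := by
          intro hh
          have := hg1 p
          rw [hh, hg1 q] at this
          omega
        have k := (hf' q hq).2.1 (g p) (by rw [hg1]; exact hp)
        rw [hg2 p hp, ← hg3 q hq] at k
        constructor
        · intro hh
          exact (k.2 (lt_of_le_of_ne hh hne')).le
        · intro hh
          exact (k.1 (lt_of_le_of_ne hh hne)).le
      · have k := h.j2 (g p) (g q) (by rw [hg1]; exact hp) (by rw [hg1]; exact hq)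
        rw [hg2 p hp, hg2 q hq] at k
        exact k.symm
  have hgj : ∀ x, ρ x ≠ R → g (j x) = x := by
    intro x hx
    have s1 := h.j1 x hx
    have h1 : σ (j x) ≠ R := by omega
    have h2 := hg2 (j x) h1
    exact h.inj (by rw [hg1]; exact h1) hx h2
  have hinj : Function.Injective g := by
    intro p q hpq
    exact le_antisymm ((hle p q).1 hpq.le) ((hle q p).1 hpq.ge)
  have hsurj : Function.Surjective g := by
    intro x
    by_cases hx : ρ x = R
    · obtain ⟨e, he⟩ := hfib x hx
      obtain ⟨k1, k2⟩ := (he e).2 rfl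
      exact ⟨e, by rw [hg3 e k1, k2]⟩
    · exact ⟨j x, hgj x hx⟩
  refine ⟨⟨Equiv.ofBijective g ⟨hinj, hsurj⟩, ?_⟩, fun x hx => hgj x hx⟩
  intro p q
  exact hle p q

end main

end Pool.Agent.V11278.FaceRank
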