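import Mathlib
import Pool.Agent.V11278.FaceRankC
import Pool.Agent.H603R3.ES_G1
import Pool.Agent.H856R3.ESG2
import Pool.Agent.H78R3.ES.G3
import Pool.Agent.H925R.ES.G4
import Pool.Agent.H769R3.ES.G5

/-!
# Face lattices of cones are polytopal lattices (helper278)
The theory of faces of cones is from the starting library (`H242R3/ES/StmtsG`, tasks G1 to G5).
-/

namespace Pool.Agent.V11278.FaceRank

open Pool.Agent.H242R3.ES

theorem tG3 : TaskG3 := Pool.Agent.H242R3.ES.G3H78.t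
theorem tG4 : TaskG4 := Pool.Agent.H925R.ES.G4.t
theorem tG5 : TaskG5 := Pool.Agent.H769R3.ES.t Pool.Agent.H603R3.ESG1.t tG3

section cone

variable {ι E : Type} [Fintype ι] [AddCommGroup E] [Module ℝ E] [FiniteDimensional ℝ E]
  (V : ι → E)

open Classical in
/-- connectivity of the faces covering a face inside a face -/
theorem conn {A B : Set ι} (hA : Face V A) (U : Set (Set ι))
    (hne : ∃ C ∈ U, Cov V A C ∧ C ⊆ B) (hB : Face V B)
    (hcl : ∀ C ∈ U, Cov V A C → ∀ D, D ⊆ B → Cov V C D → ∀ C', Cov V A C' → C' ⊆ D → C' ∈ U) :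
    ∀ T, Cov V A T → T ⊆ B → T ∈ U := by
  intro T hT hTB
  by_contra hTU
  obtain ⟨lA, lA1, lA2⟩ := id hA
  obtain ⟨g0, g1, g2⟩ := hT.2.1
  have hAT : A ⊂ T := hT.2.2.1
  have pos : ∀ i, i ∉ A → 0 < lA (V i) := fun i hi =>
    lt_of_le_of_ne (lA1 i) (fun h => hi ((lA2 i).2 h.symm))
  obtain ⟨i, hi, hmin⟩ := ((Finset.univ : Finset ι).filter
    (fun i => i ∉ A ∧ ∃ C ∈ U, Cov V A C ∧ C ⊆ B ∧ i ∈ C)).exists_min_image
      (fun i => g0 (V i) / lA (V i)) (by
        obtain ⟨C, h1, h2, h3⟩ := hne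
        obtain ⟨i, hi, hi'⟩ := Set.exists_of_ssubset h2.2.2.1
        exact ⟨i, by simp only [Finset.mem_filter, Finset.mem_univ, true_and]
                     exact ⟨hi', C, h1, h2, h3, hi⟩⟩)
  simp only [Finset.mem_filter, Finset.mem_univ, true_and] at hi hmin
  obtain ⟨hiA, C, hCU, hC, hCB, hiC⟩ := hi
  set r := g0 (V i) / lA (V i) with hr
  have hr0 : 0 ≤ r := div_nonneg (g1 i) (lA1 i)
  have gdef : ∀ x, (g0 - r • lA) x = g0 x - r * lA x := fun x => rfl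
  set g := g0 - r • lA with hg
  have hgA : ∀ k ∈ A, g (V k) = 0 := by
    intro k hk
    rw [gdef, (g2 k).1 (hAT.1 hk), (lA2 k).1 hk]
    ring
  have hgi : g (V i) = 0 := by
    rw [gdef, hr]
    have := (pos i hiA).ne'
    field_simp
    ring
  have hgC : ∀ k ∈ C, g (V k) = 0 := by
    intro k hk
    have hsub : insert i A ⊆ C := Set.insert_subset hiC hC.2.2.1.1
    have h1 : rk V A < rk V (insert i A) := by
      apply Pool.Agent.H856R3.ESG2.rk_lt V A _ hA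
      exact Set.ssubset_insert hiA
    have h2 := hC.2.2.2
    have h3 : Submodule.span ℝ (V '' insert i A) = Submodule.span ℝ (V '' C) := by
      apply Submodule.eq_of_le_of_finrank_le (Submodule.span_mono (Set.image_mono hsub))
      have h1' : rk V A < Module.finrank ℝ (Submodule.span ℝ (V '' insert i A)) := h1
      have h2' : Module.finrank ℝ (Submodule.span ℝ (V '' C)) = rk V A + 1 := h2
      omega
    refine Pool.Agent.H856R3.ESG2.zero_of_mem_span V (insert i A) g ?_ (x := V k) ?_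
    · intro m hm
      rcases Set.mem_insert_iff.1 hm with rfl | hm
      · exact hgi
      · exact hgA m hm
    · rw [h3]
      exact Submodule.subset_span ⟨k, hk, rfl⟩
  have hU : ∀ C' ∈ U, Cov V A C' → C' ⊆ B → ∀ k ∈ C', 0 ≤ g (V k) := by
    intro C' h1 h2 h3 k hk
    by_cases hkA : k ∈ A
    · rw [hgA k hkA]
    · have h4 := hmin k ⟨hkA, C', h1, h2, h3, hk⟩
      rw [le_div_iff₀ (pos k hkA)] at h4
      rw [gdef]
      linarith
  have gen : ∀ R S : Set ι, Face V R → Face V S → R ⊂ S → (∀ k ∈ R, g (V k) = 0) →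
      (∀ D, Cov V R D → D ⊆ S → ∀ k ∈ D, 0 ≤ g (V k)) → ∀ k ∈ S, 0 ≤ g (V k) := by
    intro R S hR hS hRS h0 h1 k hk
    obtain ⟨y, a, hy, ha, ha', he⟩ := tG5 ι E V R S hR hS hRS k hk
    rw [he, map_add, Pool.Agent.H856R3.ESG2.zero_of_mem_span V R g h0 hy, zero_add, map_sum]
    refine Finset.sum_nonneg fun m _ => ?_
    rw [map_smul, smul_eq_mul]
    by_cases ham : a m = 0
    · rw [ham, zero_mul]
    · obtain ⟨-, -, D, hD, hDS, hmD⟩ := ha' m ham
      exact mul_nonneg (ha m) (h1 D hD hDS m hmD)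
  have hE : ∀ D, Cov V C D → D ⊆ B → ∀ k ∈ D, 0 ≤ g (V k) := by
    intro D hD hDB
    have hAD : A ⊂ D := hC.2.2.1.trans hD.2.2.1
    exact gen A D hA hD.2.1 hAD hgA fun C' hC' hC'D =>
      hU C' (hcl C hCU hC D hDB hD C' hC' hC'D) hC' (hC'D.trans hDB)
  have hBg : ∀ k ∈ B, 0 ≤ g (V k) := by
    by_cases hCB' : C = B
    · intro k hk
      rw [← hCB'] at hk
      rw [hgC k hk]
    · exact gen C B hC.2.1 hB (lt_of_le_of_ne hCB hCB') hgC hE
  obtain ⟨k, hkT, hkA⟩ := Set.exists_of_ssubset hAT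
  have h1 := hBg k (hTB hkT)
  rw [gdef, (g2 k).1 hkT] at h1
  have h2 := pos k hkA
  have hr1 : r = 0 := by
    by_contra hne
    have : 0 < r := lt_of_le_of_ne hr0 (Ne.symm hne)
    have := mul_pos this h2
    linarith
  have hCT : C ⊆ T := by
    intro m hm
    have := hgC m hm
    rw [gdef, hr1, zero_mul, sub_zero] at this
    exact (g2 m).2 this
  have : C = T := by
    by_contra hne
    have h3 := Pool.Agent.H856R3.ESG2.rk_lt V C T hC.2.1 (lt_of_le_of_ne hCT hne)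
    have h4 := hC.2.2.2
    have h5 := hT.2.2.2
    omega
  exact hTU (this ▸ hCU)

/-- the face lattice -/
def FL : Type := {S : Set ι // Face V S}

instance : SemilatticeInf (FL V) :=
  Subtype.semilatticeInf fun _ _ hx hy => Pool.Agent.H856R3.ESG2.inter V _ _ hx hy

instance : Finite (FL V) := inferInstanceAs (Finite {S : Set ι // Face V S})

/-- the rank -/
noncomputable def rF (x : FL V) : ℕ := rk V x.1

lemma FL.lt_iff (x y : FL V) : x < y ↔ x.1 ⊂ y.1 := Iff.rfl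

lemma FL.le_iff (x y : FL V) : x ≤ y ↔ x.1 ⊆ y.1 := Iff.rfl

theorem pl : PL (FL V) (rF V) where
  mono a b h := Pool.Agent.H856R3.ESG2.rk_lt V a.1 b.1 a.2 h
  up a b h := by
    obtain ⟨⟨T, h1, h2⟩, -⟩ := tG3 ι E V a.1 b.1 a.2 b.2 h
    exact ⟨⟨T, h2.2.1⟩, h2.2.2.1, h1, h2.2.2.2⟩
  dn a b h := by
    obtain ⟨-, ⟨T, h1, h2⟩⟩ := tG3 ι E V a.1 b.1 a.2 b.2 h
    exact ⟨⟨T, h2.1⟩, h1, h2.2.2.1, h2.2.2.2⟩
  dia a b h hr c hac hcb := by
    have r1 := Pool.Agent.H856R3.ESG2.rk_lt V a.1 c.1 a.2 hac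
    have r2 := Pool.Agent.H856R3.ESG2.rk_lt V c.1 b.1 c.2 hcb
    have hr' : rk V b.1 = rk V a.1 + 2 := hr
    obtain ⟨T', ⟨⟨h1, h2⟩, h3⟩, h4⟩ := tG4 ι E V a.1 b.1 a.2 b.2 h hr c.1
      ⟨a.2, c.2, hac, by omega⟩ hcb.1
    refine ⟨⟨T', h1.2.1⟩, ⟨h1.2.2.1, lt_of_le_of_ne h2 ?_⟩, ?_, ?_⟩
    · intro hh
      have h5 := h1.2.2.2
      have h6 : T' = b.1 := congrArg Subtype.val hh
      rw [h6] at h5
      omega
    · intro hh
      exact h3 (congrArg Subtype.val hh)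
    · intro d hd1 hd2
      by_cases hdc : d = c
      · exact Or.inl hdc
      · right
        have r3 := Pool.Agent.H856R3.ESG2.rk_lt V a.1 d.1 a.2 hd1
        have r4 := Pool.Agent.H856R3.ESG2.rk_lt V d.1 b.1 d.2 hd2
        exact Subtype.ext (h4 d.1 ⟨⟨⟨a.2, d.2, hd1, by omega⟩, hd2.1⟩,
          fun hh => hdc (Subtype.ext hh)⟩)
  con a b U hne hcl c hac hcb hrc := by
    have key := conn V (A := a.1) (B := b.1) a.2 {S | ∃ h : Face V S, (⟨S, h⟩ : FL V) ∈ U}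
      ?_ b.2 ?_ c.1 ⟨a.2, c.2, hac, hrc⟩ hcb
    · obtain ⟨h, h'⟩ := key
      exact h'
    · obtain ⟨c0, h1, h2, h3, h4⟩ := hne
      exact ⟨c0.1, ⟨c0.2, h1⟩, ⟨a.2, c0.2, h2, h4⟩, h3⟩
    · rintro C ⟨hC, hCU⟩ hCov D hDB hCD C' hC' hC'D
      refine ⟨hC'.2.1, hcl ⟨C, hC⟩ hCU hCov.2.2.1 hCov.2.2.2 ⟨D, hCD.2.1⟩ hDB hCD.2.2.1 ?_
        ⟨C', hC'.2.1⟩ hC'.2.2.1 (lt_of_le_of_ne hC'D ?_)⟩
      · have h1 := hCD.2.2.2
        have h2 := hCov.2.2.2
        show rk V D = rk V a.1 + 2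
        omega
      · intro hh
        have h1 := hCD.2.2.2
        have h2 := hCov.2.2.2
        have h3 := hC'.2.2.2
        have h4 : C' = D := congrArg Subtype.val hh
        rw [h4] at h3
        omega

end cone

end Pool.Agent.V11278.FaceRank
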