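import Mathlib
import Pool.Agent.V11278.FaceRankC

/-!
# Eulerian posets (helper278)
-/

namespace Pool.Agent.V11278.FaceRank

/-- A finite graded poset `Q` with rank function `σ`, least and greatest element, in which every
interval `[a, b]` with `a < b` has as many elements of even rank as of odd rank. -/
structure IsEulerian (Q : Type) [PartialOrder Q] (σ : Q → ℕ) : Prop where
  fin : Finite Q
  least : ∃ a : Q, (∀ b, a ≤ b) ∧ σ a = 0
  greatest : ∃ a : Q, ∀ b, b ≤ a
  cov : ∀ a b : Q, a ⋖ b → σ b = σ a + 1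
  euler : ∀ a b : Q, a < b → ({c | a ≤ c ∧ c ≤ b ∧ Even (σ c)} : Set Q).ncard =
    ({c | a ≤ c ∧ c ≤ b ∧ Odd (σ c)} : Set Q).ncard

variable {Q : Type} [PartialOrder Q] {σ : Q → ℕ}

theorem IsEulerian.ql (h : IsEulerian Q σ) : QL Q σ := by
  have := h.fin
  have up : ∀ a b : Q, a < b → ∃ c, a < c ∧ c ≤ b ∧ σ c = σ a + 1 := by
    intro a b hab
    obtain ⟨c, h1, h2⟩ := exists_covBy_le_of_lt hab
    exact ⟨c, h1.lt, h2, h.cov _ _ h1⟩
  have dn : ∀ a b : Q, a < b → ∃ c, a ≤ c ∧ c < b ∧ σ b = σ c + 1 := by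
    intro a b hab
    obtain ⟨c, h1, h2⟩ := exists_le_covBy_of_lt hab
    exact ⟨c, h1, h2.lt, h.cov _ _ h2⟩
  have mono : ∀ a b : Q, a < b → σ a < σ b := by
    intro a
    induction a using WellFoundedGT.induction with
    | ind a ih =>
      intro b hab
      obtain ⟨c, h1, h2, h3⟩ := up a b hab
      rcases h2.eq_or_lt with rfl | h4
      · omega
      · have := ih c h1 b h4
        omega
  have mono' : ∀ a b : Q, a ≤ b → σ a ≤ σ b := by
    intro a b hab
    rcases hab.eq_or_lt with rfl | h'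
    · exact le_rfl
    · exact (mono _ _ h').le
  -- the two parity classes of an interval
  have par : ∀ a b : Q, a < b → ({c | (a ≤ c ∧ c ≤ b) ∧ σ c % 2 = σ a % 2} : Set Q).ncard =
      ({c | (a ≤ c ∧ c ≤ b) ∧ σ c % 2 ≠ σ a % 2} : Set Q).ncard := by
    intro a b hab
    have he := h.euler a b hab
    rcases Nat.even_or_odd (σ a) with ha | ha
    · have ha' := Nat.even_iff.1 ha
      convert he using 2
      · ext c
        simp only [Set.mem_ofPred_eq, Nat.even_iff]
        constructor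
        · rintro ⟨⟨h1, h2⟩, h3⟩
          exact ⟨h1, h2, by omega⟩
        · rintro ⟨h1, h2, h3⟩
          exact ⟨⟨h1, h2⟩, by omega⟩
      · ext c
        simp only [Set.mem_ofPred_eq, Nat.odd_iff]
        constructor
        · rintro ⟨⟨h1, h2⟩, h3⟩
          exact ⟨h1, h2, by omega⟩
        · rintro ⟨h1, h2, h3⟩
          exact ⟨⟨h1, h2⟩, by omega⟩
    · have ha' := Nat.odd_iff.1 ha
      symm
      convert he using 2
      · ext c
        simp only [Set.mem_ofPred_eq, Nat.even_iff]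
        constructor
        · rintro ⟨⟨h1, h2⟩, h3⟩
          exact ⟨h1, h2, by omega⟩
        · rintro ⟨h1, h2, h3⟩
          exact ⟨⟨h1, h2⟩, by omega⟩
      · ext c
        simp only [Set.mem_ofPred_eq, Nat.odd_iff]
        constructor
        · rintro ⟨⟨h1, h2⟩, h3⟩
          exact ⟨h1, h2, by omega⟩
        · rintro ⟨h1, h2, h3⟩
          exact ⟨⟨h1, h2⟩, by omega⟩
  have lo : ∀ a b c : Q, a ≤ c → c ≤ b → σ c = σ a → c = a := by
    intro a b c h1 h2 h3
    by_contra hne
    have := mono _ _ (lt_of_le_of_ne h1 (Ne.symm hne))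
    omega
  have hi : ∀ a b c : Q, a ≤ c → c ≤ b → σ c = σ b → c = b := by
    intro a b c h1 h2 h3
    by_contra hne
    have := mono _ _ (lt_of_le_of_ne h2 hne)
    omega
  refine ⟨mono, up, dn, ?_, ?_⟩
  · intro a b hab hr
    have hp := par a b hab
    have e1 : ({c | (a ≤ c ∧ c ≤ b) ∧ σ c % 2 = σ a % 2} : Set Q) = {a, b} := by
      ext c
      simp only [Set.mem_ofPred_eq, Set.mem_insert_iff, Set.mem_singleton_iff]
      constructor
      · rintro ⟨⟨h1, h2⟩, h3⟩
        have g1 := mono' _ _ h1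
        have g2 := mono' _ _ h2
        by_cases hc : σ c = σ a
        · exact Or.inl (lo a b c h1 h2 hc)
        · exact Or.inr (hi a b c h1 h2 (by omega))
      · rintro (rfl | rfl)
        · exact ⟨⟨le_rfl, hab.le⟩, rfl⟩
        · exact ⟨⟨hab.le, le_rfl⟩, by omega⟩
    have e2 : ({c | (a ≤ c ∧ c ≤ b) ∧ σ c % 2 ≠ σ a % 2} : Set Q) = {c | a < c ∧ c < b} := by
      ext c
      simp only [Set.mem_ofPred_eq]
      constructor
      · rintro ⟨⟨h1, h2⟩, h3⟩
        refine ⟨lt_of_le_of_ne h1 ?_, lt_of_le_of_ne h2 ?_⟩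
        · rintro rfl; exact h3 rfl
        · rintro rfl; omega
      · rintro ⟨h1, h2⟩
        have g1 := mono _ _ h1
        have g2 := mono _ _ h2
        exact ⟨⟨h1.le, h2.le⟩, by omega⟩
    rw [e1, e2, Set.ncard_pair hab.ne] at hp
    exact hp.symm
  · intro a b hab hr
    have hp := par a b hab
    have e1 : ({c | (a ≤ c ∧ c ≤ b) ∧ σ c % 2 = σ a % 2} : Set Q) =
        {c | (a < c ∧ c < b) ∧ σ c = σ a + 2} ∪ {a, b} := by
      ext c
      simp only [Set.mem_ofPred_eq, Set.mem_union, Set.mem_insert_iff, Set.mem_singleton_iff]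
      constructor
      · rintro ⟨⟨h1, h2⟩, h3⟩
        have g1 := mono' _ _ h1
        have g2 := mono' _ _ h2
        by_cases hc : σ c = σ a
        · exact Or.inr (Or.inl (lo a b c h1 h2 hc))
        · by_cases hc' : σ c = σ b
          · exact Or.inr (Or.inr (hi a b c h1 h2 hc'))
          · left
            refine ⟨⟨lt_of_le_of_ne h1 ?_, lt_of_le_of_ne h2 ?_⟩, by omega⟩
            · rintro rfl; exact hc rfl
            · rintro rfl; exact hc' rfl
      · rintro (⟨⟨h1, h2⟩, h3⟩ | rfl | rfl)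
        · exact ⟨⟨h1.le, h2.le⟩, by omega⟩
        · exact ⟨⟨le_rfl, hab.le⟩, rfl⟩
        · exact ⟨⟨hab.le, le_rfl⟩, by omega⟩
    have e2 : ({c | (a ≤ c ∧ c ≤ b) ∧ σ c % 2 ≠ σ a % 2} : Set Q) =
        {c | (a < c ∧ c < b) ∧ σ c = σ a + 1} ∪ {c | (a < c ∧ c < b) ∧ σ c = σ a + 3} := by
      ext c
      simp only [Set.mem_ofPred_eq, Set.mem_union]
      constructor
      · rintro ⟨⟨h1, h2⟩, h3⟩
        have h1' : a < c := lt_of_le_of_ne h1 (by rintro rfl; exact h3 rfl)
        have h2' : c < b := lt_of_le_of_ne h2 (by rintro rfl; omega)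
        have g1 := mono _ _ h1'
        have g2 := mono _ _ h2'
        by_cases hc : σ c = σ a + 1
        · exact Or.inl ⟨⟨h1', h2'⟩, hc⟩
        · exact Or.inr ⟨⟨h1', h2'⟩, by omega⟩
      · rintro (⟨⟨h1, h2⟩, h3⟩ | ⟨⟨h1, h2⟩, h3⟩)
        · exact ⟨⟨h1.le, h2.le⟩, by omega⟩
        · exact ⟨⟨h1.le, h2.le⟩, by omega⟩
    rw [e1, e2, Set.ncard_union_eq, Set.ncard_union_eq, Set.ncard_pair hab.ne] at hp
    · exact hp.symm
    · rw [Set.disjoint_left]
      rintro c ⟨-, h1⟩ ⟨-, h2⟩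
      omega
    · rw [Set.disjoint_left]
      rintro c ⟨⟨h1, h2⟩, -⟩ h3
      rcases h3 with rfl | h3
      · exact lt_irrefl _ h1
      · rw [Set.mem_singleton_iff] at h3
        subst h3
        exact lt_irrefl _ h2

end Pool.Agent.V11278.FaceRank
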