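import Mathlib
import Pool.Agent.V11278.FaceRankD
import Pool.Agent.V11278.FaceRankE

/-!
# Face lattices of polytopes (helper278)
-/

namespace Pool.Agent.V11278.FaceRank

open Pool.Agent.H242R3.ES

/-- A face of `P` (the empty face and `P` itself are allowed): the set of points of `P` that lie on
a hyperplane `f = c` with `f ≤ c` on `P` (`f = 0` is allowed). -/
def IsFace {d : ℕ} (P F : Set (Fin d → ℝ)) : Prop :=
  ∃ (f : (Fin d → ℝ) →ₗ[ℝ] ℝ) (c : ℝ), (∀ x ∈ P, f x ≤ c) ∧ F = {x | x ∈ P ∧ f x = c}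

/-- The face lattice: all faces, ordered by inclusion. -/
abbrev FaceLat {d : ℕ} (P : Set (Fin d → ℝ)) : Type := {F : Set (Fin d → ℝ) // IsFace P F}

open Classical in
/-- The rank of a face: `dim F + 1`, where the dimension of the empty face is `-1`. -/
noncomputable def frank {d : ℕ} (F : Set (Fin d → ℝ)) : ℕ :=
  if F = ∅ then 0 else Module.finrank ℝ (vectorSpan ℝ F) + 1

section

variable {d : ℕ}

/-- the homogenisation of a point -/
def hm (x : Fin d → ℝ) : (Fin d → ℝ) × ℝ := (x, 1)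

lemma finrank_hm (X : Set (Fin d → ℝ)) (hX : X.Nonempty) :
    Module.finrank ℝ (Submodule.span ℝ (hm '' X)) = Module.finrank ℝ (vectorSpan ℝ X) + 1 := by
  obtain ⟨x0, hx0⟩ := hX
  have h1 : Submodule.span ℝ (hm '' X) =
      (vectorSpan ℝ X).map (LinearMap.inl ℝ (Fin d → ℝ) ℝ) ⊔ Submodule.span ℝ {hm x0} := by
    apply le_antisymm
    · rw [Submodule.span_le]
      rintro _ ⟨x, hx, rfl⟩
      have e : hm x = (LinearMap.inl ℝ (Fin d → ℝ) ℝ) (x - x0) + hm x0 := by
        simp [hm]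
      rw [e]
      refine Submodule.add_mem_sup ?_ (Submodule.mem_span_singleton_self _)
      exact Submodule.mem_map_of_mem (vsub_mem_vectorSpan ℝ hx hx0)
    · refine sup_le ?_ ?_
      · rw [vectorSpan_eq_span_vsub_set_right ℝ hx0, Submodule.map_span, Submodule.span_le]
        rintro _ ⟨_, ⟨x, hx, rfl⟩, rfl⟩
        have e : (LinearMap.inl ℝ (Fin d → ℝ) ℝ) (x -ᵥ x0) = hm x - hm x0 := by
          simp [hm]
        show (LinearMap.inl ℝ (Fin d → ℝ) ℝ) (x -ᵥ x0) ∈ _
        rw [e]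
        exact Submodule.sub_mem _ (Submodule.subset_span ⟨x, hx, rfl⟩)
          (Submodule.subset_span ⟨x0, hx0, rfl⟩)
      · rw [Submodule.span_le]
        rintro _ rfl
        exact Submodule.subset_span ⟨x0, hx0, rfl⟩
  have h2 : (vectorSpan ℝ X).map (LinearMap.inl ℝ (Fin d → ℝ) ℝ) ⊓ Submodule.span ℝ {hm x0} = ⊥ := by
    rw [Submodule.eq_bot_iff]
    rintro v ⟨h3, h4⟩
    obtain ⟨w, -, rfl⟩ := h3
    obtain ⟨a, ha⟩ := Submodule.mem_span_singleton.1 h4
    have e := congrArg Prod.snd ha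
    simp [hm] at e
    rw [e] at ha
    rw [← ha]
    simp
  have h3 := Submodule.finrank_sup_add_finrank_inf_eq
    ((vectorSpan ℝ X).map (LinearMap.inl ℝ (Fin d → ℝ) ℝ)) (Submodule.span ℝ {hm x0})
  have hne : hm x0 ≠ 0 := by
    intro h
    have := congrArg Prod.snd h
    simp [hm] at this
  rw [h2, finrank_bot, add_zero, finrank_span_singleton hne] at h3
  rw [h1, h3]
  congr 1
  exact (Submodule.equivMapOfInjective (LinearMap.inl ℝ (Fin d → ℝ) ℝ)
    LinearMap.inl_injective (vectorSpan ℝ X)).finrank_eq.symm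

/-- a face of a polytope is spanned by the points of the generating set in it -/
lemma face_conv (S : Finset (Fin d → ℝ)) (f : (Fin d → ℝ) →ₗ[ℝ] ℝ) (c : ℝ)
    (h : ∀ x ∈ convexHull ℝ (S : Set (Fin d → ℝ)), f x ≤ c) :
    {x | x ∈ convexHull ℝ (S : Set (Fin d → ℝ)) ∧ f x = c} =
      convexHull ℝ {x | x ∈ S ∧ f x = c} := by
  apply Set.Subset.antisymm
  · rintro x ⟨hx, hfx⟩
    obtain ⟨w, hw0, hw1, hwx⟩ := Finset.mem_convexHull'.1 hx
    have h1 : ∑ y ∈ S, w y * (c - f y) = 0 := by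
      have : f x = ∑ y ∈ S, w y * f y := by
        rw [← hwx, map_sum]
        simp
      simp only [mul_sub, Finset.sum_sub_distrib, ← Finset.sum_mul]
      rw [hw1, ← this, hfx]
      ring
    have h2 : ∀ y ∈ S, w y * (c - f y) = 0 :=
      (Finset.sum_eq_zero_iff_of_nonneg fun y hy => mul_nonneg (hw0 y hy)
        (by have := h y (subset_convexHull ℝ _ hy); linarith)).1 h1
    have h3 : ∀ y ∈ S, y ∉ S.filter (fun y => f y = c) → w y = 0 := by
      intro y hy hy'
      rcases mul_eq_zero.1 (h2 y hy) with h4 | h4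
      · exact h4
      · exact absurd (Finset.mem_filter.2 ⟨hy, by linarith⟩) hy'
    have h4 : x ∈ convexHull ℝ ((S.filter fun y => f y = c : Finset _) : Set (Fin d → ℝ)) := by
      rw [Finset.mem_convexHull']
      refine ⟨w, fun y hy => hw0 y (Finset.mem_filter.1 hy).1, ?_, ?_⟩
      · rw [← hw1]
        exact Finset.sum_subset (Finset.filter_subset _ _) h3
      · rw [← hwx]
        exact Finset.sum_subset (Finset.filter_subset _ _) fun y hy hy' => by
          rw [h3 y hy hy', zero_smul]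
    simpa using h4
  · apply convexHull_min
    · rintro x ⟨hx, hx'⟩
      exact ⟨subset_convexHull ℝ _ hx, hx'⟩
    · exact (convex_convexHull ℝ _).inter (convex_hyperplane f.isLinear c)

/-- the configuration of a finite set of points -/
def cf (S : Finset (Fin d → ℝ)) : S → (Fin d → ℝ) × ℝ := fun i => hm i.1

/-- the index set of a face -/
def ix (S : Finset (Fin d → ℝ)) (F : Set (Fin d → ℝ)) : Set S := {i | i.1 ∈ F}

lemma ix_face (S : Finset (Fin d → ℝ)) {F : Set (Fin d → ℝ)}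
    (hF : IsFace (convexHull ℝ (S : Set (Fin d → ℝ))) F) : Face (cf S) (ix S F) := by
  obtain ⟨f, c, h1, rfl⟩ := hF
  refine ⟨c • LinearMap.snd ℝ (Fin d → ℝ) ℝ - f ∘ₗ LinearMap.fst ℝ (Fin d → ℝ) ℝ, fun i => ?_,
    fun i => ?_⟩
  · have := h1 i.1 (subset_convexHull ℝ _ i.2)
    simp [cf, hm]
    exact this
  · simp only [ix, Set.mem_ofPred_eq, cf, hm, LinearMap.sub_apply, LinearMap.smul_apply,
      LinearMap.snd_apply, LinearMap.comp_apply, LinearMap.fst_apply, smul_eq_mul, mul_one]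
    constructor
    · rintro ⟨-, h2⟩; linarith
    · intro h2; exact ⟨subset_convexHull ℝ _ i.2, by linarith⟩

lemma face_eq (S : Finset (Fin d → ℝ)) {F : Set (Fin d → ℝ)}
    (hF : IsFace (convexHull ℝ (S : Set (Fin d → ℝ))) F) :
    F = convexHull ℝ {x | x ∈ S ∧ x ∈ F} := by
  obtain ⟨f, c, h1, rfl⟩ := hF
  conv_lhs => rw [face_conv S f c h1]
  congr 1
  ext x
  simp only [Set.mem_ofPred_eq]
  constructor
  · rintro ⟨h2, h3⟩; exact ⟨h2, subset_convexHull ℝ _ h2, h3⟩
  · rintro ⟨h2, -, h3⟩; exact ⟨h2, h3⟩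

lemma exists_face (S : Finset (Fin d → ℝ)) {T : Set S} (hT : Face (cf S) T) :
    ∃ F, IsFace (convexHull ℝ (S : Set (Fin d → ℝ))) F ∧ ix S F = T := by
  obtain ⟨l, h1, h2⟩ := hT
  set f : (Fin d → ℝ) →ₗ[ℝ] ℝ := - (l ∘ₗ LinearMap.inl ℝ (Fin d → ℝ) ℝ) with hf
  set c : ℝ := l (0, 1) with hc
  have e : ∀ x : Fin d → ℝ, l (hm x) = c - f x := by
    intro x
    have : hm x = (x, (0 : ℝ)) + ((0 : Fin d → ℝ), (1 : ℝ)) := by simp [hm]
    rw [this, map_add]
    simp [hf, hc]
    ring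
  have hle : ∀ x ∈ convexHull ℝ (S : Set (Fin d → ℝ)), f x ≤ c := by
    intro x hx
    have hsub : convexHull ℝ (S : Set (Fin d → ℝ)) ⊆ {x | f x ≤ c} := by
      apply convexHull_min
      · intro y hy
        have h3 := h1 ⟨y, hy⟩
        have h4 := e y
        have h5 : cf S ⟨y, hy⟩ = hm y := rfl
        rw [h5, h4] at h3
        show f y ≤ c
        linarith
      · exact convex_halfSpace_le f.isLinear c
    exact hsub hx
  refine ⟨{x | x ∈ convexHull ℝ (S : Set (Fin d → ℝ)) ∧ f x = c}, ⟨f, c, hle, rfl⟩, ?_⟩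
  ext i
  rw [h2 i]
  have h5 : cf S i = hm i.1 := rfl
  rw [h5, e]
  simp only [ix, Set.mem_ofPred_eq]
  constructor
  · rintro ⟨-, h3⟩; linarith
  · intro h3; exact ⟨subset_convexHull ℝ _ i.2, by linarith⟩

lemma ix_le (S : Finset (Fin d → ℝ)) {F G : Set (Fin d → ℝ)}
    (hF : IsFace (convexHull ℝ (S : Set (Fin d → ℝ))) F)
    (hG : IsFace (convexHull ℝ (S : Set (Fin d → ℝ))) G) : ix S F ⊆ ix S G ↔ F ⊆ G := by
  constructor
  · intro h
    rw [face_eq S hF, face_eq S hG]
    apply convexHull_mono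
    rintro x ⟨h1, h2⟩
    exact ⟨h1, h (show (⟨x, h1⟩ : S) ∈ ix S F from h2)⟩
  · intro h i hi
    exact h hi

lemma cf_image (S : Finset (Fin d → ℝ)) (F : Set (Fin d → ℝ)) :
    cf S '' ix S F = hm '' {x | x ∈ S ∧ x ∈ F} := by
  ext v
  constructor
  · rintro ⟨i, hi, rfl⟩
    exact ⟨i.1, ⟨i.2, hi⟩, rfl⟩
  · rintro ⟨x, ⟨h1, h2⟩, rfl⟩
    exact ⟨⟨x, h1⟩, h2, rfl⟩

lemma rk_ix (S : Finset (Fin d → ℝ)) {F : Set (Fin d → ℝ)}
    (hF : IsFace (convexHull ℝ (S : Set (Fin d → ℝ))) F) : rk (cf S) (ix S F) = frank F := by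
  have he := face_eq S hF
  unfold rk frank
  rw [cf_image]
  by_cases h0 : F = ∅
  · rw [if_pos h0, h0]
    have : {x | x ∈ S ∧ x ∈ (∅ : Set (Fin d → ℝ))} = ∅ := by ext x; simp
    rw [this]
    simp
  · rw [if_neg h0]
    have hne : {x | x ∈ S ∧ x ∈ F}.Nonempty := by
      rw [Set.nonempty_iff_ne_empty]
      intro h
      rw [h] at he
      simp at he
      exact h0 he
    have hv : vectorSpan ℝ F = vectorSpan ℝ {x | x ∈ S ∧ x ∈ F} := by
      conv_lhs => rw [he]
      rw [← direction_affineSpan, ← direction_affineSpan, affineSpan_convexHull]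
    rw [finrank_hm _ hne, hv]

/-- the isomorphism of the two descriptions of the face lattice -/
noncomputable def fiso (S : Finset (Fin d → ℝ)) :
    FaceLat (convexHull ℝ (S : Set (Fin d → ℝ))) ≃o FL (cf S) where
  toEquiv := Equiv.ofBijective (fun F => ⟨ix S F.1, ix_face S F.2⟩) (by
    constructor
    · intro F G h
      have h' : ix S F.1 = ix S G.1 := congrArg Subtype.val h
      exact Subtype.ext (Set.Subset.antisymm ((ix_le S F.2 G.2).1 h'.le)
        ((ix_le S G.2 F.2).1 h'.ge))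
    · intro T
      obtain ⟨F, h1, h2⟩ := exists_face S T.2
      exact ⟨⟨F, h1⟩, Subtype.ext h2⟩)
  map_rel_iff' := by
    intro F G
    exact ix_le S F.2 G.2

lemma fiso_rank (S : Finset (Fin d → ℝ)) (F : FaceLat (convexHull ℝ (S : Set (Fin d → ℝ)))) :
    rF (cf S) (fiso S F) = frank F.1 := rk_ix S F.2

/-- the whole polytope is a face -/
lemma isFace_univ (P : Set (Fin d → ℝ)) : IsFace P P :=
  ⟨0, 0, fun x _ => by simp, by ext x; simp⟩

lemma isFace_empty (P : Set (Fin d → ℝ)) : IsFace P ∅ :=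
  ⟨0, 1, fun x _ => by simp, by ext x; simp⟩

/-- the polytope spanned by a finite set of points -/
abbrev hull (S : Finset (Fin d → ℝ)) : Set (Fin d → ℝ) := convexHull ℝ (S : Set (Fin d → ℝ))

/-- the comparison theorem for polytopes -/
theorem main (S : Finset (Fin d → ℝ)) (r : ℕ) (hr : 1 ≤ r)
    (hr' : r + 2 ≤ Module.finrank ℝ (vectorSpan ℝ (hull S)))
    (Q : Type) [PartialOrder Q] (σ : Q → ℕ) (hQ : IsEulerian Q σ)
    (φ : {q : Q // σ q ≠ r + 1} ≃o
      {F : FaceLat (hull S) // frank F.1 ≠ r + 1})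
    (hφ : ∀ q, frank (φ q).1.1 = σ q.1) :
    ∃ ψ : Q ≃o FaceLat (hull S), ∀ q, ψ q.1 = (φ q).1 := by
  classical
  have := hQ.fin
  have hql := hQ.ql
  obtain ⟨q0, hq0, hq0'⟩ := hQ.least
  obtain ⟨q1, hq1⟩ := hQ.greatest
  have hPne : hull S ≠ ∅ := by
    intro h
    rw [h, vectorSpan_empty, finrank_bot] at hr'
    omega
  let j : FL (cf S) → Q := fun T =>
    if h : frank ((fiso S).symm T).1 ≠ r + 1 then (φ.symm ⟨(fiso S).symm T, h⟩).1 else q0
  have hrk : ∀ T : FL (cf S), rF (cf S) T = frank ((fiso S).symm T).1 := by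
    intro T
    rw [← fiso_rank, OrderIso.apply_symm_apply]
  have hj : ∀ (T : FL (cf S)) (h : frank ((fiso S).symm T).1 ≠ r + 1),
      j T = (φ.symm ⟨(fiso S).symm T, h⟩).1 := fun T h => dif_pos h
  let bot : FL (cf S) := fiso S ⟨∅, isFace_empty (hull S)⟩
  let top : FL (cf S) := fiso S ⟨hull S, isFace_univ (hull S)⟩
  have rbot : rF (cf S) bot = 0 := by
    rw [fiso_rank]; simp [frank]
  have rtop : rF (cf S) top = Module.finrank ℝ (vectorSpan ℝ (hull S)) + 1 := by
    rw [fiso_rank]; exact if_neg hPne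
  have j1 : ∀ x, rF (cf S) x ≠ r + 1 → σ (j x) = rF (cf S) x := by
    intro x hx
    rw [hrk] at hx
    rw [hj x hx, ← hφ, OrderIso.apply_symm_apply, hrk]
  have j2 : ∀ x y, rF (cf S) x ≠ r + 1 → rF (cf S) y ≠ r + 1 → (j x ≤ j y ↔ x ≤ y) := by
    intro x y hx hy
    rw [hrk] at hx hy
    rw [hj x hx, hj y hy, Subtype.coe_le_coe, φ.symm.le_iff_le]
    exact (fiso S).symm.le_iff_le
  have j3 : ∀ q, σ q ≠ r + 1 → ∃ x, rF (cf S) x ≠ r + 1 ∧ j x = q := by
    intro q hq
    refine ⟨fiso S (φ ⟨q, hq⟩).1, ?_, ?_⟩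
    · rw [fiso_rank]; exact (φ ⟨q, hq⟩).2
    · have h : frank ((fiso S).symm (fiso S (φ ⟨q, hq⟩).1)).1 ≠ r + 1 := by
        rw [OrderIso.symm_apply_apply]; exact (φ ⟨q, hq⟩).2
      rw [hj _ h]
      have : (⟨(fiso S).symm (fiso S (φ ⟨q, hq⟩).1), h⟩ :
          {F : FaceLat (hull S) // frank F.1 ≠ r + 1}) = φ ⟨q, hq⟩ :=
        Subtype.ext (OrderIso.symm_apply_apply _ _)
      rw [this, OrderIso.symm_apply_apply]
  have hbot : ∀ x, bot ≤ x := by
    intro x
    obtain ⟨F, rfl⟩ := (fiso S).surjective x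
    exact (fiso S).le_iff_le.2 (Set.empty_subset _)
  have htop : ∀ x, x ≤ top := by
    intro x
    obtain ⟨F, rfl⟩ := (fiso S).surjective x
    refine (fiso S).le_iff_le.2 ?_
    obtain ⟨f, c, -, h⟩ := F.2
    show F.1 ⊆ hull S
    rw [h]
    exact fun x hx => hx.1
  have hcmp : Cmp (FL (cf S)) Q (rF (cf S)) σ (r + 1) j bot top :=
    { hL := pl (cf S)
      hQ := hql
      j1 := j1
      j2 := j2
      j3 := j3
      hbot := hbot
      htop := htop
      hR2 := by rw [rbot]; omega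
      hRt := by rw [rtop]; omega
      qb := by
        intro e he
        have h1 : σ q0 ≠ r + 1 := by omega
        obtain ⟨x, hx, hx'⟩ := j3 q0 h1
        have h2 : j bot ≤ q0 := by
          rw [← hx']
          exact (j2 bot x (by rw [rbot]; omega) hx).2 (hbot x)
        refine lt_of_le_of_ne (h2.trans (hq0 e)) ?_
        intro h3
        have h4 := j1 bot (by rw [rbot]; omega)
        rw [h3, rbot] at h4
        omega
      qt := by
        intro e he
        have h4 := j1 top (by rw [rtop]; omega)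
        rw [rtop] at h4
        have h5 : σ (j top) ≤ σ q1 := by
          rcases (hq1 (j top)).eq_or_lt with h | h
          · rw [h]
          · exact (hql.mono _ _ h).le
        have h1 : σ q1 ≠ r + 1 := by omega
        obtain ⟨x, hx, hx'⟩ := j3 q1 h1
        have h2 : q1 ≤ j top := by
          rw [← hx']
          exact (j2 x top hx (by rw [rtop]; omega)).2 (htop x)
        refine lt_of_le_of_ne ((hq1 e).trans h2) ?_
        intro h3
        rw [← h3] at h4
        omega }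
  obtain ⟨g, hg⟩ := hcmp.iso
  refine ⟨g.trans (fiso S).symm, fun q => ?_⟩
  obtain ⟨x, hx, hx'⟩ := j3 q.1 q.2
  have h1 : g q.1 = x := by rw [← hx', hg x hx]
  show (fiso S).symm (g q.1) = (φ q).1
  rw [h1]
  have h2 : frank ((fiso S).symm x).1 ≠ r + 1 := by rw [← hrk]; exact hx
  have h3 := hj x h2
  rw [hx'] at h3
  have h4 : q = φ.symm ⟨(fiso S).symm x, h2⟩ := Subtype.ext h3
  rw [h4, OrderIso.apply_symm_apply]

end

end Pool.Agent.V11278.FaceRank
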