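import Mathlib

/-!
# Densities of binary patterns in sublebesgue measures

`rho w f` is the density of the binary word `w` in the measure `f dx` on `[0, 1]`, written as an
iterated integral over `0 ≤ x₁ ≤ x₂ ≤ ⋯ ≤ x_m ≤ 1`.
-/

set_option autoImplicit false

namespace Pool.Agent.V11278.Density

open MeasureTheory Set

/-- A measurable density with values in `[0, 1]`. -/
def IsDensity (f : ℝ → ℝ) : Prop := Measurable f ∧ ∀ x, 0 ≤ f x ∧ f x ≤ 1

/-- The factor `f` for the letter `1 = true` and `1 - f` for the letter `0 = false`. -/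
def letter (f : ℝ → ℝ) (a : Bool) (x : ℝ) : ℝ := if a then f x else 1 - f x

/-- `Psi f w t` is the integral of `∏ i, letter f (w i) (x i)` over `t ≤ x₁ ≤ ⋯ ≤ x_m ≤ 1`, as an
iterated integral. -/
noncomputable def Psi (f : ℝ → ℝ) : List Bool → ℝ → ℝ
  | [], _ => 1
  | a :: w, t => ∫ x in t..1, letter f a x * Psi f w x

/-- The density of the word `w` in the measure `f dx` on `[0, 1]`. -/
noncomputable def rho (w : List Bool) (f : ℝ → ℝ) : ℝ := (w.length.factorial : ℝ) * Psi f w 0

/-- The feasibility set of a list of words. -/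
def feasible (W : List (List Bool)) : Set (Fin W.length → ℝ) :=
  {δ | ∃ f, IsDensity f ∧ ∀ i, δ i = rho (W.get i) f}

/-- The distribution function. -/
noncomputable def cdf (f : ℝ → ℝ) (x : ℝ) : ℝ := ∫ t in (0 : ℝ)..x, f t

section basic

variable {f : ℝ → ℝ} (hf : IsDensity f)

include hf

lemma IsDensity.intervalIntegrable (a b : ℝ) : IntervalIntegrable f volume a b := by
  have h : IntervalIntegrable (fun _ : ℝ => (1 : ℝ)) volume a b := intervalIntegrable_const
  refine h.mono_fun hf.1.aestronglyMeasurable ?_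
  filter_upwards with x
  rw [Real.norm_of_nonneg (hf.2 x).1, Real.norm_of_nonneg zero_le_one]
  exact (hf.2 x).2

lemma cdf_ac : AbsolutelyContinuousOnInterval (cdf f) 0 1 :=
  (hf.intervalIntegrable 0 1).absolutelyContinuousOnInterval_intervalIntegral (by simp)

lemma cdf_deriv : ∀ᵐ x, x ∈ uIcc (0 : ℝ) 1 → HasDerivAt (cdf f) (f x) x := by
  filter_upwards [(hf.intervalIntegrable 0 1).ae_hasDerivAt_integral] with x hx hx'
  exact hx hx' 0 (by simp)

omit hf in
@[simp] lemma cdf_zero : cdf f 0 = 0 := by simp [cdf]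

lemma cdf_sub (x y : ℝ) : cdf f y - cdf f x = ∫ t in x..y, f t :=
  intervalIntegral.integral_interval_sub_left (hf.intervalIntegrable _ _)
    (hf.intervalIntegrable _ _)

lemma cdf_mono : Monotone (cdf f) := by
  intro x y hxy
  have h := cdf_sub hf x y
  have h1 : 0 ≤ ∫ t in x..y, f t := intervalIntegral.integral_nonneg hxy fun t _ => (hf.2 t).1
  linarith

lemma cdf_lip {x y : ℝ} (hxy : x ≤ y) : cdf f y - cdf f x ≤ y - x := by
  rw [cdf_sub hf]
  have h : ∫ t in x..y, f t ≤ ∫ _t in x..y, (1 : ℝ) :=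
    intervalIntegral.integral_mono_on hxy (hf.intervalIntegrable _ _) intervalIntegrable_const
      fun t _ => (hf.2 t).2
  simpa using h

lemma cdf_continuous : Continuous (cdf f) := by
  have h : LipschitzWith 1 (cdf f) := by
    apply LipschitzWith.of_le_add
    intro x y
    rcases le_total x y with h | h
    · have := cdf_mono hf h
      have := dist_nonneg (x := x) (y := y)
      linarith
    · have := cdf_lip hf h
      rw [Real.dist_eq, abs_of_nonneg (by linarith)]
      linarith
  exact h.continuous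

lemma compl_isDensity : IsDensity (fun x => 1 - f x) :=
  ⟨measurable_const.sub hf.1, fun x => ⟨by linarith [(hf.2 x).2], by linarith [(hf.2 x).1]⟩⟩

lemma cdf_compl (x : ℝ) : cdf (fun x => 1 - f x) x = x - cdf f x := by
  unfold cdf
  rw [intervalIntegral.integral_sub intervalIntegrable_const (hf.intervalIntegrable _ _)]
  simp

end basic

/-- The fundamental theorem of calculus for absolutely continuous functions on `[0, 1]`. -/
lemma ftc {Φ φ : ℝ → ℝ} {a b : ℝ} (hΦ : AbsolutelyContinuousOnInterval Φ a b)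
    (hd : ∀ᵐ x, x ∈ uIcc a b → HasDerivAt Φ (φ x) x) : ∫ x in a..b, φ x = Φ b - Φ a := by
  rw [← hΦ.integral_deriv_eq_sub]
  apply intervalIntegral.integral_congr_ae
  filter_upwards [hd] with x hx hx'
  exact (hx (uIoc_subset_uIcc hx')).deriv.symm

lemma id_ac (a b : ℝ) : AbsolutelyContinuousOnInterval (fun x : ℝ => x) a b :=
  (LipschitzWith.id.lipschitzOnWith).absolutelyContinuousOnInterval

lemma const_ac (c a b : ℝ) : AbsolutelyContinuousOnInterval (fun _ : ℝ => c) a b :=
  ((LipschitzWith.const c).lipschitzOnWith (K := 0)).absolutelyContinuousOnInterval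

/-- Exchanging the order of integration. -/
lemma swap {f : ℝ → ℝ} (hf : IsDensity f) {φ : ℝ → ℝ} (hφ : IntervalIntegrable φ volume 0 1) :
    ∫ x in (0 : ℝ)..1, f x * ∫ y in x..1, φ y = ∫ x in (0 : ℝ)..1, cdf f x * φ x := by
  set K : ℝ → ℝ := fun x => ∫ y in (0 : ℝ)..x, φ y with hK
  have hKac : AbsolutelyContinuousOnInterval K 0 1 :=
    hφ.absolutelyContinuousOnInterval_intervalIntegral (by simp)
  have hKd : ∀ᵐ x, x ∈ uIcc (0 : ℝ) 1 → HasDerivAt K (φ x) x := by
    filter_upwards [hφ.ae_hasDerivAt_integral] with x hx hx'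
    exact hx hx' 0 (by simp)
  have hsub : ∀ x ∈ Icc (0 : ℝ) 1, ∫ y in x..1, φ y = K 1 - K x := by
    intro x hx
    rw [hK]
    refine (intervalIntegral.integral_interval_sub_left hφ ?_).symm
    refine hφ.mono_set ?_
    rw [uIcc_of_le hx.1, uIcc_of_le zero_le_one]
    exact Icc_subset_Icc_right hx.2
  have h1 : ∫ x in (0 : ℝ)..1, (f x * (K 1 - K x) - cdf f x * φ x) =
      cdf f 1 * (K 1 - K 1) - cdf f 0 * (K 1 - K 0) := by
    refine ftc (Φ := fun x => cdf f x * (K 1 - K x))
      ((cdf_ac hf).fun_mul ((const_ac (K 1) 0 1).fun_sub hKac)) ?_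
    filter_upwards [cdf_deriv hf, hKd] with x h1 h2 hx
    have := (h1 hx).mul ((hasDerivAt_const x (K 1)).sub (h2 hx))
    refine this.congr_deriv ?_
    simp only [Pi.sub_apply]
    ring
  rw [cdf_zero, sub_self, mul_zero, zero_mul, sub_zero] at h1
  have hc1 : Continuous (cdf f) := cdf_continuous hf
  have hKc : ContinuousOn (fun x => K 1 - K x) (uIcc 0 1) :=
    continuousOn_const.sub hKac.continuousOn
  have i1 : IntervalIntegrable (fun x => f x * (K 1 - K x)) volume 0 1 :=
    (hf.intervalIntegrable 0 1).mul_continuousOn hKc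
  have i2 : IntervalIntegrable (fun x => cdf f x * φ x) volume 0 1 :=
    hφ.continuousOn_mul hc1.continuousOn
  rw [intervalIntegral.integral_sub i1 i2] at h1
  have h2 : ∫ x in (0 : ℝ)..1, f x * ∫ y in x..1, φ y = ∫ x in (0 : ℝ)..1, f x * (K 1 - K x) := by
    apply intervalIntegral.integral_congr
    intro x hx
    rw [uIcc_of_le zero_le_one] at hx
    simp only
    rw [hsub x hx]
  rw [h2]
  linarith

lemma Psi_zero {f : ℝ → ℝ} (hf : IsDensity f) (x : ℝ) :
    Psi f [false] x = 1 - x - cdf f 1 + cdf f x := by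
  simp only [Psi, letter, mul_one]
  have h : ∫ t in x..1, (if false = true then f t else 1 - f t) = ∫ t in x..1, (1 - f t) := by
    simp
  rw [h, intervalIntegral.integral_sub intervalIntegrable_const (hf.intervalIntegrable _ _),
    ← cdf_sub hf]
  simp
  ring

end Pool.Agent.V11278.Density
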