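import Mathlib
import Pool.Agent.V11278.DegMono

/-!
# 5-saturated graphs: chains with five vertices (helper278)
-/

namespace Pool.Agent.V11278.SatFive

set_option linter.unusedSectionVars false

open SimpleGraph Pool.Agent.V11278.DegMono

variable {V : Type*}

/-- five distinct vertices, consecutive ones related by `F` -/
def Ch5 (F : V → V → Prop) : Prop :=
  ∃ a b c e f, F a b ∧ F b c ∧ F c e ∧ F e f ∧
    a ≠ b ∧ a ≠ c ∧ a ≠ e ∧ a ≠ f ∧ b ≠ c ∧ b ≠ e ∧ b ≠ f ∧ c ≠ e ∧ c ≠ f ∧ e ≠ f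

/-- the nondecreasing step relation of a graph -/
abbrev Fs (G : SimpleGraph V) : V → V → Prop := St G.Adj (dg G)

lemma five_le_mp [Finite V] (G : SimpleGraph V) : 5 ≤ mp G ↔ Ch5 (Fs G) := by
  constructor
  · intro h
    have hne : {m | ∃ l : List V, IsDMP G l ∧ l.length = m}.Nonempty :=
      ⟨0, [], ⟨List.nodup_nil, List.isChain_nil, Or.inl List.isChain_nil⟩, rfl⟩
    obtain ⟨l, hl, hlen⟩ := Nat.sSup_mem hne (mp_bdd G)
    obtain ⟨l', h1, h2, h3⟩ := St_of_isDMP G hl
    have h5 : 5 ≤ l'.length := by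
      rw [h1, hlen]; exact h
    rcases l' with _ | ⟨a, _ | ⟨b, _ | ⟨c, _ | ⟨e, _ | ⟨f, t⟩⟩⟩⟩⟩
    · simp at h5
    · simp at h5
    · simp at h5
    · simp at h5
    · simp at h5
    · simp only [List.isChain_cons_cons] at h3
      simp only [List.nodup_cons, List.mem_cons, not_or] at h2
      refine ⟨a, b, c, e, f, h3.1, h3.2.1, h3.2.2.1, h3.2.2.2.1, ?_⟩
      tauto
  · rintro ⟨a, b, c, e, f, h1, h2, h3, h4, n1, n2, n3, n4, n5, n6, n7, n8, n9, n10⟩
    have : IsDMP G [a, b, c, e, f] := by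
      apply isDMP_of_St
      · simp only [List.nodup_cons, List.mem_cons, List.not_mem_nil, or_false, not_or,
          not_false_eq_true, List.nodup_nil, and_true]
        tauto
      · simp only [List.isChain_cons_cons, List.isChain_singleton, and_true]
        exact ⟨h1, h2, h3, h4⟩
    exact le_mp G this

/-- 5-saturation in terms of chains -/
structure Sat5 (G : SimpleGraph V) : Prop where
  no : ¬ Ch5 (Fs G)
  add : ∀ u v, u ≠ v → ¬ G.Adj u v → Ch5 (Fs (G ⊔ edge u v))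

lemma kSat_five [Finite V] (G : SimpleGraph V) : KSat 5 G ↔ Sat5 G := by
  constructor
  · rintro ⟨h1, h2⟩
    refine ⟨fun h => ?_, fun u v huv hadj => ?_⟩
    · rw [← five_le_mp] at h; omega
    · rw [← five_le_mp]; exact h2 u v huv hadj
  · rintro ⟨h1, h2⟩
    refine ⟨?_, fun u v huv hadj => ?_⟩
    · rw [← five_le_mp] at h1; omega
    · rw [five_le_mp]; exact h2 u v huv hadj

section add

variable [Finite V] {G : SimpleGraph V} {x w : V}

open Classical in
lemma dg_add (hxw : x ≠ w) (hadj : ¬ G.Adj x w) (v : V) :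
    dg (G ⊔ edge x w) v = dg G v + if v = x ∨ v = w then 1 else 0 := by
  unfold dg
  by_cases hvx : v = x
  · subst hvx
    have : (G ⊔ edge v w).neighborSet v = insert w (G.neighborSet v) := by
      ext y
      simp only [mem_neighborSet, sup_adj, edge_adj, Set.mem_insert_iff]
      constructor
      · rintro (h | ⟨⟨-, h⟩ | ⟨h, -⟩, h'⟩)
        · exact Or.inr h
        · exact Or.inl h
        · exact absurd h hxw
      · rintro (rfl | h)
        · right; simp [hxw]
        · exact Or.inl h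
    rw [this, Set.ncard_insert_of_notMem (by simpa using hadj) (Set.toFinite _)]
    simp
  · by_cases hvw : v = w
    · subst hvw
      have : (G ⊔ edge x v).neighborSet v = insert x (G.neighborSet v) := by
        ext y
        simp only [mem_neighborSet, sup_adj, edge_adj, Set.mem_insert_iff]
        constructor
        · rintro (h | ⟨⟨h, -⟩ | ⟨-, h⟩, h'⟩)
          · exact Or.inr h
          · exact absurd h.symm hxw
          · exact Or.inl h
        · rintro (rfl | h)
          · right; simp [Ne.symm hxw]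
          · exact Or.inl h
      rw [this, Set.ncard_insert_of_notMem (by simpa using fun h => hadj h.symm) (Set.toFinite _)]
      simp
    · have : (G ⊔ edge x w).neighborSet v = G.neighborSet v := by
        ext y
        simp only [mem_neighborSet, sup_adj, edge_adj]
        constructor
        · rintro (h | ⟨⟨h, -⟩ | ⟨h, -⟩, h'⟩)
          · exact h
          · exact absurd h hvx
          · exact absurd h hvw
        · exact fun h => Or.inl h
      rw [this]
      simp [hvx, hvw]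

lemma dg_add_x (hxw : x ≠ w) (hadj : ¬ G.Adj x w) : dg (G ⊔ edge x w) x = dg G x + 1 := by
  rw [dg_add hxw hadj]; simp

lemma dg_add_w (hxw : x ≠ w) (hadj : ¬ G.Adj x w) : dg (G ⊔ edge x w) w = dg G w + 1 := by
  rw [dg_add hxw hadj]; simp

lemma dg_add_o (hxw : x ≠ w) (hadj : ¬ G.Adj x w) {v : V} (h1 : v ≠ x) (h2 : v ≠ w) :
    dg (G ⊔ edge x w) v = dg G v := by
  rw [dg_add hxw hadj]; simp [h1, h2]

lemma adj_add (hxw : x ≠ w) {u v : V} :
    (G ⊔ edge x w).Adj u v ↔ G.Adj u v ∨ (u = x ∧ v = w) ∨ (u = w ∧ v = x) := by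
  simp only [sup_adj, edge_adj]
  constructor
  · rintro (h | ⟨h, -⟩)
    · exact Or.inl h
    · tauto
  · rintro (h | ⟨rfl, rfl⟩ | ⟨rfl, rfl⟩)
    · exact Or.inl h
    · exact Or.inr ⟨Or.inl ⟨rfl, rfl⟩, hxw⟩
    · exact Or.inr ⟨Or.inr ⟨rfl, rfl⟩, hxw.symm⟩

/-- a step of the new graph that avoids both special vertices is a step of the old graph -/
lemma step_old (hxw : x ≠ w) (hadj : ¬ G.Adj x w) {u v : V} (h : Fs (G ⊔ edge x w) u v)
    (u1 : u ≠ x) (u2 : u ≠ w) (v1 : v ≠ x) (v2 : v ≠ w) : Fs G u v := by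
  obtain ⟨h1, h2⟩ := h
  rw [adj_add hxw] at h1
  rw [dg_add_o hxw hadj u1 u2, dg_add_o hxw hadj v1 v2] at h2
  refine ⟨?_, h2⟩
  tauto

/-- the chain of the new graph passes through one of the special vertices -/
lemma chain_hits (hG : ¬ Ch5 (Fs G)) (hxw : x ≠ w) (hadj : ¬ G.Adj x w) {a b c e f : V}
    (h1 : Fs (G ⊔ edge x w) a b) (h2 : Fs (G ⊔ edge x w) b c) (h3 : Fs (G ⊔ edge x w) c e)
    (h4 : Fs (G ⊔ edge x w) e f) (n1 : a ≠ b) (n2 : a ≠ c) (n3 : a ≠ e) (n4 : a ≠ f)
    (n5 : b ≠ c) (n6 : b ≠ e) (n7 : b ≠ f) (n8 : c ≠ e) (n9 : c ≠ f) (n10 : e ≠ f) :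
    (a = x ∨ b = x ∨ c = x ∨ e = x ∨ f = x) ∨ (a = w ∨ b = w ∨ c = w ∨ e = w ∨ f = w) := by
  by_contra hcon
  push Not at hcon
  obtain ⟨⟨a1, b1, c1, e1, f1⟩, a2, b2, c2, e2, f2⟩ := hcon
  exact hG ⟨a, b, c, e, f, step_old hxw hadj h1 a1 a2 b1 b2, step_old hxw hadj h2 b1 b2 c1 c2,
    step_old hxw hadj h3 c1 c2 e1 e2, step_old hxw hadj h4 e1 e2 f1 f2,
    n1, n2, n3, n4, n5, n6, n7, n8, n9, n10⟩

open Classical in
/-- chains of `G` with the degree of `x` raised by one -/
lemma bump_case (hG : ¬ Ch5 (Fs G)) {a b c e f : V}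
    (h1 : G.Adj a b) (h2 : G.Adj b c) (h3 : G.Adj c e) (h4 : G.Adj e f)
    (n1 : a ≠ b) (n2 : a ≠ c) (n3 : a ≠ e) (n4 : a ≠ f)
    (n5 : b ≠ c) (n6 : b ≠ e) (n7 : b ≠ f) (n8 : c ≠ e) (n9 : c ≠ f) (n10 : e ≠ f)
    (i1 : dg G a + (if a = x then 1 else 0) ≤ dg G b + (if b = x then 1 else 0))
    (i2 : dg G b + (if b = x then 1 else 0) ≤ dg G c + (if c = x then 1 else 0))
    (i3 : dg G c + (if c = x then 1 else 0) ≤ dg G e + (if e = x then 1 else 0))
    (i4 : dg G e + (if e = x then 1 else 0) ≤ dg G f + (if f = x then 1 else 0)) :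
    (f = x ∧ dg G e = dg G x + 1) ∨
    (∃ p q, p ≠ q ∧ G.Adj x p ∧ G.Adj x q ∧ dg G p = dg G x + 1 ∧ dg G x + 1 ≤ dg G q) := by
  have key : ¬ (dg G a ≤ dg G b ∧ dg G b ≤ dg G c ∧ dg G c ≤ dg G e ∧ dg G e ≤ dg G f) := by
    rintro ⟨j1, j2, j3, j4⟩
    exact hG ⟨a, b, c, e, f, ⟨h1, j1⟩, ⟨h2, j2⟩, ⟨h3, j3⟩, ⟨h4, j4⟩,
      n1, n2, n3, n4, n5, n6, n7, n8, n9, n10⟩
  by_cases hax : a = x
  · subst hax
    simp only [if_true, n1.symm, n2.symm, n3.symm, n4.symm, if_false] at i1 i2 i3 i4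
    exfalso; apply key; omega
  by_cases hbx : b = x
  · subst hbx
    simp only [if_true, n1, n5.symm, n6.symm, n7.symm, if_false] at i1 i2 i3 i4
    by_cases h : dg G a ≤ dg G b
    · exfalso; apply key; omega
    · right
      exact ⟨a, c, n2, h1.symm, h2, by omega, by omega⟩
  by_cases hcx : c = x
  · subst hcx
    simp only [if_true, n2, n5, n8.symm, n9.symm, if_false] at i1 i2 i3 i4
    by_cases h : dg G b ≤ dg G c
    · exfalso; apply key; omega
    · right
      exact ⟨b, e, n6, h2.symm, h3, by omega, by omega⟩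
  by_cases hex : e = x
  · subst hex
    simp only [if_true, n3, n6, n8, n10.symm, if_false] at i1 i2 i3 i4
    by_cases h : dg G c ≤ dg G e
    · exfalso; apply key; omega
    · right
      exact ⟨c, f, n9, h3.symm, h4, by omega, by omega⟩
  by_cases hfx : f = x
  · subst hfx
    simp only [if_true, n4, n7, n9, n10, if_false] at i1 i2 i3 i4
    by_cases h : dg G e ≤ dg G f
    · exfalso; apply key; omega
    · left
      exact ⟨rfl, by omega⟩
  simp only [hax, hbx, hcx, hex, hfx, if_false] at i1 i2 i3 i4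
  exfalso; apply key; omega

/-- a descending path `x, c, b, a` below the raised degree of `x`, avoiding `w` -/
def Dn (G : SimpleGraph V) (x w : V) (t : ℕ) : Prop :=
  ∃ a b c, G.Adj a b ∧ G.Adj b c ∧ G.Adj c x ∧ a ≠ c ∧ a ≠ x ∧ b ≠ x ∧ a ≠ w ∧ b ≠ w ∧ c ≠ w ∧
    dg G a ≤ dg G b ∧ dg G b ≤ dg G c ∧ dg G c ≤ t

open Classical in
/-- the raise lemma -/
theorem RL (hG : ¬ Ch5 (Fs G)) (hxw : x ≠ w) (hadj : ¬ G.Adj x w)
    (hw : ∀ u, G.Adj w u → dg G u ≤ dg G w) (hlt : dg G x < dg G w)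
    (h : Ch5 (Fs (G ⊔ edge x w))) :
    Dn G x w (dg G x + 1) ∨
    (∃ p q, p ≠ q ∧ G.Adj x p ∧ G.Adj x q ∧ dg G p = dg G x + 1 ∧ dg G x + 1 ≤ dg G q) := by
  have dx := dg_add_x hxw hadj
  have dw := dg_add_w hxw hadj
  have nosucc : ∀ v, ¬ Fs (G ⊔ edge x w) w v := by
    rintro v ⟨h1, h2⟩
    rw [dw] at h2
    rw [adj_add hxw] at h1
    rcases h1 with h1 | ⟨h1, -⟩ | ⟨-, h1⟩
    · have hv1 : v ≠ w := h1.ne'
      have hv2 : v ≠ x := by rintro rfl; exact hadj h1.symm
      rw [dg_add_o hxw hadj hv2 hv1] at h2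
      have := hw v h1
      omega
    · exact hxw h1.symm
    · subst h1
      rw [dx] at h2
      omega
  obtain ⟨a, b, c, e, f, h1, h2, h3, h4, n1, n2, n3, n4, n5, n6, n7, n8, n9, n10⟩ := h
  have haw : a ≠ w := by rintro rfl; exact nosucc _ h1
  have hbw : b ≠ w := by rintro rfl; exact nosucc _ h2
  have hcw : c ≠ w := by rintro rfl; exact nosucc _ h3
  have hew : e ≠ w := by rintro rfl; exact nosucc _ h4
  have dd : ∀ v, v ≠ w → dg (G ⊔ edge x w) v = dg G v + if v = x then 1 else 0 := by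
    intro v hv
    rw [dg_add hxw hadj]
    simp [hv]
  have st : ∀ u v, u ≠ w → v ≠ w → Fs (G ⊔ edge x w) u v → G.Adj u v ∧
      dg G u + (if u = x then 1 else 0) ≤ dg G v + if v = x then 1 else 0 := by
    rintro u v hu hv ⟨h1, h2⟩
    rw [dd u hu, dd v hv] at h2
    rw [adj_add hxw] at h1
    refine ⟨?_, h2⟩
    tauto
  obtain ⟨a1, i1⟩ := st a b haw hbw h1
  obtain ⟨a2, i2⟩ := st b c hbw hcw h2
  obtain ⟨a3, i3⟩ := st c e hcw hew h3
  by_cases hfw : f = w
  · subst hfw
    by_cases hex : e = x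
    · subst hex
      left
      simp only [n3, n6, n8, if_false, if_true] at i1 i2 i3
      exact ⟨a, b, c, a1, a2, a3, n2, n3, n6, haw, hbw, hcw, by omega, by omega, by omega⟩
    · have a4 : G.Adj e f := by
        have := h4.1
        rw [adj_add hxw] at this
        rcases this with h | ⟨h, -⟩ | ⟨h, -⟩
        · exact h
        · exact absurd h hex
        · exact absurd h hew
      have i4 : dg G e + (if e = x then 1 else 0) ≤ dg G f + if f = x then 1 else 0 := by
        simp only [hex, if_false]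
        have := hw e a4.symm
        omega
      rcases bump_case hG a1 a2 a3 a4 n1 n2 n3 n4 n5 n6 n7 n8 n9 n10 i1 i2 i3 i4 with h | h
      · exact absurd h.1.symm hxw
      · right; exact h
  · obtain ⟨a4, i4⟩ := st e f hew hfw h4
    rcases bump_case hG a1 a2 a3 a4 n1 n2 n3 n4 n5 n6 n7 n8 n9 n10 i1 i2 i3 i4 with h | h
    · left
      obtain ⟨rfl, h⟩ := h
      simp only [n7, n9, n10, n4, if_false, if_true] at i1 i2 i3 i4
      exact ⟨b, c, e, a2, a3, a4, n6, n7, n9, hbw, hcw, hew, by omega, by omega, by omega⟩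
    · right; exact h

/-- the raise lemma for two peaks of the same degree -/
theorem RL2 (hG : ¬ Ch5 (Fs G)) (hxw : x ≠ w) (hadj : ¬ G.Adj x w)
    (hx : ∀ u, G.Adj x u → dg G u ≤ dg G x) (hw : ∀ u, G.Adj w u → dg G u ≤ dg G w)
    (heq : dg G x = dg G w) (h : Ch5 (Fs (G ⊔ edge x w))) :
    Dn G x w (dg G x) ∨ Dn G w x (dg G x) := by
  have dx := dg_add_x hxw hadj
  have dw := dg_add_w hxw hadj
  have sx : ∀ v, Fs (G ⊔ edge x w) x v → v = w := by
    rintro v ⟨h1, h2⟩
    rw [dx] at h2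
    rw [adj_add hxw] at h1
    rcases h1 with h1 | ⟨-, h1⟩ | ⟨h1, -⟩
    · have hv1 : v ≠ x := h1.ne'
      have hv2 : v ≠ w := by rintro rfl; exact hadj h1
      rw [dg_add_o hxw hadj hv1 hv2] at h2
      have := hx v h1
      omega
    · exact h1
    · exact absurd h1 hxw
  have sw : ∀ v, Fs (G ⊔ edge x w) w v → v = x := by
    rintro v ⟨h1, h2⟩
    rw [dw] at h2
    rw [adj_add hxw] at h1
    rcases h1 with h1 | ⟨h1, -⟩ | ⟨-, h1⟩
    · have hv1 : v ≠ w := h1.ne'
      have hv2 : v ≠ x := by rintro rfl; exact hadj h1.symm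
      rw [dg_add_o hxw hadj hv2 hv1] at h2
      have := hw v h1
      omega
    · exact absurd h1.symm hxw
    · exact h1
  obtain ⟨a, b, c, e, f, h1, h2, h3, h4, n1, n2, n3, n4, n5, n6, n7, n8, n9, n10⟩ := h
  have hax : a ≠ x := by rintro rfl; have := sx _ h1; subst this; exact n2 (sw _ h2).symm
  have haw : a ≠ w := by rintro rfl; have := sw _ h1; subst this; exact n2 (sx _ h2).symm
  have hbx : b ≠ x := by rintro rfl; have := sx _ h2; subst this; exact n6 (sw _ h3).symm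
  have hbw : b ≠ w := by rintro rfl; have := sw _ h2; subst this; exact n6 (sx _ h3).symm
  have hcx : c ≠ x := by rintro rfl; have := sx _ h3; subst this; exact n9 (sw _ h4).symm
  have hcw : c ≠ w := by rintro rfl; have := sw _ h3; subst this; exact n9 (sx _ h4).symm
  have f1 := step_old hxw hadj h1 hax haw hbx hbw
  have f2 := step_old hxw hadj h2 hbx hbw hcx hcw
  by_cases hex : e = x
  · subst hex
    left
    obtain ⟨h5, h6⟩ := h3
    have hca : G.Adj c e := by
      rw [adj_add hxw] at h5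
      rcases h5 with h | ⟨h, -⟩ | ⟨h, -⟩
      · exact h
      · exact absurd h hcx
      · exact absurd h hcw
    exact ⟨a, b, c, f1.1, f2.1, hca, n2, n3, n6, haw, hbw, hcw, f1.2, f2.2, hx c hca.symm⟩
  by_cases hew : e = w
  · subst hew
    right
    obtain ⟨h5, h6⟩ := h3
    have hca : G.Adj c e := by
      rw [adj_add hxw] at h5
      rcases h5 with h | ⟨h, -⟩ | ⟨h, -⟩
      · exact h
      · exact absurd h hcx
      · exact absurd h hcw
    exact ⟨a, b, c, f1.1, f2.1, hca, n2, n3, n6, hax, hbx, hcx, f1.2, f2.2,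
      by rw [heq]; exact hw c hca.symm⟩
  have f3 := step_old hxw hadj h3 hcx hcw hex hew
  exfalso
  have h4a : G.Adj e f := by
    have := h4.1
    rw [adj_add hxw] at this
    rcases this with h | ⟨h, -⟩ | ⟨h, -⟩
    · exact h
    · exact absurd h hex
    · exact absurd h hew
  have h4b : dg G e ≤ dg G f := by
    by_cases hfx : f = x
    · rw [hfx]; exact hx e (by rw [← hfx]; exact h4a.symm)
    by_cases hfw : f = w
    · rw [hfw]; exact hw e (by rw [← hfw]; exact h4a.symm)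
    exact (step_old hxw hadj h4 hex hew hfx hfw).2
  exact hG ⟨a, b, c, e, f, f1, f2, f3, ⟨h4a, h4b⟩, n1, n2, n3, n4, n5, n6, n7, n8, n9, n10⟩

/-- closed sets with at most four vertices -/
theorem SC (hG : ¬ Ch5 (Fs G)) (hxw : x ≠ w) (hadj : ¬ G.Adj x w) (S : Finset V)
    (hS : S.card ≤ 4) (hcl : ∀ u ∈ S, ∀ v, G.Adj u v → v ∈ S) (hx : x ∈ S) (hw : w ∈ S) :
    ¬ Ch5 (Fs (G ⊔ edge x w)) := by
  classical
  rintro ⟨a, b, c, e, f, h1, h2, h3, h4, n1, n2, n3, n4, n5, n6, n7, n8, n9, n10⟩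
  have cl : ∀ u v, Fs (G ⊔ edge x w) u v → (u ∈ S ↔ v ∈ S) := by
    rintro u v ⟨h, -⟩
    rw [adj_add hxw] at h
    rcases h with h | ⟨rfl, rfl⟩ | ⟨rfl, rfl⟩
    · exact ⟨fun hu => hcl u hu v h, fun hv => hcl v hv u h.symm⟩
    · exact ⟨fun _ => hw, fun _ => hx⟩
    · exact ⟨fun _ => hx, fun _ => hw⟩
  have hit := chain_hits hG hxw hadj h1 h2 h3 h4 n1 n2 n3 n4 n5 n6 n7 n8 n9 n10
  have c1 := cl _ _ h1
  have c2 := cl _ _ h2
  have c3 := cl _ _ h3
  have c4 := cl _ _ h4
  have ha : a ∈ S := by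
    rcases hit with (h | h | h | h | h) | (h | h | h | h | h) <;> subst h <;> tauto
  have hb : b ∈ S := c1.1 ha
  have hc : c ∈ S := c2.1 hb
  have he : e ∈ S := c3.1 hc
  have hf : f ∈ S := c4.1 he
  have hsub : ({a, b, c, e, f} : Finset V) ⊆ S := by
    intro y hy
    simp only [Finset.mem_insert, Finset.mem_singleton] at hy
    rcases hy with rfl | rfl | rfl | rfl | rfl <;> assumption
  have hcard : ({a, b, c, e, f} : Finset V).card = 5 := by
    rw [Finset.card_insert_of_notMem (by simp [n1, n2, n3, n4]),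
      Finset.card_insert_of_notMem (by simp [n5, n6, n7]),
      Finset.card_insert_of_notMem (by simp [n8, n9]),
      Finset.card_insert_of_notMem (by simp [n10]), Finset.card_singleton]
  have := Finset.card_le_card hsub
  omega

end add

end Pool.Agent.V11278.SatFive
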