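import Mathlib
import Pool.Agent.V11278.SatFive

/-!
# 5-saturated graphs: small degrees (helper278)
-/

namespace Pool.Agent.V11278.SatFive

set_option linter.unusedSectionVars false

open SimpleGraph Pool.Agent.V11278.DegMono

variable {V : Type*} [Fintype V] {G : SimpleGraph V}

section nbrs

lemma one_le_dg {x p : V} (hp : G.Adj x p) : 1 ≤ dg G x := by
  unfold dg
  exact (Set.ncard_pos (Set.toFinite _)).2 ⟨p, hp⟩

lemma two_le_dg {x p q : V} (hp : G.Adj x p) (hq : G.Adj x q) (hpq : p ≠ q) : 2 ≤ dg G x := by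
  unfold dg
  rw [← Set.ncard_pair hpq]
  exact Set.ncard_le_ncard (by rintro y (rfl | rfl) <;> assumption) (Set.toFinite _)

lemma three_le_dg {x p q r : V} (hp : G.Adj x p) (hq : G.Adj x q) (hr : G.Adj x r)
    (hpq : p ≠ q) (hpr : p ≠ r) (hqr : q ≠ r) : 3 ≤ dg G x := by
  unfold dg
  have : ({p, q, r} : Set V).ncard = 3 := Set.ncard_eq_three.2 ⟨p, q, r, hpq, hpr, hqr, rfl⟩
  rw [← this]
  exact Set.ncard_le_ncard (by rintro y (rfl | rfl | rfl) <;> assumption) (Set.toFinite _)

lemma four_le_dg {x p q r s : V} (hp : G.Adj x p) (hq : G.Adj x q) (hr : G.Adj x r)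
    (hs : G.Adj x s) (hpq : p ≠ q) (hpr : p ≠ r) (hps : p ≠ s) (hqr : q ≠ r) (hqs : q ≠ s)
    (hrs : r ≠ s) : 4 ≤ dg G x := by
  unfold dg
  have : ({p, q, r, s} : Set V).ncard = 4 := by
    rw [Set.ncard_insert_of_notMem (by simp [hpq, hpr, hps]),
      Set.ncard_eq_three.2 ⟨q, r, s, hqr, hqs, hrs, rfl⟩]
  rw [← this]
  exact Set.ncard_le_ncard (by rintro y (rfl | rfl | rfl | rfl) <;> assumption) (Set.toFinite _)

lemma dg_zero {x : V} (h : dg G x = 0) (p : V) : ¬ G.Adj x p := fun hp => by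
  have := one_le_dg hp
  omega

lemma dg_one {x : V} (h : dg G x = 1) : ∃ y, G.Adj x y := by
  unfold dg at h
  obtain ⟨y, hy⟩ := Set.ncard_eq_one.1 h
  exact ⟨y, by have : y ∈ G.neighborSet x := by rw [hy]; rfl
               exact this⟩

lemma eq_of_one {x p q : V} (h : dg G x = 1) (hp : G.Adj x p) (hq : G.Adj x q) : q = p := by
  by_contra hne
  have := two_le_dg hq hp hne
  omega

lemma dg_two {x : V} (h : dg G x = 2) : ∃ p q, p ≠ q ∧ G.Adj x p ∧ G.Adj x q := by
  unfold dg at h
  obtain ⟨p, q, hpq, hy⟩ := Set.ncard_eq_two.1 h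
  have h1 : p ∈ G.neighborSet x := by rw [hy]; simp
  have h2 : q ∈ G.neighborSet x := by rw [hy]; simp
  exact ⟨p, q, hpq, h1, h2⟩

lemma eq_of_two {x p q r : V} (h : dg G x = 2) (hp : G.Adj x p) (hq : G.Adj x q) (hpq : p ≠ q)
    (hr : G.Adj x r) : r = p ∨ r = q := by
  by_contra hne
  push Not at hne
  have := three_le_dg hr hp hq hne.1 hne.2 hpq
  omega

/-- the other neighbour of a 2-vertex -/
lemma other_two {x p : V} (h : dg G x = 2) (hp : G.Adj x p) :
    ∃ q, q ≠ p ∧ G.Adj x q ∧ ∀ r, G.Adj x r → r = p ∨ r = q := by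
  obtain ⟨a, b, hab, ha, hb⟩ := dg_two h
  rcases eq_of_two h ha hb hab hp with rfl | rfl
  · exact ⟨b, hab.symm, hb, fun r hr => eq_of_two h ha hb hab hr⟩
  · exact ⟨a, hab, ha, fun r hr => (eq_of_two h ha hb hab hr).symm⟩

lemma eq_of_three {x p q r s : V} (h : dg G x = 3) (hp : G.Adj x p) (hq : G.Adj x q)
    (hr : G.Adj x r) (hpq : p ≠ q) (hpr : p ≠ r) (hqr : q ≠ r) (hs : G.Adj x s) :
    s = p ∨ s = q ∨ s = r := by
  by_contra hne
  push Not at hne
  have := four_le_dg hs hp hq hr hne.1 hne.2.1 hne.2.2 hpq hpr hqr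
  omega

/-- the two other neighbours of a 3-vertex -/
lemma other_three {x p : V} (h : dg G x = 3) (hp : G.Adj x p) :
    ∃ q r, q ≠ p ∧ r ≠ p ∧ q ≠ r ∧ G.Adj x q ∧ G.Adj x r ∧
      ∀ s, G.Adj x s → s = p ∨ s = q ∨ s = r := by
  have h' := h
  unfold dg at h
  obtain ⟨a, b, c, hab, hac, hbc, hy⟩ := Set.ncard_eq_three.1 h
  have h1 : G.Adj x a := by
    have : a ∈ G.neighborSet x := by rw [hy]; simp
    exact this
  have h2 : G.Adj x b := by
    have : b ∈ G.neighborSet x := by rw [hy]; simp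
    exact this
  have h3 : G.Adj x c := by
    have : c ∈ G.neighborSet x := by rw [hy]; simp
    exact this
  rcases eq_of_three h' h1 h2 h3 hab hac hbc hp with rfl | rfl | rfl
  · exact ⟨b, c, hab.symm, hac.symm, hbc, h2, h3, fun s hs => eq_of_three h' h1 h2 h3 hab hac hbc hs⟩
  · refine ⟨a, c, hab, hbc.symm, hac, h1, h3, fun s hs => ?_⟩
    rcases eq_of_three h' h1 h2 h3 hab hac hbc hs with h | h | h <;> tauto
  · refine ⟨a, b, hac, hbc, hab, h1, h2, fun s hs => ?_⟩
    rcases eq_of_three h' h1 h2 h3 hab hac hbc hs with h | h | h <;> tauto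

/-- the third neighbour of a 3-vertex -/
lemma third {x p q : V} (h : dg G x = 3) (hp : G.Adj x p) (hq : G.Adj x q) (hpq : p ≠ q) :
    ∃ r, r ≠ p ∧ r ≠ q ∧ G.Adj x r ∧ ∀ s, G.Adj x s → s = p ∨ s = q ∨ s = r := by
  obtain ⟨a, b, h1, h2, h3, h4, h5, h6⟩ := other_three h hp
  rcases h6 q hq with rfl | rfl | rfl
  · exact absurd rfl hpq
  · exact ⟨b, h2, h3.symm, h5, h6⟩
  · refine ⟨a, h1, h3, h4, fun s hs => ?_⟩
    rcases h6 s hs with h | h | h <;> tauto

end nbrs

/-- a vertex whose neighbours have at most its degree -/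
def Peak (G : SimpleGraph V) (w : V) : Prop := ∀ u, G.Adj w u → dg G u ≤ dg G w

lemma exists_max [Nonempty V] (G : SimpleGraph V) : ∃ M, ∀ v, dg G v ≤ dg G M :=
  Finite.exists_max (dg G)

lemma exists_notMem3 (hc : 4 ≤ Fintype.card V) (a b c : V) : ∃ w, w ≠ a ∧ w ≠ b ∧ w ≠ c := by
  classical
  by_contra hcon
  push Not at hcon
  have : (Finset.univ : Finset V) ⊆ {a, b, c} := by
    intro w _
    simp only [Finset.mem_insert, Finset.mem_singleton]
    by_cases h1 : w = a
    · exact Or.inl h1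
    by_cases h2 : w = b
    · exact Or.inr (Or.inl h2)
    exact Or.inr (Or.inr (hcon w h1 h2))
  have h1 := Finset.card_le_card this
  have h2 : ({a, b, c} : Finset V).card ≤ 3 := Finset.card_le_three
  rw [Finset.card_univ] at h1
  omega

/-- leaves -/
theorem leaf_lemma (hS : Sat5 G) {x y w : V} (hx : dg G x = 1) (hxy : G.Adj x y)
    (hw : Peak G w) (hw2 : 2 ≤ dg G w) (hwy : w ≠ y) : False := by
  have hxw : x ≠ w := by rintro rfl; omega
  have hadj : ¬ G.Adj x w := fun h => hwy (eq_of_one hx hxy h)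
  rcases RL hS.no hxw hadj hw (by omega) (hS.add x w hxw hadj) with h | h
  · obtain ⟨a, b, c, h1, h2, h3, n1, n2, n3, n4, n5, n6, i1, i2, i3⟩ := h
    have hcy : c = y := eq_of_one hx hxy h3.symm
    subst hcy
    have hc2 : dg G c = 2 := by
      have := two_le_dg h2.symm h3 n3
      omega
    have hb2 : dg G b = 2 := by
      have := two_le_dg h1.symm h2 n1
      omega
    have hpk : Peak G b := by
      intro u hu
      rcases eq_of_two hb2 h1.symm h2 n1 hu with rfl | rfl <;> omega
    have hxb : x ≠ b := n3.symm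
    have hadj' : ¬ G.Adj x b := fun h => h2.ne (eq_of_one hx hxy h)
    rcases RL hS.no hxb hadj' hpk (by omega) (hS.add x b hxb hadj') with h | h
    · obtain ⟨a', b', c', h1', h2', h3', n1', n2', n3', n4', n5', n6', i1', i2', i3'⟩ := h
      have hcy : c' = c := eq_of_one hx hxy h3'.symm
      subst hcy
      rcases eq_of_two hc2 h2.symm h3 n3 h2'.symm with h | h
      · exact n5' h
      · exact n3' h
    · obtain ⟨p, q, hpq, hp, hq, -⟩ := h
      exact hpq (eq_of_one hx hq hp)
  · obtain ⟨p, q, hpq, hp, hq, -⟩ := h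
    exact hpq (eq_of_one hx hq hp)

/-- no isolated vertices -/
theorem dg_pos (hS : Sat5 G) (hc : 4 ≤ Fintype.card V) (x : V) : 1 ≤ dg G x := by
  classical
  by_contra hx
  have hx0 : dg G x = 0 := by omega
  haveI : Nonempty V := ⟨x⟩
  obtain ⟨M, hM⟩ := exists_max G
  rcases Nat.eq_zero_or_pos (dg G M) with h0 | h0
  · obtain ⟨w, hw, -, -⟩ := exists_notMem3 hc x x x
    have hno : ∀ u v, ¬ G.Adj u v := fun u v => dg_zero (by have := hM u; omega) v
    obtain ⟨a, b, c, e, f, h1, h2, -, -, n1, n2, -⟩ := hS.add x w hw.symm (hno x w)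
    have h1' := h1.1
    have h2' := h2.1
    rw [adj_add hw.symm] at h1' h2'
    rcases h1' with h | ⟨ha, hb⟩ | ⟨ha, hb⟩
    · exact hno _ _ h
    · rcases h2' with h | ⟨hc, hd⟩ | ⟨hc, hd⟩
      · exact hno _ _ h
      · exact hw (hb.symm.trans hc)
      · exact n2 (ha.trans hd.symm)
    · rcases h2' with h | ⟨hc, hd⟩ | ⟨hc, hd⟩
      · exact hno _ _ h
      · exact n2 (ha.trans hd.symm)
      · exact hw (hc.symm.trans hb)
  · have hxM : x ≠ M := by rintro rfl; omega
    have hadj : ¬ G.Adj x M := dg_zero hx0 M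
    rcases RL hS.no hxM hadj (fun u _ => hM u) (by omega) (hS.add x M hxM hadj) with h | h
    · obtain ⟨a, b, c, h1, h2, h3, -⟩ := h
      exact dg_zero hx0 _ h3.symm
    · obtain ⟨p, q, hpq, hp, hq, -⟩ := h
      exact dg_zero hx0 _ hp

lemma Dn_two (hS : Sat5 G) (h2 : ∀ v, dg G v = 2) {x w : V} {t : ℕ} (h : Dn G x w t) : False := by
  classical
  obtain ⟨a, b, c, h1, h2', h3, n1, n2, n3, n4, n5, n6, i1, i2, i3⟩ := h
  obtain ⟨q, hqc, hxq, hq⟩ := other_two (h2 x) h3.symm
  by_cases hqa : q = a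
  · subst hqa
    have hbx : ¬ G.Adj b x := by
      intro hadj
      rcases hq b hadj.symm with rfl | rfl
      · exact h2'.ne rfl
      · exact h1.ne rfl
    refine SC hS.no n3 hbx {q, b, c, x} Finset.card_le_four ?_ (by simp) (by simp)
      (hS.add b x n3 hbx)
    intro u hu v huv
    simp only [Finset.mem_insert, Finset.mem_singleton] at hu ⊢
    rcases hu with rfl | rfl | rfl | rfl
    · rcases eq_of_two (h2 _) h1 hxq.symm n3 huv with rfl | rfl <;> simp
    · rcases eq_of_two (h2 _) h1.symm h2' n1 huv with rfl | rfl <;> simp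
    · rcases eq_of_two (h2 _) h2'.symm h3 n3 huv with rfl | rfl <;> simp
    · rcases hq v huv with rfl | rfl <;> simp
  · by_cases hqb : q = b
    · subst hqb
      rcases eq_of_two (h2 q) h1.symm h2' n1 hxq.symm with h | h
      · exact n2 h.symm
      · exact h3.ne h.symm
    · exact hS.no ⟨a, b, c, x, q, ⟨h1, by rw [h2, h2]⟩, ⟨h2', by rw [h2, h2]⟩,
        ⟨h3, by rw [h2, h2]⟩, ⟨hxq, by rw [h2, h2]⟩, h1.ne, n1, n2, Ne.symm hqa, h2'.ne, n3,
        Ne.symm hqb, h3.ne, Ne.symm hqc, hxq.ne⟩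

/-- the maximum degree is at least three -/
theorem exists_big (hS : Sat5 G) (hc : 4 ≤ Fintype.card V) :
    ∃ M, 3 ≤ dg G M ∧ ∀ v, dg G v ≤ dg G M := by
  classical
  haveI : Nonempty V := Fintype.card_pos_iff.1 (by omega)
  obtain ⟨M, hM⟩ := exists_max G
  refine ⟨M, ?_, hM⟩
  by_contra hlt
  have h1 := dg_pos hS hc
  have hM1 := h1 M
  rcases Nat.lt_or_ge (dg G M) 2 with h2 | h2
  · -- all degrees are one
    have hall : ∀ v, dg G v = 1 := fun v => by have := hM v; have := h1 v; omega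
    obtain ⟨y, hy⟩ := dg_one (hall M)
    obtain ⟨w, hw1, hw2, -⟩ := exists_notMem3 hc M y y
    have hadj : ¬ G.Adj M w := fun h => hw2 (eq_of_one (hall M) hy h)
    have pk : ∀ v, Peak G v := fun v u _ => by rw [hall, hall]
    have key : ∀ (x z : V) (t : ℕ), ¬ Dn G x z t := by
      rintro x z t ⟨a, b, c, h1, h2', h3, n1, n2, n3, -⟩
      exact n3 (eq_of_one (hall c) h3 h2'.symm)
    rcases RL2 hS.no hw1.symm hadj (pk M) (pk w) (by rw [hall, hall])
      (hS.add M w hw1.symm hadj) with h | h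
    · exact key _ _ _ h
    · exact key _ _ _ h
  · have hM2 : dg G M = 2 := by omega
    by_cases hleaf : ∃ x, dg G x = 1
    · obtain ⟨x, hx⟩ := hleaf
      obtain ⟨y, hy⟩ := dg_one hx
      have pk : ∀ v, dg G v = 2 → Peak G v := fun v hv u _ => by rw [hv, ← hM2]; exact hM u
      have huniq : ∀ v, dg G v = 2 → v = y := by
        intro v hv
        by_contra hne
        exact leaf_lemma hS hx hy (pk v hv) hv.ge hne
      have hMy := huniq M hM2
      subst hMy
      obtain ⟨z, hzx, hMz, hz⟩ := other_two hM2 hy.symm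
      have hz1 : dg G z = 1 := by
        have h3 := hM z
        have h4 := h1 z
        by_contra hne
        exact hMz.ne (huniq z (by omega)).symm
      have hxz : ¬ G.Adj x z := fun h => hMz.ne (eq_of_one hx hy h).symm
      refine SC hS.no hzx.symm hxz {x, M, z} (Finset.card_le_three.trans (by norm_num)) ?_
        (by simp) (by simp) (hS.add x z hzx.symm hxz)
      intro u hu v huv
      simp only [Finset.mem_insert, Finset.mem_singleton] at hu ⊢
      rcases hu with rfl | rfl | rfl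
      · have := eq_of_one hx hy huv; tauto
      · rcases hz v huv with rfl | rfl <;> simp
      · have := eq_of_one hz1 hMz.symm huv; tauto
    · push Not at hleaf
      have hall : ∀ v, dg G v = 2 := fun v => by
        have := hM v; have := h1 v; have := hleaf v; omega
      obtain ⟨p, q, hpq, hp, hq⟩ := dg_two hM2
      obtain ⟨w, hw1, hw2, hw3⟩ := exists_notMem3 hc M p q
      have hadj : ¬ G.Adj M w := fun h => by
        rcases eq_of_two hM2 hp hq hpq h with h | h
        · exact hw2 h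
        · exact hw3 h
      have pk : ∀ v, Peak G v := fun v u _ => by rw [hall, hall]
      rcases RL2 hS.no hw1.symm hadj (pk M) (pk w) (by rw [hall, hall])
        (hS.add M w hw1.symm hadj) with h | h
      · exact Dn_two hS hall h
      · exact Dn_two hS hall h

/-- the neighbour of a leaf is every peak of degree at least two -/
theorem leaf_nbr (hS : Sat5 G) (hc : 4 ≤ Fintype.card V) {x y : V} (hx : dg G x = 1)
    (hxy : G.Adj x y) : 3 ≤ dg G y ∧ (∀ v, dg G v ≤ dg G y) := by
  obtain ⟨M, h1, h2⟩ := exists_big hS hc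
  have : M = y := by
    by_contra hne
    exact leaf_lemma hS hx hxy (fun u _ => h2 u) (by omega) hne
  subst this
  exact ⟨h1, h2⟩

/-- no three consecutive vertices of degree two -/
theorem T2 (hS : Sat5 G) (hc : 4 ≤ Fintype.card V) {x p q : V} (hx : dg G x = 2)
    (hp : G.Adj x p) (hq : G.Adj x q) (hpq : p ≠ q) (hp2 : dg G p ≤ 2) (hq2 : dg G q ≤ 2) :
    False := by
  classical
  obtain ⟨M, hM3, hM⟩ := exists_big hS hc
  have nl : ∀ u, G.Adj x u → dg G u = 1 → False := by
    intro u hu h1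
    have := (leaf_nbr hS hc h1 hu.symm).1
    omega
  have hpos := dg_pos hS hc
  have hp2 : dg G p = 2 := by
    have := hpos p
    by_contra hne
    exact nl p hp (by omega)
  have hq2 : dg G q = 2 := by
    have := hpos q
    by_contra hne
    exact nl q hq (by omega)
  have nb := fun r (hr : G.Adj x r) => eq_of_two hx hp hq hpq hr
  have hxM : x ≠ M := by rintro rfl; omega
  have hadj : ¬ G.Adj x M := fun h => by
    rcases nb M h with rfl | rfl <;> omega
  rcases RL hS.no hxM hadj (fun u _ => hM u) (by omega) (hS.add x M hxM hadj) with h | h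
  · obtain ⟨a, b, c, h1, h2, h3, n1, n2, n3, n4, n5, n6, i1, i2, i3⟩ := h
    obtain ⟨q', hqc, hxq, hq'⟩ := other_two hx h3.symm
    have hc2 : dg G c = 2 := by rcases nb c h3.symm with rfl | rfl <;> assumption
    have hq'2 : dg G q' = 2 := by rcases nb q' hxq with rfl | rfl <;> assumption
    have hb2 : dg G b = 2 := by
      have := two_le_dg h1.symm h2 n1
      omega
    by_cases hqa : q' = a
    · subst hqa
      have hbx : ¬ G.Adj b x := by
        intro hadj
        rcases hq' b hadj.symm with rfl | rfl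
        · exact h2.ne rfl
        · exact h1.ne rfl
      refine SC hS.no n3 hbx {q', b, c, x} Finset.card_le_four ?_ (by simp) (by simp)
        (hS.add b x n3 hbx)
      intro u hu v huv
      simp only [Finset.mem_insert, Finset.mem_singleton] at hu ⊢
      rcases hu with rfl | rfl | rfl | rfl
      · rcases eq_of_two hq'2 h1 hxq.symm n3 huv with rfl | rfl <;> simp
      · rcases eq_of_two hb2 h1.symm h2 n1 huv with rfl | rfl <;> simp
      · rcases eq_of_two hc2 h2.symm h3 n3 huv with rfl | rfl <;> simp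
      · rcases hq' v huv with rfl | rfl <;> simp
    · by_cases hqb : q' = b
      · subst hqb
        rcases eq_of_two hb2 h1.symm h2 n1 hxq.symm with h | h
        · exact n2 h.symm
        · exact h3.ne h.symm
      · exact hS.no ⟨a, b, c, x, q', ⟨h1, i1⟩, ⟨h2, i2⟩,
          ⟨h3, by omega⟩, ⟨hxq, by omega⟩, h1.ne, n1, n2, Ne.symm hqa, h2.ne, n3,
          Ne.symm hqb, h3.ne, Ne.symm hqc, hxq.ne⟩
  · obtain ⟨p', q', hpq', hp', hq', h1, h2⟩ := h
    rcases nb p' hp' with rfl | rfl <;> omega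

end Pool.Agent.V11278.SatFive
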