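import Mathlib
import Pool.Agent.V11278.SatFiveB

/-!
# 5-saturated graphs: threads, unique peaks and the charge identity (helper278)
-/

namespace Pool.Agent.V11278.SatFive

set_option linter.unusedSectionVars false
set_option linter.style.haveILetI false

open SimpleGraph Pool.Agent.V11278.DegMono

variable {V : Type*} [Fintype V] {G : SimpleGraph V}

/-- 2-vertices with a neighbour of degree two -/
def TV (G : SimpleGraph V) (x : V) : Prop := dg G x = 2 ∧ ∃ x', G.Adj x x' ∧ dg G x' = 2

/-- 2-vertices both of whose neighbours have degree at least three -/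
def OV (G : SimpleGraph V) (x : V) : Prop := dg G x = 2 ∧ ∀ x', G.Adj x x' → 3 ≤ dg G x'

lemma two_nbr (hS : Sat5 G) (hc : 4 ≤ Fintype.card V) {x u : V} (hx : dg G x = 2)
    (hu : G.Adj x u) : 2 ≤ dg G u := by
  have h1 := dg_pos hS hc u
  by_contra hlt
  have := (leaf_nbr hS hc (by omega : dg G u = 1) hu.symm).1
  omega

lemma TV_or_OV (hS : Sat5 G) (hc : 4 ≤ Fintype.card V) {x : V} (hx : dg G x = 2) :
    TV G x ∨ OV G x := by
  by_cases h : ∃ x', G.Adj x x' ∧ dg G x' = 2
  · exact Or.inl ⟨hx, h⟩
  · right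
    push Not at h
    refine ⟨hx, fun u hu => ?_⟩
    have := two_nbr hS hc hx hu
    have := h u hu
    omega

lemma TV.not_OV {x : V} (h : TV G x) : ¬ OV G x := by
  rintro ⟨-, h2⟩
  obtain ⟨-, x', h3, h4⟩ := h
  have := h2 x' h3
  omega

/-- structure of a 2-thread vertex -/
lemma TV.str (hS : Sat5 G) (hc : 4 ≤ Fintype.card V) {x : V} (h : TV G x) :
    ∃ x' u, x' ≠ u ∧ G.Adj x x' ∧ G.Adj x u ∧ dg G x' = 2 ∧ 3 ≤ dg G u ∧
      (∀ r, G.Adj x r → r = x' ∨ r = u) ∧ TV G x' := by
  obtain ⟨hx, x', h1, h2⟩ := h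
  obtain ⟨u, hu1, hu2, hu3⟩ := other_two hx h1
  refine ⟨x', u, hu1.symm, h1, hu2, h2, ?_, hu3, ⟨h2, x, h1.symm, hx⟩⟩
  by_contra hlt
  exact T2 hS hc hx h1 hu2 hu1.symm h2.le (by omega)

/-- a big neighbour of a 2-thread vertex determines the rest -/
lemma TV.str' (hS : Sat5 G) (hc : 4 ≤ Fintype.card V) {x u : V} (h : TV G x)
    (hu : G.Adj x u) (hu3 : 3 ≤ dg G u) :
    ∃ x', x' ≠ u ∧ G.Adj x x' ∧ dg G x' = 2 ∧ (∀ r, G.Adj x r → r = x' ∨ r = u) ∧ TV G x' := by
  obtain ⟨x', u', h1, h2, h3, h4, h5, h6, h7⟩ := h.str hS hc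
  rcases h6 u hu with rfl | rfl
  · omega
  · exact ⟨x', h1, h2, h4, h6, h7⟩

/-- unique peak -/
structure UP (G : SimpleGraph V) (y : V) : Prop where
  three : 3 ≤ dg G y
  uniq : ∀ w, Peak G w → 3 ≤ dg G w → w = y

lemma UP.max (hS : Sat5 G) (hc : 4 ≤ Fintype.card V) {y : V} (h : UP G y) (v : V) :
    dg G v ≤ dg G y := by
  obtain ⟨M, h1, h2⟩ := exists_big hS hc
  have := h.uniq M (fun u _ => h2 u) h1
  subst this
  exact h2 v

lemma UP.lt (hS : Sat5 G) (hc : 4 ≤ Fintype.card V) {y : V} (h : UP G y) {v : V} (hv : v ≠ y) :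
    dg G v < dg G y := by
  by_contra hlt
  have h1 := h.max hS hc v
  have h2 : dg G v = dg G y := by omega
  apply hv
  apply h.uniq v
  · intro u _
    rw [h2]; exact h.max hS hc u
  · rw [h2]; exact h.three

/-- in a graph with a unique peak every other big vertex has a larger neighbour -/
lemma UP.up {y : V} (h : UP G y) {v : V} (hv : v ≠ y) (hv3 : 3 ≤ dg G v) :
    ∃ u, G.Adj v u ∧ dg G v < dg G u := by
  by_contra hcon
  push Not at hcon
  exact hv (h.uniq v hcon hv3)

/-- a leaf forces a unique peak -/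
lemma UP_of_leaf (hS : Sat5 G) (hc : 4 ≤ Fintype.card V) {x y : V} (hx : dg G x = 1)
    (hxy : G.Adj x y) : UP G y := by
  refine ⟨(leaf_nbr hS hc hx hxy).1, fun w hw hw3 => ?_⟩
  by_contra hne
  exact leaf_lemma hS hx hxy hw (by omega) hne

/-- a 2-thread vertex next to a vertex of degree at least four forces a unique peak -/
lemma UP_of_TV (hS : Sat5 G) (hc : 4 ≤ Fintype.card V) {x v : V} (hx : TV G x)
    (hxv : G.Adj x v) (hv : 4 ≤ dg G v) : UP G v := by
  refine ⟨by omega, fun w hw hw3 => ?_⟩
  by_contra hne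
  obtain ⟨x', h1, h2, h3, h4, h5⟩ := hx.str' hS hc hxv (by omega)
  have hx2 := hx.1
  have hxw : x ≠ w := by rintro rfl; omega
  have hadj : ¬ G.Adj x w := fun h => by
    rcases h4 w h with rfl | rfl
    · omega
    · exact hne rfl
  rcases RL hS.no hxw hadj hw (by omega) (hS.add x w hxw hadj) with h | h
  · obtain ⟨a, b, c, g1, g2, g3, n1, n2, n3, n4, n5, n6, i1, i2, i3⟩ := h
    rcases h4 c g3.symm with rfl | rfl
    · exact T2 hS hc h3 h2.symm g2.symm n3.symm (by omega) (by omega)
    · omega
  · obtain ⟨p, q, hpq, hp, hq, j1, j2⟩ := h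
    rcases h4 p hp with rfl | rfl
    · omega
    · rcases h4 q hq with rfl | rfl
      · omega
      · exact hpq rfl

/-- with a unique peak `y`: the other neighbours of a big vertex next to a 2-thread vertex -/
lemma Z3 (hS : Sat5 G) (hc : 4 ≤ Fintype.card V) {y a z : V} (hy : UP G y) (hz : TV G z)
    (hza : G.Adj z a) (ha : 3 ≤ dg G a) (hay : a ≠ y) :
    dg G a = 3 ∧ ∃ b, G.Adj a b ∧ b ≠ z ∧ b ≠ y ∧ (dg G b = 3 ∨ TV G b) := by
  obtain ⟨z', h1, h2, h3, h4, h5⟩ := hz.str' hS hc hza ha
  have hz2 := hz.1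
  have hy3 := hy.three
  have hzy : z ≠ y := by rintro rfl; omega
  have hadj : ¬ G.Adj z y := fun h => by
    rcases h4 y h with rfl | rfl
    · omega
    · exact hay rfl
  rcases RL hS.no hzy hadj (fun u _ => hy.max hS hc u) (by omega) (hS.add z y hzy hadj) with h | h
  · obtain ⟨a', b, c, g1, g2, g3, n1, n2, n3, n4, n5, n6, i1, i2, i3⟩ := h
    rcases h4 c g3.symm with rfl | rfl
    · exact (T2 hS hc h3 h2.symm g2.symm n3.symm (by omega) (by omega)).elim
    · refine ⟨by omega, b, g2.symm, n3, n5, ?_⟩
      have hb2 := two_le_dg g1.symm g2 n1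
      rcases Nat.lt_or_ge (dg G b) 3 with hb | hb
      · right
        have hb2 : dg G b = 2 := by omega
        have := two_nbr hS hc hb2 g1.symm
        exact ⟨hb2, a', g1.symm, by omega⟩
      · left; omega
  · obtain ⟨p, q, hpq, hp, hq, j1, j2⟩ := h
    rcases h4 p hp with rfl | rfl
    · omega
    · rcases h4 q hq with rfl | rfl
      · omega
      · exact (hpq rfl).elim

section count

open Classical

noncomputable def k1 (G : SimpleGraph V) (v : V) : ℕ :=
  (Finset.univ.filter fun x => G.Adj v x ∧ OV G x).card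

noncomputable def k2 (G : SimpleGraph V) (v : V) : ℕ :=
  (Finset.univ.filter fun x => G.Adj v x ∧ TV G x).card

noncomputable def rr (G : SimpleGraph V) (v : V) : ℕ :=
  (Finset.univ.filter fun x => G.Adj v x ∧ 3 ≤ dg G x).card

noncomputable def ll (G : SimpleGraph V) (v : V) : ℕ :=
  (Finset.univ.filter fun x => G.Adj v x ∧ dg G x = 1).card

noncomputable def V3 (G : SimpleGraph V) : Finset V := Finset.univ.filter fun v => 3 ≤ dg G v
noncomputable def N1 (G : SimpleGraph V) : ℕ := (Finset.univ.filter fun v => OV G v).card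
noncomputable def N2 (G : SimpleGraph V) : ℕ := (Finset.univ.filter fun v => TV G v).card
noncomputable def LL (G : SimpleGraph V) : ℕ := (Finset.univ.filter fun v => dg G v = 1).card

lemma mem_V3 {v : V} : v ∈ V3 G ↔ 3 ≤ dg G v := by simp [V3]

lemma dg_card (v : V) : dg G v = (Finset.univ.filter fun x => G.Adj v x).card := by
  unfold dg
  rw [Set.ncard_eq_toFinset_card']
  congr 1
  ext x
  simp

lemma dg_split (hS : Sat5 G) (hc : 4 ≤ Fintype.card V) (v : V) :
    dg G v = rr G v + k1 G v + k2 G v + ll G v := by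
  rw [dg_card]
  unfold rr k1 k2 ll
  rw [← Finset.card_union_of_disjoint, ← Finset.card_union_of_disjoint,
    ← Finset.card_union_of_disjoint]
  · congr 1
    ext x
    simp only [Finset.mem_filter, Finset.mem_univ, true_and, Finset.mem_union]
    constructor
    · intro h
      have := dg_pos hS hc x
      rcases Nat.lt_or_ge (dg G x) 3 with h3 | h3
      · rcases Nat.lt_or_ge (dg G x) 2 with h2 | h2
        · right; exact ⟨h, by omega⟩
        · rcases TV_or_OV hS hc (by omega : dg G x = 2) with h | h <;> tauto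
      · tauto
    · tauto
  · rw [Finset.disjoint_left]
    intro x hx hx'
    simp only [Finset.mem_filter, Finset.mem_univ, true_and, Finset.mem_union] at hx hx'
    rcases hx with (h | h) | h
    · omega
    · have := h.2.1; omega
    · have := h.2.1; omega
  · rw [Finset.disjoint_left]
    intro x hx hx'
    simp only [Finset.mem_filter, Finset.mem_univ, true_and, Finset.mem_union] at hx hx'
    rcases hx with h | h
    · have := hx'.2.1; omega
    · exact hx'.2.not_OV h.2
  · rw [Finset.disjoint_left]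
    intro x hx hx'
    simp only [Finset.mem_filter, Finset.mem_univ, true_and] at hx hx'
    have := hx'.2.1; omega

lemma sum_k1 (hS : Sat5 G) (hc : 4 ≤ Fintype.card V) : ∑ v ∈ V3 G, k1 G v = 2 * N1 G := by
  have h := Finset.sum_card_bipartiteAbove_eq_sum_card_bipartiteBelow
    (s := V3 G) (t := Finset.univ.filter fun x => OV G x) (fun v x => G.Adj v x)
  have e1 : ∀ v, (Finset.bipartiteAbove (fun v x => G.Adj v x)
      (Finset.univ.filter fun x => OV G x) v).card = k1 G v := by
    intro v
    unfold k1 Finset.bipartiteAbove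
    rw [Finset.filter_filter]
    congr 1
    ext x
    simp only [Finset.mem_filter, Finset.mem_univ, true_and]
    tauto
  have e2 : ∀ x ∈ Finset.univ.filter (fun x => OV G x),
      (Finset.bipartiteBelow (fun v x => G.Adj v x) (V3 G) x).card = 2 := by
    intro x hx
    simp only [Finset.mem_filter, Finset.mem_univ, true_and] at hx
    have : Finset.bipartiteBelow (fun v x => G.Adj v x) (V3 G) x =
        Finset.univ.filter fun v => G.Adj x v := by
      ext v
      simp only [Finset.bipartiteBelow, Finset.mem_filter, Finset.mem_univ, true_and, mem_V3]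
      constructor
      · exact fun h => h.2.symm
      · exact fun h => ⟨hx.2 v h, h.symm⟩
    rw [this, ← dg_card]
    exact hx.1
  simp only [e1] at h
  rw [h, Finset.sum_congr rfl e2]
  simp [N1, mul_comm]

lemma sum_k2 (hS : Sat5 G) (hc : 4 ≤ Fintype.card V) : ∑ v ∈ V3 G, k2 G v = N2 G := by
  have h := Finset.sum_card_bipartiteAbove_eq_sum_card_bipartiteBelow
    (s := V3 G) (t := Finset.univ.filter fun x => TV G x) (fun v x => G.Adj v x)
  have e1 : ∀ v, (Finset.bipartiteAbove (fun v x => G.Adj v x)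
      (Finset.univ.filter fun x => TV G x) v).card = k2 G v := by
    intro v
    unfold k2 Finset.bipartiteAbove
    rw [Finset.filter_filter]
    congr 1
    ext x
    simp only [Finset.mem_filter, Finset.mem_univ, true_and]
    tauto
  have e2 : ∀ x ∈ Finset.univ.filter (fun x => TV G x),
      (Finset.bipartiteBelow (fun v x => G.Adj v x) (V3 G) x).card = 1 := by
    intro x hx
    simp only [Finset.mem_filter, Finset.mem_univ, true_and] at hx
    obtain ⟨x', u, g1, g2, g3, g4, g5, g6, g7⟩ := hx.str hS hc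
    rw [Finset.card_eq_one]
    refine ⟨u, ?_⟩
    ext v
    simp only [Finset.bipartiteBelow, Finset.mem_filter, Finset.mem_singleton, mem_V3]
    constructor
    · rintro ⟨h1, h2⟩
      rcases g6 v h2.symm with rfl | rfl
      · omega
      · rfl
    · rintro rfl
      exact ⟨g5, g3.symm⟩
  simp only [e1] at h
  rw [h, Finset.sum_congr rfl e2]
  simp [N2]

lemma card_split (hS : Sat5 G) (hc : 4 ≤ Fintype.card V) :
    Fintype.card V = (V3 G).card + N1 G + N2 G + LL G := by
  rw [← Finset.card_univ]
  unfold V3 N1 N2 LL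
  rw [← Finset.card_union_of_disjoint, ← Finset.card_union_of_disjoint,
    ← Finset.card_union_of_disjoint]
  · congr 1
    ext x
    simp only [Finset.mem_filter, Finset.mem_univ, true_and, Finset.mem_union, true_iff]
    have := dg_pos hS hc x
    rcases Nat.lt_or_ge (dg G x) 3 with h3 | h3
    · rcases Nat.lt_or_ge (dg G x) 2 with h2 | h2
      · right; omega
      · rcases TV_or_OV hS hc (by omega : dg G x = 2) with h | h <;> tauto
    · tauto
  · rw [Finset.disjoint_left]
    intro x hx hx'
    simp only [Finset.mem_filter, Finset.mem_univ, true_and, Finset.mem_union] at hx hx'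
    rcases hx with (h | h) | h
    · omega
    · have := h.1; omega
    · have := h.1; omega
  · rw [Finset.disjoint_left]
    intro x hx hx'
    simp only [Finset.mem_filter, Finset.mem_univ, true_and, Finset.mem_union] at hx hx'
    rcases hx with h | h
    · have := hx'.1; omega
    · exact hx'.not_OV h
  · rw [Finset.disjoint_left]
    intro x hx hx'
    simp only [Finset.mem_filter, Finset.mem_univ, true_and] at hx hx'
    have := hx'.1; omega

lemma sum_split (hS : Sat5 G) (hc : 4 ≤ Fintype.card V) :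
    ∑ v, (dg G v : ℤ) = ∑ v ∈ V3 G, (dg G v : ℤ) + 2 * N1 G + 2 * N2 G + LL G := by
  have key : ∀ v : V, (dg G v : ℤ) = (if 3 ≤ dg G v then (dg G v : ℤ) else 0) +
      2 * (if OV G v then 1 else 0) + 2 * (if TV G v then 1 else 0) +
      (if dg G v = 1 then 1 else 0) := by
    intro v
    have := dg_pos hS hc v
    rcases Nat.lt_or_ge (dg G v) 3 with h3 | h3
    · rcases Nat.lt_or_ge (dg G v) 2 with h2 | h2
      · have h1 : dg G v = 1 := by omega
        have hO : ¬ OV G v := fun h => by have := h.1; omega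
        have hT : ¬ TV G v := fun h => by have := h.1; omega
        simp [h1, hO, hT]
      · have h2' : dg G v = 2 := by omega
        rcases TV_or_OV hS hc h2' with h | h
        · have := h.not_OV
          simp [h2', h, this]
        · have : ¬ TV G v := fun h' => h'.not_OV h
          simp [h2', h, this]
    · have hO : ¬ OV G v := fun h => by have := h.1; omega
      have hT : ¬ TV G v := fun h => by have := h.1; omega
      have h1 : dg G v ≠ 1 := by omega
      simp [h3, hO, hT, h1]
  rw [Finset.sum_congr rfl fun v _ => key v]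
  simp only [Finset.sum_add_distrib, ← Finset.mul_sum]
  simp only [Finset.sum_ite, Finset.sum_const_zero, add_zero, Finset.sum_const, nsmul_eq_mul,
    mul_one]
  unfold V3 N1 N2 LL
  ring

/-- the charge identity -/
theorem T_formula (hS : Sat5 G) (hc : 4 ≤ Fintype.card V) :
    3 * ∑ v, (dg G v : ℤ) - 7 * Fintype.card V =
      ∑ v ∈ V3 G, (3 * (dg G v : ℤ) - 7 - k1 G v - k2 G v) + N1 G - 4 * LL G := by
  have h1 : ∑ v ∈ V3 G, ((k1 G v : ℕ) : ℤ) = 2 * N1 G := by
    rw [← Nat.cast_sum, sum_k1 hS hc]; push_cast; ring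
  have h2 : ∑ v ∈ V3 G, ((k2 G v : ℕ) : ℤ) = N2 G := by
    rw [← Nat.cast_sum, sum_k2 hS hc]
  have h3 := card_split hS hc
  simp only [Finset.sum_sub_distrib, ← Finset.mul_sum, Finset.sum_const, nsmul_eq_mul]
  rw [sum_split hS hc, h1, h2, h3]
  push_cast
  ring

lemma k1_le (v : V) : k1 G v ≤ N1 G := by
  unfold k1 N1
  apply Finset.card_le_card
  intro x hx
  simp only [Finset.mem_filter, Finset.mem_univ, true_and] at hx ⊢
  exact hx.2

lemma degree_eq (v : V) : G.degree v = dg G v := by
  rw [dg_card, ← SimpleGraph.card_neighborFinset_eq_degree]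
  congr 1
  ext x
  simp

lemma even_odd_dg : Even (Finset.univ.filter fun v => Odd (dg G v)).card := by
  have := G.even_card_odd_degree_vertices
  simp only [degree_eq] at this
  exact this

lemma even_sum_rr : Even (∑ v ∈ V3 G, rr G v) := by
  let H : SimpleGraph V :=
    { Adj := fun a b => G.Adj a b ∧ 3 ≤ dg G a ∧ 3 ≤ dg G b
      symm := ⟨fun a b h => ⟨h.1.symm, h.2.2, h.2.1⟩⟩
      loopless := ⟨fun a h => h.1.ne rfl⟩ }
  have h1 := H.sum_degrees_eq_twice_card_edges
  have h2 : ∑ v, H.degree v = ∑ v ∈ V3 G, rr G v := by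
    unfold V3
    rw [Finset.sum_filter]
    apply Finset.sum_congr rfl
    intro v _
    rw [← SimpleGraph.card_neighborFinset_eq_degree]
    split_ifs with h
    · unfold rr
      congr 1
      ext x
      simp [H, h]
    · rw [Finset.card_eq_zero]
      ext x
      simp [H, h]
  rw [h2] at h1
  rw [h1]
  exact even_two_mul _

end count

end Pool.Agent.V11278.SatFive
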