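import Mathlib
import Pool.Agent.V11278.SatFiveC

/-!
# 5-saturated graphs: special added edges (helper278)
-/

namespace Pool.Agent.V11278.SatFive

set_option linter.unusedSectionVars false
set_option linter.style.haveILetI false

open SimpleGraph Pool.Agent.V11278.DegMono

variable {V : Type*} [Fintype V] {G : SimpleGraph V}

/-- two leaves -/
theorem C1 (hS : Sat5 G) (hc : 4 ≤ Fintype.card V) {x0 x1 : V} (h0 : dg G x0 = 1)
    (h1 : dg G x1 = 1) : x0 = x1 := by
  by_contra hne
  obtain ⟨y, hy0⟩ := dg_one h0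
  obtain ⟨y', hy1⟩ := dg_one h1
  have hy := UP_of_leaf hS hc h0 hy0
  have hy' := UP_of_leaf hS hc h1 hy1
  have hyy : y' = y := hy.uniq y' (fun u _ => hy'.max hS hc u) hy'.three
  subst hyy
  have hy3 := hy.three
  have y0 : y' ≠ x0 := hy0.ne'
  have y1 : y' ≠ x1 := hy1.ne'
  have hadj : ¬ G.Adj x0 x1 := fun h => y1 (eq_of_one h0 h hy0)
  have d0 := dg_add_x hne hadj
  have d1 := dg_add_w hne hadj
  have dy := dg_add_o hne hadj y0 y1
  set F := Fs (G ⊔ edge x0 x1) with hF
  have Sy : ∀ v, ¬ F y' v := by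
    rintro v ⟨g1, g2⟩
    rw [adj_add hne] at g1
    rw [dy] at g2
    by_cases v0 : v = x0
    · subst v0; omega
    by_cases v1 : v = x1
    · subst v1; omega
    rw [dg_add_o hne hadj v0 v1] at g2
    have : v ≠ y' := by
      rintro rfl
      rcases g1 with g | g | g
      · exact g.ne rfl
      · exact y0 g.1
      · exact y1 g.1
    have := hy.lt hS hc this
    omega
  have P0 : ∀ v, F v x0 → v = x1 := by
    rintro v ⟨g1, g2⟩
    rw [adj_add hne] at g1
    rcases g1 with g | g | g
    · have := eq_of_one h0 hy0 g.symm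
      subst this
      rw [dy, d0] at g2; omega
    · exact absurd g.2 hne
    · exact g.1
  have P1 : ∀ v, F v x1 → v = x0 := by
    rintro v ⟨g1, g2⟩
    rw [adj_add hne] at g1
    rcases g1 with g | g | g
    · have := eq_of_one h1 hy1 g.symm
      subst this
      rw [dy, d1] at g2; omega
    · exact g.1
    · exact absurd g.2.symm hne
  have S0 : ∀ v, F x0 v → v = y' ∨ v = x1 := by
    rintro v ⟨g1, g2⟩
    rw [adj_add hne] at g1
    rcases g1 with g | g | g
    · exact Or.inl (eq_of_one h0 hy0 g)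
    · exact Or.inr g.2
    · exact absurd g.1 hne
  have S1 : ∀ v, F x1 v → v = y' ∨ v = x0 := by
    rintro v ⟨g1, g2⟩
    rw [adj_add hne] at g1
    rcases g1 with g | g | g
    · exact Or.inl (eq_of_one h1 hy1 g)
    · exact absurd g.1.symm hne
    · exact Or.inr g.2
  obtain ⟨a, b, c, e, f, f1, f2, f3, f4, n1, n2, n3, n4, n5, n6, n7, n8, n9, n10⟩ :=
    hS.add x0 x1 hne hadj
  have hit := chain_hits hS.no hne hadj f1 f2 f3 f4 n1 n2 n3 n4 n5 n6 n7 n8 n9 n10
  rw [← hF] at f1 f2 f3 f4
  clear_value F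
  grind

/-- two 2-thread neighbours of the unique peak are adjacent -/
theorem C2 (hS : Sat5 G) (hc : 4 ≤ Fintype.card V) {y z1 z2 : V} (hy : UP G y)
    (hy4 : 4 ≤ dg G y) (h1 : TV G z1) (h2 : TV G z2) (hy1 : G.Adj z1 y) (hy2 : G.Adj z2 y)
    (hne : z1 ≠ z2) : G.Adj z1 z2 := by
  by_contra hadj
  obtain ⟨z1', p1, p2, p3, p4, p5⟩ := h1.str' hS hc hy1 (by omega)
  obtain ⟨z2', q1, q2, q3, q4, q5⟩ := h2.str' hS hc hy2 (by omega)
  obtain ⟨r1, u1, r2, r3, r4, r5, r6, r7, -⟩ := p5.str hS hc
  obtain ⟨s1, u2, s2, s3, s4, s5, s6, s7, -⟩ := q5.str hS hc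
  have hz1 := h1.1
  have hz2 := h2.1
  have e1 : r1 = z1 := by
    rcases r7 z1 p2.symm with h | h
    · exact h.symm
    · subst h; omega
  have e2 : s1 = z2 := by
    rcases s7 z2 q2.symm with h | h
    · exact h.symm
    · subst h; omega
  subst e1 e2
  have y0 : y ≠ r1 := hy1.ne'
  have y1 : y ≠ s1 := hy2.ne'
  have d0 := dg_add_x hne hadj
  have d1 := dg_add_w hne hadj
  have dy := dg_add_o hne hadj y0 y1
  have k1 : z1' ≠ r1 := p2.ne'
  have k2 : z1' ≠ s1 := by
    rintro rfl; exact hadj p2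
  have k3 : z2' ≠ s1 := q2.ne'
  have k4 : z2' ≠ r1 := by
    rintro rfl; exact hadj q2.symm
  have dz1 := dg_add_o hne hadj k1 k2
  have dz2 := dg_add_o hne hadj k4 k3
  set F := Fs (G ⊔ edge r1 s1) with hF
  have Sy : ∀ v, ¬ F y v := by
    rintro v ⟨g1, g2⟩
    rw [adj_add hne] at g1
    rw [dy] at g2
    by_cases v0 : v = r1
    · subst v0; omega
    by_cases v1 : v = s1
    · subst v1; omega
    rw [dg_add_o hne hadj v0 v1] at g2
    have : v ≠ y := by
      rintro rfl
      rcases g1 with g | g | g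
      · exact g.ne rfl
      · exact y0 g.1
      · exact y1 g.1
    have := hy.lt hS hc this
    omega
  have P1' : ∀ v, ¬ F v z1' := by
    rintro v ⟨g1, g2⟩
    rw [adj_add hne] at g1
    rw [dz1] at g2
    rcases g1 with g | g | g
    · rcases r7 v g.symm with rfl | rfl
      · omega
      · have : v ≠ r1 := r2.symm
        have h' : v ≠ s1 := by rintro rfl; omega
        rw [dg_add_o hne hadj this h'] at g2
        omega
    · exact k2 g.2
    · exact k1 g.2
  have P2' : ∀ v, ¬ F v z2' := by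
    rintro v ⟨g1, g2⟩
    rw [adj_add hne] at g1
    rw [dz2] at g2
    rcases g1 with g | g | g
    · rcases s7 v g.symm with rfl | rfl
      · omega
      · have : v ≠ s1 := s2.symm
        have h' : v ≠ r1 := by rintro rfl; omega
        rw [dg_add_o hne hadj h' this] at g2
        omega
    · exact k3 g.2
    · exact k4 g.2
  have S1 : ∀ v, F r1 v → v = y ∨ v = s1 := by
    rintro v ⟨g1, g2⟩
    rw [adj_add hne] at g1
    rcases g1 with g | g | g
    · rcases p4 v g with rfl | rfl
      · rw [d0, dz1] at g2; omega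
      · exact Or.inl rfl
    · exact Or.inr g.2
    · exact absurd g.1 hne
  have S2 : ∀ v, F s1 v → v = y ∨ v = r1 := by
    rintro v ⟨g1, g2⟩
    rw [adj_add hne] at g1
    rcases g1 with g | g | g
    · rcases q4 v g with rfl | rfl
      · rw [d1, dz2] at g2; omega
      · exact Or.inl rfl
    · exact absurd g.1.symm hne
    · exact Or.inr g.2
  have P1 : ∀ v, F v r1 → v = z1' ∨ v = s1 := by
    rintro v ⟨g1, g2⟩
    rw [adj_add hne] at g1
    rcases g1 with g | g | g
    · rcases p4 v g.symm with rfl | rfl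
      · exact Or.inl rfl
      · rw [d0, dy] at g2; omega
    · exact absurd g.2 hne
    · exact Or.inr g.1
  have P2 : ∀ v, F v s1 → v = z2' ∨ v = r1 := by
    rintro v ⟨g1, g2⟩
    rw [adj_add hne] at g1
    rcases g1 with g | g | g
    · rcases q4 v g.symm with rfl | rfl
      · exact Or.inl rfl
      · rw [d1, dy] at g2; omega
    · exact Or.inr g.1
    · exact absurd g.2.symm hne
  obtain ⟨a, b, c, e, f, f1, f2, f3, f4, n1, n2, n3, n4, n5, n6, n7, n8, n9, n10⟩ :=
    hS.add r1 s1 hne hadj
  have hit := chain_hits hS.no hne hadj f1 f2 f3 f4 n1 n2 n3 n4 n5 n6 n7 n8 n9 n10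
  rw [← hF] at f1 f2 f3 f4
  clear_value F
  clear p4 q4 r7 s7 hF
  rcases hit with (h | h | h | h | h) | (h | h | h | h | h) <;> grind (splits := 20)

/-- a vertex of second largest degree when there is a leaf -/
theorem L2 (hS : Sat5 G) (hc : 4 ≤ Fintype.card V) {x0 y u : V} (h0 : dg G x0 = 1)
    (hy0 : G.Adj x0 y) (hu : u ≠ y) (hu2 : 2 ≤ dg G u) (hmax : ∀ v, v ≠ y → dg G v ≤ dg G u) :
    dg G u + 1 = dg G y ∧ G.Adj u y ∧ ∃ a b c, G.Adj a b ∧ G.Adj b c ∧ G.Adj c y ∧ a ≠ c ∧
      a ≠ y ∧ b ≠ y ∧ a ≠ u ∧ b ≠ u ∧ c ≠ u ∧ dg G a ≤ dg G b ∧ dg G b ≤ dg G c := by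
  have hy := UP_of_leaf hS hc h0 hy0
  have hy3 := hy.three
  have huy : G.Adj u y := by
    by_contra hadj
    refine leaf_lemma hS h0 hy0 (w := u) ?_ hu2 hu
    intro v hv
    apply hmax
    rintro rfl
    exact hadj hv
  have hne : x0 ≠ u := by rintro rfl; omega
  have hadj : ¬ G.Adj x0 u := fun h => hu (eq_of_one h0 hy0 h)
  have d0 := dg_add_x hne hadj
  have d1 := dg_add_w hne hadj
  have y0 : y ≠ x0 := hy0.ne'
  have dy := dg_add_o hne hadj y0 hu.symm
  set F := Fs (G ⊔ edge x0 u) with hF
  have Sy : ∀ v, F y v → v = u ∧ dg G u + 1 = dg G y := by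
    rintro v ⟨g1, g2⟩
    have hlt := hy.lt hS hc hu
    rw [adj_add hne] at g1
    rw [dy] at g2
    by_cases v0 : v = x0
    · subst v0; omega
    by_cases v1 : v = u
    · subst v1; exact ⟨rfl, by omega⟩
    rw [dg_add_o hne hadj v0 v1] at g2
    have : v ≠ y := by
      rintro rfl
      rcases g1 with g | g | g
      · exact g.ne rfl
      · exact y0 g.1
      · exact hu g.1.symm
    have := hy.lt hS hc this
    omega
  have P0 : ∀ v, ¬ F v x0 := by
    rintro v ⟨g1, g2⟩
    rw [adj_add hne] at g1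
    rcases g1 with g | g | g
    · have := eq_of_one h0 hy0 g.symm
      subst this
      rw [dy, d0] at g2; omega
    · exact absurd g.2 hne
    · rw [g.1, d0, d1] at g2; omega
  have S0 : ∀ v, F x0 v → v = y ∨ v = u := by
    rintro v ⟨g1, g2⟩
    rw [adj_add hne] at g1
    rcases g1 with g | g | g
    · exact Or.inl (eq_of_one h0 hy0 g)
    · exact Or.inr g.2
    · exact absurd g.1 hne
  have Su : ∀ v, F u v → v = y := by
    rintro v ⟨g1, g2⟩
    rw [adj_add hne] at g1
    rw [d1] at g2
    rcases g1 with g | g | g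
    · by_contra hvy
      have h1 : v ≠ u := g.ne'
      have h2 : v ≠ x0 := by rintro rfl; exact hadj g.symm
      rw [dg_add_o hne hadj h2 h1] at g2
      have := hmax v hvy
      omega
    · exact absurd g.1.symm hne
    · rw [g.2, d0] at g2; omega
  obtain ⟨a, b, c, e, f, f1, f2, f3, f4, n1, n2, n3, n4, n5, n6, n7, n8, n9, n10⟩ :=
    hS.add x0 u hne hadj
  have hit := chain_hits hS.no hne hadj f1 f2 f3 f4 n1 n2 n3 n4 n5 n6 n7 n8 n9 n10
  rw [← hF] at f1 f2 f3 f4
  have hb0 : b ≠ x0 := by rintro rfl; exact P0 _ f1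
  have hc0 : c ≠ x0 := by rintro rfl; exact P0 _ f2
  have he0 : e ≠ x0 := by rintro rfl; exact P0 _ f3
  have hf0 : f ≠ x0 := by rintro rfl; exact P0 _ f4
  have ha0 : a ≠ x0 := by
    rintro rfl
    rcases S0 _ f1 with rfl | rfl
    · obtain ⟨rfl, -⟩ := Sy _ f2
      exact n6 (Su _ f3).symm
    · have := Su _ f2
      subst this
      exact n6 (Sy _ f3).1.symm
  have hau : a ≠ u := by
    rintro rfl
    have := Su _ f1
    subst this
    exact n2 (Sy _ f2).1.symm
  have hbu : b ≠ u := by
    rintro rfl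
    have := Su _ f2
    subst this
    exact n6 (Sy _ f3).1.symm
  have hcu : c ≠ u := by
    rintro rfl
    have := Su _ f3
    subst this
    exact n9 (Sy _ f4).1.symm
  have s1 := step_old hne hadj f1 ha0 hau hb0 hbu
  have s2 := step_old hne hadj f2 hb0 hbu hc0 hcu
  by_cases heu : e = u
  · exfalso
    have hfy := Su f (by rw [← heu]; exact f4)
    have hcy : c ≠ y := by rintro rfl; exact n9 hfy.symm
    have h1 : G.Adj c u := by
      have := f3.1
      rw [adj_add hne, heu] at this
      rcases this with h | h | h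
      · exact h
      · exact absurd h.1 hc0
      · exact absurd h.1 hcu
    refine hS.no ⟨a, b, c, e, f, s1, s2, ?_, ?_, n1, n2, n3, n4, n5, n6, n7, n8, n9, n10⟩
    · rw [heu]; exact ⟨h1, hmax c hcy⟩
    · rw [heu, hfy]; exact ⟨huy, hy.max hS hc u⟩
  · have hfu : f = u := by
      rcases hit with (h | h | h | h | h) | (h | h | h | h | h) <;> first
        | exact absurd h ‹_› | exact h
    by_cases hey : e = y
    · rw [hey] at f3 f4 n8 n3 n6
      obtain ⟨-, h2⟩ := Sy _ f4
      refine ⟨h2, huy, a, b, c, s1.1, s2.1, ?_, n2, n3, n6, hau, hbu, hcu, s1.2, s2.2⟩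
      have := f3.1
      rw [adj_add hne] at this
      rcases this with h | h | h
      · exact h
      · exact absurd h.1 hc0
      · exact absurd h.1 hcu
    · exfalso
      have s3 := step_old hne hadj f3 hc0 hcu he0 heu
      refine hS.no ⟨a, b, c, e, f, s1, s2, s3, ?_, n1, n2, n3, n4, n5, n6, n7, n8, n9, n10⟩
      rw [hfu]
      refine ⟨?_, hmax e hey⟩
      have := f4.1
      rw [adj_add hne, hfu] at this
      rcases this with h | h | h
      · exact h
      · exact absurd h.1 he0
      · exact absurd h.1 heu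

/-- with a leaf: a 3-vertex next to a 2-thread has a second big neighbour -/
theorem C5 (hS : Sat5 G) (hc : 4 ≤ Fintype.card V) {x0 y a z : V} (h0 : dg G x0 = 1)
    (hy0 : G.Adj x0 y) (hy4 : 4 ≤ dg G y) (ha : dg G a = 3) (hay : G.Adj a y) (hz : TV G z)
    (hza : G.Adj z a) : ∃ b, G.Adj a b ∧ b ≠ y ∧ 3 ≤ dg G b := by
  by_contra hcon
  push Not at hcon
  have hy := UP_of_leaf hS hc h0 hy0
  obtain ⟨z', p1, p2, p3, p4, p5⟩ := hz.str' hS hc hza (by omega)
  obtain ⟨r1, u1, r2, r3, r4, r5, r6, r7, -⟩ := p5.str hS hc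
  have hz2 := hz.1
  have e1 : r1 = z := by
    rcases r7 z p2.symm with h | h
    · exact h.symm
    · subst h; omega
  subst e1
  have hzy : r1 ≠ y := by rintro rfl; omega
  obtain ⟨b, b1, b2, b3, b4⟩ := third ha hay hza.symm hzy.symm
  have hb2 := hcon b b3 b1
  have hne : x0 ≠ r1 := by rintro rfl; omega
  have hadj : ¬ G.Adj x0 r1 := fun h => hzy (eq_of_one h0 hy0 h)
  have y0 : y ≠ x0 := hy0.ne'
  have d0 := dg_add_x hne hadj
  have d1 := dg_add_w hne hadj
  have dy := dg_add_o hne hadj y0 hzy.symm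
  have z0 : z' ≠ x0 := by rintro rfl; omega
  have dz' := dg_add_o hne hadj z0 p2.ne'
  have a0 : a ≠ x0 := by rintro rfl; omega
  have da := dg_add_o hne hadj a0 hza.ne'
  have b0 : b ≠ x0 := by
    rintro rfl
    have := eq_of_one h0 hy0 b3.symm
    exact hay.ne this
  have db := dg_add_o hne hadj b0 b2
  set F := Fs (G ⊔ edge x0 r1) with hF
  have Sy : ∀ v, ¬ F y v := by
    rintro v ⟨g1, g2⟩
    rw [adj_add hne] at g1
    rw [dy] at g2
    by_cases v0 : v = x0
    · subst v0; omega
    by_cases v1 : v = r1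
    · subst v1; omega
    rw [dg_add_o hne hadj v0 v1] at g2
    have : v ≠ y := by
      rintro rfl
      rcases g1 with g | g | g
      · exact g.ne rfl
      · exact y0 g.1
      · exact hzy g.1.symm
    have := hy.lt hS hc this
    omega
  have P0 : ∀ v, ¬ F v x0 := by
    rintro v ⟨g1, g2⟩
    rw [adj_add hne] at g1
    rcases g1 with g | g | g
    · have := eq_of_one h0 hy0 g.symm
      subst this
      rw [dy, d0] at g2; omega
    · exact absurd g.2 hne
    · rw [g.1, d0, d1] at g2; omega
  have S0 : ∀ v, F x0 v → v = y ∨ v = r1 := by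
    rintro v ⟨g1, g2⟩
    rw [adj_add hne] at g1
    rcases g1 with g | g | g
    · exact Or.inl (eq_of_one h0 hy0 g)
    · exact Or.inr g.2
    · exact absurd g.1 hne
  have Pz' : ∀ v, ¬ F v z' := by
    rintro v ⟨g1, g2⟩
    rw [adj_add hne] at g1
    rw [dz'] at g2
    rcases g1 with g | g | g
    · rcases r7 v g.symm with rfl | rfl
      · omega
      · have h1 : v ≠ r1 := r2.symm
        have h' : v ≠ x0 := by rintro rfl; omega
        rw [dg_add_o hne hadj h' h1] at g2
        omega
    · exact p2.ne' g.2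
    · exact z0 g.2
  have Sz : ∀ v, F r1 v → v = a := by
    rintro v ⟨g1, g2⟩
    rw [adj_add hne] at g1
    rcases g1 with g | g | g
    · rcases p4 v g with rfl | rfl
      · rw [d1, dz'] at g2; omega
      · rfl
    · exact absurd g.1.symm hne
    · rw [g.2, d1, d0] at g2; omega
  have Pz : ∀ v, F v r1 → v = a ∨ v = z' ∨ v = x0 := by
    rintro v ⟨g1, g2⟩
    rw [adj_add hne] at g1
    rcases g1 with g | g | g
    · rcases p4 v g.symm with rfl | rfl
      · tauto
      · tauto
    · exact Or.inr (Or.inr g.1)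
    · exact absurd g.2.symm hne
  have Sa : ∀ v, F a v → v = y ∨ v = r1 := by
    rintro v ⟨g1, g2⟩
    rw [adj_add hne] at g1
    rw [da] at g2
    rcases g1 with g | g | g
    · rcases b4 v g with rfl | rfl | rfl
      · tauto
      · tauto
      · rw [db] at g2; omega
    · exact absurd g.1 a0
    · exact absurd g.1 hza.ne'
  have Pa : ∀ v, F v a → v = b ∨ v = r1 := by
    rintro v ⟨g1, g2⟩
    rw [adj_add hne] at g1
    rw [da] at g2
    rcases g1 with g | g | g
    · rcases b4 v g.symm with rfl | rfl | rfl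
      · rw [dy] at g2; omega
      · tauto
      · tauto
    · exact absurd g.2 hza.ne'
    · exact absurd g.2 a0
  have Pb : ∀ v w, F v b → F w v → w = b := by
    rintro v w ⟨g1', g2⟩ ⟨g3', g4⟩
    rw [adj_add hne] at g1' g3'
    have g1 : G.Adj v b := by
      rcases g1' with g | g | g
      · exact g
      · exact absurd g.2 b2
      · exact absurd g.2 b0
    have v0 : v ≠ x0 := by
      rintro rfl
      have := eq_of_one h0 hy0 g1
      exact b1 this
    have v1 : v ≠ r1 := by
      rintro rfl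
      rw [d1, db] at g2; omega
    rw [dg_add_o hne hadj v0 v1, db] at g2
    have g3 : G.Adj w v := by
      rcases g3' with g | g | g
      · exact g
      · exact absurd g.2 v1
      · exact absurd g.2 v0
    rw [dg_add_o hne hadj v0 v1] at g4
    have w0 : w ≠ x0 := by
      rintro rfl
      have := eq_of_one h0 hy0 g3
      subst this
      omega
    have w1 : w ≠ r1 := by
      rintro rfl
      rw [d1] at g4; omega
    rw [dg_add_o hne hadj w0 w1] at g4
    by_contra hwb
    have := two_le_dg g1 g3.symm (Ne.symm hwb)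
    exact T2 hS hc (by omega) g1 g3.symm (Ne.symm hwb) (by omega) (by omega)
  obtain ⟨a', b', c', e', f', f1, f2, f3, f4, n1, n2, n3, n4, n5, n6, n7, n8, n9, n10⟩ :=
    hS.add x0 r1 hne hadj
  have hit := chain_hits hS.no hne hadj f1 f2 f3 f4 n1 n2 n3 n4 n5 n6 n7 n8 n9 n10
  rw [← hF] at f1 f2 f3 f4
  clear_value F
  clear p4 r7 hF hcon b4
  rcases hit with (h | h | h | h | h) | (h | h | h | h | h) <;> grind (splits := 20)

/-- two 3-vertices in a row after a 2-thread -/
theorem Y1 (hS : Sat5 G) {a c u w : V} (ha : TV G a) (hac : G.Adj a c)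
    (hcu : G.Adj c u) (hc3 : 3 ≤ dg G c) (hcu' : dg G c ≤ dg G u) (huw : G.Adj u w) (hwc : w ≠ c)
    (hw : dg G u ≤ dg G w) : False := by
  obtain ⟨h2, a', h3, h4⟩ := ha
  have e1 : a' ≠ c := by rintro rfl; omega
  have e2 : a' ≠ u := by rintro rfl; omega
  have e3 : a' ≠ w := by rintro rfl; omega
  have e4 : a ≠ u := by rintro rfl; omega
  have e5 : a ≠ w := by rintro rfl; omega
  exact hS.no ⟨a', a, c, u, w, ⟨h3.symm, by omega⟩, ⟨hac, by omega⟩, ⟨hcu, by omega⟩,
    ⟨huw, by omega⟩, h3.ne', e1, e2, e3, hac.ne, e4, e5, hcu.ne, hwc.symm, huw.ne⟩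

/-- in a graph with maximum degree three: the type (3, T, O) is impossible -/
theorem C6 (hS : Sat5 G) (hc : 4 ≤ Fintype.card V) (hD : ∀ v, dg G v ≤ 3) {u v a b : V}
    (hu : dg G u = 3) (huv : G.Adj u v) (hv : dg G v = 3) (hua : G.Adj u a) (ha : TV G a)
    (hub : G.Adj u b) (hb : OV G b) : False := by
  obtain ⟨a', p1, p2, p3, p4, p5⟩ := ha.str' hS hc hua.symm (by omega)
  obtain ⟨r1, u1, r2, r3, r4, r5, r6, r7, -⟩ := p5.str hS hc
  have ha2 := ha.1
  have hb2 := hb.1
  have hb3 := hb.2
  have e1 : r1 = a := by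
    rcases r7 a p2.symm with h | h
    · exact h.symm
    · subst h; omega
  subst e1
  have va : v ≠ r1 := by rintro rfl; omega
  have vb : v ≠ b := by rintro rfl; omega
  have ab : r1 ≠ b := by rintro rfl; exact ha.not_OV hb
  have nu := fun s hs => eq_of_three (s := s) hu huv hua hub va vb ab hs
  have hne : r1 ≠ v := va.symm
  have hadj : ¬ G.Adj r1 v := fun h => by
    rcases p4 v h with rfl | rfl
    · omega
    · exact huv.ne rfl
  have d0 := dg_add_x hne hadj
  have d1 := dg_add_w hne hadj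
  have a'v : a' ≠ v := by rintro rfl; omega
  have dz' := dg_add_o hne hadj p2.ne' a'v
  have du := dg_add_o hne hadj hua.ne huv.ne
  have db := dg_add_o hne hadj ab.symm vb.symm
  set F := Fs (G ⊔ edge r1 v) with hF
  have Sv : ∀ w, ¬ F v w := by
    rintro w ⟨g1, g2⟩
    rw [adj_add hne] at g1
    rw [d1] at g2
    by_cases v0 : w = r1
    · subst v0; omega
    by_cases v1 : w = v
    · subst v1
      rcases g1 with g | g | g
      · exact g.ne rfl
      · exact va g.1
      · exact va g.2
    rw [dg_add_o hne hadj v0 v1] at g2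
    have := hD w
    omega
  have Sa : ∀ w, F r1 w → w = u ∨ w = v := by
    rintro w ⟨g1, g2⟩
    rw [adj_add hne] at g1
    rcases g1 with g | g | g
    · rcases p4 w g with rfl | rfl
      · rw [d0, dz'] at g2; omega
      · tauto
    · tauto
    · exact absurd g.1 hne
  have Pa : ∀ w, F w r1 → w = a' ∨ w = u := by
    rintro w ⟨g1, g2⟩
    rw [adj_add hne] at g1
    rcases g1 with g | g | g
    · exact p4 w g.symm
    · exact absurd g.2 hne
    · rw [g.1, d0, d1] at g2; omega
  have Pa' : ∀ w, ¬ F w a' := by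
    rintro w ⟨g1, g2⟩
    rw [adj_add hne] at g1
    rw [dz'] at g2
    rcases g1 with g | g | g
    · rcases r7 w g.symm with rfl | rfl
      · omega
      · by_cases h' : w = v
        · subst h'; omega
        rw [dg_add_o hne hadj r2.symm h'] at g2
        omega
    · exact a'v g.2
    · exact p2.ne' g.2
  have Su : ∀ w, F u w → w = v ∨ w = r1 := by
    rintro w ⟨g1, g2⟩
    rw [adj_add hne] at g1
    rw [du] at g2
    rcases g1 with g | g | g
    · rcases nu w g with rfl | rfl | rfl
      · tauto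
      · tauto
      · rw [db] at g2; omega
    · exact absurd g.1 hua.ne
    · exact absurd g.1 huv.ne
  have Pu : ∀ w, F w u → w = b ∨ w = r1 := by
    rintro w ⟨g1, g2⟩
    rw [adj_add hne] at g1
    rw [du] at g2
    rcases g1 with g | g | g
    · rcases nu w g.symm with rfl | rfl | rfl
      · rw [d1] at g2; omega
      · tauto
      · tauto
    · exact absurd g.2 huv.ne
    · exact absurd g.2 hua.ne
  have Pb : ∀ w, ¬ F w b := by
    rintro w ⟨g1, g2⟩
    rw [adj_add hne] at g1
    rw [db] at g2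
    rcases g1 with g | g | g
    · have h3 := hb3 w g.symm
      have : dg G w ≤ dg (G ⊔ edge r1 v) w := by
        classical
        rw [dg_add hne hadj]; omega
      omega
    · exact vb g.2.symm
    · exact ab g.2.symm
  have Pv : ∀ w, F w v → w = u ∨ w = r1 ∨ (∀ s t, F s w → F t s → t = w) := by
    rintro w ⟨g1, g2⟩
    rw [adj_add hne] at g1
    rcases g1 with g | g | g
    · by_cases hwu : w = u
      · tauto
      have hw2 : dg G w ≤ 2 := by
        by_contra hlt
        exact Y1 hS ha hua.symm huv (by omega) (by omega) g.symm hwu (by omega)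
      right; right
      rintro s t ⟨g3', g4⟩ ⟨g5', g6⟩
      have wa : w ≠ r1 := by rintro rfl; exact hadj g
      have wv : w ≠ v := g.ne
      rw [adj_add hne] at g3' g5'
      have g3 : G.Adj s w := by
        rcases g3' with g | g | g
        · exact g
        · exact absurd g.2 wv
        · exact absurd g.2 wa
      rw [dg_add_o hne hadj wa wv] at g4
      have sa : s ≠ r1 := by rintro rfl; omega
      have sv : s ≠ v := by rintro rfl; omega
      rw [dg_add_o hne hadj sa sv] at g4 g6
      have g5 : G.Adj t s := by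
        rcases g5' with g | g | g
        · exact g
        · exact absurd g.2 sv
        · exact absurd g.2 sa
      have ta : t ≠ r1 := by rintro rfl; omega
      have tv : t ≠ v := by rintro rfl; omega
      rw [dg_add_o hne hadj ta tv] at g6
      by_contra htw
      have := two_le_dg g3 g5.symm (Ne.symm htw)
      exact T2 hS hc (by omega) g3 g5.symm (Ne.symm htw) (by omega) (by omega)
    · tauto
    · exact absurd g.2.symm hne
  obtain ⟨a0, b0, c0, e0, f0, f1, f2, f3, f4, n1, n2, n3, n4, n5, n6, n7, n8, n9, n10⟩ :=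
    hS.add r1 v hne hadj
  have hit := chain_hits hS.no hne hadj f1 f2 f3 f4 n1 n2 n3 n4 n5 n6 n7 n8 n9 n10
  rw [← hF] at f1 f2 f3 f4
  clear_value F
  clear p4 r7 hF nu hD hb3
  rcases hit with (h | h | h | h | h) | (h | h | h | h | h) <;> grind (splits := 20)

/-- in a graph with maximum degree three: a triangle of 3-vertices two of which have a common
2-neighbour -/
theorem C7 (hS : Sat5 G) (hD : ∀ v, dg G v ≤ 3) {t1 t2 t3 x z : V}
    (h12 : G.Adj t1 t2) (h13 : G.Adj t1 t3) (h23 : G.Adj t2 t3) (d1' : dg G t1 = 3)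
    (d2' : dg G t2 = 3) (d3' : dg G t3 = 3) (hx1 : G.Adj t1 x) (hx2 : G.Adj t2 x) (hx : OV G x)
    (hz3 : G.Adj t3 z) (hz : OV G z) (hzx : z ≠ x) : False := by
  have hx2' := hx.1
  have hz2' := hz.1
  have x1 : x ≠ t1 := hx1.ne'
  have x2 : x ≠ t2 := hx2.ne'
  have x3 : x ≠ t3 := by rintro rfl; omega
  have z1 : z ≠ t1 := by rintro rfl; omega
  have z2 : z ≠ t2 := by rintro rfl; omega
  have z3 : z ≠ t3 := hz3.ne'
  have hne : x ≠ t3 := x3
  have nx := fun s hs => eq_of_two (r := s) hx2' hx1.symm hx2.symm h12.ne hs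
  have n1' := fun s hs => eq_of_three (s := s) d1' h12 h13 hx1 h23.ne x2.symm x3.symm hs
  have n2' := fun s hs => eq_of_three (s := s) d2' h12.symm h23 hx2 h13.ne x1.symm x3.symm hs
  have n3' := fun s hs => eq_of_three (s := s) d3' h13.symm h23.symm hz3 h12.ne z1.symm z2.symm hs
  have hadj : ¬ G.Adj x t3 := fun h => by
    rcases nx _ h with h | h
    · exact h13.ne h.symm
    · exact h23.ne h.symm
  have e0 := dg_add_x hne hadj
  have e3 := dg_add_w hne hadj
  have e1 := dg_add_o hne hadj x1.symm h13.ne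
  have e2 := dg_add_o hne hadj x2.symm h23.ne
  have ez := dg_add_o hne hadj hzx z3
  set F := Fs (G ⊔ edge x t3) with hF
  have S3 : ∀ w, ¬ F t3 w := by
    rintro w ⟨g1, g2⟩
    rw [adj_add hne] at g1
    rw [e3] at g2
    by_cases v0 : w = x
    · subst v0; omega
    by_cases v1 : w = t3
    · subst v1
      rcases g1 with g | g | g
      · exact g.ne rfl
      · exact x3 g.1.symm
      · exact x3 g.2.symm
    rw [dg_add_o hne hadj v0 v1] at g2
    have := hD w
    omega
  have Px : ∀ w, F w x → w = t1 ∨ w = t2 := by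
    intro w hw
    have g1 := hw.1
    rw [adj_add hne] at g1
    rcases g1 with g | g | g
    · exact nx w g.symm
    · exact absurd g.2 hne
    · exact absurd (g.1 ▸ hw) (S3 x)
  have Sx : ∀ w, F x w → w = t1 ∨ w = t2 ∨ w = t3 := by
    rintro w ⟨g1, g2⟩
    rw [adj_add hne] at g1
    rcases g1 with g | g | g
    · have := nx w g; tauto
    · tauto
    · exact absurd g.1 hne
  have P1 : ∀ w, F w t1 → w = t2 ∨ w = x := by
    intro w hw
    have g1 := hw.1
    rw [adj_add hne] at g1
    rcases g1 with g | g | g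
    · rcases n1' w g.symm with h | h | h
      · exact Or.inl h
      · exact absurd (h ▸ hw) (S3 t1)
      · exact Or.inr h
    · exact absurd g.2 h13.ne
    · exact absurd g.2 x1.symm
  have S1 : ∀ w, F t1 w → w = t2 ∨ w = t3 ∨ w = x := by
    rintro w ⟨g1, g2⟩
    rw [adj_add hne] at g1
    rcases g1 with g | g | g
    · exact n1' w g
    · exact absurd g.1 x1.symm
    · exact absurd g.1 h13.ne
  have P2 : ∀ w, F w t2 → w = t1 ∨ w = x := by
    intro w hw
    have g1 := hw.1
    rw [adj_add hne] at g1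
    rcases g1 with g | g | g
    · rcases n2' w g.symm with h | h | h
      · exact Or.inl h
      · exact absurd (h ▸ hw) (S3 t2)
      · exact Or.inr h
    · exact absurd g.2 h23.ne
    · exact absurd g.2 x2.symm
  have S2 : ∀ w, F t2 w → w = t1 ∨ w = t3 ∨ w = x := by
    rintro w ⟨g1, g2⟩
    rw [adj_add hne] at g1
    rcases g1 with g | g | g
    · exact n2' w g
    · exact absurd g.1 x2.symm
    · exact absurd g.1 h23.ne
  have P3 : ∀ w, F w t3 → w = t1 ∨ w = t2 ∨ w = x ∨ w = z := by
    rintro w ⟨g1, g2⟩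
    rw [adj_add hne] at g1
    rcases g1 with g | g | g
    · have := n3' w g.symm; tauto
    · tauto
    · exact absurd g.2 x3.symm
  have Pz : ∀ w, ¬ F w z := by
    rintro w ⟨g1, g2⟩
    rw [adj_add hne] at g1
    rw [ez] at g2
    rcases g1 with g | g | g
    · have h3 := hz.2 w g.symm
      have : dg G w ≤ dg (G ⊔ edge x t3) w := by
        classical
        rw [dg_add hne hadj]; omega
      omega
    · exact z3 g.2
    · exact hzx g.2
  obtain ⟨a0, b0, c0, e0, f0, f1, f2, f3, f4, n1, n2, n3, n4, n5, n6, n7, n8, n9, n10⟩ :=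
    hS.add x t3 hne hadj
  have hit := chain_hits hS.no hne hadj f1 f2 f3 f4 n1 n2 n3 n4 n5 n6 n7 n8 n9 n10
  rw [← hF] at f1 f2 f3 f4
  clear_value F
  clear nx n1' n2' n3' hF hD hz hx
  rcases hit with (h | h | h | h | h) | (h | h | h | h | h) <;> grind (splits := 25)

end Pool.Agent.V11278.SatFive
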