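import Mathlib
import Pool.Agent.V11278.SatFiveD

/-!
# 5-saturated graphs: graphs with a vertex of degree at least four (helper278)
-/

namespace Pool.Agent.V11278.SatFive

set_option linter.unusedSectionVars false
set_option linter.style.haveILetI false

open SimpleGraph Pool.Agent.V11278.DegMono

variable {V : Type*} [Fintype V] {G : SimpleGraph V}

lemma Dn_str (hS : Sat5 G) (hc : 4 ≤ Fintype.card V) {x w : V} {t : ℕ} (h : Dn G x w t) :
    ∃ b c, G.Adj c x ∧ G.Adj b c ∧ b ≠ x ∧ b ≠ w ∧ c ≠ w ∧ 3 ≤ dg G c ∧ dg G c ≤ t ∧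
      dg G b ≤ dg G c ∧ (TV G b ∨ 3 ≤ dg G b) := by
  obtain ⟨a, b, c, h1, h2, h3, n1, n2, n3, n4, n5, n6, i1, i2, i3⟩ := h
  have hb2 := two_le_dg h1.symm h2 n1
  have hc2 := two_le_dg h2.symm h3 n3
  have hc3 : 3 ≤ dg G c := by
    by_contra hlt
    exact T2 hS hc (by omega : dg G b = 2) h1.symm h2 n1 (by omega) (by omega)
  refine ⟨b, c, h3, h2, n3, n5, n6, hc3, i3, i2, ?_⟩
  rcases Nat.lt_or_ge (dg G b) 3 with hb | hb
  · left
    have hb2 : dg G b = 2 := by omega
    have := two_nbr hS hc hb2 h1.symm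
    exact ⟨hb2, a, h1.symm, by omega⟩
  · right; exact hb

open Classical in
lemma rr_pos {v u : V} (h : G.Adj v u) (hu : 3 ≤ dg G u) : 1 ≤ rr G v := by
  unfold rr
  apply Finset.card_pos.2
  exact ⟨u, by simp [h, hu]⟩

open Classical in
lemma rr_two {v u w : V} (h : G.Adj v u) (hu : 3 ≤ dg G u) (h' : G.Adj v w) (hw : 3 ≤ dg G w)
    (hne : u ≠ w) : 2 ≤ rr G v := by
  unfold rr
  rw [← Finset.card_pair hne]
  apply Finset.card_le_card
  intro z hz
  simp only [Finset.mem_insert, Finset.mem_singleton] at hz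
  rcases hz with rfl | rfl <;> simp [*]

open Classical in
lemma exists_rr {v : V} (h : 1 ≤ rr G v) : ∃ u, G.Adj v u ∧ 3 ≤ dg G u := by
  unfold rr at h
  obtain ⟨u, hu⟩ := Finset.card_pos.1 h
  simp only [Finset.mem_filter, Finset.mem_univ, true_and] at hu
  exact ⟨u, hu⟩

open Classical in
lemma exists_rr_ne {v p : V} (h : 2 ≤ rr G v) : ∃ u, G.Adj v u ∧ 3 ≤ dg G u ∧ u ≠ p := by
  unfold rr at h
  have h' : 1 < (Finset.univ.filter fun x => G.Adj v x ∧ 3 ≤ dg G x).card := by omega
  obtain ⟨u, hu, hup⟩ := Finset.exists_mem_ne h' p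
  simp only [Finset.mem_filter, Finset.mem_univ, true_and] at hu
  exact ⟨u, hu.1, hu.2, hup⟩

open Classical in
lemma k1_pos {v u : V} (h : G.Adj v u) (hu : OV G u) : 1 ≤ k1 G v := by
  unfold k1
  apply Finset.card_pos.2
  exact ⟨u, by simp [h, hu]⟩

open Classical in
lemma exists_k1 {v : V} (h : 1 ≤ k1 G v) : ∃ u, G.Adj v u ∧ OV G u := by
  unfold k1 at h
  obtain ⟨u, hu⟩ := Finset.card_pos.1 h
  simp only [Finset.mem_filter, Finset.mem_univ, true_and] at hu
  exact ⟨u, hu⟩

open Classical in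
lemma k2_pos {v u : V} (h : G.Adj v u) (hu : TV G u) : 1 ≤ k2 G v := by
  unfold k2
  apply Finset.card_pos.2
  exact ⟨u, by simp [h, hu]⟩

open Classical in
lemma exists_k2 {v : V} (h : 1 ≤ k2 G v) : ∃ u, G.Adj v u ∧ TV G u := by
  unfold k2 at h
  obtain ⟨u, hu⟩ := Finset.card_pos.1 h
  simp only [Finset.mem_filter, Finset.mem_univ, true_and] at hu
  exact ⟨u, hu⟩

open Classical in
lemma ll_zero {v : V} (h : ∀ x, G.Adj v x → dg G x ≠ 1) : ll G v = 0 := by
  unfold ll
  rw [Finset.card_eq_zero]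
  ext x
  simp only [Finset.mem_filter, Finset.mem_univ, true_and, Finset.notMem_empty, iff_false]
  exact fun hx => h x hx.1 hx.2

open Classical in
lemma ll_pos {v u : V} (h : G.Adj v u) (hu : dg G u = 1) : 1 ≤ ll G v := by
  unfold ll
  apply Finset.card_pos.2
  exact ⟨u, by simp [h, hu]⟩

open Classical in
lemma LL_zero (h : ∀ x, dg G x ≠ 1) : LL G = 0 := by
  unfold LL
  rw [Finset.card_eq_zero]
  ext x
  simp [h x]

open Classical in
lemma N1_two {x y : V} (hx : OV G x) (hy : OV G y) (hne : x ≠ y) : 2 ≤ N1 G := by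
  unfold N1
  rw [← Finset.card_pair hne]
  apply Finset.card_le_card
  intro z hz
  simp only [Finset.mem_insert, Finset.mem_singleton] at hz
  rcases hz with rfl | rfl <;> simp [*]

open Classical in
lemma N1_three {x y z : V} (hx : OV G x) (hy : OV G y) (hz : OV G z) (hxy : x ≠ y)
    (hxz : x ≠ z) (hyz : y ≠ z) : 3 ≤ N1 G := by
  unfold N1
  rw [← Finset.card_eq_three.2 ⟨x, y, z, hxy, hxz, hyz, rfl⟩]
  apply Finset.card_le_card
  intro w hw
  simp only [Finset.mem_insert, Finset.mem_singleton] at hw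
  rcases hw with rfl | rfl | rfl <;> simp [*]

open Classical in
lemma exists_N1 (h : 1 ≤ N1 G) : ∃ x, OV G x := by
  unfold N1 at h
  obtain ⟨u, hu⟩ := Finset.card_pos.1 h
  simp only [Finset.mem_filter, Finset.mem_univ, true_and] at hu
  exact ⟨u, hu⟩

/-- the two neighbours of a 1-thread vertex -/
lemma OV.other {x v : V} (hx : OV G x) (hv : G.Adj x v) :
    ∃ u, u ≠ v ∧ G.Adj x u ∧ 3 ≤ dg G u ∧ ∀ r, G.Adj x r → r = v ∨ r = u := by
  obtain ⟨q, h1, h2, h3⟩ := other_two hx.1 hv
  exact ⟨q, h1, h2, hx.2 q h2, h3⟩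

/-- six times the number of edges minus seven times the number of vertices -/
noncomputable def TT (G : SimpleGraph V) : ℤ := 3 * ∑ v, (dg G v : ℤ) - 7 * Fintype.card V

/-- charges -/
noncomputable def UU (G : SimpleGraph V) (v : V) : ℤ := 3 * (dg G v : ℤ) - 7 - k1 G v - k2 G v

lemma TT_eq (hS : Sat5 G) (hc : 4 ≤ Fintype.card V) :
    TT G = ∑ v ∈ V3 G, UU G v + N1 G - 4 * LL G := T_formula hS hc

theorem caseX (hS : Sat5 G) (hc : 4 ≤ Fintype.card V) (hleaf : ∀ v, dg G v ≠ 1)
    (hno : ∀ v x, 4 ≤ dg G v → G.Adj v x → ¬ TV G x) {M : V} (hM : 4 ≤ dg G M)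
    (hmax : ∀ v, dg G v ≤ dg G M) : 5 ≤ TT G := by
  have hll : ∀ v, ll G v = 0 := fun v => ll_zero fun x _ => hleaf x
  have hk2 : ∀ v, 4 ≤ dg G v → k2 G v = 0 := by
    intro v hv
    by_contra hne
    obtain ⟨u, h1, h2⟩ := exists_k2 (by omega : 1 ≤ k2 G v)
    exact hno v u hv h1 h2
  have hU : ∀ v ∈ V3 G, 0 ≤ UU G v := by
    intro v hv
    rw [mem_V3] at hv
    have hs := dg_split hS hc v
    rw [hll v] at hs
    unfold UU
    rcases Nat.lt_or_ge (dg G v) 4 with h4 | h4
    · have h3 : dg G v = 3 := by omega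
      have hr : 1 ≤ rr G v := by
        by_cases hadj : G.Adj v M
        · exact rr_pos hadj (by omega)
        have hvM : v ≠ M := by rintro rfl; omega
        rcases RL hS.no hvM hadj (fun u _ => hmax u) (by omega) (hS.add v M hvM hadj) with h | h
        · obtain ⟨b, c, g1, g2, g3, g4, g5, g6, -⟩ := Dn_str hS hc h
          exact rr_pos g1.symm g6
        · obtain ⟨p, q, hpq, hp, hq, j1, j2⟩ := h
          exact rr_pos hp (by omega)
      omega
    · have := hk2 v h4
      omega
  have hMV : M ∈ V3 G := by rw [mem_V3]; omega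
  rw [TT_eq hS hc, LL_zero hleaf]
  have h1 := Finset.single_le_sum (f := UU G) hU hMV
  have h2 := k1_le (G := G) M
  have h3 := hk2 M hM
  have h4 : UU G M = 3 * (dg G M : ℤ) - 7 - k1 G M - k2 G M := rfl
  push_cast
  omega

section up

variable {y : V}

lemma up_eq (hS : Sat5 G) (hc : 4 ≤ Fintype.card V) (hy : UP G y) {v : V} (hv : UP G v) : v = y :=
  hy.uniq v (fun u _ => hv.max hS hc u) hv.three

lemma up_ll (hS : Sat5 G) (hc : 4 ≤ Fintype.card V) (hy : UP G y) {v : V} (hv : v ≠ y) :
    ll G v = 0 :=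
  ll_zero fun _ hx h1 => hv (up_eq hS hc hy (UP_of_leaf hS hc h1 hx.symm))

lemma up_k2 (hS : Sat5 G) (hc : 4 ≤ Fintype.card V) (hy : UP G y) {v : V} (hv : v ≠ y)
    (h4 : 4 ≤ dg G v) : k2 G v = 0 := by
  by_contra hne
  obtain ⟨u, h1, h2⟩ := exists_k2 (by omega : 1 ≤ k2 G v)
  exact hv (up_eq hS hc hy (UP_of_TV hS hc h2 h1.symm h4))

lemma up_rr (hy : UP G y) {v : V} (hv : v ≠ y) (h3 : 3 ≤ dg G v) :
    1 ≤ rr G v := by
  obtain ⟨u, h1, h2⟩ := hy.up hv h3
  exact rr_pos h1 (by omega)

lemma up_UU (hS : Sat5 G) (hc : 4 ≤ Fintype.card V) (hy : UP G y) {v : V} (hv : v ≠ y)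
    (h3 : 3 ≤ dg G v) : 0 ≤ UU G v := by
  have hs := dg_split hS hc v
  have h1 := up_ll hS hc hy hv
  have h2 := up_rr hy hv h3
  unfold UU
  rcases Nat.lt_or_ge (dg G v) 4 with h4 | h4
  · omega
  · have := up_k2 hS hc hy hv h4
    omega

lemma up_k2_le (hS : Sat5 G) (hc : 4 ≤ Fintype.card V) (hy : UP G y) (hy4 : 4 ≤ dg G y) :
    k2 G y ≤ 2 := by
  classical
  by_contra hlt
  push Not at hlt
  unfold k2 at hlt
  obtain ⟨a, ha, b, hb, c, hcc, hab, hac, hbc⟩ := Finset.two_lt_card.1 hlt
  simp only [Finset.mem_filter, Finset.mem_univ, true_and] at ha hb hcc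
  have h1 := C2 hS hc hy hy4 ha.2 hb.2 ha.1.symm hb.1.symm hab
  have h2 := C2 hS hc hy hy4 ha.2 hcc.2 ha.1.symm hcc.1.symm hac
  have h3 := three_le_dg h1 h2 ha.1.symm hbc hb.1.ne' hcc.1.ne'
  have := ha.2.1
  omega

lemma up_four (hS : Sat5 G) (hc : 4 ≤ Fintype.card V) (hy : UP G y) (hy4 : dg G y = 4) {v : V}
    (hv : v ≠ y) (h3 : 3 ≤ dg G v) : dg G v = 3 ∧ G.Adj y v := by
  obtain ⟨u, h1, h2⟩ := hy.up hv h3
  have hu := hy.max hS hc u
  have huy : u = y := by
    by_contra hne
    have := hy.lt hS hc hne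
    omega
  subst huy
  exact ⟨by omega, h1.symm⟩

open Classical in
lemma up_A (hS : Sat5 G) (hc : 4 ≤ Fintype.card V) (hy : UP G y) (hy4 : dg G y = 4) :
    ((V3 G).erase y).card = rr G y := by
  unfold rr
  congr 1
  ext v
  simp only [Finset.mem_erase, mem_V3, Finset.mem_filter, Finset.mem_univ, true_and]
  constructor
  · rintro ⟨h1, h2⟩
    exact ⟨(up_four hS hc hy hy4 h1 h2).2, h2⟩
  · rintro ⟨h1, h2⟩
    exact ⟨h1.ne', h2⟩

/-- a 3-vertex next to the unique peak and to the only 1-thread vertex -/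
lemma Zk (hS : Sat5 G) (hc : 4 ≤ Fintype.card V) (hy : UP G y) {a x : V} (hay : G.Adj a y)
    (ha : dg G a = 3) (hr : rr G a = 1) (hax : G.Adj a x) (hx : OV G x) (hN : N1 G ≤ 1) :
    False := by
  have hy3 := hy.three
  have hx2 := hx.1
  have hyx : y ≠ x := by rintro rfl; omega
  obtain ⟨b, b1, b2, b3, b4⟩ := third ha hay hax hyx
  have hay' : a ≠ y := hay.ne
  have hb3 : dg G b < 3 := by
    by_contra hlt
    have := rr_two hay hy3 b3 (by omega) b1.symm
    omega
  have hb1 : dg G b ≠ 1 := fun h => hay' (up_eq hS hc hy (UP_of_leaf hS hc h b3.symm))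
  have hb0 := dg_pos hS hc b
  rcases TV_or_OV hS hc (by omega : dg G b = 2) with h | h
  · obtain ⟨-, b', g1, g2, g3, g4⟩ := Z3 hS hc hy h b3.symm (by omega) hay'
    rcases b4 b' g1 with rfl | rfl | rfl
    · exact g3 rfl
    · rcases g4 with g4 | g4
      · omega
      · exact g4.not_OV hx
    · exact g2 rfl
  · have := N1_two hx h b2.symm
    omega

theorem caseZ (hS : Sat5 G) (hc : 4 ≤ Fintype.card V) (hleaf : ∀ v, dg G v ≠ 1)
    (hy : UP G y) (hy4 : 4 ≤ dg G y) : 5 ≤ TT G ∨ (TT G = 3 ∧ Fintype.card V = 9) := by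
  classical
  by_contra hcon
  push Not at hcon
  obtain ⟨hT, hT3⟩ := hcon
  have hyV : y ∈ V3 G := by rw [mem_V3]; omega
  have hUU : UU G y = 3 * (dg G y : ℤ) - 7 - k1 G y - k2 G y := rfl
  have hk2 := up_k2_le hS hc hy hy4
  have hk1 := k1_le (G := G) y
  have hA0 : ∀ v ∈ (V3 G).erase y, 0 ≤ UU G v := by
    intro v hv
    rw [Finset.mem_erase, mem_V3] at hv
    exact up_UU hS hc hy hv.1 hv.2
  have hsum : ∑ v ∈ V3 G, UU G v = UU G y + ∑ v ∈ (V3 G).erase y, UU G v :=
    (Finset.add_sum_erase _ _ hyV).symm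
  have hTT := TT_eq hS hc
  rw [LL_zero hleaf, hsum] at hTT
  have hAs := Finset.sum_nonneg hA0
  have hll : ∀ v, ll G v = 0 := fun v => ll_zero fun x _ => hleaf x
  have hD : dg G y = 4 := by
    by_contra hne
    omega
  have hsy := dg_split hS hc y
  rw [hll y, hD] at hsy
  have hcard := up_A hS hc hy hD
  have hAv : ∀ v ∈ (V3 G).erase y, dg G v = 3 ∧ G.Adj y v := by
    intro v hv
    rw [Finset.mem_erase, mem_V3] at hv
    exact up_four hS hc hy hD hv.1 hv.2
  -- parity
  have hpar : Even (rr G y) := by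
    have h := even_odd_dg (G := G)
    have : (Finset.univ.filter fun v => Odd (dg G v)) = (V3 G).erase y := by
      ext v
      simp only [Finset.mem_filter, Finset.mem_univ, true_and]
      constructor
      · intro ho
        have h1 := dg_pos hS hc v
        have h2 := hleaf v
        have h3 := hy.max hS hc v
        have h5 : v ≠ y := by
          rintro rfl
          rw [hD] at ho
          exact absurd ho (by decide)
        have h6 : dg G v ≠ 2 := by
          intro h
          rw [h] at ho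
          exact absurd ho (by decide)
        rw [Finset.mem_erase, mem_V3]
        exact ⟨h5, by omega⟩
      · intro hv
        rw [(hAv v hv).1]
        decide
    rw [this, hcard] at h
    exact h
  have hUr : ∀ v ∈ (V3 G).erase y, UU G v = (rr G v : ℤ) - 1 := by
    intro v hv
    have h1 := (hAv v hv).1
    have h2 := dg_split hS hc v
    rw [hll v, h1] at h2
    unfold UU
    rw [h1]
    omega
  have hother : ∀ x, G.Adj y x → OV G x → ∃ a ∈ (V3 G).erase y, G.Adj a x := by
    intro x hx hxO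
    obtain ⟨u, h1, h2, h3, h4⟩ := hxO.other hx.symm
    exact ⟨u, by rw [Finset.mem_erase, mem_V3]; exact ⟨h1, h3⟩, h2.symm⟩
  obtain ⟨j, hj⟩ := hpar
  have hj3 : j = 0 ∨ j = 1 ∨ j = 2 := by omega
  rcases hj3 with rfl | rfl | rfl
  · -- no other big vertices
    obtain ⟨x, hx1, hx2⟩ := exists_k1 (by omega : 1 ≤ k1 G y)
    obtain ⟨a, ha, -⟩ := hother x hx1 hx2
    have : (V3 G).erase y = ∅ := by
      rw [← Finset.card_eq_zero, hcard]; omega
    rw [this] at ha
    exact absurd ha (Finset.notMem_empty _)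
  · have hzero : ∑ v ∈ (V3 G).erase y, UU G v = 0 → ∀ v ∈ (V3 G).erase y, rr G v = 1 := by
      intro h0 v hv
      have := (Finset.sum_eq_zero_iff_of_nonneg hA0).1 h0 v hv
      rw [hUr v hv] at this
      omega
    have hk2' : k2 G y = 0 ∨ k2 G y = 1 ∨ k2 G y = 2 := by omega
    rcases hk2' with h2 | h2 | h2
    · omega
    · obtain ⟨x, hx1, hx2⟩ := exists_k1 (by omega : 1 ≤ k1 G y)
      obtain ⟨a, ha, hax⟩ := hother x hx1 hx2
      exact Zk hS hc hy (hAv a ha).2.symm (hAv a ha).1 (hzero (by omega) a ha) hax hx2 (by omega)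
    · -- parity of the big edges
      have he := even_sum_rr (G := G)
      rw [← Finset.add_sum_erase _ _ hyV] at he
      have hsr : ∑ v ∈ (V3 G).erase y, UU G v = (∑ v ∈ (V3 G).erase y, rr G v : ℕ) - 2 := by
        rw [Finset.sum_congr rfl hUr, Finset.sum_sub_distrib]
        simp only [Finset.sum_const, nsmul_eq_mul, mul_one, hcard]
        push_cast
        have : (rr G y : ℤ) = 2 := by omega
        rw [this]
      obtain ⟨i, hi⟩ := he
      have h0 : ∑ v ∈ (V3 G).erase y, UU G v = 0 := by omega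
      have hr1 := hzero h0
      have hN0 : N1 G = 0 := by
        by_contra hne
        obtain ⟨x, hx⟩ := exists_N1 (by omega : 1 ≤ N1 G)
        obtain ⟨p, q, hpq, hp, hq⟩ := dg_two hx.1
        have hpy : p ≠ y := by
          rintro rfl
          have := k1_pos hp.symm hx
          omega
        have hpA : p ∈ (V3 G).erase y := by
          rw [Finset.mem_erase, mem_V3]; exact ⟨hpy, hx.2 p hp⟩
        exact Zk hS hc hy (hAv p hpA).2.symm (hAv p hpA).1 (hr1 p hpA) hp.symm hx (by omega)
      have hN2 : N2 G = 6 := by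
        rw [← sum_k2 hS hc, ← Finset.add_sum_erase _ _ hyV, h2]
        have : ∀ v ∈ (V3 G).erase y, k2 G v = 2 := by
          intro v hv
          have h1 := (hAv v hv).1
          have h2 := dg_split hS hc v
          have h3 := k1_le (G := G) v
          rw [hll v, h1, hr1 v hv] at h2
          omega
        rw [Finset.sum_congr rfl this]
        simp only [Finset.sum_const, hcard, smul_eq_mul]
        omega
      have hcs := card_split hS hc
      rw [LL_zero hleaf, hN0, hN2] at hcs
      have hV3 : (V3 G).card = 3 := by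
        have := Finset.card_erase_of_mem hyV
        rw [hcard] at this
        omega
      apply hT3
      · omega
      · omega
  · omega

theorem caseL (hS : Sat5 G) (hc : 4 ≤ Fintype.card V) {x0 : V} (h0 : dg G x0 = 1)
    (hy0 : G.Adj x0 y) : 5 ≤ TT G := by
  classical
  by_contra hT
  push Not at hT
  have hy := UP_of_leaf hS hc h0 hy0
  have hy3 := hy.three
  have hLL : LL G = 1 := by
    unfold LL
    rw [Finset.card_eq_one]
    refine ⟨x0, ?_⟩
    ext v
    simp only [Finset.mem_filter, Finset.mem_univ, true_and, Finset.mem_singleton]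
    constructor
    · exact fun h => C1 hS hc h h0
    · rintro rfl; exact h0
  have hyV : y ∈ V3 G := by rw [mem_V3]; omega
  have hUU : UU G y = 3 * (dg G y : ℤ) - 7 - k1 G y - k2 G y := rfl
  have hA0 : ∀ v ∈ (V3 G).erase y, 0 ≤ UU G v := by
    intro v hv
    rw [Finset.mem_erase, mem_V3] at hv
    exact up_UU hS hc hy hv.1 hv.2
  have hsum : ∑ v ∈ V3 G, UU G v = UU G y + ∑ v ∈ (V3 G).erase y, UU G v :=
    (Finset.add_sum_erase _ _ hyV).symm
  have hTT := TT_eq hS hc
  rw [hLL, hsum] at hTT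
  have hAs := Finset.sum_nonneg hA0
  have hsy := dg_split hS hc y
  have hlly := ll_pos hy0.symm h0
  -- the second largest degree
  obtain ⟨u, hu, hmax⟩ := Finset.exists_max_image (Finset.univ.erase y) (dg G)
    ⟨x0, by simp [hy0.ne]⟩
  have huy : u ≠ y := (Finset.mem_erase.1 hu).1
  have hmax' : ∀ v, v ≠ y → dg G v ≤ dg G u := fun v hv => hmax v (by simp [hv])
  have hu2 : 2 ≤ dg G u := by
    obtain ⟨v, hv1, hv2⟩ : ∃ v, G.Adj y v ∧ v ≠ x0 := by
      by_contra hcon
      push Not at hcon
      have : dg G y ≤ 1 := by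
        rw [dg_card, Finset.card_le_one]
        intro p hp q hq
        simp only [Finset.mem_filter, Finset.mem_univ, true_and] at hp hq
        rw [hcon p hp, hcon q hq]
      omega
    have h1 := hmax' v hv1.ne'
    have h2 := dg_pos hS hc v
    have h3 : dg G v ≠ 1 := fun h => hv2 (C1 hS hc h h0)
    omega
  obtain ⟨hD, huy', a, b, c, g1, g2, g3, g4, g5, g6, g7, g8, g9, g10, g11⟩ :=
    L2 hS hc h0 hy0 huy hu2 hmax'
  have hb2 := two_le_dg g1.symm g2 g4
  have hcmax := hmax' c g3.ne
  have hc3 : 3 ≤ dg G c := by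
    by_contra hlt
    exact T2 hS hc (by omega : dg G b = 2) g1.symm g2 g4 (by omega) (by omega)
  have hrru := rr_pos huy'.symm (by omega : 3 ≤ dg G u)
  have huA : u ∈ (V3 G).erase y := by
    rw [Finset.mem_erase, mem_V3]; exact ⟨huy, by omega⟩
  rcases Nat.lt_or_ge (dg G u) 4 with h4 | h4
  · -- degree four
    have hu3 : dg G u = 3 := by omega
    have hD4 : dg G y = 4 := by omega
    have hcard := up_A hS hc hy hD4
    have hAv : ∀ v ∈ (V3 G).erase y, dg G v = 3 ∧ G.Adj y v := by
      intro v hv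
      rw [Finset.mem_erase, mem_V3] at hv
      exact up_four hS hc hy hD4 hv.1 hv.2
    have hcA : c ∈ (V3 G).erase y := by
      rw [Finset.mem_erase, mem_V3]; exact ⟨g3.ne, hc3⟩
    have hpar : Even (rr G y + 1) := by
      have h := even_odd_dg (G := G)
      have : (Finset.univ.filter fun v => Odd (dg G v)) = insert x0 ((V3 G).erase y) := by
        ext v
        simp only [Finset.mem_filter, Finset.mem_univ, true_and]
        rw [Finset.mem_insert]
        constructor
        · intro ho
          by_cases hvx : v = x0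
          · exact Or.inl hvx
          right
          have h1 := dg_pos hS hc v
          have h2 : dg G v ≠ 1 := fun h => hvx (C1 hS hc h h0)
          have h3 := hy.max hS hc v
          have h5 : v ≠ y := by
            rintro rfl
            rw [hD4] at ho
            exact absurd ho (by decide)
          have h6 : dg G v ≠ 2 := by
            intro h
            rw [h] at ho
            exact absurd ho (by decide)
          rw [Finset.mem_erase, mem_V3]
          exact ⟨h5, by omega⟩
        · rintro (rfl | hv)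
          · rw [h0]; decide
          · rw [(hAv v hv).1]
            decide
      rw [this, Finset.card_insert_of_notMem (by rw [Finset.mem_erase, mem_V3]; omega),
        hcard] at h
      exact h
    have hrr2 : 2 ≤ rr G y := by
      exact rr_two huy'.symm (by omega) g3.symm hc3 g9.symm
    obtain ⟨j, hj⟩ := hpar
    have hr3 : rr G y = 3 := by omega
    have hUr : ∀ v ∈ (V3 G).erase y, UU G v = (rr G v : ℤ) - 1 := by
      intro v hv
      have h1 := (hAv v hv).1
      have h2 := dg_split hS hc v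
      rw [up_ll hS hc hy (Finset.mem_erase.1 hv).1, h1] at h2
      unfold UU
      rw [h1]
      omega
    have he := even_sum_rr (G := G)
    rw [← Finset.add_sum_erase _ _ hyV] at he
    have hsr : ∑ v ∈ (V3 G).erase y, UU G v = (∑ v ∈ (V3 G).erase y, rr G v : ℕ) - 3 := by
      rw [Finset.sum_congr rfl hUr, Finset.sum_sub_distrib]
      simp only [Finset.sum_const, nsmul_eq_mul, mul_one, hcard]
      push_cast
      have : (rr G y : ℤ) = 3 := by omega
      rw [this]
    obtain ⟨i, hi⟩ := he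
    -- vertices with one big neighbour have two 1-thread neighbours
    have hone : ∀ v ∈ (V3 G).erase y, rr G v = 1 → k2 G v = 0 ∧ k1 G v = 2 := by
      intro v hv hr
      have h1 := (hAv v hv).1
      have h2 := dg_split hS hc v
      rw [up_ll hS hc hy (Finset.mem_erase.1 hv).1, h1, hr] at h2
      have hk : k2 G v = 0 := by
        by_contra hne
        obtain ⟨z, hz1, hz2⟩ := exists_k2 (by omega : 1 ≤ k2 G v)
        obtain ⟨b', e1, e2, e3⟩ := C5 hS hc h0 hy0 (by omega) h1 (hAv v hv).2.symm hz2 hz1.symm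
        have := rr_two e1 e3 (hAv v hv).2.symm (by omega : 3 ≤ dg G y) e2
        omega
      exact ⟨hk, by omega⟩
    have hcases : ∑ v ∈ (V3 G).erase y, UU G v = 0 ∨ ∑ v ∈ (V3 G).erase y, UU G v = 2 := by
      omega
    rcases hcases with h | h
    · have hrc : rr G c = 1 := by
        have := (Finset.sum_eq_zero_iff_of_nonneg hA0).1 h c hcA
        rw [hUr c hcA] at this
        omega
      obtain ⟨e1, e2⟩ := hone c hcA hrc
      have hb3 : dg G b < 3 := by
        by_contra hlt
        have := rr_two g2.symm (by omega) g3 (by omega : 3 ≤ dg G y) g6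
        omega
      have hb2' : dg G b = 2 := by omega
      rcases TV_or_OV hS hc hb2' with hb | hb
      · have := k2_pos g2.symm hb
        omega
      · have := hb.2 a g1.symm
        omega
    · have hex : ∃ v ∈ (V3 G).erase y, rr G v = 1 := by
        by_contra hcon
        push Not at hcon
        have h1 : ∀ v ∈ (V3 G).erase y, 1 ≤ UU G v := by
          intro v hv
          have e1 := hA0 v hv
          have e2 := hcon v hv
          rw [hUr v hv] at e1 ⊢
          omega
        have h2 := Finset.card_nsmul_le_sum _ _ _ h1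
        rw [hcard, h, nsmul_eq_mul] at h2
        omega
      obtain ⟨v, hv, hvr⟩ := hex
      obtain ⟨e1, e2⟩ := hone v hv hvr
      have := k1_le (G := G) v
      omega
  · have h1 := Finset.single_le_sum (f := UU G) hA0 huA
    have h2 : UU G u = 3 * (dg G u : ℤ) - 7 - k1 G u - k2 G u := rfl
    have h3 := up_k2 hS hc hy huy h4
    have h5 := k1_le (G := G) u
    omega

end up

end Pool.Agent.V11278.SatFive
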