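import Mathlib
import Pool.Agent.V11278.SatFiveE

/-!
# 5-saturated graphs with maximum degree three, and the lower bound (helper278)
-/

namespace Pool.Agent.V11278.SatFive

set_option linter.unusedSectionVars false
set_option linter.style.haveILetI false

open SimpleGraph Pool.Agent.V11278.DegMono

variable {V : Type*} [Fintype V] {G : SimpleGraph V}

/-- the descending condition -/
def Gd (G : SimpleGraph V) (u : V) : Prop :=
  ∃ b c, G.Adj c u ∧ 3 ≤ dg G c ∧ G.Adj b c ∧ b ≠ u ∧ (TV G b ∨ 3 ≤ dg G b)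

open Classical in
lemma exists_rr_ne2 {v p q : V} (h : 3 ≤ rr G v) :
    ∃ u, G.Adj v u ∧ 3 ≤ dg G u ∧ u ≠ p ∧ u ≠ q := by
  by_contra hcon
  push Not at hcon
  have : rr G v ≤ ({p, q} : Finset V).card := by
    unfold rr
    apply Finset.card_le_card
    intro u hu
    simp only [Finset.mem_filter, Finset.mem_univ, true_and] at hu
    simp only [Finset.mem_insert, Finset.mem_singleton]
    by_cases hup : u = p
    · exact Or.inl hup
    · exact Or.inr (hcon u hu.1 hu.2 hup)
  have := Finset.card_le_two (a := p) (b := q)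
  omega

lemma dg_split3 (hS : Sat5 G) (hc : 4 ≤ Fintype.card V) (hleaf : ∀ v, dg G v ≠ 1) {v : V}
    (hv : dg G v = 3) : 3 = rr G v + k1 G v + k2 G v := by
  have h2 := dg_split hS hc v
  rw [ll_zero fun x _ => hleaf x, hv] at h2
  exact h2

lemma cl_good (hS : Sat5 G) (hc : 4 ≤ Fintype.card V) (hD : ∀ v, dg G v ≤ 3) {u w : V}
    (hne : u ≠ w) (hu : 3 ≤ dg G u) (hw : 3 ≤ dg G w) (hadj : ¬ G.Adj u w) :
    Gd G u ∨ Gd G w := by
  have hu3 := hD u
  have hw3 := hD w
  have pu : Peak G u := fun v _ => (hD v).trans hu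
  have pw : Peak G w := fun v _ => (hD v).trans hw
  rcases RL2 hS.no hne hadj pu pw (by omega) (hS.add u w hne hadj) with h | h
  · left
    obtain ⟨b, c, h1, h2, h3, h4, h5, h6, h7, h8, h9⟩ := Dn_str hS hc h
    exact ⟨b, c, h1, h6, h2, h3, h9⟩
  · right
    obtain ⟨b, c, h1, h2, h3, h4, h5, h6, h7, h8, h9⟩ := Dn_str hS hc h
    exact ⟨b, c, h1, h6, h2, h3, h9⟩

lemma Gd.rr_pos {u : V} (h : Gd G u) : 1 ≤ rr G u := by
  obtain ⟨b, c, h1, h2, -⟩ := h
  exact SatFive.rr_pos h1.symm h2

open Classical in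
theorem caseY (hS : Sat5 G) (hc : 4 ≤ Fintype.card V) (hleaf : ∀ v, dg G v ≠ 1)
    (hD : ∀ v, dg G v ≤ 3) : 5 ≤ TT G ∨ TT G = 0 := by
  by_contra hcon
  push Not at hcon
  obtain ⟨hT, hT0⟩ := hcon
  have h3 : ∀ v, 3 ≤ dg G v → dg G v = 3 := fun v hv => le_antisymm (hD v) hv
  have hs : ∀ v, 3 ≤ dg G v → 3 = rr G v + k1 G v + k2 G v :=
    fun v hv => dg_split3 hS hc hleaf (h3 v hv)
  have hUU : ∀ v ∈ V3 G, UU G v = (rr G v : ℤ) - 1 := by
    intro v hv
    rw [mem_V3] at hv
    have h1 := hs v hv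
    unfold UU
    rw [h3 v hv]
    omega
  have hTT := TT_eq hS hc
  rw [LL_zero hleaf, Finset.sum_congr rfl hUU] at hTT
  -- vertices without big neighbours
  set Z := (V3 G).filter fun v => rr G v = 0 with hZ
  have hZ1 : Z.card ≤ 1 := by
    rw [Finset.card_le_one]
    intro a ha b hb
    by_contra hab
    rw [hZ, Finset.mem_filter, mem_V3] at ha hb
    have hadj : ¬ G.Adj a b := fun h => by
      have := rr_pos h hb.1
      omega
    rcases cl_good hS hc hD hab ha.1 hb.1 hadj with h | h
    · have := h.rr_pos; omega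
    · have := h.rr_pos; omega
  have hlow : ∀ S : Finset V, S ⊆ V3 G →
      ∑ v ∈ S, ((rr G v : ℤ) - 1) ≤ ∑ v ∈ V3 G, ((rr G v : ℤ) - 1) + Z.card := by
    intro S hSV
    have e1 : ∑ v ∈ V3 G, ((rr G v : ℤ) - 1) + Z.card =
        ∑ v ∈ V3 G, ((rr G v : ℤ) - 1 + if rr G v = 0 then 1 else 0) := by
      rw [Finset.sum_add_distrib, hZ, Finset.card_filter]
      push_cast
      rfl
    rw [e1]
    refine le_trans ?_ (Finset.sum_le_sum_of_subset_of_nonneg hSV ?_)
    · apply Finset.sum_le_sum
      intro v _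
      split_ifs <;> omega
    · intro v _ _
      split_ifs <;> omega
  have hN1 := sum_k1 hS hc
  -- long paths of big vertices
  have hend : ∀ p u v q, G.Adj p u → G.Adj u v → G.Adj v q → p ≠ v → p ≠ q → u ≠ q →
      3 ≤ dg G p → 3 ≤ dg G u → 3 ≤ dg G v → 3 ≤ dg G q → rr G p = 3 := by
    intro p u v q h1 h2 h4 n1 n2 n3 d1 d2 d3' d4
    have e1 := h3 p d1
    have e2 := h3 u d2
    have e3 := h3 v d3'
    have e4 := h3 q d4
    have no2 : ∀ z, G.Adj p z → dg G z = 2 → False := by
      intro z hz hz2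
      have z1 : z ≠ u := by rintro rfl; omega
      have z2 : z ≠ v := by rintro rfl; omega
      have z3 : z ≠ q := by rintro rfl; omega
      exact hS.no ⟨z, p, u, v, q, ⟨hz.symm, by omega⟩, ⟨h1, by omega⟩, ⟨h2, by omega⟩,
        ⟨h4, by omega⟩, hz.ne', z1, z2, z3, h1.ne, n1, n2, h2.ne, n3, h4.ne⟩
    have k10 : k1 G p = 0 := by
      by_contra hne
      obtain ⟨z, hz1, hz2⟩ := exists_k1 (by omega : 1 ≤ k1 G p)
      exact no2 z hz1 hz2.1
    have k20 : k2 G p = 0 := by
      by_contra hne
      obtain ⟨z, hz1, hz2⟩ := exists_k2 (by omega : 1 ≤ k2 G p)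
      exact no2 z hz1 hz2.1
    have := hs p d1
    omega
  have hpath : ∀ p u v q, G.Adj p u → G.Adj u v → G.Adj v q → p ≠ v → p ≠ q → u ≠ q →
      3 ≤ dg G p → 3 ≤ dg G u → 3 ≤ dg G v → 3 ≤ dg G q → False := by
    intro p u v q h1 h2 h4 n1 n2 n3 d1 d2 d3' d4
    have r1 := hend p u v q h1 h2 h4 n1 n2 n3 d1 d2 d3' d4
    have r4 := hend q v u p h4.symm h2.symm h1.symm n3.symm n2.symm n1.symm d4 d3' d2 d1
    have r2 := rr_two h1.symm d1 h2 d3' n1
    have r3 := rr_two h2.symm d2 h4 d4 n3
    have hl := hlow {p, u, v, q} (by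
      intro w hw
      simp only [Finset.mem_insert, Finset.mem_singleton] at hw
      rw [mem_V3]
      rcases hw with rfl | rfl | rfl | rfl <;> assumption)
    rw [Finset.sum_insert (by simp [h1.ne, n1, n2]), Finset.sum_insert (by simp [h2.ne, n3]),
      Finset.sum_insert (by simp [h4.ne]), Finset.sum_singleton] at hl
    omega
  -- two adjacent vertices with two big neighbours
  have hadj2 : ∀ u v, G.Adj u v → 3 ≤ dg G u → 3 ≤ dg G v → 2 ≤ rr G u → 2 ≤ rr G v →
      False := by
    intro u v huv du dv ru rv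
    obtain ⟨t, ht1, ht2, ht3⟩ := exists_rr_ne (p := v) ru
    obtain ⟨q, hq1, hq2, hq3⟩ := exists_rr_ne (p := u) rv
    have hqt : t = q := by
      by_contra hne
      exact hpath t u v q ht1.symm huv hq1 ht3 hne hq3.symm ht2 du dv hq2
    subst hqt
    have ru2 : rr G u = 2 := by
      by_contra hne
      obtain ⟨p, p1, p2, p3, p4⟩ := exists_rr_ne2 (p := v) (q := t) (by omega : 3 ≤ rr G u)
      exact hpath p u v t p1.symm huv hq1 p3 p4 hq3.symm p2 du dv ht2
    have rv2 : rr G v = 2 := by
      by_contra hne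
      obtain ⟨p, p1, p2, p3, p4⟩ := exists_rr_ne2 (p := u) (q := t) (by omega : 3 ≤ rr G v)
      exact hpath p v u t p1.symm huv.symm ht1 p3 p4 ht3.symm p2 dv du ht2
    have rt2' := rr_two ht1.symm du hq1.symm dv huv.ne
    have rt2 : rr G t = 2 := by
      by_contra hne
      obtain ⟨p, p1, p2, p3, p4⟩ := exists_rr_ne2 (p := u) (q := v) (by omega : 3 ≤ rr G t)
      exact hpath p t u v p1.symm ht1.symm huv p3 p4 hq1.ne' p2 ht2 du dv
    have du3 := h3 u du
    have dv3 := h3 v dv
    have dt3 := h3 t ht2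
    have noT : ∀ a b c, dg G a = 3 → dg G b = 3 → dg G c = 3 → G.Adj a b → G.Adj b c → c ≠ a →
        k2 G a = 0 := by
      intro a b c ha hb hc' hab hbc hca
      by_contra hne
      obtain ⟨z, hz1, hz2⟩ := exists_k2 (by omega : 1 ≤ k2 G a)
      exact Y1 hS hz2 hz1.symm hab (by omega) (by omega) hbc hca (by omega)
    have ku := noT u v t du3 dv3 dt3 huv hq1 hq3
    have kv := noT v u t dv3 du3 dt3 huv.symm ht1 ht3
    have kt := noT t u v dt3 du3 dv3 ht1.symm huv hq1.ne
    have su := hs u du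
    have sv := hs v dv
    have st := hs t ht2
    obtain ⟨zu, zu1, zu2⟩ := exists_k1 (by omega : 1 ≤ k1 G u)
    obtain ⟨zv, zv1, zv2⟩ := exists_k1 (by omega : 1 ≤ k1 G v)
    obtain ⟨zt, zt1, zt2⟩ := exists_k1 (by omega : 1 ≤ k1 G t)
    have c7 : ∀ a b c x z, G.Adj a b → G.Adj a c → G.Adj b c → dg G a = 3 → dg G b = 3 →
        dg G c = 3 → G.Adj a x → G.Adj b x → OV G x → G.Adj c z → OV G z → False := by
      intro a b c x z hab hac hbc da db dc hax hbx hx hcz hz
      by_cases hzx : z = x
      · subst hzx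
        have h5 := three_le_dg hax.symm hbx.symm hcz.symm hab.ne hac.ne hbc.ne
        have := hx.1
        omega
      · exact C7 hS hD hab hac hbc da db dc hax hbx hx hcz hz hzx
    have n1 : zu ≠ zv := by
      rintro rfl
      exact c7 u v t zu zt huv ht1 hq1 du3 dv3 dt3 zu1 zv1 zu2 zt1 zt2
    have n2 : zu ≠ zt := by
      rintro rfl
      exact c7 u t v zu zv ht1 huv hq1.symm du3 dt3 dv3 zu1 zt1 zu2 zv1 zv2
    have n3 : zv ≠ zt := by
      rintro rfl
      exact c7 v t u zv zu hq1 huv.symm ht1.symm dv3 dt3 du3 zv1 zt1 zv2 zu1 zu2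
    have hN3 := N1_three zu2 zv2 zt2 n1 n2 n3
    have hl := hlow {u, v, t} (by
      intro w hw
      simp only [Finset.mem_insert, Finset.mem_singleton] at hw
      rw [mem_V3]
      rcases hw with rfl | rfl | rfl <;> assumption)
    rw [Finset.sum_insert (by simp [huv.ne, ht1.ne]), Finset.sum_insert (by simp [hq1.ne]),
      Finset.sum_singleton] at hl
    omega
  -- centres
  have hcen : ∀ u, 3 ≤ dg G u → 2 ≤ rr G u → (∀ c, G.Adj u c → 3 ≤ dg G c →
      rr G c = 1 ∧ k2 G c = 0 ∧ k1 G c = 2) ∧ ¬ Gd G u := by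
    intro u du ru
    have hc1 : ∀ c, G.Adj u c → 3 ≤ dg G c → rr G c = 1 ∧ k2 G c = 0 ∧ k1 G c = 2 := by
      intro c huc dc
      have r1 := rr_pos huc.symm du
      have r2 : rr G c = 1 := by
        by_contra hne
        exact hadj2 u c huc du dc ru (by omega)
      have k20 : k2 G c = 0 := by
        by_contra hne
        obtain ⟨z, hz1, hz2⟩ := exists_k2 (by omega : 1 ≤ k2 G c)
        obtain ⟨w, w1, w2, w3⟩ := exists_rr_ne (p := c) ru
        have e1 := h3 u du
        have e2 := h3 c dc
        exact Y1 hS hz2 hz1.symm huc.symm (by omega) (by omega) w1 w3 (by omega)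
      have := hs c dc
      exact ⟨r2, k20, by omega⟩
    refine ⟨hc1, ?_⟩
    rintro ⟨b, c, g1, g2, g3, g4, g5⟩
    obtain ⟨e1, e2, e3⟩ := hc1 c g1.symm g2
    rcases g5 with g5 | g5
    · have := k2_pos g3.symm g5
      omega
    · have := rr_two g1 du g3.symm g5 g4.symm
      omega
  have hZ0 : ∀ u, 3 ≤ dg G u → ¬ Gd G u → 1 ≤ rr G u → Z.card = 0 := by
    intro u du hu ru
    by_contra hne
    obtain ⟨z, hz⟩ := Finset.card_pos.1 (by omega : 0 < Z.card)
    rw [hZ, Finset.mem_filter, mem_V3] at hz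
    have hzu : u ≠ z := by rintro rfl; omega
    have hadj : ¬ G.Adj u z := fun h => by
      have := rr_pos h.symm du
      omega
    rcases cl_good hS hc hD hzu du hz.1 hadj with h | h
    · exact hu h
    · have := h.rr_pos; omega
  -- parity
  have hpar : Even (V3 G).card := by
    have h := even_odd_dg (G := G)
    have : (Finset.univ.filter fun v => Odd (dg G v)) = V3 G := by
      ext v
      simp only [Finset.mem_filter, Finset.mem_univ, true_and, mem_V3]
      constructor
      · intro ho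
        have h1 := dg_pos hS hc v
        have h2 := hleaf v
        have h6 : dg G v ≠ 2 := by
          intro h
          rw [h] at ho
          exact absurd ho (by decide)
        omega
      · intro hv
        rw [h3 v hv]
        decide
    rwa [this] at h
  have heven := even_sum_rr (G := G)
  have hsumr : ∑ v ∈ V3 G, ((rr G v : ℤ) - 1) = (∑ v ∈ V3 G, rr G v : ℕ) - (V3 G).card := by
    rw [Finset.sum_sub_distrib]
    simp
  by_cases hex : ∃ u, 3 ≤ dg G u ∧ 2 ≤ rr G u
  · obtain ⟨u, du, ru⟩ := hex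
    obtain ⟨hc1, hc2⟩ := hcen u du ru
    have hz := hZ0 u du hc2 (by omega)
    have huV : u ∈ V3 G := by rw [mem_V3]; exact du
    rcases Nat.lt_or_ge (rr G u) 3 with h | h
    · -- exactly two big neighbours
      have ru2 : rr G u = 2 := by omega
      have hoth : ∀ w ∈ (V3 G).erase u, rr G w = 1 := by
        intro w hw
        rw [Finset.mem_erase, mem_V3] at hw
        have h1 : rr G w ≠ 0 := by
          intro h0
          have : w ∈ Z := by rw [hZ, Finset.mem_filter, mem_V3]; exact ⟨hw.2, h0⟩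
          have := Finset.card_pos.2 ⟨w, this⟩
          omega
        by_contra hne
        have rw2 : 2 ≤ rr G w := by omega
        obtain ⟨-, hw2⟩ := hcen w hw.2 rw2
        have hadj : ¬ G.Adj u w := fun h => hadj2 u w h du hw.2 ru rw2
        rcases cl_good hS hc hD hw.1.symm du hw.2 hadj with h | h
        · exact hc2 h
        · exact hw2 h
      rw [← Finset.add_sum_erase _ _ huV, Finset.sum_congr rfl hoth, ru2] at heven
      simp only [Finset.sum_const, smul_eq_mul, mul_one, Finset.card_erase_of_mem huV] at heven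
      obtain ⟨i, hi⟩ := heven
      obtain ⟨j, hj⟩ := hpar
      have := Finset.card_pos.2 ⟨u, huV⟩
      omega
    · have ru3 : rr G u = 3 := by have := hs u du; omega
      have hN : 6 ≤ 2 * N1 G := by
        rw [← hN1]
        have hsub : (Finset.univ.filter fun x => G.Adj u x ∧ 3 ≤ dg G x) ⊆ V3 G := by
          intro x hx
          simp only [Finset.mem_filter, Finset.mem_univ, true_and] at hx
          rw [mem_V3]; exact hx.2
        refine le_trans ?_ (Finset.sum_le_sum_of_subset hsub)
        have : ∀ x ∈ (Finset.univ.filter fun x => G.Adj u x ∧ 3 ≤ dg G x), k1 G x = 2 := by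
          intro x hx
          simp only [Finset.mem_filter, Finset.mem_univ, true_and] at hx
          exact (hc1 x hx.1 hx.2).2.2
        rw [Finset.sum_congr rfl this]
        simp only [Finset.sum_const, smul_eq_mul]
        unfold rr at ru3
        rw [ru3]
      have hl := hlow {u} (by simpa using huV)
      rw [Finset.sum_singleton] at hl
      omega
  · push Not at hex
    have hle : ∀ v, 3 ≤ dg G v → rr G v ≤ 1 := fun v hv => by have := hex v hv; omega
    -- all have exactly one big neighbour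
    have hcount : (∑ v ∈ V3 G, rr G v) + Z.card = (V3 G).card := by
      rw [hZ, Finset.card_filter, ← Finset.sum_add_distrib, Finset.card_eq_sum_ones]
      apply Finset.sum_congr rfl
      intro v hv
      rw [mem_V3] at hv
      have := hle v hv
      split_ifs <;> omega
    have hz : Z.card = 0 := by
      obtain ⟨i, hi⟩ := heven
      obtain ⟨j, hj⟩ := hpar
      omega
    have h1 : ∀ v, 3 ≤ dg G v → rr G v = 1 := by
      intro v hv
      have := hle v hv
      by_contra hne
      have h0 : rr G v = 0 := by omega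
      have : v ∈ Z := by rw [hZ, Finset.mem_filter, mem_V3]; exact ⟨hv, h0⟩
      have := Finset.card_pos.2 ⟨v, this⟩
      omega
    have huniq : ∀ a b c, 3 ≤ dg G a → 3 ≤ dg G b → 3 ≤ dg G c → G.Adj a b → G.Adj a c →
        b = c := by
      intro a b c da db dc hab hac
      by_contra hne
      have := rr_two hab db hac dc hne
      have := h1 a da
      omega
    have hN0 : N1 G ≠ 0 := by
      intro h0
      apply hT0
      omega
    obtain ⟨x, hx⟩ := exists_N1 (by omega : 1 ≤ N1 G)
    -- vertices next to a 1-thread vertex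
    have hk : ∀ v, 3 ≤ dg G v → 1 ≤ k1 G v → k2 G v = 0 ∧ k1 G v = 2 := by
      intro v dv hv
      obtain ⟨m, m1, m2⟩ := exists_rr (by have := h1 v dv; omega : 1 ≤ rr G v)
      obtain ⟨b, b1, b2⟩ := exists_k1 hv
      have k20 : k2 G v = 0 := by
        by_contra hne
        obtain ⟨z, hz1, hz2⟩ := exists_k2 (by omega : 1 ≤ k2 G v)
        exact C6 hS hc hD (h3 v dv) m1 (h3 m m2) hz1 hz2 b1 b2
      have := hs v dv
      have := h1 v dv
      exact ⟨k20, by omega⟩
    -- the mate of such a vertex is not good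
    have hng : ∀ v u, 3 ≤ dg G v → 1 ≤ k1 G v → G.Adj v u → 3 ≤ dg G u → ¬ Gd G u := by
      rintro v u dv hv hvu du ⟨b, c, g1, g2, g3, g4, g5⟩
      have hcv : c = v := huniq u c v du g2 dv g1.symm hvu.symm
      subst hcv
      rcases g5 with g5 | g5
      · have := k2_pos g3.symm g5
        have := (hk c dv hv).1
        omega
      · exact g4 (huniq c b u dv g5 du g3.symm hvu)
    -- the two neighbours of a 1-thread vertex are mates
    have hmate : ∀ x v c, OV G x → G.Adj x v → G.Adj x c → v ≠ c → G.Adj v c := by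
      intro x v c hx hv hc' hvc
      have dv := hx.2 v hv
      have dc := hx.2 c hc'
      obtain ⟨m, m1, m2⟩ := exists_rr (by have := h1 v dv; omega : 1 ≤ rr G v)
      obtain ⟨m', m1', m2'⟩ := exists_rr (by have := h1 c dc; omega : 1 ≤ rr G c)
      have g1 := hng v m dv (k1_pos hv.symm hx) m1 m2
      have g2 := hng c m' dc (k1_pos hc'.symm hx) m1' m2'
      have hmm : m ≠ m' := by
        rintro rfl
        exact hvc (huniq m v c m2 dv dc m1.symm m1'.symm)
      have hadj : G.Adj m m' := by
        by_contra hadj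
        rcases cl_good hS hc hD hmm m2 m2' hadj with h | h
        · exact g1 h
        · exact g2 h
      have e1 : v = m' := huniq m v m' m2 dv m2' m1.symm hadj
      rw [e1]
      exact m1'.symm
    obtain ⟨v, c, hvc, hv, hc'⟩ := dg_two hx.1
    have dv := hx.2 v hv
    have dc := hx.2 c hc'
    have hvc' := hmate x v c hx hv hc' hvc
    have hkv := (hk v dv (k1_pos hv.symm hx)).2
    obtain ⟨x2, x21, x22, x23⟩ : ∃ x2, G.Adj v x2 ∧ OV G x2 ∧ x2 ≠ x := by
      unfold k1 at hkv
      obtain ⟨z, hz, hzx⟩ := Finset.exists_mem_ne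
        (by omega : 1 < (Finset.univ.filter fun x => G.Adj v x ∧ OV G x).card) x
      simp only [Finset.mem_filter, Finset.mem_univ, true_and] at hz
      exact ⟨z, hz.1, hz.2, hzx⟩
    obtain ⟨c2, d1, d2, d3', d4⟩ := x22.other x21.symm
    have hvc2 := hmate x2 v c2 x22 x21.symm d2 d1.symm
    have hcc : c = c2 := huniq v c c2 dv dc d3' hvc' hvc2
    subst hcc
    have hxx : ¬ G.Adj x x2 := fun h => by
      have := hx.2 x2 h
      have := x22.1
      omega
    have hx2 := hx.1
    have hx22 := x22.1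
    have xc : x ≠ c := by rintro rfl; omega
    have xv : x ≠ v := by rintro rfl; omega
    have x2c : x2 ≠ c := by rintro rfl; omega
    have x2v : x2 ≠ v := by rintro rfl; omega
    refine SC hS.no x23.symm hxx {x, x2, v, c} Finset.card_le_four ?_ (by simp) (by simp)
      (hS.add x x2 x23.symm hxx)
    intro p hp q hpq
    simp only [Finset.mem_insert, Finset.mem_singleton] at hp ⊢
    rcases hp with rfl | rfl | rfl | rfl
    · rcases eq_of_two hx2 hv hc' hvc hpq with rfl | rfl <;> simp
    · rcases d4 q hpq with rfl | rfl <;> simp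
    · rcases eq_of_three (h3 p dv) hvc' hv.symm x21 xc.symm x2c.symm x23.symm hpq with
        rfl | rfl | rfl <;> simp
    · rcases eq_of_three (h3 p dc) hvc'.symm hc'.symm d2.symm xv.symm x2v.symm x23.symm hpq with
        rfl | rfl | rfl <;> simp

/-- the lower bound -/
theorem lower (hS : Sat5 G) (hc : 4 ≤ Fintype.card V) :
    5 ≤ TT G ∨ TT G = 0 ∨ (TT G = 3 ∧ Fintype.card V = 9) := by
  by_cases hleaf : ∃ x, dg G x = 1
  · obtain ⟨x, hx⟩ := hleaf
    obtain ⟨y, hy⟩ := dg_one hx
    exact Or.inl (caseL hS hc hx hy)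
  push Not at hleaf
  obtain ⟨M, hM, hmax⟩ := exists_big hS hc
  by_cases h4 : 4 ≤ dg G M
  · by_cases hT : ∃ v x, 4 ≤ dg G v ∧ G.Adj v x ∧ TV G x
    · obtain ⟨v, x, h1, h2, h3⟩ := hT
      have hy := UP_of_TV hS hc h3 h2.symm h1
      rcases caseZ hS hc hleaf hy h1 with h | h
      · exact Or.inl h
      · exact Or.inr (Or.inr h)
    · push Not at hT
      exact Or.inl (caseX hS hc hleaf hT h4 hmax)
  · rcases caseY hS hc hleaf (fun v => by have := hmax v; omega) with h | h
    · exact Or.inl h
    · exact Or.inr (Or.inl h)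

end Pool.Agent.V11278.SatFive
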