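import Mathlib
import Pool.Agent.V11278.SatFiveF
import Pool.Agent.V11278.DegMono5

/-!
# 5-saturated graphs: certificates for small graphs (helper278)
-/

namespace Pool.Agent.V11278.SatFive

set_option linter.unusedSectionVars false

open SimpleGraph Pool.Agent.V11278.DegMono

/-- assembling `Good 5` -/
theorem good5 {V : Type*} (G : SimpleGraph V) (h1 : ¬ Ch5 (Fs G))
    (h2 : ∀ u v, u ≠ v → ¬ G.Adj u v → Ch5 (Fs (G ⊔ edge u v)))
    (h3 : ∀ p, Ch5 (St G.Adj (bump G p)) ∨ ∃ a b c, St G.Adj (bump G p) a b ∧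
      St G.Adj (bump G p) b c ∧ St G.Adj (bump G p) c p ∧ a ≠ b ∧ a ≠ c ∧ a ≠ p ∧ b ≠ c ∧
      b ≠ p ∧ c ≠ p) : Good 5 G := by
  have conv : ∀ {H : SimpleGraph V} {d : V → ℕ}, Ch5 (St H.Adj d) → ∃ l : List V, l.Nodup ∧
      l.IsChain (St H.Adj d) ∧ 5 ≤ l.length := by
    rintro H d ⟨a, b, c, e, f, h1, h2, h3, h4, n1, n2, n3, n4, n5, n6, n7, n8, n9, n10⟩
    refine ⟨[a, b, c, e, f], ?_, ?_, by simp⟩
    · simp only [List.nodup_cons, List.mem_cons, List.not_mem_nil, or_false, not_or,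
        not_false_eq_true, List.nodup_nil, and_true]
      tauto
    · simp only [List.isChain_cons_cons, List.isChain_singleton, and_true]
      exact ⟨h1, h2, h3, h4⟩
  refine ⟨?_, ?_, ?_⟩
  · intro l g1 g2
    by_contra hlen
    push Not at hlen
    rcases l with _ | ⟨a, _ | ⟨b, _ | ⟨c, _ | ⟨e, _ | ⟨f, t⟩⟩⟩⟩⟩
    · simp at hlen
    · simp at hlen
    · simp at hlen
    · simp at hlen
    · simp at hlen
    · simp only [List.isChain_cons_cons] at g2
      simp only [List.nodup_cons, List.mem_cons, not_or] at g1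
      refine h1 ⟨a, b, c, e, f, g2.1, g2.2.1, g2.2.2.1, g2.2.2.2.1, ?_⟩
      tauto
  · intro u v huv hadj
    obtain ⟨l, g1, g2, g3⟩ := conv (h2 u v huv hadj)
    exact ⟨l, g1, g2, g3⟩
  · intro p
    rcases h3 p with h | ⟨a, b, c, g1, g2, g3, n1, n2, n3, n4, n5, n6⟩
    · exact Or.inl (conv h)
    · right
      refine ⟨[a, b, c], ?_, ?_, by simp⟩
      · simp only [List.cons_append, List.nil_append, List.nodup_cons, List.mem_cons,
          List.not_mem_nil, or_false, not_or, not_false_eq_true, List.nodup_nil, and_true]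
        tauto
      · simp only [List.cons_append, List.nil_append, List.isChain_cons_cons,
          List.isChain_singleton, and_true]
        exact ⟨g1, g2, g3⟩

/-- adjacency from a list of bit masks -/
def Ab (n : ℕ) (rows : List ℕ) (a b : Fin n) : Bool := Nat.testBit (rows.getD a.val 0) b.val

/-- degrees from a list -/
def db (n : ℕ) (ds : List ℕ) (a : Fin n) : ℕ := ds.getD a.val 0

/-- a vertex from a code -/
def dec (n : ℕ) [NeZero n] (c i : ℕ) : Fin n := Fin.ofNat n (c / 16 ^ i % 16)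

/-- test a coded path with five vertices -/
def path5 {n : ℕ} [NeZero n] (F : Fin n → Fin n → Bool) (c : ℕ) : Bool :=
  F (dec n c 0) (dec n c 1) && F (dec n c 1) (dec n c 2) && F (dec n c 2) (dec n c 3) &&
  F (dec n c 3) (dec n c 4) && (dec n c 0 != dec n c 1) && (dec n c 0 != dec n c 2) &&
  (dec n c 0 != dec n c 3) && (dec n c 0 != dec n c 4) && (dec n c 1 != dec n c 2) &&
  (dec n c 1 != dec n c 3) && (dec n c 1 != dec n c 4) && (dec n c 2 != dec n c 3) &&
  (dec n c 2 != dec n c 4) && (dec n c 3 != dec n c 4)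

/-- test a coded path with four vertices ending at `p` -/
def path4 {n : ℕ} [NeZero n] (F : Fin n → Fin n → Bool) (p : Fin n) (c : ℕ) : Bool :=
  F (dec n c 0) (dec n c 1) && F (dec n c 1) (dec n c 2) && F (dec n c 2) p &&
  (dec n c 0 != dec n c 1) && (dec n c 0 != dec n c 2) &&
  (dec n c 0 != p) && (dec n c 1 != dec n c 2) &&
  (dec n c 1 != p) && (dec n c 2 != p)

lemma path5_sound {n : ℕ} [NeZero n] {F : Fin n → Fin n → Bool} {P : Fin n → Fin n → Prop}
    (hF : ∀ a b, F a b = true → P a b) {c : ℕ} (h : path5 F c = true) : Ch5 P := by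
  unfold path5 at h
  simp only [Bool.and_eq_true, bne_iff_ne] at h
  obtain ⟨⟨⟨⟨⟨⟨⟨⟨⟨⟨⟨⟨⟨h1, h2⟩, h3⟩, h4⟩, n1⟩, n2⟩, n3⟩, n4⟩, n5⟩, n6⟩, n7⟩, n8⟩, n9⟩, n10⟩ := h
  exact ⟨_, _, _, _, _, hF _ _ h1, hF _ _ h2, hF _ _ h3, hF _ _ h4, n1, n2, n3, n4, n5, n6, n7,
    n8, n9, n10⟩

lemma path4_sound {n : ℕ} [NeZero n] {F : Fin n → Fin n → Bool} {P : Fin n → Fin n → Prop}
    (hF : ∀ a b, F a b = true → P a b) {c : ℕ} {p : Fin n} (h : path4 F p c = true) :
    ∃ a b c, P a b ∧ P b c ∧ P c p ∧ a ≠ b ∧ a ≠ c ∧ a ≠ p ∧ b ≠ c ∧ b ≠ p ∧ c ≠ p := by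
  unfold path4 at h
  simp only [Bool.and_eq_true, bne_iff_ne] at h
  obtain ⟨⟨⟨⟨⟨⟨⟨⟨h1, h2⟩, h3⟩, n1⟩, n2⟩, n3⟩, n4⟩, n5⟩, n6⟩ := h
  exact ⟨_, _, _, hF _ _ h1, hF _ _ h2, hF _ _ h3, n1, n2, n3, n4, n5, n6⟩

/-- the step relation after adding the edge `uv` -/
def Fadd (n : ℕ) (rows ds : List ℕ) (u v a b : Fin n) : Bool :=
  (Ab n rows a b || (a == u && b == v) || (a == v && b == u)) &&
  decide (db n ds a + (if a == u || a == v then 1 else 0) ≤
    db n ds b + (if b == u || b == v then 1 else 0))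

/-- the step relation with `p` raised -/
def Fbump (n : ℕ) (rows ds : List ℕ) (p a b : Fin n) : Bool :=
  Ab n rows a b && decide (db n ds a + (if a == p then 1 else 0) ≤
    db n ds b + (if b == p then 1 else 0))

/-- the checks on the graph itself -/
structure Ck (n : ℕ) (rows ds : List ℕ) : Prop where
  symm : ∀ a b : Fin n, Ab n rows a b = true → Ab n rows b a = true
  irr : ∀ a : Fin n, Ab n rows a a = false
  deg : ∀ a : Fin n, (Finset.univ.filter fun b => Ab n rows a b = true).card = db n ds a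
  no5 : ∀ a b : Fin n, Ab n rows a b = true → db n ds a ≤ db n ds b →
    ∀ c : Fin n, Ab n rows b c = true → db n ds b ≤ db n ds c → a ≠ c →
    ∀ e : Fin n, Ab n rows c e = true → db n ds c ≤ db n ds e → a ≠ e → b ≠ e →
    ∀ f : Fin n, Ab n rows e f = true → db n ds e ≤ db n ds f → (a = f ∨ b = f ∨ c = f)

/-- the graph -/
def mkG {n : ℕ} {rows ds : List ℕ} (h : Ck n rows ds) : SimpleGraph (Fin n) where
  Adj a b := Ab n rows a b = true
  symm := ⟨fun a b hab => h.symm a b hab⟩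
  loopless := ⟨fun a ha => by have := h.irr a; rw [this] at ha; exact absurd ha (by decide)⟩

variable {n : ℕ} {rows ds : List ℕ}

lemma dg_mk (h : Ck n rows ds) (a : Fin n) : dg (mkG h) a = db n ds a := by
  rw [dg_card, ← h.deg a]
  congr 1
  ext b
  simp [mkG]

lemma no_mk (h : Ck n rows ds) : ¬ Ch5 (Fs (mkG h)) := by
  rintro ⟨a, b, c, e, f, ⟨h1, i1⟩, ⟨h2, i2⟩, ⟨h3, i3⟩, ⟨h4, i4⟩, n1, n2, n3, n4, n5, n6, n7, n8,
    n9, n10⟩
  rw [dg_mk, dg_mk] at i1 i2 i3 i4
  rcases h.no5 a b h1 i1 c h2 i2 n2 e h3 i3 n3 n6 f h4 i4 with h | h | h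
  · exact n4 h
  · exact n7 h
  · exact n9 h

lemma Fadd_sound (h : Ck n rows ds) {u v : Fin n} (huv : u ≠ v) (hadj : ¬ (mkG h).Adj u v)
    (a b : Fin n) (hab : Fadd n rows ds u v a b = true) : Fs (mkG h ⊔ edge u v) a b := by
  unfold Fadd at hab
  simp only [Bool.and_eq_true, Bool.or_eq_true, beq_iff_eq, decide_eq_true_eq] at hab
  obtain ⟨h1, h2⟩ := hab
  refine ⟨?_, ?_⟩
  · rw [adj_add huv]
    rcases h1 with (h1 | h1) | h1
    · exact Or.inl h1
    · exact Or.inr (Or.inl h1)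
    · exact Or.inr (Or.inr h1)
  · rw [dg_add huv hadj, dg_add huv hadj, dg_mk, dg_mk]
    convert h2

lemma Fbump_sound (h : Ck n rows ds) (p : Fin n)
    (a b : Fin n) (hab : Fbump n rows ds p a b = true) :
    St (mkG h).Adj (bump (mkG h) p) a b := by
  unfold Fbump at hab
  simp only [Bool.and_eq_true, beq_iff_eq, decide_eq_true_eq] at hab
  obtain ⟨h1, h2⟩ := hab
  refine ⟨h1, ?_⟩
  unfold bump
  rw [dg_mk, dg_mk]
  convert h2

lemma inner_mk [NeZero n] (h : Ck n rows ds) (tbl : List ℕ)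
    (ht : ∀ u v : Fin n, u.val < v.val → Ab n rows u v = false →
      path5 (Fadd n rows ds u v) (tbl.getD (u.val * n + v.val) 0) = true) :
    ∀ u v, u ≠ v → ¬ (mkG h).Adj u v → Ch5 (Fs (mkG h ⊔ edge u v)) := by
  have key : ∀ u v : Fin n, u.val < v.val → ¬ (mkG h).Adj u v →
      Ch5 (Fs (mkG h ⊔ edge u v)) := by
    intro u v huv hadj
    have hne : u ≠ v := by rintro rfl; omega
    have h0 : Ab n rows u v = false := by
      by_contra hne
      exact hadj (show Ab n rows u v = true by simpa using hne)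
    exact path5_sound (Fadd_sound h hne hadj) (ht u v huv h0)
  intro u v huv hadj
  rcases Nat.lt_or_ge u.val v.val with hlt | hlt
  · exact key u v hlt hadj
  · have : v.val < u.val := lt_of_le_of_ne hlt (fun he => huv (Fin.ext he.symm))
    rw [edge_comm]
    exact key v u this (fun h' => hadj h'.symm)

lemma good_mk [NeZero n] (h : Ck n rows ds) (tbl cr : List ℕ)
    (ht : ∀ u v : Fin n, u.val < v.val → Ab n rows u v = false →
      path5 (Fadd n rows ds u v) (tbl.getD (u.val * n + v.val) 0) = true)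
    (hc : ∀ p : Fin n, path5 (Fbump n rows ds p) (cr.getD p.val 0) = true ∨
      path4 (Fbump n rows ds p) p (cr.getD p.val 0) = true) :
    Good 5 (mkG h) := by
  refine good5 _ (no_mk h) (inner_mk h tbl ht) ?_
  intro p
  rcases hc p with hp | hp
  · exact Or.inl (path5_sound (Fbump_sound h p) hp)
  · exact Or.inr (path4_sound (Fbump_sound h p) hp)

lemma goodSize_mk [NeZero n] (h : Ck n rows ds) (hg : Good 5 (mkG h)) {m : ℕ}
    (hm : ∑ a : Fin n, db n ds a = m) : GoodSize 5 n m := by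
  refine ⟨Fin n, inferInstance, mkG h, hg, by simp, ?_⟩
  rw [Finset.sum_congr rfl fun a _ => dg_mk h a, hm]

end Pool.Agent.V11278.SatFive
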