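import Mathlib
import Pool.Agent.V11278.SatFiveG

/-!
# 5-saturated graphs: the components (helper278)
-/

namespace Pool.Agent.V11278.SatFive

open SimpleGraph Pool.Agent.V11278.DegMono

theorem ckL6 : Ck 6 [22, 41, 9, 6, 33, 18] [3, 3, 2, 2, 2, 2] :=
  ⟨by decide +kernel, by decide +kernel, by decide +kernel, by decide +kernel⟩

theorem inL6 : ∀ u v, u ≠ v → ¬ (mkG ckL6).Adj u v → Ch5 (Fs (mkG ckL6 ⊔ edge u v)) :=
  inner_mk ckL6 [0, 0, 0, 12628, 0, 20786, 0, 0, 73797, 0, 81955, 0, 0, 0, 0, 0, 270355, 335891, 0, 0, 0, 0, 274690, 340226, 0, 0, 0, 0, 0, 0, 0, 0, 0, 0, 0, 0] (by decide +kernel)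

theorem gsL6 : GoodSize 5 6 14 := by
  have hg := good_mk ckL6 [0, 0, 0, 12628, 0, 20786, 0, 0, 73797, 0, 81955, 0, 0, 0, 0, 0, 270355, 335891, 0, 0, 0, 0, 274690, 340226, 0, 0, 0, 0, 0, 0, 0, 0, 0, 0, 0, 0] [306, 4131, 131412, 200773, 262450, 331811] (by decide +kernel) (by decide +kernel)
  exact goodSize_mk ckL6 hg (by decide +kernel)

theorem ckG7 : Ck 7 [14, 49, 81, 97, 6, 10, 12] [3, 3, 3, 3, 2, 2, 2] :=
  ⟨by decide +kernel, by decide +kernel, by decide +kernel, by decide +kernel⟩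

theorem inG7 : ∀ u v, u ≠ v → ¬ (mkG ckG7).Adj u v → Ch5 (Fs (mkG ckG7 ⊔ edge u v)) :=
  inner_mk ckG7 [0, 0, 0, 0, 9237, 13588, 13860, 0, 0, 135221, 200740, 0, 0, 90882, 0, 0, 0, 204820, 0, 152321, 0, 0, 0, 0, 0, 213505, 0, 0, 0, 0, 0, 0, 0, 218128, 402448, 0, 0, 0, 0, 0, 0, 406800, 0, 0, 0, 0, 0, 0, 0] (by decide +kernel)

theorem ksG7 : KSat 5 (mkG ckG7) :=
  (kSat_five _).2 ⟨no_mk ckG7, inG7⟩

theorem esG7 : ∑ v, dg (mkG ckG7) v = 18 := by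
  rw [Finset.sum_congr rfl fun a _ => dg_mk ckG7 a]
  decide +kernel

theorem ckG8a : Ck 8 [30, 37, 67, 161, 193, 10, 20, 24] [4, 3, 3, 3, 3, 2, 2, 2] :=
  ⟨by decide +kernel, by decide +kernel, by decide +kernel, by decide +kernel⟩

theorem inG8a : ∀ u v, u ≠ v → ¬ (mkG ckG8a).Adj u v → Ch5 (Fs (mkG ckG8a ⊔ edge u v)) :=
  inner_mk ckG8a [0, 0, 0, 0, 0, 13586, 17953, 18229, 0, 0, 0, 200742, 266293, 0, 66658, 66675, 0, 0, 0, 204821, 270357, 131921, 0, 132211, 0, 0, 0, 0, 274465, 0, 17953, 0, 0, 0, 0, 0, 0, 262993, 0, 0, 0, 0, 0, 0, 0, 0, 17953, 291665, 0, 0, 0, 0, 0, 0, 0, 17953, 0, 0, 0, 0, 0, 0, 0, 0] (by decide +kernel)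

theorem gsG8a : GoodSize 5 8 22 := by
  have hg := good_mk ckG8a [0, 0, 0, 0, 0, 13586, 17953, 18229, 0, 0, 0, 200742, 266293, 0, 66658, 66675, 0, 0, 0, 204821, 270357, 131921, 0, 132211, 0, 0, 0, 0, 274465, 0, 17953, 0, 0, 0, 0, 0, 0, 262993, 0, 0, 0, 0, 0, 0, 0, 0, 17953, 291665, 0, 0, 0, 0, 0, 0, 0, 17953, 0, 0, 0, 0, 0, 0, 0, 0] [533, 4149, 8213, 197141, 262677, 13586, 17953, 18229] (by decide +kernel) (by decide +kernel)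
  exact goodSize_mk ckG8a hg (by decide +kernel)

theorem ckG9x : Ck 9 [30, 161, 321, 17, 9, 66, 36, 258, 132] [4, 3, 3, 2, 2, 2, 2, 2, 2] :=
  ⟨by decide +kernel, by decide +kernel, by decide +kernel, by decide +kernel⟩

theorem inG9x : ∀ u v, u ≠ v → ¬ (mkG ckG9x).Adj u v → Ch5 (Fs (mkG ckG9x ⊔ edge u v)) :=
  inner_mk ckG9x [0, 0, 0, 0, 0, 20856, 25223, 29014, 33381, 0, 0, 135235, 66149, 66149, 0, 66149, 0, 66149, 0, 0, 0, 131414, 131414, 131414, 0, 10005, 0, 0, 0, 0, 0, 0, 5428, 9780, 5940, 10292, 0, 0, 0, 0, 0, 5443, 9795, 5955, 10307, 0, 0, 0, 0, 0, 0, 0, 5974, 10321, 0, 0, 0, 0, 0, 0, 0, 9841, 10341, 0, 0, 0, 0, 0, 0, 0, 0, 0, 0, 0, 0, 0, 0, 0, 0, 0, 0] (by decide +kernel)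

theorem ksG9x : KSat 5 (mkG ckG9x) :=
  (kSat_five _).2 ⟨no_mk ckG9x, inG9x⟩

theorem esG9x : ∑ v, dg (mkG ckG9x) v = 22 := by
  rw [Finset.sum_congr rfl fun a _ => dg_mk ckG9x a]
  decide +kernel

theorem ckG9a : Ck 9 [70, 133, 259, 112, 168, 280, 9, 18, 36] [3, 3, 3, 3, 3, 3, 2, 2, 2] :=
  ⟨by decide +kernel, by decide +kernel, by decide +kernel, by decide +kernel⟩

theorem inG9a : ∀ u v, u ≠ v → ¬ (mkG ckG9a).Adj u v → Ch5 (Fs (mkG ckG9a ⊔ edge u v)) :=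
  inner_mk ckG9a [0, 0, 0, 197143, 17718, 21558, 0, 341105, 219169, 0, 0, 0, 201222, 266758, 332294, 344928, 0, 219168, 0, 0, 0, 205062, 270598, 336134, 344928, 214800, 0, 0, 0, 0, 0, 0, 0, 0, 214800, 360976, 0, 0, 0, 0, 0, 0, 283488, 0, 360976, 0, 0, 0, 0, 0, 0, 344928, 214800, 0, 0, 0, 0, 0, 0, 0, 0, 214800, 360976, 0, 0, 0, 0, 0, 0, 0, 0, 360976, 0, 0, 0, 0, 0, 0, 0, 0, 0] (by decide +kernel)

theorem gsG9a : GoodSize 5 9 24 := by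
  have hg := good_mk ckG9a [0, 0, 0, 197143, 17718, 21558, 0, 341105, 219169, 0, 0, 0, 201222, 266758, 332294, 344928, 0, 219168, 0, 0, 0, 205062, 270598, 336134, 344928, 214800, 0, 0, 0, 0, 0, 0, 0, 0, 214800, 360976, 0, 0, 0, 0, 0, 0, 283488, 0, 360976, 0, 0, 0, 0, 0, 0, 344928, 214800, 0, 0, 0, 0, 0, 0, 0, 0, 214800, 360976, 0, 0, 0, 0, 0, 0, 0, 0, 360976, 0, 0, 0, 0, 0, 0, 0, 0, 0] [535, 4614, 8454, 13639, 17718, 21558, 344928, 214800, 360976] (by decide +kernel) (by decide +kernel)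
  exact goodSize_mk ckG9a hg (by decide +kernel)

theorem ckG11 : Ck 11 [30, 97, 97, 641, 1281, 6, 6, 264, 144, 1032, 528] [4, 3, 3, 3, 3, 2, 2, 2, 2, 2, 2] :=
  ⟨by decide +kernel, by decide +kernel, by decide +kernel, by decide +kernel⟩

theorem inG11 : ∀ u v, u ≠ v → ¬ (mkG ckG11).Adj u v → Ch5 (Fs (mkG ckG11 ⊔ edge u v)) :=
  inner_mk ckG11 [0, 0, 0, 0, 0, 9494, 9749, 29594, 33961, 37752, 42119, 0, 0, 135223, 200741, 266277, 0, 0, 66424, 66695, 6455, 66695, 0, 0, 0, 204821, 270357, 0, 0, 131960, 132231, 10551, 132231, 0, 0, 0, 0, 274453, 197201, 197217, 0, 197767, 0, 197767, 0, 0, 0, 0, 0, 262737, 262753, 263032, 0, 18743, 0, 0, 0, 0, 0, 0, 0, 9809, 14161, 18513, 14673, 19025, 0, 0, 0, 0, 0, 0, 0, 14177, 18529, 14689, 19041, 0, 0, 0, 0, 0, 0, 0, 0, 0, 14712, 19059, 0, 0, 0, 0, 0, 0, 0, 0, 0, 18579, 19079, 0, 0, 0, 0, 0, 0, 0, 0, 0, 0, 0,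 0, 0, 0, 0, 0, 0, 0, 0, 0, 0, 0] (by decide +kernel)

theorem gsG11 : GoodSize 5 11 28 := by
  have hg := good_mk ckG11 [0, 0, 0, 0, 0, 9494, 9749, 29594, 33961, 37752, 42119, 0, 0, 135223, 200741, 266277, 0, 0, 66424, 66695, 6455, 66695, 0, 0, 0, 204821, 270357, 0, 0, 131960, 132231, 10551, 132231, 0, 0, 0, 0, 274453, 197201, 197217, 0, 197767, 0, 197767, 0, 0, 0, 0, 0, 262737, 262753, 263032, 0, 18743, 0, 0, 0, 0, 0, 0, 0, 9809, 14161, 18513, 14673, 19025, 0, 0, 0, 0, 0, 0, 0, 14177, 18529, 14689, 19041, 0, 0, 0, 0, 0, 0, 0, 0, 0, 14712, 19059, 0, 0, 0, 0, 0, 0, 0, 0, 0, 18579, 19079, 0, 0, 0, 0, 0, 0, 0, 0, 0, 0, 0, 0, 0, 0, 0, 0, 0, 0, 0, 0, 0, 0] [1159, 66695, 132231, 197767, 263032, 9494, 9749, 29594, 33961, 37752, 42119] (by decide +kernel) (by decide +kernel)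
  exact goodSize_mk ckG11 hg (by decide +kernel)

theorem ckG13 : Ck 13 [30, 161, 321, 2561, 5121, 66, 36, 258, 132, 1032, 528, 4104, 2064] [4, 3, 3, 3, 3, 2, 2, 2, 2, 2, 2, 2, 2] :=
  ⟨by decide +kernel, by decide +kernel, by decide +kernel, by decide +kernel⟩

theorem inG13 : ∀ u v, u ≠ v → ¬ (mkG ckG13).Adj u v → Ch5 (Fs (mkG ckG13 ⊔ edge u v)) :=
  inner_mk ckG13 [0, 0, 0, 0, 0, 20856, 25223, 29014, 33381, 37820, 42187, 45978, 50345, 0, 0, 66149, 66149, 66149, 0, 66149, 0, 66149, 66149, 66149, 66149, 66149, 0, 0, 0, 204821, 270357, 131414, 0, 10005, 0, 131414, 131414, 131414, 131414, 0, 0, 0, 0, 274453, 196950, 197221, 14101, 197221, 0, 197221, 0, 197221, 0, 0, 0, 0, 0, 262486, 262757, 18197, 262757, 262757, 0, 262757, 0, 0, 0, 0, 0, 0, 0, 0, 5974, 10321, 14673, 19025, 15185, 19537, 0, 0, 0, 0, 0, 0, 0, 9841, 10341, 14690, 19042, 15202, 19554,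 0, 0, 0, 0, 0, 0, 0, 0, 0, 14705, 19057, 15217, 19569, 0, 0, 0, 0, 0, 0, 0, 0, 0, 14722, 19074, 15234, 19586, 0, 0, 0, 0, 0, 0, 0, 0, 0, 0, 0, 15258, 19603, 0, 0, 0, 0, 0, 0, 0, 0, 0, 0, 0, 19123, 19625, 0, 0, 0, 0, 0, 0, 0, 0, 0, 0, 0, 0, 0, 0, 0, 0, 0, 0, 0, 0, 0, 0, 0, 0, 0, 0] (by decide +kernel)

theorem gsG13 : GoodSize 5 13 32 := by
  have hg := good_mk ckG13 [0, 0, 0, 0, 0, 20856, 25223, 29014, 33381, 37820, 42187, 45978, 50345, 0, 0, 66149, 66149, 66149, 0, 66149, 0, 66149, 66149, 66149, 66149, 66149, 0, 0, 0, 204821, 270357, 131414, 0, 10005, 0, 131414, 131414, 131414, 131414, 0, 0, 0, 0, 274453, 196950, 197221, 14101, 197221, 0, 197221, 0, 197221, 0, 0, 0, 0, 0, 262486, 262757, 18197, 262757, 262757, 0, 262757, 0, 0, 0, 0, 0, 0, 0, 0, 5974, 10321, 14673, 19025, 15185, 19537, 0, 0, 0, 0, 0, 0, 0, 9841, 10341, 14690, 19042, 15202, 19554,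 0, 0, 0, 0, 0, 0, 0, 0, 0, 14705, 19057, 15217, 19569, 0, 0, 0, 0, 0, 0, 0, 0, 0, 14722, 19074, 15234, 19586, 0, 0, 0, 0, 0, 0, 0, 0, 0, 0, 0, 15258, 19603, 0, 0, 0, 0, 0, 0, 0, 0, 0, 0, 0, 19123, 19625, 0, 0, 0, 0, 0, 0, 0, 0, 0, 0, 0, 0, 0, 0, 0, 0, 0, 0, 0, 0, 0, 0, 0, 0, 0, 0] [613, 66149, 131414, 197221, 262757, 20856, 25223, 29014, 33381, 37820, 42187, 45978, 50345] (by decide +kernel) (by decide +kernel)
  exact goodSize_mk ckG13 hg (by decide +kernel)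

end Pool.Agent.V11278.SatFive
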