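import Mathlib
import Pool.Agent.V11278.SatFiveG

/-!
# 5-saturated graphs with five vertices (helper278)
-/

namespace Pool.Agent.V11278.SatFive

open SimpleGraph Pool.Agent.V11278.DegMono

/-- nested form of `Ch5` on `Fin 5` -/
def C5b (F : Fin 5 → Fin 5 → Bool) : Prop :=
  ∃ a b, F a b = true ∧ ∃ c, F b c = true ∧ a ≠ c ∧ ∃ e, F c e = true ∧ a ≠ e ∧ b ≠ e ∧
    ∃ f, F e f = true ∧ a ≠ f ∧ b ≠ f ∧ c ≠ f

instance (F : Fin 5 → Fin 5 → Bool) : Decidable (C5b F) := by unfold C5b; infer_instance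

/-- rows of the graph with ten given edge bits -/
def rw5 (b01 b02 b03 b04 b12 b13 b14 b23 b24 b34 : Bool) : List ℕ :=
  [2 * b01.toNat + 4 * b02.toNat + 8 * b03.toNat + 16 * b04.toNat,
   b01.toNat + 4 * b12.toNat + 8 * b13.toNat + 16 * b14.toNat,
   b02.toNat + 2 * b12.toNat + 8 * b23.toNat + 16 * b24.toNat,
   b03.toNat + 2 * b13.toNat + 4 * b23.toNat + 16 * b34.toNat,
   b04.toNat + 2 * b14.toNat + 4 * b24.toNat + 8 * b34.toNat]

/-- degrees of the graph with ten given edge bits -/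
def dg5 (b01 b02 b03 b04 b12 b13 b14 b23 b24 b34 : Bool) : List ℕ :=
  [b01.toNat + b02.toNat + b03.toNat + b04.toNat,
   b01.toNat + b12.toNat + b13.toNat + b14.toNat,
   b02.toNat + b12.toNat + b23.toNat + b24.toNat,
   b03.toNat + b13.toNat + b23.toNat + b34.toNat,
   b04.toNat + b14.toNat + b24.toNat + b34.toNat]

def F0 (rows ds : List ℕ) (a b : Fin 5) : Bool :=
  Ab 5 rows a b && decide (db 5 ds a ≤ db 5 ds b)

set_option maxRecDepth 100000 in
theorem brute : ∀ b01 b02 b03 b04 b12 b13 b14 b23 b24 b34 : Bool,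
    (b01.toNat + b02.toNat + b03.toNat + b04.toNat + b12.toNat + b13.toNat + b14.toNat +
      b23.toNat + b24.toNat + b34.toNat = 7 ∨
     b01.toNat + b02.toNat + b03.toNat + b04.toNat + b12.toNat + b13.toNat + b14.toNat +
      b23.toNat + b24.toNat + b34.toNat = 8) →
    C5b (F0 (rw5 b01 b02 b03 b04 b12 b13 b14 b23 b24 b34)
      (dg5 b01 b02 b03 b04 b12 b13 b14 b23 b24 b34)) ∨
    ∃ u v : Fin 5, u.val < v.val ∧
      Ab 5 (rw5 b01 b02 b03 b04 b12 b13 b14 b23 b24 b34) u v = false ∧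
      ¬ C5b (Fadd 5 (rw5 b01 b02 b03 b04 b12 b13 b14 b23 b24 b34)
        (dg5 b01 b02 b03 b04 b12 b13 b14 b23 b24 b34) u v) := by
  decide +kernel

end Pool.Agent.V11278.SatFive
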