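import Mathlib
import Pool.Agent.V11278.SatFiveI

/-!
# 5-saturated graphs with five vertices have at least nine edges (helper278)
-/

namespace Pool.Agent.V11278.SatFive

set_option linter.unusedSectionVars false

open SimpleGraph Pool.Agent.V11278.DegMono

lemma C5b_of_Ch5 {P : Fin 5 → Fin 5 → Prop} {F : Fin 5 → Fin 5 → Bool}
    (h : ∀ a b, P a b → F a b = true) (hP : Ch5 P) : C5b F := by
  obtain ⟨a, b, c, e, f, h1, h2, h3, h4, n1, n2, n3, n4, n5, n6, n7, n8, n9, n10⟩ := hP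
  exact ⟨a, b, h _ _ h1, c, h _ _ h2, n2, e, h _ _ h3, n3, n6, f, h _ _ h4, n4, n7, n9⟩

lemma Ch5_of_C5b {P : Fin 5 → Fin 5 → Prop} {F : Fin 5 → Fin 5 → Bool}
    (h : ∀ a b, F a b = true → P a b) (hirr : ∀ a, ¬ P a a) (hF : C5b F) : Ch5 P := by
  obtain ⟨a, b, h1, c, h2, n2, e, h3, n3, n6, f, h4, n4, n7, n9⟩ := hF
  have g1 := h _ _ h1
  have g2 := h _ _ h2
  have g3 := h _ _ h3
  have g4 := h _ _ h4
  refine ⟨a, b, c, e, f, g1, g2, g3, g4, ?_, n2, n3, n4, ?_, n6, n7, ?_, n9, ?_⟩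
  · rintro rfl; exact hirr _ g1
  · rintro rfl; exact hirr _ g2
  · rintro rfl; exact hirr _ g3
  · rintro rfl; exact hirr _ g4

set_option maxRecDepth 100000 in
theorem Ab_rw5 : ∀ b01 b02 b03 b04 b12 b13 b14 b23 b24 b34 : Bool,
    (∀ i : Fin 5, Ab 5 (rw5 b01 b02 b03 b04 b12 b13 b14 b23 b24 b34) i i = false) ∧
    (∀ i j : Fin 5, Ab 5 (rw5 b01 b02 b03 b04 b12 b13 b14 b23 b24 b34) i j =
      Ab 5 (rw5 b01 b02 b03 b04 b12 b13 b14 b23 b24 b34) j i) ∧
    Ab 5 (rw5 b01 b02 b03 b04 b12 b13 b14 b23 b24 b34) 0 1 = b01 ∧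
    Ab 5 (rw5 b01 b02 b03 b04 b12 b13 b14 b23 b24 b34) 0 2 = b02 ∧
    Ab 5 (rw5 b01 b02 b03 b04 b12 b13 b14 b23 b24 b34) 0 3 = b03 ∧
    Ab 5 (rw5 b01 b02 b03 b04 b12 b13 b14 b23 b24 b34) 0 4 = b04 ∧
    Ab 5 (rw5 b01 b02 b03 b04 b12 b13 b14 b23 b24 b34) 1 2 = b12 ∧
    Ab 5 (rw5 b01 b02 b03 b04 b12 b13 b14 b23 b24 b34) 1 3 = b13 ∧
    Ab 5 (rw5 b01 b02 b03 b04 b12 b13 b14 b23 b24 b34) 1 4 = b14 ∧
    Ab 5 (rw5 b01 b02 b03 b04 b12 b13 b14 b23 b24 b34) 2 3 = b23 ∧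
    Ab 5 (rw5 b01 b02 b03 b04 b12 b13 b14 b23 b24 b34) 2 4 = b24 ∧
    Ab 5 (rw5 b01 b02 b03 b04 b12 b13 b14 b23 b24 b34) 3 4 = b34 := by
  decide +kernel

open Classical in
/-- the bit rows of a graph on `Fin 5` -/
noncomputable def rows5 (G : SimpleGraph (Fin 5)) : List ℕ :=
  rw5 (decide (G.Adj 0 1)) (decide (G.Adj 0 2)) (decide (G.Adj 0 3)) (decide (G.Adj 0 4))
    (decide (G.Adj 1 2)) (decide (G.Adj 1 3)) (decide (G.Adj 1 4)) (decide (G.Adj 2 3))
    (decide (G.Adj 2 4)) (decide (G.Adj 3 4))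

open Classical in
/-- the degree list of a graph on `Fin 5` -/
noncomputable def degs5 (G : SimpleGraph (Fin 5)) : List ℕ :=
  dg5 (decide (G.Adj 0 1)) (decide (G.Adj 0 2)) (decide (G.Adj 0 3)) (decide (G.Adj 0 4))
    (decide (G.Adj 1 2)) (decide (G.Adj 1 3)) (decide (G.Adj 1 4)) (decide (G.Adj 2 3))
    (decide (G.Adj 2 4)) (decide (G.Adj 3 4))

open Classical in
lemma Ab_eq (G : SimpleGraph (Fin 5)) (a b : Fin 5) : Ab 5 (rows5 G) a b = decide (G.Adj a b) := by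
  have key : ∀ a b : Fin 5, a.val < b.val → Ab 5 (rows5 G) a b = decide (G.Adj a b) := by
    obtain ⟨-, -, h1, h2, h3, h4, h5, h6, h7, h8, h9, h10⟩ :=
      Ab_rw5 (decide (G.Adj 0 1)) (decide (G.Adj 0 2)) (decide (G.Adj 0 3)) (decide (G.Adj 0 4))
        (decide (G.Adj 1 2)) (decide (G.Adj 1 3)) (decide (G.Adj 1 4)) (decide (G.Adj 2 3))
        (decide (G.Adj 2 4)) (decide (G.Adj 3 4))
    intro a b hab
    fin_cases a <;> fin_cases b <;> first | exact absurd hab (by decide) | assumption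
  obtain ⟨g1, g2, -⟩ :=
      Ab_rw5 (decide (G.Adj 0 1)) (decide (G.Adj 0 2)) (decide (G.Adj 0 3)) (decide (G.Adj 0 4))
        (decide (G.Adj 1 2)) (decide (G.Adj 1 3)) (decide (G.Adj 1 4)) (decide (G.Adj 2 3))
        (decide (G.Adj 2 4)) (decide (G.Adj 3 4))
  rcases lt_trichotomy a.val b.val with h | h | h
  · exact key a b h
  · obtain rfl := Fin.ext h
    rw [show Ab 5 (rows5 G) a a = false from g1 a]
    simp
  · rw [show Ab 5 (rows5 G) a b = Ab 5 (rows5 G) b a from g2 a b, key b a h]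
    simp [G.adj_comm]

open Classical in
lemma db_eq (G : SimpleGraph (Fin 5)) (a : Fin 5) : db 5 (degs5 G) a = dg G a := by
  rw [dg_card, Finset.card_filter]
  simp only [Fin.sum_univ_five]
  have e : ∀ a b : Fin 5, (decide (G.Adj a b)).toNat = if G.Adj a b then 1 else 0 := by
    intro a b; by_cases h : G.Adj a b <;> simp [h]
  fin_cases a
  · show (decide (G.Adj 0 1)).toNat + (decide (G.Adj 0 2)).toNat + (decide (G.Adj 0 3)).toNat +
      (decide (G.Adj 0 4)).toNat = _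
    simp only [e, Fin.zero_eta, Fin.isValue, SimpleGraph.irrefl, if_false, zero_add]
  · show (decide (G.Adj 0 1)).toNat + (decide (G.Adj 1 2)).toNat + (decide (G.Adj 1 3)).toNat +
      (decide (G.Adj 1 4)).toNat = _
    simp only [e, Fin.mk_one, Fin.isValue, SimpleGraph.irrefl, if_false, zero_add,
      G.adj_comm 1 0, add_zero]
  · show (decide (G.Adj 0 2)).toNat + (decide (G.Adj 1 2)).toNat + (decide (G.Adj 2 3)).toNat +
      (decide (G.Adj 2 4)).toNat = _
    simp only [e, Fin.reduceFinMk, Fin.isValue, SimpleGraph.irrefl, if_false, zero_add,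
      G.adj_comm 2 0, G.adj_comm 2 1, add_zero]
  · show (decide (G.Adj 0 3)).toNat + (decide (G.Adj 1 3)).toNat + (decide (G.Adj 2 3)).toNat +
      (decide (G.Adj 3 4)).toNat = _
    simp only [e, Fin.reduceFinMk, Fin.isValue, SimpleGraph.irrefl, if_false, zero_add,
      G.adj_comm 3 0, G.adj_comm 3 1, G.adj_comm 3 2, add_zero]
  · show (decide (G.Adj 0 4)).toNat + (decide (G.Adj 1 4)).toNat + (decide (G.Adj 2 4)).toNat +
      (decide (G.Adj 3 4)).toNat = _
    simp only [e, Fin.reduceFinMk, Fin.isValue, SimpleGraph.irrefl, if_false, zero_add,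
      G.adj_comm 4 0, G.adj_comm 4 1, G.adj_comm 4 2, G.adj_comm 4 3, add_zero]

open Classical in
/-- twice the number of edge bits is the degree sum -/
lemma bits_sum (G : SimpleGraph (Fin 5)) :
    2 * ((decide (G.Adj 0 1)).toNat + (decide (G.Adj 0 2)).toNat + (decide (G.Adj 0 3)).toNat +
      (decide (G.Adj 0 4)).toNat + (decide (G.Adj 1 2)).toNat + (decide (G.Adj 1 3)).toNat +
      (decide (G.Adj 1 4)).toNat + (decide (G.Adj 2 3)).toNat + (decide (G.Adj 2 4)).toNat +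
      (decide (G.Adj 3 4)).toNat) = ∑ v, dg G v := by
  rw [← Finset.sum_congr rfl fun a _ => db_eq G a, Fin.sum_univ_five]
  show _ = ((decide (G.Adj 0 1)).toNat + (decide (G.Adj 0 2)).toNat + (decide (G.Adj 0 3)).toNat +
      (decide (G.Adj 0 4)).toNat) + ((decide (G.Adj 0 1)).toNat + (decide (G.Adj 1 2)).toNat +
      (decide (G.Adj 1 3)).toNat + (decide (G.Adj 1 4)).toNat) + ((decide (G.Adj 0 2)).toNat +
      (decide (G.Adj 1 2)).toNat + (decide (G.Adj 2 3)).toNat + (decide (G.Adj 2 4)).toNat) +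
      ((decide (G.Adj 0 3)).toNat + (decide (G.Adj 1 3)).toNat + (decide (G.Adj 2 3)).toNat +
      (decide (G.Adj 3 4)).toNat) + ((decide (G.Adj 0 4)).toNat + (decide (G.Adj 1 4)).toNat +
      (decide (G.Adj 2 4)).toNat + (decide (G.Adj 3 4)).toNat)
  ring

open Classical in
/-- no 5-saturated graph on five vertices has seven or eight edges -/
theorem five_no (G : SimpleGraph (Fin 5)) (hS : Sat5 G)
    (hm : ∑ v, dg G v = 14 ∨ ∑ v, dg G v = 16) : False := by
  have hb := bits_sum G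
  have hm' : ((decide (G.Adj 0 1)).toNat + (decide (G.Adj 0 2)).toNat + (decide (G.Adj 0 3)).toNat +
      (decide (G.Adj 0 4)).toNat + (decide (G.Adj 1 2)).toNat + (decide (G.Adj 1 3)).toNat +
      (decide (G.Adj 1 4)).toNat + (decide (G.Adj 2 3)).toNat + (decide (G.Adj 2 4)).toNat +
      (decide (G.Adj 3 4)).toNat) = 7 ∨ ((decide (G.Adj 0 1)).toNat + (decide (G.Adj 0 2)).toNat +
      (decide (G.Adj 0 3)).toNat +
      (decide (G.Adj 0 4)).toNat + (decide (G.Adj 1 2)).toNat + (decide (G.Adj 1 3)).toNat +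
      (decide (G.Adj 1 4)).toNat + (decide (G.Adj 2 3)).toNat + (decide (G.Adj 2 4)).toNat +
      (decide (G.Adj 3 4)).toNat) = 8 := by omega
  rcases brute _ _ _ _ _ _ _ _ _ _ hm' with h | ⟨u, v, huv, hadj, hno⟩
  · refine hS.no (Ch5_of_C5b (F := F0 (rows5 G) (degs5 G)) ?_ ?_ h)
    · intro a b hab
      unfold F0 at hab
      rw [Ab_eq, db_eq, db_eq] at hab
      simpa [Fs, St] using hab
    · intro a ha
      exact G.irrefl ha.1
  · have hne : u ≠ v := by rintro rfl; omega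
    change Ab 5 (rows5 G) u v = false at hadj
    rw [Ab_eq, decide_eq_false_iff_not] at hadj
    refine hno (C5b_of_Ch5 (F := Fadd 5 (rows5 G) (degs5 G) u v) ?_ (hS.add u v hne hadj))
    rintro a b ⟨h1, h2⟩
    rw [adj_add hne] at h1
    rw [dg_add hne hadj, dg_add hne hadj] at h2
    unfold Fadd
    simp only [Bool.and_eq_true, Bool.or_eq_true, beq_iff_eq, decide_eq_true_eq]
    rw [Ab_eq, db_eq, db_eq]
    refine ⟨?_, ?_⟩
    · rcases h1 with h1 | h1 | h1
      · exact Or.inl (Or.inl (by simpa using h1))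
      · exact Or.inl (Or.inr h1)
      · exact Or.inr h1
    · convert h2

end Pool.Agent.V11278.SatFive
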