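import Mathlib
import Pool.Agent.V11278.SatFiveH
import Pool.Agent.V11278.SatFiveJ

/-!
# 5-saturated graphs: the saturation number (helper278)
-/

namespace Pool.Agent.V11278.SatFive

set_option linter.unusedSectionVars false

open SimpleGraph Pool.Agent.V11278.DegMono

/-- the least number of edges -/
def vl (n : ℕ) : ℕ :=
  if n = 1 then 0 else if n = 2 then 1 else if n = 3 then 3 else if n = 5 then 9 else
    if n = 9 then 11 else if n % 6 ≤ 1 then (7 * n + 5) / 6 else (7 * n + 5) / 6 + 1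

/-! ### lower bound -/

lemma lower_large {n : ℕ} (hn : 4 ≤ n) (h5 : n ≠ 5) (G : SimpleGraph (Fin n)) (hG : KSat 5 G) :
    vl n ≤ G.edgeSet.ncard := by
  have hl := lower ((kSat_five G).1 hG) (by simpa using hn)
  have hs := sum_dg_eq G
  unfold TT at hl
  rw [← Nat.cast_sum, hs] at hl
  simp only [Fintype.card_fin] at hl
  generalize G.edgeSet.ncard = m at hl ⊢
  push_cast at hl
  unfold vl
  rw [if_neg (by omega), if_neg (by omega), if_neg (by omega), if_neg h5]
  obtain ⟨q, r, hr, rfl⟩ : ∃ q r, r < 6 ∧ n = 6 * q + r := ⟨n / 6, n % 6, by omega, by omega⟩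
  have hr' : r = 0 ∨ r = 1 ∨ r = 2 ∨ r = 3 ∨ r = 4 ∨ r = 5 := by omega
  rcases hr' with rfl | rfl | rfl | rfl | rfl | rfl <;> split_ifs with h1 h2 <;> omega

lemma lower_five (G : SimpleGraph (Fin 5)) (hG : KSat 5 G) : 9 ≤ G.edgeSet.ncard := by
  have hS := (kSat_five G).1 hG
  have hl := lower hS (by simp)
  have hs := sum_dg_eq G
  have hn := five_no G hS
  unfold TT at hl
  rw [← Nat.cast_sum, hs] at hl
  rw [hs] at hn
  simp only [Fintype.card_fin] at hl
  generalize G.edgeSet.ncard = m at hl hn ⊢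
  push_cast at hl
  by_contra hlt
  exact hn (by omega)

lemma mp_le_card {V : Type*} [Finite V] (G : SimpleGraph V) : mp G ≤ Nat.card V := by
  have : mp G < Nat.card V + 1 := by
    apply mp_lt
    intro l h1
    have := nodup_len l h1.1
    omega
  omega

lemma eq_top_of_small {n : ℕ} (hn : n ≤ 4) (G : SimpleGraph (Fin n)) (hG : KSat 5 G) : G = ⊤ := by
  ext u v
  simp only [top_adj]
  refine ⟨fun h => h.ne, fun h => ?_⟩
  by_contra hadj
  have h1 := hG.2 u v h hadj
  have h2 := mp_le_card (G ⊔ edge u v)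
  simp only [Nat.card_eq_fintype_card, Fintype.card_fin] at h2
  omega

lemma kSat_top {n : ℕ} (hn : n ≤ 4) : KSat 5 (⊤ : SimpleGraph (Fin n)) := by
  refine ⟨?_, fun u v h h' => absurd h (by simpa using h')⟩
  have h2 := mp_le_card (⊤ : SimpleGraph (Fin n))
  simp only [Nat.card_eq_fintype_card, Fintype.card_fin] at h2
  omega

lemma two_mul_top (n : ℕ) : 2 * (⊤ : SimpleGraph (Fin n)).edgeSet.ncard = n * (n - 1) := by
  rw [← sum_dg_eq]
  simp [dg_top]

/-! ### upper bound -/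

lemma gsK4 : GoodSize 5 4 12 :=
  ⟨Fin 4, inferInstance, ⊤, good_top (by norm_num) (by simp), by simp, by simp [dg_top]⟩

lemma upper_D : ∃ G : SimpleGraph (Fin 5), KSat 5 G ∧ G.edgeSet.ncard ≤ 9 := by
  refine ⟨D 5, (good_D (by norm_num)).kSat, ?_⟩
  have h := sum_dg_eq (D 5)
  rw [Fin.sum_univ_five, dg_D_lo (by norm_num) 0 (by decide), dg_D_lo (by norm_num) 1 (by decide),
    dg_D_hi (by norm_num) 2 (by decide), dg_D_hi (by norm_num) 3 (by decide),
    dg_D_hi (by norm_num) 4 (by decide)] at h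
  omega

lemma of_gs {n m v : ℕ} (h : GoodSize 5 n m) (hm : m ≤ 2 * v) :
    ∃ G : SimpleGraph (Fin n), KSat 5 G ∧ G.edgeSet.ncard ≤ v := by
  obtain ⟨G, h1, h2⟩ := exists_fin h
  exact ⟨G, h1, by omega⟩

lemma gs_add (n m q : ℕ) (h : GoodSize 5 n m) {n' v : ℕ} (hn : n' = n + 6 * q)
    (hv : m + 14 * q ≤ 2 * v) : ∃ G : SimpleGraph (Fin n'), KSat 5 G ∧ G.edgeSet.ncard ≤ v := by
  have h1 := h.add (gsL6.mul (by norm_num) q)
  have e : n + q * 6 = n' := by rw [hn]; ring
  rw [e] at h1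
  exact of_gs h1 (by linarith)

theorem upper (n : ℕ) : ∃ G : SimpleGraph (Fin n), KSat 5 G ∧ G.edgeSet.ncard ≤ vl n := by
  by_cases h1 : n = 1
  · subst h1
    refine ⟨⊤, kSat_top (by norm_num), ?_⟩
    have := two_mul_top 1
    have e : vl 1 = 0 := by decide
    omega
  by_cases h2 : n = 2
  · subst h2
    refine ⟨⊤, kSat_top (by norm_num), ?_⟩
    have := two_mul_top 2
    have e : vl 2 = 1 := by decide
    omega
  by_cases h3 : n = 3
  · subst h3
    refine ⟨⊤, kSat_top (by norm_num), ?_⟩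
    have := two_mul_top 3
    have e : vl 3 = 3 := by decide
    omega
  by_cases h5 : n = 5
  · subst h5
    exact upper_D
  by_cases h9 : n = 9
  · subst h9
    refine ⟨_, ksG9x, ?_⟩
    have := sum_dg_eq (mkG ckG9x)
    rw [esG9x] at this
    have e : vl 9 = 11 := by decide
    omega
  by_cases h7 : n = 7
  · subst h7
    refine ⟨_, ksG7, ?_⟩
    have := sum_dg_eq (mkG ckG7)
    rw [esG7] at this
    have e : vl 7 = 9 := by decide
    omega
  have hv : vl n = if n % 6 ≤ 1 then (7 * n + 5) / 6 else (7 * n + 5) / 6 + 1 := by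
    unfold vl
    rw [if_neg h1, if_neg h2, if_neg h3, if_neg h5, if_neg h9]
  rw [hv]
  have hr : n % 6 = 0 ∨ n % 6 = 1 ∨ n % 6 = 2 ∨ n % 6 = 3 ∨ n % 6 = 4 ∨ n % 6 = 5 := by omega
  rcases hr with hr | hr | hr | hr | hr | hr
  · rw [if_pos (by omega)]
    exact gs_add 0 0 (n / 6) (GoodSize.zero (by norm_num)) (by omega) (by omega)
  · rw [if_pos (by omega)]
    exact gs_add 13 32 ((n - 13) / 6) gsG13 (by omega) (by omega)
  · rw [if_neg (by omega)]
    exact gs_add 8 22 ((n - 8) / 6) gsG8a (by omega) (by omega)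
  · rw [if_neg (by omega)]
    exact gs_add 9 24 ((n - 9) / 6) gsG9a (by omega) (by omega)
  · rw [if_neg (by omega)]
    exact gs_add 4 12 ((n - 4) / 6) gsK4 (by omega) (by omega)
  · rw [if_neg (by omega)]
    exact gs_add 11 28 ((n - 11) / 6) gsG11 (by omega) (by omega)

theorem lower_all (n : ℕ) (G : SimpleGraph (Fin n)) (hG : KSat 5 G) : vl n ≤ G.edgeSet.ncard := by
  by_cases h5 : n = 5
  · subst h5
    have := lower_five G hG
    have e : vl 5 = 9 := by decide
    omega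
  by_cases h4 : 4 ≤ n
  · exact lower_large h4 h5 G hG
  · have ht := eq_top_of_small (by omega) G hG
    subst ht
    have := two_mul_top n
    have hn : n = 0 ∨ n = 1 ∨ n = 2 ∨ n = 3 := by omega
    rcases hn with rfl | rfl | rfl | rfl
    · have e : vl 0 = 0 := by decide
      omega
    · have e : vl 1 = 0 := by decide
      omega
    · have e : vl 2 = 1 := by decide
      omega
    · have e : vl 3 = 3 := by decide
      omega

theorem isLeast_vl (n : ℕ) :
    IsLeast {e | ∃ G : SimpleGraph (Fin n), KSat 5 G ∧ G.edgeSet.ncard = e} (vl n) := by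
  obtain ⟨G, h1, h2⟩ := upper n
  refine ⟨⟨G, h1, le_antisymm h2 (lower_all n G h1)⟩, ?_⟩
  rintro e ⟨H, hH, rfl⟩
  exact lower_all n H hH

lemma vl_bounds (n : ℕ) : 7 * (n : ℤ) - 16 ≤ 6 * vl n ∧ 6 * (vl n : ℤ) ≤ 7 * n + 19 := by
  unfold vl
  split_ifs <;> omega

open Filter Topology in
theorem tendsto_vl : Tendsto (fun n : ℕ => (vl n : ℝ) / n) atTop (𝓝 (7 / 6)) := by
  have hz : Tendsto (fun n : ℕ => ((19 : ℝ) / 6) / (n : ℝ)) atTop (𝓝 0) :=
    tendsto_const_div_atTop_nhds_zero_nat _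
  have h1 : Tendsto (fun n : ℕ => (7 / 6 : ℝ) - ((19 : ℝ) / 6) / (n : ℝ)) atTop (𝓝 (7 / 6)) := by
    simpa using tendsto_const_nhds.sub hz
  have h2 : Tendsto (fun n : ℕ => (7 / 6 : ℝ) + ((19 : ℝ) / 6) / (n : ℝ)) atTop (𝓝 (7 / 6)) := by
    simpa using tendsto_const_nhds.add hz
  refine tendsto_of_tendsto_of_tendsto_of_le_of_le' h1 h2 ?_ ?_
  · filter_upwards [eventually_gt_atTop 0] with n hn
    have hn' : (0 : ℝ) < n := by exact_mod_cast hn
    obtain ⟨b1, b2⟩ := vl_bounds n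
    have b1' : 7 * (n : ℝ) - 16 ≤ 6 * vl n := by exact_mod_cast b1
    rw [sub_le_iff_le_add, ← add_div, le_div_iff₀ hn']
    linarith
  · filter_upwards [eventually_gt_atTop 0] with n hn
    have hn' : (0 : ℝ) < n := by exact_mod_cast hn
    obtain ⟨b1, b2⟩ := vl_bounds n
    have b2' : 6 * (vl n : ℝ) ≤ 7 * n + 19 := by exact_mod_cast b2
    rw [← sub_le_iff_le_add', div_sub' hn'.ne', div_le_div_iff_of_pos_right hn']
    linarith

end Pool.Agent.V11278.SatFive
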